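import Pool.Agent.Helper85.CVX.TipLower

/-! Block ATYP (≈150 lines).
`C2 ω δ = (1 + 16 (CC ω)²)/δ`.
`atyp_fwd`: each atypical `a` contributes `m σ - fwd a σ > δ m σ` to the deficit sum, all terms are `≥ 0`, so by
`deficit_fwd`, `Opp_le`, `tip_count`:  `δ m(σ) #X ≤ nL + Tip ≤ m(σ)² + 4 CC²(m(σ)+1)² ≤ (1 + 16 CC²) m(σ)²`.
`doubling`: `δ = 1/8`, `g = ⌊(7/8) m⌋`; bad `a`: `a ∈ X` (`≤ C2·m`), `a + g ∈ X` (`≤ C2·m`, `card_shift`), `θ (a+2g) - θ a ≥ π/2`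
(`≤ 4·2g ≤ 8m`, `turn_count`).  If `(2·C2 + 8) m < n` there is a good `a`: the arcs `(a,g)`, `(a+g,g)` have chords `≤ σ` (`le_fwd_iff`),
`(a,2g)` is narrow with chord `≤ 2σ`, so `2g ≤ m(2σ)` and `2⌊7m/8⌋ ≥ 7m/4 - 2 ≥ 3m/2`. -/

set_option autoImplicit false
open scoped Classical
open Real

noncomputable section

namespace Pool.Agent.Helper85.CVX.CP

variable {n : ℕ} (C : CP n)

def C2 (ω δ : ℝ) : ℝ := (1 + 16 * (CC ω) ^ 2) / δ

/-- the common part of `atyp_fwd` and `atyp_bwd` -/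
theorem atyp_aux {ω t σ δ : ℝ} (hω : 0 < ω) (hω' : ω < π / 2) (hF : C.Fat ω t) (hσ : 0 < σ)
    (hσt : σ ≤ t) (hδ : 0 < δ) (h1 : 1 ≤ C.m σ) (hL : (n : ℝ) * C.L ≤ (C.m σ : ℝ) ^ 2)
    (f : ℤ → ℕ) (hf : ∀ a, f a ≤ C.m σ)
    (hdef : 2 * ∑ a ∈ Finset.range n, ((C.m σ : ℝ) - f (a : ℤ)) ≤ 2 * n * C.L + C.Opp σ) :
    (((Finset.range n).filter (fun a : ℕ => (f (a : ℤ) : ℝ) < (1 - δ) * C.m σ)).card : ℝ)
      ≤ C2 ω δ * C.m σ := by
  have h2 : (C.Opp σ : ℝ) ≤ 2 * C.Tip ω σ := by exact_mod_cast C.Opp_le hF hσt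
  have h3 := C.tip_count (ω := ω) (y := σ) hω hω' hσ
  have h4 : (((Finset.range n).filter (fun a : ℕ => (f (a : ℤ) : ℝ) < (1 - δ) * C.m σ)).card : ℝ)
      * (δ * C.m σ) ≤ ∑ a ∈ Finset.range n, ((C.m σ : ℝ) - f (a : ℤ)) := by
    calc (((Finset.range n).filter (fun a : ℕ => (f (a : ℤ) : ℝ) < (1 - δ) * C.m σ)).card : ℝ)
        * (δ * C.m σ)
        = ∑ _a ∈ (Finset.range n).filter (fun a : ℕ => (f (a : ℤ) : ℝ) < (1 - δ) * C.m σ),
            (δ * C.m σ : ℝ) := by rw [Finset.sum_const, nsmul_eq_mul]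
      _ ≤ ∑ a ∈ (Finset.range n).filter (fun a : ℕ => (f (a : ℤ) : ℝ) < (1 - δ) * C.m σ),
            ((C.m σ : ℝ) - f (a : ℤ)) := by
          refine Finset.sum_le_sum fun a ha => ?_
          have := (Finset.mem_filter.1 ha).2
          linarith
      _ ≤ _ := by
          refine Finset.sum_le_sum_of_subset_of_nonneg (Finset.filter_subset _ _) fun a _ _ => ?_
          have : (f (a : ℤ) : ℝ) ≤ C.m σ := by exact_mod_cast hf a
          linarith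
  have h5 : (1 : ℝ) ≤ C.m σ := by exact_mod_cast h1
  set X : ℝ := (((Finset.range n).filter
    (fun a : ℕ => (f (a : ℤ) : ℝ) < (1 - δ) * C.m σ)).card : ℝ) with hX
  have h6 : 4 * (CC ω * (C.m σ + 1)) ^ 2 ≤ 16 * (CC ω) ^ 2 * (C.m σ : ℝ) ^ 2 := by
    have h7 : ((C.m σ : ℝ) + 1) ^ 2 ≤ (2 * C.m σ) ^ 2 := by
      apply pow_le_pow_left₀ (by linarith)
      linarith
    have h8 : 0 ≤ (CC ω) ^ 2 := sq_nonneg _
    calc 4 * (CC ω * (C.m σ + 1)) ^ 2 = 4 * ((CC ω) ^ 2 * ((C.m σ : ℝ) + 1) ^ 2) := by ring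
      _ ≤ 4 * ((CC ω) ^ 2 * (2 * C.m σ) ^ 2) := by gcongr
      _ = _ := by ring
  have h9 : X * (δ * C.m σ) ≤ (1 + 16 * (CC ω) ^ 2) * (C.m σ : ℝ) ^ 2 := by
    have : (1 + 16 * (CC ω) ^ 2) * (C.m σ : ℝ) ^ 2 =
      (C.m σ : ℝ) ^ 2 + 16 * (CC ω) ^ 2 * (C.m σ : ℝ) ^ 2 := by ring
    rw [this]
    linarith
  unfold C2
  rw [div_mul_eq_mul_div, le_div_iff₀ hδ]
  have h10 : 0 < (C.m σ : ℝ) := by linarith
  apply le_of_mul_le_mul_right _ h10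
  calc X * δ * C.m σ = X * (δ * C.m σ) := by ring
    _ ≤ _ := h9
    _ = _ := by ring

theorem atyp_fwd {ω t σ δ : ℝ} (hω : 0 < ω) (hω' : ω < π / 2) (hF : C.Fat ω t) (hσ : 0 < σ)
    (hσt : σ ≤ t) (hδ : 0 < δ) (h1 : 1 ≤ C.m σ) (hL : (n : ℝ) * C.L ≤ (C.m σ : ℝ) ^ 2) :
    (((Finset.range n).filter (fun a : ℕ => (C.fwd (a : ℤ) σ : ℝ) < (1 - δ) * C.m σ)).card : ℝ)
      ≤ C2 ω δ * C.m σ :=
  C.atyp_aux hω hω' hF hσ hσt hδ h1 hL (fun a => C.fwd a σ) (fun a => C.fwd_le_m a σ)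
    (C.deficit_fwd σ)

theorem atyp_bwd {ω t σ δ : ℝ} (hω : 0 < ω) (hω' : ω < π / 2) (hF : C.Fat ω t) (hσ : 0 < σ)
    (hσt : σ ≤ t) (hδ : 0 < δ) (h1 : 1 ≤ C.m σ) (hL : (n : ℝ) * C.L ≤ (C.m σ : ℝ) ^ 2) :
    (((Finset.range n).filter (fun a : ℕ => (C.bwd (a : ℤ) σ : ℝ) < (1 - δ) * C.m σ)).card : ℝ)
      ≤ C2 ω δ * C.m σ :=
  C.atyp_aux hω hω' hF hσ hσt hδ h1 hL (fun a => C.bwd a σ) (fun a => C.bwd_le_m a σ)
    (C.deficit_bwd σ)

theorem doubling {ω t σ : ℝ} (hω : 0 < ω) (hω' : ω < π / 2) (hF : C.Fat ω t) (hσ : 0 < σ)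
    (hσt : σ ≤ t) (h8 : 8 ≤ C.m σ) (hL : (n : ℝ) * C.L ≤ (C.m σ : ℝ) ^ 2)
    (hn : (2 * C2 ω (1 / 8) + 8) * C.m σ < n) : 3 / 2 * (C.m σ : ℝ) ≤ C.m (2 * σ) := by
  set m := C.m σ with hm
  set g : ℕ := 7 * m / 8 with hg
  have hg1 : 1 ≤ g := by omega
  have hgm : 8 * g ≤ 7 * m := by omega
  have hgm' : 7 * m ≤ 8 * g + 7 := by omega
  let P : ℤ → Prop := fun a => (C.fwd a σ : ℝ) < (1 - 1 / 8) * m
  have hP : ∀ i, P (i + n) ↔ P i := fun i => by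
    simp only [P]
    rw [C.fwd_per]
  have hB1 : (((Finset.range n).filter (fun a : ℕ => P (a : ℤ))).card : ℝ) ≤ C2 ω (1 / 8) * m :=
    C.atyp_fwd hω hω' hF hσ hσt (by norm_num) (by omega) hL
  have hB2 : (((Finset.range n).filter (fun a : ℕ => P ((a : ℤ) + g))).card : ℝ)
      ≤ C2 ω (1 / 8) * m := by
    have h := card_shift (n := n) P C.n_pos hP (g : ℤ)
    simp only [add_comm (g : ℤ)] at h
    rw [h]
    exact hB1
  have hB3 : (((Finset.range n).filter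
      (fun a : ℕ => π / 2 ≤ C.θ ((a : ℤ) + (2 * g : ℕ)) - C.θ (a : ℤ))).card : ℝ) ≤ 8 * m := by
    have h := C.turn_count (2 * g) (π / 2)
    have hpi := Real.pi_pos
    have h2 : (8 : ℝ) * g ≤ 7 * m := by exact_mod_cast hgm
    push_cast at h ⊢
    have h3 : (((Finset.range n).filter
      (fun a : ℕ => π / 2 ≤ C.θ ((a : ℤ) + 2 * g) - C.θ (a : ℤ))).card : ℝ) ≤ 8 * g := by
      apply le_of_mul_le_mul_left _ (show 0 < π / 2 by positivity)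
      calc _ ≤ _ := h
        _ = _ := by ring
    have h4 : (0 : ℝ) ≤ m := Nat.cast_nonneg m
    linarith
  -- a good vertex
  obtain ⟨a, ha, hag⟩ : ∃ a ∈ Finset.range n,
      a ∉ ((Finset.range n).filter (fun a : ℕ => P (a : ℤ)) ∪
        (Finset.range n).filter (fun a : ℕ => P ((a : ℤ) + g))) ∪
        (Finset.range n).filter
          (fun a : ℕ => π / 2 ≤ C.θ ((a : ℤ) + (2 * g : ℕ)) - C.θ (a : ℤ)) := by
    by_contra hcon
    push Not at hcon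
    have h1 := Finset.card_le_card (show Finset.range n ⊆ _ from hcon)
    rw [Finset.card_range] at h1
    have h2 := h1.trans (Finset.card_union_le _ _)
    have h3 : (n : ℝ) ≤ (((Finset.range n).filter (fun a : ℕ => P (a : ℤ)) ∪
        (Finset.range n).filter (fun a : ℕ => P ((a : ℤ) + g))).card : ℝ) + ((Finset.range n).filter
          (fun a : ℕ => π / 2 ≤ C.θ ((a : ℤ) + (2 * g : ℕ)) - C.θ (a : ℤ))).card := by
      exact_mod_cast h2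
    have h4 : ((((Finset.range n).filter (fun a : ℕ => P (a : ℤ)) ∪
        (Finset.range n).filter (fun a : ℕ => P ((a : ℤ) + g))).card : ℕ) : ℝ) ≤
        ((Finset.range n).filter (fun a : ℕ => P (a : ℤ))).card +
        ((Finset.range n).filter (fun a : ℕ => P ((a : ℤ) + g))).card := by
      exact_mod_cast Finset.card_union_le _ _
    have h5 : (2 * C2 ω (1 / 8) + 8) * (m : ℝ) = C2 ω (1 / 8) * m + C2 ω (1 / 8) * m + 8 * m := by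
      ring
    rw [h5] at hn
    linarith
  simp only [Finset.mem_union, Finset.mem_filter, not_or, not_and, ha, true_implies] at hag
  obtain ⟨⟨h1, h2⟩, h3⟩ := hag
  simp only [P] at h1 h2
  push Not at h1 h2 h3
  have h4 : g ≤ C.fwd (a : ℤ) σ := by
    have h5 : (8 : ℝ) * g ≤ 7 * m := by exact_mod_cast hgm
    have h6 : (g : ℝ) ≤ C.fwd (a : ℤ) σ := by linarith
    exact_mod_cast h6
  have h5 : g ≤ C.fwd ((a : ℤ) + g) σ := by
    have h5 : (8 : ℝ) * g ≤ 7 * m := by exact_mod_cast hgm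
    have h6 : (g : ℝ) ≤ C.fwd ((a : ℤ) + g) σ := by linarith
    exact_mod_cast h6
  obtain ⟨-, h6⟩ := (C.le_fwd_iff hg1).1 h4
  obtain ⟨-, h7⟩ := (C.le_fwd_iff hg1).1 h5
  have hnar : C.Nar (a : ℤ) (2 * g) := by
    unfold Nar
    have h8 : C.θ ((a : ℤ) + (2 * g : ℕ) - 1) ≤ C.θ ((a : ℤ) + (2 * g : ℕ)) := C.θ_le (by omega)
    linarith
  have hd : C.d (a : ℤ) ((a : ℤ) + (2 * g : ℕ)) ≤ 2 * σ := by
    have h9 := C.d_triangle (a : ℤ) ((a : ℤ) + g) ((a : ℤ) + (2 * g : ℕ))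
    have h10 : (a : ℤ) + g + g = (a : ℤ) + (2 * g : ℕ) := by push_cast; ring
    rw [h10] at h7
    linarith
  have h11 := C.le_m_of_nar hnar hd
  have h12 : 3 * m ≤ 2 * (2 * g) := by omega
  have h13 : (3 : ℝ) * m ≤ 2 * C.m (2 * σ) := by exact_mod_cast h12.trans (by omega)
  linarith

end Pool.Agent.Helper85.CVX.CP
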