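import Pool.Agent.Helper85.CVX.Defs

/-! Basic API for `CP n`. -/

set_option autoImplicit false
open scoped Classical
open Real

noncomputable section

namespace Pool.Agent.Helper85.CVX

lemma prj_add (φ : ℝ) (z w : ℂ) : prj φ (z + w) = prj φ z + prj φ w := by
  simp only [prj, Complex.add_re, Complex.add_im]; ring

lemma crs_add (φ : ℝ) (z w : ℂ) : crs φ (z + w) = crs φ z + crs φ w := by
  simp only [crs, Complex.add_re, Complex.add_im]; ring

lemma prj_neg (φ : ℝ) (z : ℂ) : prj φ (-z) = - prj φ z := by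
  simp only [prj, Complex.neg_re, Complex.neg_im]; ring

lemma crs_neg (φ : ℝ) (z : ℂ) : crs φ (-z) = - crs φ z := by
  simp only [crs, Complex.neg_re, Complex.neg_im]; ring

lemma prj_sub (φ : ℝ) (z w : ℂ) : prj φ (z - w) = prj φ z - prj φ w := by
  simp only [prj, Complex.sub_re, Complex.sub_im]; ring

lemma crs_sub (φ : ℝ) (z w : ℂ) : crs φ (z - w) = crs φ z - crs φ w := by
  simp only [crs, Complex.sub_re, Complex.sub_im]; ring

@[simp] lemma prj_zero (φ : ℝ) : prj φ 0 = 0 := by simp [prj]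
@[simp] lemma crs_zero (φ : ℝ) : crs φ 0 = 0 := by simp [crs]

lemma re_mul_exp (r θ : ℝ) : ((r : ℂ) * Complex.exp ((θ : ℂ) * Complex.I)).re = r * Real.cos θ := by
  rw [Complex.re_ofReal_mul, Complex.exp_ofReal_mul_I_re]

lemma im_mul_exp (r θ : ℝ) : ((r : ℂ) * Complex.exp ((θ : ℂ) * Complex.I)).im = r * Real.sin θ := by
  rw [Complex.im_ofReal_mul, Complex.exp_ofReal_mul_I_im]

lemma prj_mul_exp (φ r θ : ℝ) :
    prj φ ((r : ℂ) * Complex.exp ((θ : ℂ) * Complex.I)) = r * Real.cos (θ - φ) := by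
  rw [prj, re_mul_exp, im_mul_exp, Real.cos_sub]; ring

lemma crs_mul_exp (φ r θ : ℝ) :
    crs φ ((r : ℂ) * Complex.exp ((θ : ℂ) * Complex.I)) = r * Real.sin (θ - φ) := by
  rw [crs, re_mul_exp, im_mul_exp, Real.sin_sub]; ring

/-- Pythagoras -/
lemma norm_sq_eq (φ : ℝ) (z : ℂ) : ‖z‖ ^ 2 = prj φ z ^ 2 + crs φ z ^ 2 := by
  have h : ‖z‖ ^ 2 = z.re ^ 2 + z.im ^ 2 := by
    rw [Complex.sq_norm, Complex.normSq_apply]; ring
  rw [h, prj, crs]
  have := Real.sin_sq_add_cos_sq φ
  linear_combination (-(z.re ^ 2 + z.im ^ 2)) * this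

lemma abs_prj_le (φ : ℝ) (z : ℂ) : |prj φ z| ≤ ‖z‖ := by
  apply abs_le_of_sq_le_sq _ (norm_nonneg z)
  rw [norm_sq_eq φ z]; nlinarith [sq_nonneg (crs φ z)]

lemma prj_le (φ : ℝ) (z : ℂ) : prj φ z ≤ ‖z‖ := (le_abs_self _).trans (abs_prj_le φ z)

lemma abs_crs_le (φ : ℝ) (z : ℂ) : |crs φ z| ≤ ‖z‖ := by
  apply abs_le_of_sq_le_sq _ (norm_nonneg z)
  rw [norm_sq_eq φ z]; nlinarith [sq_nonneg (prj φ z)]

lemma crs_le (φ : ℝ) (z : ℂ) : crs φ z ≤ ‖z‖ := (le_abs_self _).trans (abs_crs_le φ z)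

/-- a direction of `z` -/
lemma exists_dir (z : ℂ) : z = ((‖z‖ : ℝ) : ℂ) * Complex.exp ((Complex.arg z : ℂ) * Complex.I) :=
  (Complex.norm_mul_exp_arg_mul_I z).symm

namespace CP

variable {n : ℕ} (C : CP n)

include C in
lemma n_pos : 0 < n := by have := C.n_ge; omega

lemma θ_strictMono : StrictMono C.θ := by
  apply strictMono_int_of_lt_succ
  exact C.θ_lt

lemma θ_le {i j : ℤ} (h : i ≤ j) : C.θ i ≤ C.θ j := C.θ_strictMono.monotone h

lemma θ_perk (i : ℤ) (k : ℤ) : C.θ (i + k * n) = C.θ i + 2 * π * k := by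
  induction k using Int.induction_on with
  | zero => simp
  | succ k ih =>
    have : i + ((k : ℤ) + 1) * n = (i + (k : ℤ) * n) + n := by ring
    rw [this, C.θ_per, ih]; push_cast; ring
  | pred k ih =>
    have h : i + (-(k : ℤ)) * n = (i + (-(k : ℤ) - 1) * n) + n := by ring
    rw [h, C.θ_per] at ih
    push_cast at ih ⊢
    linarith

lemma p_perk (i : ℤ) (k : ℤ) : C.p (i + k * n) = C.p i := by
  induction k using Int.induction_on with
  | zero => simp
  | succ k ih =>
    have : i + ((k : ℤ) + 1) * n = (i + (k : ℤ) * n) + n := by ring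
    rw [this, C.p_per, ih]
  | pred k ih =>
    have h : i + (-(k : ℤ)) * n = (i + (-(k : ℤ) - 1) * n) + n := by ring
    rw [h, C.p_per] at ih
    exact ih

/-- `θ` stays within `2π` on a period -/
lemma θ_lt_add {i j : ℤ} (h : j < i + n) : C.θ j < C.θ i + 2 * π := by
  rw [← C.θ_per]; exact C.θ_strictMono h

lemma exp_per (i : ℤ) : Complex.exp ((C.θ (i + n) : ℂ) * Complex.I)
    = Complex.exp ((C.θ i : ℂ) * Complex.I) := by
  rw [C.θ_per]
  push_cast
  rw [add_mul, Complex.exp_add]
  have : Complex.exp ((2 * (π : ℂ)) * Complex.I) = 1 := Complex.exp_two_pi_mul_I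
  rw [this, mul_one]

lemma ℓ_per (i : ℤ) : C.ℓ (i + n) = C.ℓ i := by
  have h1 := C.step (i + n)
  have h2 := C.step i
  have e : i + (n : ℤ) + 1 = (i + 1) + n := by ring
  rw [e, C.p_per, C.p_per, C.exp_per, h2] at h1
  have h3 := mul_right_cancel₀ (Complex.exp_ne_zero _) h1
  exact_mod_cast h3.symm

lemma d_nonneg (i j : ℤ) : 0 ≤ C.d i j := norm_nonneg _

lemma d_comm (i j : ℤ) : C.d i j = C.d j i := by rw [d, d, norm_sub_rev]

lemma d_per_left (i j : ℤ) : C.d (i + n) j = C.d i j := by rw [d, d, C.p_per]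
lemma d_per_right (i j : ℤ) : C.d i (j + n) = C.d i j := by rw [d, d, C.p_per]

lemma d_perk (i j k : ℤ) : C.d (i + k * n) (j + k * n) = C.d i j := by
  rw [d, d, C.p_perk, C.p_perk]

@[simp] lemma d_self (i : ℤ) : C.d i i = 0 := by simp [d]

/-- triangle inequality -/
lemma d_triangle (i j k : ℤ) : C.d i k ≤ C.d i j + C.d j k := by
  have : C.p k - C.p i = (C.p j - C.p i) + (C.p k - C.p j) := by ring
  rw [d, this]; exact norm_add_le _ _

lemma step_prj (φ : ℝ) (i : ℤ) : prj φ (C.p (i + 1) - C.p i) = C.ℓ i * Real.cos (C.θ i - φ) := by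
  rw [C.step, prj_mul_exp]

lemma step_crs (φ : ℝ) (i : ℤ) : crs φ (C.p (i + 1) - C.p i) = C.ℓ i * Real.sin (C.θ i - φ) := by
  rw [C.step, crs_mul_exp]

/-- projection of the chord of an arc -/
lemma prj_arc (φ : ℝ) (a : ℤ) (k : ℕ) :
    prj φ (C.p (a + k) - C.p a) = ∑ u ∈ Finset.range k, C.ℓ (a + u) * Real.cos (C.θ (a + u) - φ) := by
  induction k with
  | zero => simp
  | succ k ih =>
    rw [Finset.sum_range_succ, ← ih]
    have : C.p (a + ((k + 1 : ℕ) : ℤ)) - C.p a
        = (C.p (a + k) - C.p a) + (C.p (a + k + 1) - C.p (a + k)) := by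
      push_cast; rw [← add_assoc]; ring
    rw [this, prj_add, C.step_prj]

lemma crs_arc (φ : ℝ) (a : ℤ) (k : ℕ) :
    crs φ (C.p (a + k) - C.p a) = ∑ u ∈ Finset.range k, C.ℓ (a + u) * Real.sin (C.θ (a + u) - φ) := by
  induction k with
  | zero => simp
  | succ k ih =>
    rw [Finset.sum_range_succ, ← ih]
    have : C.p (a + ((k + 1 : ℕ) : ℤ)) - C.p a
        = (C.p (a + k) - C.p a) + (C.p (a + k + 1) - C.p (a + k)) := by
      push_cast; rw [← add_assoc]; ring
    rw [this, crs_add, C.step_crs]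

lemma len_nonneg (a : ℤ) (k : ℕ) : 0 ≤ C.len a k :=
  Finset.sum_nonneg (fun _ _ => (C.ℓ_pos _).le)

lemma len_pos (a : ℤ) {k : ℕ} (hk : 1 ≤ k) : 0 < C.len a k :=
  Finset.sum_pos (fun _ _ => C.ℓ_pos _) (by simpa using by omega)

/-- `w * len ≤ prj φ chord` if all edge directions have cosine at least `w` against `φ` -/
lemma mul_len_le_prj (φ w : ℝ) (a : ℤ) (k : ℕ)
    (h : ∀ u : ℕ, u < k → w ≤ Real.cos (C.θ (a + u) - φ)) :
    w * C.len a k ≤ prj φ (C.p (a + k) - C.p a) := by
  rw [C.prj_arc, len, Finset.mul_sum]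
  apply Finset.sum_le_sum
  intro u hu
  rw [mul_comm]
  exact mul_le_mul_of_nonneg_left (h u (Finset.mem_range.mp hu)) (C.ℓ_pos _).le

/-- `w * len ≤ crs φ chord` if all edge directions have sine at least `w` against `φ` -/
lemma mul_len_le_crs (φ w : ℝ) (a : ℤ) (k : ℕ)
    (h : ∀ u : ℕ, u < k → w ≤ Real.sin (C.θ (a + u) - φ)) :
    w * C.len a k ≤ crs φ (C.p (a + k) - C.p a) := by
  rw [C.crs_arc, len, Finset.mul_sum]
  apply Finset.sum_le_sum
  intro u hu
  rw [mul_comm]
  exact mul_le_mul_of_nonneg_left (h u (Finset.mem_range.mp hu)) (C.ℓ_pos _).le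

lemma d_le_len (a : ℤ) (k : ℕ) : C.d a (a + k) ≤ C.len a k := by
  induction k with
  | zero => simp [len]
  | succ k ih =>
    have h1 := C.d_triangle a (a + k) (a + ((k + 1 : ℕ) : ℤ))
    have h2 : C.d (a + k) (a + ((k + 1 : ℕ) : ℤ)) = C.ℓ (a + k) := by
      have : a + ((k + 1 : ℕ) : ℤ) = (a + k) + 1 := by push_cast; ring
      rw [this, d, C.step, norm_mul, Complex.norm_exp_ofReal_mul_I, mul_one, Complex.norm_real,
        Real.norm_of_nonneg (C.ℓ_pos _).le]
    rw [len, Finset.sum_range_succ]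
    rw [len] at ih
    linarith

lemma len_add (a : ℤ) (k l : ℕ) : C.len a (k + l) = C.len a k + C.len (a + k) l := by
  rw [len, len, len, Finset.sum_range_add]
  congr 1
  apply Finset.sum_congr rfl
  intro u _
  congr 1
  push_cast; ring

/-- every chord of a proper arc is a distance -/
lemma mem_D (a : ℤ) {k : ℕ} (h1 : 1 ≤ k) (h2 : k < n) : C.d a (a + k) ∈ C.D := by
  have hn : (0 : ℤ) < n := by exact_mod_cast C.n_pos
  refine Finset.mem_image.mpr ⟨((a % n).toNat, k), ?_, ?_⟩
  · simp only [Q, Finset.mem_product, Finset.mem_range, Finset.mem_Ico]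
    have := Int.emod_nonneg a hn.ne'
    have := Int.emod_lt_of_pos a hn
    omega
  · simp only [ch]
    have h3 : (((a % n).toNat : ℕ) : ℤ) = a % n := Int.toNat_of_nonneg (Int.emod_nonneg a hn.ne')
    rw [h3]
    have h4 : a = a % n + (a / n) * n := by
      have := Int.emod_add_mul_ediv a n
      rw [mul_comm] at this
      exact this.symm
    conv_rhs => rw [h4]
    rw [show a % n + (a / n) * n + (k : ℤ) = (a % n + k) + (a / n) * n by ring, C.d_perk]

lemma R_mono {S T : Set ℝ} (h : S ⊆ T) : C.R S ≤ C.R T := by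
  apply Finset.card_le_card
  intro t ht
  rw [Finset.mem_filter] at ht ⊢
  exact ⟨ht.1, h ht.2⟩

lemma M_mono {S T : Set ℝ} (h : S ⊆ T) : C.M S ≤ C.M T := by
  apply Finset.card_le_card
  intro t ht
  rw [Finset.mem_filter] at ht ⊢
  exact ⟨ht.1, h ht.2⟩

/-- lower bound for `R` by an injective family of distances -/
lemma le_R_of_injOn {S : Set ℝ} {r : ℕ} (f : ℕ → ℝ) (hf : Set.InjOn f (Set.Iio r))
    (hD : ∀ u < r, f u ∈ C.D) (hS : ∀ u < r, f u ∈ S) : r ≤ C.R S := by
  have h : ((Finset.range r).image f).card = r := by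
    rw [Finset.card_image_of_injOn, Finset.card_range]
    intro x hx y hy hxy
    exact hf (by simpa using hx) (by simpa using hy) hxy
  rw [← h]
  apply Finset.card_le_card
  intro t ht
  obtain ⟨u, hu, rfl⟩ := Finset.mem_image.mp ht
  rw [Finset.mem_filter]
  exact ⟨hD u (Finset.mem_range.mp hu), hS u (Finset.mem_range.mp hu)⟩

/-- lower bound for `R` by a strictly increasing family of distances -/
lemma le_R_of_strictMono {S : Set ℝ} {r : ℕ} (f : ℕ → ℝ) (hf : ∀ u, u + 1 < r → f u < f (u + 1))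
    (hD : ∀ u < r, f u ∈ C.D) (hS : ∀ u < r, f u ∈ S) : r ≤ C.R S := by
  apply C.le_R_of_injOn f _ hD hS
  have key : ∀ v, v < r → ∀ u, u < v → f u < f v := by
    intro v
    induction v with
    | zero => intro _ u hu; omega
    | succ v ih =>
      intro hv u hu
      rcases Nat.lt_succ_iff_lt_or_eq.mp hu with h | h
      · exact (ih (by omega) u h).trans (hf v hv)
      · subst h; exact hf u hv
  intro x hx y hy hxy
  rcases lt_trichotomy x y with h | h | h
  · exact absurd hxy (key y hy x h).ne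
  · exact h
  · exact absurd hxy (key x hx y h).ne'

/-- the same for a strictly decreasing family -/
lemma le_R_of_strictAnti {S : Set ℝ} {r : ℕ} (f : ℕ → ℝ) (hf : ∀ u, u + 1 < r → f (u + 1) < f u)
    (hD : ∀ u < r, f u ∈ C.D) (hS : ∀ u < r, f u ∈ S) : r ≤ C.R S := by
  apply C.le_R_of_strictMono (fun u => f (r - 1 - u))
  · intro u hu
    have := hf (r - 1 - (u + 1)) (by omega)
    rwa [show r - 1 - (u + 1) + 1 = r - 1 - u by omega] at this
  · intro u hu; exact hD _ (by omega)
  · intro u hu; exact hS _ (by omega)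

/-- K2: the basic counting inequality -/
lemma two_mul_n_R_le (S : Set ℝ) : 2 * n * C.R S ≤ 2 * n * C.L + C.M S := by
  -- split the distances in S into low and high ones
  let A := C.D.filter (fun t => t ∈ S)
  let Lo := A.filter (fun t => C.M {t} ≤ 2 * n)
  let Hi := A.filter (fun t => ¬ C.M {t} ≤ 2 * n)
  have h1 : Lo.card + Hi.card = A.card := Finset.card_filter_add_card_filter_not _
  have h2 : Lo.card ≤ C.L := by
    apply Finset.card_le_card
    intro t ht
    simp only [Lo, A, Finset.mem_filter] at ht ⊢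
    exact ⟨ht.1.1, ht.2⟩
  have h3 : 2 * n * Hi.card ≤ C.M S := by
    have h4 : ∑ t ∈ Hi, C.M {t} ≤ C.M S := by
      have : ∑ t ∈ Hi, C.M {t} = (Hi.biUnion (fun t => (Q n).filter (fun x => C.ch x = t))).card := by
        rw [Finset.card_biUnion]
        · apply Finset.sum_congr rfl
          intro t _
          simp only [M, Set.mem_singleton_iff]
        · intro s _ t _ hst
          rw [Function.onFun, Finset.disjoint_left]
          intro x hx hy
          simp only [Finset.mem_filter] at hx hy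
          exact hst (hx.2.symm.trans hy.2)
      rw [this]
      apply Finset.card_le_card
      intro x hx
      simp only [Finset.mem_biUnion, Finset.mem_filter, Hi, A] at hx ⊢
      obtain ⟨t, ⟨⟨_, ht⟩, _⟩, hxQ, hxt⟩ := hx
      exact ⟨hxQ, hxt ▸ ht⟩
    calc 2 * n * Hi.card = ∑ t ∈ Hi, 2 * n := by rw [Finset.sum_const, smul_eq_mul, mul_comm]
      _ ≤ ∑ t ∈ Hi, C.M {t} := by
          apply Finset.sum_le_sum
          intro t ht
          simp only [Hi, Finset.mem_filter, not_le] at ht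
          exact ht.2.le
      _ ≤ C.M S := h4
  have h5 : C.R S = A.card := rfl
  rw [h5, ← h1, Nat.mul_add]
  have := Nat.mul_le_mul_left (2 * n) h2
  omega

/-- K2 over the reals -/
lemma K2 (S : Set ℝ) : 2 * (n : ℝ) * C.R S ≤ 2 * n * C.L + C.M S := by
  exact_mod_cast C.two_mul_n_R_le S

/-- periodicity of sums over a period -/
lemma sum_shift {α : Type*} [AddCommMonoid α] (f : ℤ → α) (hn : 0 < n) (hf : ∀ i, f (i + n) = f i)
    (s : ℤ) :
    ∑ u ∈ Finset.range n, f (s + u) = ∑ u ∈ Finset.range n, f (u : ℤ) := by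
  have h1 : ∀ s : ℤ, ∑ u ∈ Finset.range n, f (s + 1 + u) = ∑ u ∈ Finset.range n, f (s + u) := by
    intro s
    obtain ⟨k, rfl⟩ : ∃ k, n = k + 1 := ⟨n - 1, by omega⟩
    rw [Finset.sum_range_succ, Finset.sum_range_succ']
    congr 1
    · apply Finset.sum_congr rfl
      intro u _
      congr 1
      push_cast; ring
    · rw [show s + 1 + (k : ℤ) = s + ((k + 1 : ℕ) : ℤ) by push_cast; ring, hf]
      simp
  induction s using Int.induction_on with
  | zero => simp
  | succ k ih => rw [h1, ih]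
  | pred k ih =>
    rw [← ih, ← h1, show -(k : ℤ) - 1 + 1 = -k by ring]

lemma sum_neg_shift {α : Type*} [AddCommMonoid α] (f : ℤ → α) (hn : 0 < n)
    (hf : ∀ i, f (i + n) = f i) (s : ℤ) :
    ∑ u ∈ Finset.range n, f (s - u) = ∑ u ∈ Finset.range n, f (u : ℤ) := by
  rw [← sum_shift f hn hf (s - (n - 1 : ℕ)), ← Finset.sum_range_reflect]
  apply Finset.sum_congr rfl
  intro u hu
  rw [Finset.mem_range] at hu
  congr 1
  omega

/-- if `f ≥ 0` is periodic, the sum over a window of at most `n` consecutive integers is at most the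
sum over a period -/
lemma sum_window_le (f : ℤ → ℕ) (hn : 0 < n) (hf : ∀ i, f (i + n) = f i) (s : ℤ) {r : ℕ}
    (hr : r ≤ n) :
    ∑ u ∈ Finset.range r, f (s + u) ≤ ∑ u ∈ Finset.range n, f (u : ℤ) := by
  rw [← sum_shift f hn hf s]
  exact Finset.sum_le_sum_of_subset (Finset.range_mono hr)

lemma sum_neg_window_le (f : ℤ → ℕ) (hn : 0 < n) (hf : ∀ i, f (i + n) = f i) (s : ℤ) {r : ℕ}
    (hr : r ≤ n) :
    ∑ u ∈ Finset.range r, f (s - u) ≤ ∑ u ∈ Finset.range n, f (u : ℤ) := by
  rw [← sum_neg_shift f hn hf s]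
  exact Finset.sum_le_sum_of_subset (Finset.range_mono hr)

/-- counting over `Q n` as a double sum -/
lemma card_Q_filter (P : ℕ → ℕ → Prop) :
    ((Q n).filter (fun x => P x.1 x.2)).card
      = ∑ a ∈ Finset.range n, ((Finset.Ico 1 n).filter (fun k => P a k)).card := by
  rw [Finset.card_filter, Q, Finset.sum_product]
  apply Finset.sum_congr rfl
  intro a _
  rw [Finset.card_filter]

/-- counting over `Q n` as a double sum, the other way -/
lemma card_Q_filter' (P : ℕ → ℕ → Prop) :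
    ((Q n).filter (fun x => P x.1 x.2)).card
      = ∑ k ∈ Finset.Ico 1 n, ((Finset.range n).filter (fun a => P a k)).card := by
  rw [Finset.card_filter, Q, Finset.sum_product_right]
  apply Finset.sum_congr rfl
  intro a _
  rw [Finset.card_filter]

/-- counting vertices with a periodic property: the start of the period is irrelevant -/
lemma card_shift (P : ℤ → Prop) (hn : 0 < n) (hP : ∀ i, P (i + n) ↔ P i) (s : ℤ) :
    ((Finset.range n).filter (fun u : ℕ => P (s + u))).card
      = ((Finset.range n).filter (fun u : ℕ => P (u : ℤ))).card := by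
  rw [Finset.card_filter, Finset.card_filter]
  exact sum_shift (fun i => if P i then 1 else 0) hn (fun i => by simp only [hP i]) s

/-- reversing all arcs: `(a,k) ↦ (a+k, n-k)` is a bijection of the ordered pairs -/
lemma card_Q_rev (P : ℤ → ℕ → Prop) (hn : 0 < n) (hP : ∀ i k, P (i + n) k ↔ P i k) :
    ((Q n).filter (fun x => P ((x.1 : ℤ) + x.2) (n - x.2))).card
      = ((Q n).filter (fun x => P (x.1 : ℤ) x.2)).card := by
  rw [card_Q_filter' (fun a k => P ((a : ℤ) + k) (n - k)), card_Q_filter' (fun a k => P (a : ℤ) k)]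
  have h1 : ∀ k ∈ Finset.Ico 1 n,
      ((Finset.range n).filter (fun a : ℕ => P ((a : ℤ) + k) (n - k))).card
        = ((Finset.range n).filter (fun a : ℕ => P (a : ℤ) (n - k))).card := by
    intro k _
    have := card_shift (fun i => P i (n - k)) hn (fun i => hP i _) (k : ℤ)
    rw [← this]
    congr 1
    apply Finset.filter_congr
    intro a _
    rw [add_comm]
  rw [Finset.sum_congr rfl h1]
  have h2 := Finset.sum_Ico_reflect
    (fun k => ((Finset.range n).filter (fun a : ℕ => P (a : ℤ) k)).card) 1 (m := n) (n := n)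
    (by omega)
  rw [h2]
  congr 2
  omega

end CP

end Pool.Agent.Helper85.CVX
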