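import Pool.Agent.Helper85.CVX.Nar

/-! Block CASE0 (helper40).
All distances `t ∈ D` with `t ≤ y` are low: for each `a` there is at most one `k` with `Nar a k`, `d a (a+k) = t`
(`nar_d_lt`), and at most one `k` with `Nar (a+k) (n-k)`, `d a (a+k) = t` (these are narrow arcs ending at `a+n`).
So `M {t} ≤ 2n`, `R (Icc 0 y) ≤ L`, and `m_le_R`. -/

set_option autoImplicit false
open scoped Classical
open Real

noncomputable section

namespace Pool.Agent.Helper85.CVX.CP

variable {n : ℕ} (C : CP n)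

/-- the chord of the complementary arc -/
lemma case0_compl (a : ℤ) {k : ℕ} (hk : k ≤ n) :
    C.d (a + k) (a + k + ((n - k : ℕ) : ℤ)) = C.d a (a + k) := by
  have e : a + k + ((n - k : ℕ) : ℤ) = a + n := by
    rw [Nat.cast_sub hk]; ring
  rw [e, C.d_per_right, C.d_comm]

lemma case0_fwd (a : ℤ) (t : ℝ) :
    ((Finset.Ico 1 n).filter (fun k : ℕ => C.Nar a k ∧ C.d a (a + k) = t)).card ≤ 1 := by
  rw [Finset.card_le_one]
  have key : ∀ k k' : ℕ, C.Nar a k' → C.d a (a + k) = t → C.d a (a + k') = t → ¬ k < k' := by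
    intro k k' hN h1 h2 hlt
    have := C.nar_d_lt (a' := a) (k' := k) hN le_rfl (by push_cast; omega) hlt
    rw [h1, h2] at this
    exact lt_irrefl _ this
  intro k hk k' hk'
  rw [Finset.mem_filter] at hk hk'
  rcases lt_trichotomy k k' with h | h | h
  · exact absurd h (key k k' hk'.2.1 hk.2.2 hk'.2.2)
  · exact h
  · exact absurd h (key k' k hk.2.1 hk'.2.2 hk.2.2)

lemma case0_bwd (a : ℤ) (t : ℝ) :
    ((Finset.Ico 1 n).filter (fun k : ℕ => C.Nar (a + k) (n - k) ∧ C.d a (a + k) = t)).card ≤ 1 := by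
  rw [Finset.card_le_one]
  have key : ∀ k k' : ℕ, k < n → k' < n → C.Nar (a + k) (n - k) → C.d a (a + k) = t →
      C.d a (a + k') = t → ¬ k < k' := by
    intro k k' hkn hkn' hN h1 h2 hlt
    have h3 := C.nar_d_lt (a' := a + k') (k' := n - k') hN (by omega)
      (by rw [Nat.cast_sub hkn.le, Nat.cast_sub hkn'.le]; linarith) (by omega)
    rw [C.case0_compl a hkn.le, C.case0_compl a hkn'.le, h1, h2] at h3
    exact lt_irrefl _ h3
  intro k hk k' hk'
  rw [Finset.mem_filter, Finset.mem_Ico] at hk hk'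
  rcases lt_trichotomy k k' with h | h | h
  · exact absurd h (key k k' hk.1.2 hk'.1.2 hk.2.1 hk.2.2 hk'.2.2)
  · exact h
  · exact absurd h (key k' k hk'.1.2 hk.1.2 hk'.2.1 hk'.2.2 hk.2.2)

lemma case0_R_le_L (S : Set ℝ) (h : ∀ t ∈ S, C.M {t} ≤ 2 * n) : C.R S ≤ C.L := by
  unfold R L
  apply Finset.card_le_card
  intro t ht
  rw [Finset.mem_filter] at ht ⊢
  exact ⟨ht.1, h t ht.2⟩

theorem case0 (y : ℝ) (h : ∀ (a : ℤ) (k : ℕ), 1 ≤ k → k < n → C.d a (a + k) ≤ y →
    C.Nar a k ∨ C.Nar (a + k) (n - k)) : C.m y ≤ C.L := by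
  refine (C.m_le_R y).trans (C.case0_R_le_L _ ?_)
  intro t ht
  have hty : t ≤ y := ht.2
  have h1 : C.M {t} = ∑ a ∈ Finset.range n,
      ((Finset.Ico 1 n).filter (fun k : ℕ => C.d (a : ℤ) ((a : ℤ) + (k : ℤ)) = t)).card := by
    rw [M]
    exact card_Q_filter (fun a k => C.d (a : ℤ) ((a : ℤ) + (k : ℤ)) = t)
  rw [h1]
  have h2 : ∀ a ∈ Finset.range n,
      ((Finset.Ico 1 n).filter (fun k : ℕ => C.d (a : ℤ) ((a : ℤ) + (k : ℤ)) = t)).card ≤ 2 := by
    intro a _
    have hsub : (Finset.Ico 1 n).filter (fun k : ℕ => C.d (a : ℤ) ((a : ℤ) + (k : ℤ)) = t) ⊆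
        ((Finset.Ico 1 n).filter (fun k : ℕ => C.Nar a k ∧ C.d a (a + k) = t)) ∪
        ((Finset.Ico 1 n).filter
          (fun k : ℕ => C.Nar ((a : ℤ) + k) (n - k) ∧ C.d a (a + k) = t)) := by
      intro k hk
      rw [Finset.mem_filter, Finset.mem_Ico] at hk
      rw [Finset.mem_union, Finset.mem_filter, Finset.mem_filter, Finset.mem_Ico]
      rcases h a k hk.1.1 hk.1.2 (hk.2.le.trans hty) with h3 | h3
      · exact Or.inl ⟨hk.1, h3, hk.2⟩
      · exact Or.inr ⟨hk.1, h3, hk.2⟩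
    refine (Finset.card_le_card hsub).trans ((Finset.card_union_le _ _).trans ?_)
    have := C.case0_fwd (a : ℤ) t
    have := C.case0_bwd (a : ℤ) t
    omega
  calc _ ≤ ∑ a ∈ Finset.range n, 2 := Finset.sum_le_sum h2
    _ = 2 * n := by rw [Finset.sum_const, Finset.card_range, smul_eq_mul, mul_comm]

end Pool.Agent.Helper85.CVX.CP
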