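import Pool.Agent.Helper85.CVX.Basic

/-! Block GEO (≈120 lines).
`support`: by periodicity (`p_perk`, `θ_perk`) take `i ≤ j < i + n`.  If `θ (j-1) ≤ φ + π` then
`crs φ (p j - p i) = ∑_{u<j-i} ℓ sin (θ_{i+u} - φ)` with all angles in `[0,π]`.  Otherwise `θ j > φ + π`, and
`p j - p i = -(p (i+n) - p j)`, where `crs φ (p (i+n) - p j) = ∑ ℓ sin(θ_u - φ)` over `j ≤ u < i+n` with angles in `[π, 2π]`
(as `θ (i+n-1) = θ (i-1) + 2π ≤ φ + 2π`).
`len_le`: project on the middle direction `φ = (θ a + θ (a+k-1))/2`; all cosines are `≥ cos((π-ω)/2) = sin(ω/2)` (`mul_len_le_prj`).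
`exists_chord_dir`: intermediate value theorem or directly: the chord `c` has `crs θ_a c ≥ 0`, `crs θ_{a+k-1} c ≤ 0`; the function
`φ ↦ crs φ c` is continuous on `[θ a, θ (a+k-1)]`, so it vanishes at some `ψ`; there `prj ψ c > 0`? (if all `|θ_u - ψ| < π/2`
clear; in general: `c ≠ 0` (project on the middle direction) and `prj ψ c = ± |c|`; the middle direction `μ` has `prj μ c > 0` and
`prj μ c = prj ψ c · cos(ψ - μ)`, `|ψ - μ| < π/2`, so `prj ψ c > 0`).  Then `c = |c| e^{iψ}`. -/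

set_option autoImplicit false
open scoped Classical
open Real

noncomputable section

namespace Pool.Agent.Helper85.CVX.CP

variable {n : ℕ} (C : CP n)

lemma sin_nonpos_of_pi_le {x : ℝ} (h1 : π ≤ x) (h2 : x ≤ 2 * π) : Real.sin x ≤ 0 := by
  have h := Real.sin_nonneg_of_nonneg_of_le_pi (x := x - π) (by linarith) (by linarith)
  rw [Real.sin_sub_pi] at h
  linarith

/-- supporting lines -/
theorem support (i j : ℤ) (φ : ℝ) (h1 : C.θ (i - 1) ≤ φ) (h2 : φ ≤ C.θ i) :
    0 ≤ crs φ (C.p j - C.p i) := by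
  have hn : (0 : ℤ) < n := by exact_mod_cast C.n_pos
  have hk0 := Int.emod_nonneg (j - i) hn.ne'
  have hkn := Int.emod_lt_of_pos (j - i) hn
  obtain ⟨k, hk⟩ : ∃ k : ℕ, (k : ℤ) = (j - i) % n :=
    ⟨((j - i) % n).toNat, Int.toNat_of_nonneg hk0⟩
  have hkn' : k < n := by omega
  have hj : j = (i + k) + ((j - i) / n) * n := by
    have := Int.emod_add_mul_ediv (j - i) n
    rw [hk]
    linarith [mul_comm ((j - i) / (n : ℤ)) (n : ℤ)]
  rw [hj, C.p_perk]
  rcases Nat.eq_zero_or_pos k with hk' | hk'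
  · subst hk'; simp
  rcases le_or_gt (C.θ (i + k - 1)) (φ + π) with hA | hB
  · rw [C.crs_arc]
    apply Finset.sum_nonneg
    intro u hu
    rw [Finset.mem_range] at hu
    apply mul_nonneg (C.ℓ_pos _).le
    apply Real.sin_nonneg_of_nonneg_of_le_pi
    · have := C.θ_le (i := i) (j := i + u) (by omega)
      linarith
    · have := C.θ_le (i := i + u) (j := i + k - 1) (by omega)
      linarith
  · have e : C.p (i + k) - C.p i = -(C.p ((i + k) + ((n - k : ℕ) : ℤ)) - C.p (i + k)) := by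
      have : (i + (k : ℤ)) + ((n - k : ℕ) : ℤ) = i + n := by
        rw [Nat.cast_sub hkn'.le]; ring
      rw [this, C.p_per]; ring
    rw [e, crs_neg, C.crs_arc, Left.nonneg_neg_iff]
    apply Finset.sum_nonpos
    intro u hu
    rw [Finset.mem_range] at hu
    apply mul_nonpos_of_nonneg_of_nonpos (C.ℓ_pos _).le
    apply sin_nonpos_of_pi_le
    · have := C.θ_le (i := i + k - 1) (j := i + k + u) (by omega)
      linarith
    · have h3 := C.θ_le (i := i + k + u) (j := (i - 1) + n) (by omega)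
      rw [C.θ_per] at h3
      linarith

/-- all directions of an arc against the middle direction -/
lemma mid_cos (a : ℤ) (k : ℕ) {α : ℝ} (hα : α ≤ π)
    (h : (C.θ (a + k - 1) - C.θ a) / 2 ≤ α) (u : ℕ) (hu : u < k) :
    Real.cos α ≤ Real.cos (C.θ (a + u) - (C.θ a + C.θ (a + k - 1)) / 2) := by
  have h1 := C.θ_le (i := a) (j := a + u) (by omega)
  have h2 := C.θ_le (i := a + u) (j := a + k - 1) (by omega)
  rw [← Real.cos_abs (C.θ (a + u) - (C.θ a + C.θ (a + k - 1)) / 2)]
  apply Real.cos_le_cos_of_nonneg_of_le_pi (abs_nonneg _) hα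
  rw [abs_le]
  constructor <;> linarith

/-- the length of an arc turning by at most `π - ω` is at most `chord / sin (ω/2)` -/
theorem len_le (a : ℤ) (k : ℕ) (ω : ℝ) (hω : 0 < ω) (hω' : ω ≤ π)
    (h : C.θ (a + k - 1) - C.θ a ≤ π - ω) :
    Real.sin (ω / 2) * C.len a k ≤ C.d a (a + k) := by
  have e : Real.sin (ω / 2) = Real.cos ((π - ω) / 2) := by
    rw [show (π - ω) / 2 = π / 2 - ω / 2 by ring, Real.cos_pi_div_two_sub]
  rw [e]
  refine (C.mul_len_le_prj ((C.θ a + C.θ (a + k - 1)) / 2) _ a k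
    (fun u hu => C.mid_cos a k (by linarith) (by linarith) u hu)).trans ?_
  exact prj_le _ _

/-- direction of the chord of an arc turning by less than `π` -/
theorem exists_chord_dir (a : ℤ) (k : ℕ) (hk : 1 ≤ k) (h : C.θ (a + k - 1) - C.θ a < π) :
    ∃ ψ : ℝ, C.θ a ≤ ψ ∧ ψ ≤ C.θ (a + k - 1) ∧ 0 < C.d a (a + k) ∧
      C.p (a + k) - C.p a = (C.d a (a + k) : ℂ) * Complex.exp ((ψ : ℂ) * Complex.I) := by
  have hle : C.θ a ≤ C.θ (a + k - 1) := C.θ_le (by omega)
  have hcont : ContinuousOn (fun φ => crs φ (C.p (a + k) - C.p a))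
      (Set.Icc (C.θ a) (C.θ (a + k - 1))) := by
    unfold crs
    fun_prop
  have hpos : 0 ≤ crs (C.θ a) (C.p (a + k) - C.p a) := by
    rw [C.crs_arc]
    apply Finset.sum_nonneg
    intro u hu
    rw [Finset.mem_range] at hu
    apply mul_nonneg (C.ℓ_pos _).le
    have h1 := C.θ_le (i := a) (j := a + u) (by omega)
    have h2 := C.θ_le (i := a + u) (j := a + k - 1) (by omega)
    exact Real.sin_nonneg_of_nonneg_of_le_pi (by linarith) (by linarith)
  have hneg : crs (C.θ (a + k - 1)) (C.p (a + k) - C.p a) ≤ 0 := by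
    rw [C.crs_arc]
    apply Finset.sum_nonpos
    intro u hu
    rw [Finset.mem_range] at hu
    apply mul_nonpos_of_nonneg_of_nonpos (C.ℓ_pos _).le
    have h1 := C.θ_le (i := a) (j := a + u) (by omega)
    have h2 := C.θ_le (i := a + u) (j := a + k - 1) (by omega)
    exact Real.sin_nonpos_of_nonpos_of_neg_pi_le (by linarith) (by linarith)
  obtain ⟨ψ, ⟨hψ1, hψ2⟩, hψ⟩ := intermediate_value_Icc' hle hcont ⟨hneg, hpos⟩
  simp only at hψ
  set c := C.p (a + k) - C.p a with hc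
  set μ := (C.θ a + C.θ (a + k - 1)) / 2 with hμ
  have hmid : 0 < prj μ c := by
    have h1 := C.mul_len_le_prj μ (Real.cos ((C.θ (a + k - 1) - C.θ a) / 2)) a k
      (fun u hu => C.mid_cos a k (by linarith [Real.pi_pos]) le_rfl u hu)
    refine lt_of_lt_of_le (mul_pos ?_ (C.len_pos a hk)) h1
    apply Real.cos_pos_of_mem_Ioo
    constructor <;> linarith [Real.pi_pos]
  have hrot : prj μ c = prj ψ c * Real.cos (ψ - μ) := by
    have h3 : prj μ c = prj ψ c * Real.cos (ψ - μ) - crs ψ c * Real.sin (ψ - μ) := by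
      have h4 := Real.sin_sq_add_cos_sq ψ
      rw [prj, prj, crs, Real.cos_sub, Real.sin_sub]
      linear_combination (-(c.re * Real.cos μ + c.im * Real.sin μ)) * h4
    rw [h3, hψ]; ring
  have hcos : 0 < Real.cos (ψ - μ) := by
    apply Real.cos_pos_of_mem_Ioo
    constructor <;> linarith
  have hprj : 0 < prj ψ c := by
    rw [hrot] at hmid
    exact (pos_iff_pos_of_mul_pos hmid).mpr hcos
  have hnorm : ‖c‖ = prj ψ c := by
    have h5 := norm_sq_eq ψ c
    rw [hψ] at h5
    have h6 : ‖c‖ ^ 2 = prj ψ c ^ 2 := by rw [h5]; ring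
    exact (sq_eq_sq₀ (norm_nonneg _) hprj.le).mp h6
  have hd : C.d a (a + k) = prj ψ c := hnorm
  refine ⟨ψ, hψ1, hψ2, by rw [hd]; exact hprj, ?_⟩
  rw [hd]
  have h4 := Real.sin_sq_add_cos_sq ψ
  have h7 : c.re = prj ψ c * Real.cos ψ - crs ψ c * Real.sin ψ := by
    rw [prj, crs]
    linear_combination (-c.re) * h4
  have h8 : c.im = prj ψ c * Real.sin ψ + crs ψ c * Real.cos ψ := by
    rw [prj, crs]
    linear_combination (-c.im) * h4
  rw [hψ] at h7 h8
  apply Complex.ext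
  · rw [re_mul_exp, h7]; ring
  · rw [im_mul_exp, h8]; ring

end Pool.Agent.Helper85.CVX.CP
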