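import Pool.Agent.Helper85.CVX.FlatDefs
import Pool.Agent.Helper85.CVX.Geo

/-! Block CUTS (≈180 lines).
`θ i → ±∞`, so there is a first index `i0` with `θ i0 ≥ -π/2 - 1/4`, a first `i1` with `θ i1 ≥ -π/2 + 1/4`, a first `i2` with
`θ i2 ≥ π/2 - 1/4`, a first `i3` with `θ i3 ≥ π/2 + 1/4`, and the first index with `θ ≥ 3π/2 - 1/4` is `i0 + n`.
A vertex `v` with `re = 0`, taken with `i0 ≤ v < i0+n`: `cos θ_{v-1} ≤ 0 ≤ cos θ_v` (steps), which forces `θ_{v-1} ≤ -π/2 ≤ θ_v`
(`≤ π/2`), so `i0 ≤ v ≤ i1`.  For `v ≤ i ≤ i1`: `re p_i = ∑_{u ∈ [v,i)} ℓ cos θ_u`, with `|cos θ_u| ≤ |sin θ_u|`, `sin θ_u < 0`, so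
`re p_i ≤ im p_v - im p_i ≤ ε`; for `i0 ≤ i ≤ v` the same (`re p_i = -∑_{[i,v)} ℓ cos θ ≤ ∑ ℓ |sin θ| = im p_i - im p_v ≤ ε`).
The right end is the same with `π/2`.  `i1 < i2` since `re p_{i1} ≤ ε < 1 - ε ≤ re p_{i2}`, similarly `i3 < i0 + n`.
Slopes (`K` any cuts): `slope_low_hi`: `support i w θ_i` for a vertex `w` with `re = 1` gives
`(1 - re p_i) sin θ_i ≤ (im difference) cos θ_i ≤ ε cos θ_i`, so if `θ_i > 0` (`< π/2`): `θ_i ≤ tan θ_i ≤ ε/x`.
`slope_low_lo`: `support (i+1) v θ_i` with `re p_v = 0` gives `re p_{i+1} · (-sin θ_i) ≤ ε cos θ_i`.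
Upper edges: `support (i+1) v θ_i` (`re p_v = 0`) bounds `θ_i ≤ π + ε/x` when `x ≤ re p_{i+1}`; and
`support i w θ_i` (`re p_w = 1`) gives `π - ε/x ≤ θ_i` when `re p_i ≤ 1 - x`. -/

set_option autoImplicit false
open scoped Classical
open Real

noncomputable section

namespace Pool.Agent.Helper85.CVX.CP

variable {n : ℕ} (C : CP n)

/-- first index with direction at least `t` -/
theorem exists_first (t : ℝ) : ∃ k : ℤ, ∀ i, t ≤ C.θ i ↔ k ≤ i := by
  have hn : 0 < n := C.n_pos
  obtain ⟨a, ha⟩ := exists_nat_ge ((t - C.θ 0) / (2 * π))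
  obtain ⟨b, hb⟩ := exists_nat_gt ((C.θ 0 - t) / (2 * π))
  have h2 : (0 : ℝ) < 2 * π := by positivity
  rw [div_le_iff₀ h2] at ha
  rw [div_lt_iff₀ h2] at hb
  have hA : t ≤ C.θ (0 + (a : ℤ) * n) := by
    rw [C.θ_perk]; push_cast; linarith
  have hB : C.θ (0 + (-(b : ℤ)) * n) < t := by
    rw [C.θ_perk]; push_cast; linarith
  obtain ⟨k, hk, hk'⟩ := Int.exists_least_of_bdd (P := fun i => t ≤ C.θ i)
    ⟨0 + (-(b : ℤ)) * n, fun z hz => by
      by_contra hlt
      push Not at hlt
      have := C.θ_le hlt.le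
      linarith⟩ ⟨_, hA⟩
  refine ⟨k, fun i => ⟨fun h => hk' i h, fun h => ?_⟩⟩
  exact hk.trans (C.θ_le h)

lemma int_mono {f : ℤ → ℝ} {i j : ℤ} (hij : i ≤ j)
    (h : ∀ u, i ≤ u → u < j → f u ≤ f (u + 1)) : f i ≤ f j := by
  induction j, hij using Int.leInduction with
  | base => exact le_refl _
  | succ j hj ih =>
    exact (ih (fun u hu hu' => h u hu (by omega))).trans (h j hj (by omega))

lemma int_strictMono {f : ℤ → ℝ} {i j : ℤ} (hij : i < j)
    (h : ∀ u, i ≤ u → u < j → f u < f (u + 1)) : f i < f j := by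
  have h1 : f i < f (i + 1) := h i (le_refl _) hij
  have h2 : f (i + 1) ≤ f j := int_mono (by omega) (fun u hu hu' => (h u (by omega) hu').le)
  linarith

lemma step_re (i : ℤ) : (C.p (i + 1)).re = (C.p i).re + C.ℓ i * Real.cos (C.θ i) := by
  have h := congrArg Complex.re (C.step i)
  rw [re_mul_exp, Complex.sub_re] at h
  linarith

lemma step_im (i : ℤ) : (C.p (i + 1)).im = (C.p i).im + C.ℓ i * Real.sin (C.θ i) := by
  have h := congrArg Complex.im (C.step i)
  rw [im_mul_exp, Complex.sub_im] at h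
  linarith

lemma cos_add_sin_eq (x : ℝ) : Real.cos x + Real.sin x = √2 * Real.sin (x + π / 4) := by
  rw [Real.sin_add, Real.cos_pi_div_four, Real.sin_pi_div_four]
  have := Real.mul_self_sqrt (show (0 : ℝ) ≤ 2 by norm_num)
  linear_combination (-(Real.cos x + Real.sin x) / 2) * this

lemma cos_sub_sin_eq (x : ℝ) : Real.cos x - Real.sin x = √2 * Real.cos (x + π / 4) := by
  rw [Real.cos_add, Real.cos_pi_div_four, Real.sin_pi_div_four]
  have := Real.mul_self_sqrt (show (0 : ℝ) ≤ 2 by norm_num)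
  linear_combination (-(Real.cos x - Real.sin x) / 2) * this

/-- shift an index into a window of length `n` -/
lemma exists_rep (i s : ℤ) : ∃ j, s ≤ j ∧ j < s + n ∧ C.p j = C.p i := by
  have hn : (0 : ℤ) < n := by exact_mod_cast C.n_pos
  refine ⟨s + (i - s) % n, ?_, ?_, ?_⟩
  · have := Int.emod_nonneg (i - s) hn.ne'; omega
  · have := Int.emod_lt_of_pos (i - s) hn; omega
  · have h4 : s + (i - s) % n = i + (-((i - s) / n)) * n := by
      have := Int.emod_add_mul_ediv (i - s) n
      linarith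
    rw [h4, C.p_perk]

theorem exists_cuts (ε : ℝ) (hε : ε ≤ 1 / 10) (F : C.Flat ε) : Nonempty (C.Cuts ε) := by
  have hn : 0 < n := C.n_pos
  have hpi := Real.pi_gt_three
  have hpi' := Real.pi_lt_four
  obtain ⟨i0, h0⟩ := C.exists_first (-(π / 2) - 1 / 4)
  obtain ⟨i1, h1⟩ := C.exists_first (-(π / 2) + 1 / 4)
  obtain ⟨i2, h2⟩ := C.exists_first (π / 2 - 1 / 4)
  obtain ⟨i3, h3⟩ := C.exists_first (π / 2 + 1 / 4)
  have h4 : ∀ i, 3 * π / 2 - 1 / 4 ≤ C.θ i ↔ i0 + n ≤ i := by
    intro i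
    have := C.θ_per (i - n)
    rw [sub_add_cancel] at this
    have h := h0 (i - n)
    constructor
    · intro hi
      have := h.mp (by linarith)
      omega
    · intro hi
      have := h.mpr (by omega)
      linarith
  have h01 : i0 ≤ i1 := (h0 i1).mp (by have := (h1 i1).mpr (le_refl _); linarith)
  have h12 : i1 ≤ i2 := (h1 i2).mp (by have := (h2 i2).mpr (le_refl _); linarith)
  have h23 : i2 ≤ i3 := (h2 i3).mp (by have := (h3 i3).mpr (le_refl _); linarith)
  have h34 : i3 ≤ i0 + n := (h3 (i0 + n)).mp (by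
    have := (h4 (i0 + n)).mpr (le_refl _); linarith)
  -- sign lemmas
  have lt0 : ∀ i, i < i0 → C.θ i < -(π / 2) - 1 / 4 := fun i hi => by
    by_contra h; push Not at h; have := (h0 i).mp h; omega
  have lt1 : ∀ i, i < i1 → C.θ i < -(π / 2) + 1 / 4 := fun i hi => by
    by_contra h; push Not at h; have := (h1 i).mp h; omega
  have lt2 : ∀ i, i < i2 → C.θ i < π / 2 - 1 / 4 := fun i hi => by
    by_contra h; push Not at h; have := (h2 i).mp h; omega
  have lt3 : ∀ i, i < i3 → C.θ i < π / 2 + 1 / 4 := fun i hi => by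
    by_contra h; push Not at h; have := (h3 i).mp h; omega
  have lt4 : ∀ i, i < i0 + n → C.θ i < 3 * π / 2 - 1 / 4 := fun i hi => by
    by_contra h; push Not at h; have := (h4 i).mp h; omega
  -- left vertex
  obtain ⟨v', hv'⟩ := F.zero
  obtain ⟨v, hv1, hv2, hvp⟩ := C.exists_rep v' i0
  have hv : (C.p v).re = 0 := by rw [hvp, hv']
  have hcv : 0 ≤ Real.cos (C.θ v) := by
    have := C.step_re v
    have h5 := F.nonneg (v + 1)
    rw [this, hv, zero_add] at h5
    exact nonneg_of_mul_nonneg_right h5 (C.ℓ_pos v)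
  have hcv' : Real.cos (C.θ (v - 1)) ≤ 0 := by
    have := C.step_re (v - 1)
    rw [sub_add_cancel, hv] at this
    have h5 := F.nonneg (v - 1)
    have h6 := C.ℓ_pos (v - 1)
    by_contra hc
    push Not at hc
    have := mul_pos h6 hc
    linarith
  have hθv : C.θ v ≤ π / 2 := by
    by_contra hc
    push Not at hc
    have := lt4 v hv2
    have := Real.cos_neg_of_pi_div_two_lt_of_lt hc (by linarith)
    linarith
  have hθv2 : -(π / 2) ≤ C.θ v := by
    by_contra hc
    push Not at hc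
    have h5 := (h0 v).mpr hv1
    have := Real.cos_neg_of_pi_div_two_lt_of_lt (x := -C.θ v) (by linarith) (by linarith)
    rw [Real.cos_neg] at this
    linarith
  have hlt := C.θ_lt (v - 1)
  rw [sub_add_cancel] at hlt
  have hθv3 : C.θ (v - 1) ≤ -(π / 2) := by
    by_contra hc
    push Not at hc
    have := Real.cos_pos_of_mem_Ioo ⟨hc, by linarith⟩
    linarith
  have hvi1 : v ≤ i1 := by
    by_contra hc
    push Not at hc
    have := (h1 (v - 1)).mpr (by omega)
    linarith
  -- right vertex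
  obtain ⟨w', hw'⟩ := F.one
  obtain ⟨w, hw1, hw2, hwp⟩ := C.exists_rep w' v
  have hw : (C.p w).re = 1 := by rw [hwp, hw']
  have hwv : v < w := by
    rcases hw1.lt_or_eq with h | h
    · exact h
    · rw [← h, hv] at hw; norm_num at hw
  have hcw : Real.cos (C.θ w) ≤ 0 := by
    have := C.step_re w
    have h5 := F.le_one (w + 1)
    by_contra hc
    push Not at hc
    have := mul_pos (C.ℓ_pos w) hc
    linarith
  have hcw' : 0 ≤ Real.cos (C.θ (w - 1)) := by
    have := C.step_re (w - 1)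
    rw [sub_add_cancel, hw] at this
    have h5 := F.le_one (w - 1)
    by_contra hc
    push Not at hc
    have := mul_neg_of_pos_of_neg (C.ℓ_pos (w - 1)) hc
    linarith
  have hθw_hi : C.θ w ≤ 3 * π / 2 := by
    have h5 : C.θ w ≤ C.θ (v - 1 + n) := C.θ_le (by omega)
    rw [C.θ_per] at h5
    linarith
  have hltw := C.θ_lt (w - 1)
  rw [sub_add_cancel] at hltw
  have hθw1_lo : -(π / 2) ≤ C.θ (w - 1) := hθv2.trans (C.θ_le (by omega))
  have hθw1 : C.θ (w - 1) ≤ π / 2 := by
    by_contra hc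
    push Not at hc
    have := Real.cos_neg_of_pi_div_two_lt_of_lt hc (by linarith)
    linarith
  have hθw : π / 2 ≤ C.θ w := by
    by_contra hc
    push Not at hc
    have := Real.cos_pos_of_mem_Ioo (x := C.θ w) ⟨by linarith, hc⟩
    linarith
  have hwi2 : i2 ≤ w := (h2 w).mp (by linarith)
  have hwi3 : w ≤ i3 := by
    by_contra hc
    push Not at hc
    have := (h3 (w - 1)).mpr (by omega)
    linarith
  have hs2 : (0 : ℝ) < √2 := by positivity
  -- left bound
  have hleft : ∀ i, i0 ≤ i → i ≤ i1 → (C.p i).re ≤ ε := by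
    intro i hi hi'
    have him := abs_le.mp (F.im i v)
    rcases le_total v i with h | h
    · have := int_mono (f := fun u => -((C.p u).re + (C.p u).im)) h (fun u hu hu' => by
        have e1 := C.step_re u
        have e2 := C.step_im u
        have e3 : Real.cos (C.θ u) + Real.sin (C.θ u) ≤ 0 := by
          rw [cos_add_sin_eq]
          apply mul_nonpos_of_nonneg_of_nonpos hs2.le
          apply Real.sin_nonpos_of_nonpos_of_neg_pi_le
          · have := lt1 u (by omega); linarith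
          · have := hθv2.trans (C.θ_le hu); linarith
        have e4 := mul_nonpos_of_nonneg_of_nonpos (C.ℓ_pos u).le e3
        rw [e1, e2]; nlinarith)
      linarith [him.1, him.2]
    · have := int_mono (f := fun u => ((C.p u).re - (C.p u).im)) h (fun u hu hu' => by
        have e1 := C.step_re u
        have e2 := C.step_im u
        have e3 : 0 ≤ Real.cos (C.θ u) - Real.sin (C.θ u) := by
          rw [cos_sub_sin_eq]
          apply mul_nonneg hs2.le
          apply Real.cos_nonneg_of_mem_Icc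
          constructor
          · have := (h0 u).mpr (by omega); linarith
          · have := (C.θ_le (show u ≤ v - 1 by omega)).trans hθv3; linarith
        have e4 := mul_nonneg (C.ℓ_pos u).le e3
        rw [e1, e2]; nlinarith)
      linarith [him.1, him.2]
  have hright : ∀ i, i2 ≤ i → i ≤ i3 → 1 - ε ≤ (C.p i).re := by
    intro i hi hi'
    have him := abs_le.mp (F.im i w)
    rcases le_total w i with h | h
    · have := int_mono (f := fun u => ((C.p u).re + (C.p u).im)) h (fun u hu hu' => by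
        have e1 := C.step_re u
        have e2 := C.step_im u
        have e3 : 0 ≤ Real.cos (C.θ u) + Real.sin (C.θ u) := by
          rw [cos_add_sin_eq]
          apply mul_nonneg hs2.le
          apply Real.sin_nonneg_of_nonneg_of_le_pi
          · have := hθw.trans (C.θ_le hu); linarith
          · have := lt3 u (by omega); linarith
        have e4 := mul_nonneg (C.ℓ_pos u).le e3
        rw [e1, e2]; nlinarith)
      linarith [him.1, him.2]
    · have := int_mono (f := fun u => -((C.p u).re - (C.p u).im)) h (fun u hu hu' => by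
        have e1 := C.step_re u
        have e2 := C.step_im u
        have e3 : Real.cos (C.θ u) - Real.sin (C.θ u) ≤ 0 := by
          rw [cos_sub_sin_eq]
          apply mul_nonpos_of_nonneg_of_nonpos hs2.le
          apply Real.cos_nonpos_of_pi_div_two_le_of_le
          · have := (h2 u).mpr (by omega); linarith
          · have := (C.θ_le (show u ≤ w - 1 by omega)).trans hθw1; linarith
        have e4 := mul_nonpos_of_nonneg_of_nonpos (C.ℓ_pos u).le e3
        rw [e1, e2]; nlinarith)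
      linarith [him.1, him.2]
  have h12' : i1 < i2 := by
    rcases h12.lt_or_eq with h | h
    · exact h
    · have a1 := hleft i1 h01 (le_refl _)
      have a2 := hright i2 (le_refl _) h23
      rw [← h] at a2
      linarith
  have h34' : i3 < i0 + n := by
    rcases h34.lt_or_eq with h | h
    · exact h
    · have a1 := hleft i0 (le_refl _) h01
      have a2 := hright i3 h23 (le_refl _)
      rw [h, C.p_per] at a2
      linarith
  exact ⟨{
    i0 := i0, i1 := i1, i2 := i2, i3 := i3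
    h01 := h01, h12 := h12', h23 := h23, h34 := h34'
    steepL := fun i a b => ⟨(h0 i).mpr a, lt1 i b⟩
    low := fun i a b => ⟨(h1 i).mpr a, lt2 i b⟩
    steepR := fun i a b => ⟨(h2 i).mpr a, lt3 i b⟩
    upp := fun i a b => ⟨(h3 i).mpr a, lt4 i b⟩
    left := hleft
    right := hright
    zero := ⟨v, hv1, hvi1, hv⟩
    one := ⟨w, hwi2, hwi3, hw⟩ }⟩

/-- from `x sin t ≤ ε cos t` to `t ≤ ε/x` -/
lemma le_div_of_sin_le {ε x y t : ℝ} (hε : 0 < ε) (hx : 0 < x) (hxy : x ≤ y) (ht' : t < π / 2)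
    (ht : -(π / 2) < t) (h : y * Real.sin t ≤ ε * Real.cos t) : t ≤ ε / x := by
  rcases le_or_gt t 0 with h0 | h0
  · exact h0.trans (by positivity)
  · have hc : 0 < Real.cos t := Real.cos_pos_of_mem_Ioo ⟨ht, ht'⟩
    have hs : 0 < Real.sin t := Real.sin_pos_of_pos_of_lt_pi h0 (by linarith [Real.pi_pos])
    have h1 : t ≤ Real.tan t := Real.le_tan h0.le ht'
    rw [Real.tan_eq_sin_div_cos, le_div_iff₀ hc] at h1
    rw [le_div_iff₀ hx]
    have h2 : x * Real.sin t ≤ ε * Real.cos t := le_trans (mul_le_mul_of_nonneg_right hxy hs.le) h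
    have h3 : (t * x) * Real.cos t ≤ ε * Real.cos t := by nlinarith
    exact le_of_mul_le_mul_right h3 hc

theorem slope_low_hi {ε : ℝ} (F : C.Flat ε) (K : C.Cuts ε) {i : ℤ} {x : ℝ} (h1 : K.i1 ≤ i)
    (h2 : i < K.i2) (hx : 0 < x) (h : (C.p i).re ≤ 1 - x) : C.θ i ≤ ε / x := by
  obtain ⟨w, _, _, hw⟩ := K.one
  have hθ := K.low i h1 h2
  have hs := C.support i w (C.θ i) (C.θ_le (by omega)) (le_refl _)
  have hc : 0 < Real.cos (C.θ i) := Real.cos_pos_of_mem_Ioo ⟨by linarith [hθ.1], by linarith [hθ.2]⟩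
  have him := abs_le.mp (F.im i w)
  rw [crs, Complex.sub_re, Complex.sub_im, hw] at hs
  apply le_div_of_sin_le F.pos hx (y := 1 - (C.p i).re) (by linarith) (by linarith [hθ.2])
    (by linarith [hθ.1])
  nlinarith [him.2]

theorem slope_low_lo {ε : ℝ} (F : C.Flat ε) (K : C.Cuts ε) {i : ℤ} {x : ℝ} (h1 : K.i1 ≤ i)
    (h2 : i < K.i2) (hx : 0 < x) (h : x ≤ (C.p (i + 1)).re) : -(ε / x) ≤ C.θ i := by
  obtain ⟨v, _, _, hv⟩ := K.zero
  have hθ := K.low i h1 h2
  have hs := C.support (i + 1) v (C.θ i) (by rw [add_sub_cancel_right]) (C.θ_lt i).le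
  have hc : 0 < Real.cos (C.θ i) := Real.cos_pos_of_mem_Ioo ⟨by linarith [hθ.1], by linarith [hθ.2]⟩
  have him := abs_le.mp (F.im (i + 1) v)
  rw [crs, Complex.sub_re, Complex.sub_im, hv] at hs
  have := le_div_of_sin_le F.pos hx (y := (C.p (i + 1)).re) (t := -C.θ i) (by linarith)
    (by linarith [hθ.1]) (by linarith [hθ.2]) (by
      rw [Real.sin_neg, Real.cos_neg]; nlinarith [him.2])
  linarith

theorem slope_upp_lo {ε : ℝ} (F : C.Flat ε) (K : C.Cuts ε) {i : ℤ} {x : ℝ} (h1 : K.i3 ≤ i)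
    (h2 : i < K.i0 + n) (hx : 0 < x) (h : (C.p i).re ≤ 1 - x) : π - ε / x ≤ C.θ i := by
  obtain ⟨w, _, _, hw⟩ := K.one
  have hθ := K.upp i h1 h2
  have hs := C.support i w (C.θ i) (C.θ_le (by omega)) (le_refl _)
  have hc : 0 < Real.cos (π - C.θ i) :=
    Real.cos_pos_of_mem_Ioo ⟨by linarith [hθ.2], by linarith [hθ.1]⟩
  have him := abs_le.mp (F.im i w)
  rw [crs, Complex.sub_re, Complex.sub_im, hw] at hs
  have e1 : Real.cos (C.θ i) = -Real.cos (π - C.θ i) := by rw [Real.cos_pi_sub]; ring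
  have e2 : Real.sin (C.θ i) = Real.sin (π - C.θ i) := by rw [Real.sin_pi_sub]
  rw [e1, e2] at hs
  have := le_div_of_sin_le F.pos hx (y := 1 - (C.p i).re) (t := π - C.θ i) (by linarith)
    (by linarith [hθ.1]) (by linarith [hθ.2]) (by nlinarith [him.1])
  linarith

theorem slope_upp_hi {ε : ℝ} (F : C.Flat ε) (K : C.Cuts ε) {i : ℤ} {x : ℝ} (h1 : K.i3 ≤ i)
    (h2 : i < K.i0 + n) (hx : 0 < x) (h : x ≤ (C.p (i + 1)).re) : C.θ i ≤ π + ε / x := by
  obtain ⟨v, _, _, hv⟩ := K.zero
  have hθ := K.upp i h1 h2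
  have hs := C.support (i + 1) v (C.θ i) (by rw [add_sub_cancel_right]) (C.θ_lt i).le
  have hc : 0 < Real.cos (C.θ i - π) :=
    Real.cos_pos_of_mem_Ioo ⟨by linarith [hθ.1], by linarith [hθ.2]⟩
  have him := abs_le.mp (F.im (i + 1) v)
  rw [crs, Complex.sub_re, Complex.sub_im, hv] at hs
  have e1 : Real.cos (C.θ i) = -Real.cos (C.θ i - π) := by rw [Real.cos_sub_pi]; ring
  have e2 : Real.sin (C.θ i) = -Real.sin (C.θ i - π) := by rw [Real.sin_sub_pi]; ring
  rw [e1, e2] at hs
  have := le_div_of_sin_le F.pos hx (y := (C.p (i + 1)).re) (t := C.θ i - π) (by linarith)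
    (by linarith [hθ.2]) (by linarith [hθ.1]) (by nlinarith [him.1])
  linarith

/-- lower edges go to the right -/
theorem low_lt {ε : ℝ} (K : C.Cuts ε) {i j : ℤ} (h1 : K.i1 ≤ i) (h2 : i < j) (h3 : j ≤ K.i2) :
    (C.p i).re < (C.p j).re := by
  apply int_strictMono (f := fun u => (C.p u).re) h2
  intro u hu hu'
  have hθ := K.low u (by omega) (by omega)
  have := C.step_re u
  have hc : 0 < Real.cos (C.θ u) := Real.cos_pos_of_mem_Ioo ⟨by linarith [hθ.1], by linarith [hθ.2]⟩
  have := mul_pos (C.ℓ_pos u) hc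
  linarith

/-- upper edges go to the left -/
theorem upp_lt {ε : ℝ} (K : C.Cuts ε) {i j : ℤ} (h1 : K.i3 ≤ i) (h2 : i < j) (h3 : j ≤ K.i0 + n) :
    (C.p j).re < (C.p i).re := by
  have := int_strictMono (f := fun u => -(C.p u).re) h2 (fun u hu hu' => by
    have hθ := K.upp u (by omega) (by omega)
    have := C.step_re u
    have hc : Real.cos (C.θ u) < 0 :=
      Real.cos_neg_of_pi_div_two_lt_of_lt (by linarith [hθ.1]) (by linarith [hθ.2])
    have := mul_neg_of_pos_of_neg (C.ℓ_pos u) hc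
    linarith)
  linarith

end Pool.Agent.Helper85.CVX.CP
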