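import Pool.Agent.Helper85.CVX.Nar

/-! Block DEF (≈60 lines).
K2 for `S = Set.Icc 0 y`: `2n·m ≤ 2n·R ≤ 2nL + M(Icc 0 y)` (`m_le_R`, `K2`), and `M(Icc 0 y) ≤ 2 ∑_a fwd a y + Opp y`: every
`(a,k) ∈ Q n` with `ch ≤ y` is narrow, or its reverse `(a+k, n-k)` is narrow, or it is counted in `Opp`;
`card_Q_rev`, `sum_fwd`, `sum_bwd`.  -/

set_option autoImplicit false
open scoped Classical
open Real

noncomputable section

namespace Pool.Agent.Helper85.CVX.CP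

variable {n : ℕ} (C : CP n)

theorem M_le (y : ℝ) : C.M (Set.Icc 0 y) ≤
    2 * ((Q n).filter (fun x => C.Nar (x.1 : ℤ) x.2 ∧ C.ch x ≤ y)).card + C.Opp y := by
  have hrev := card_Q_rev (n := n) (fun i k => C.Nar i k ∧ C.d i (i + k) ≤ y) C.n_pos
    (fun i k => by
      rw [C.nar_per, show i + (n : ℤ) + k = (i + k) + n by ring, C.d_per_left, C.d_per_right])
  have hsub : (Q n).filter (fun x => C.ch x ∈ Set.Icc 0 y) ⊆
      ((Q n).filter (fun x => C.Nar (x.1 : ℤ) x.2 ∧ C.d (x.1 : ℤ) ((x.1 : ℤ) + x.2) ≤ y) ∪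
        (Q n).filter (fun x => C.Nar ((x.1 : ℤ) + x.2) (n - x.2) ∧
          C.d ((x.1 : ℤ) + x.2) ((x.1 : ℤ) + x.2 + ((n - x.2 : ℕ) : ℤ)) ≤ y)) ∪
      (Q n).filter (fun x => ¬ C.Nar x.1 x.2 ∧ ¬ C.Nar ((x.1 : ℤ) + x.2) (n - x.2) ∧
        C.ch x ≤ y) := by
    intro x hx
    rw [Finset.mem_filter] at hx
    obtain ⟨hxQ, hx⟩ := hx
    have hk : x.2 < n := by
      simp only [Q, Finset.mem_product, Finset.mem_range, Finset.mem_Ico] at hxQ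
      exact hxQ.2.2
    have hd : C.d ((x.1 : ℤ) + x.2) ((x.1 : ℤ) + x.2 + ((n - x.2 : ℕ) : ℤ)) = C.ch x := by
      rw [show (x.1 : ℤ) + x.2 + ((n - x.2 : ℕ) : ℤ) = (x.1 : ℤ) + n by
        push_cast [Nat.cast_sub hk.le]; ring, C.d_per_right, C.d_comm]
      rfl
    simp only [Finset.mem_union, Finset.mem_filter]
    by_cases h1 : C.Nar (x.1 : ℤ) x.2
    · exact Or.inl (Or.inl ⟨hxQ, h1, hx.2⟩)
    · by_cases h2 : C.Nar ((x.1 : ℤ) + x.2) (n - x.2)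
      · exact Or.inl (Or.inr ⟨hxQ, h2, by rw [hd]; exact hx.2⟩)
      · exact Or.inr ⟨hxQ, h1, h2, hx.2⟩
  have h1 := (Finset.card_le_card hsub).trans (Finset.card_union_le _ _)
  have h2 := Finset.card_union_le
    ((Q n).filter (fun x => C.Nar (x.1 : ℤ) x.2 ∧ C.d (x.1 : ℤ) ((x.1 : ℤ) + x.2) ≤ y))
    ((Q n).filter (fun x => C.Nar ((x.1 : ℤ) + x.2) (n - x.2) ∧
          C.d ((x.1 : ℤ) + x.2) ((x.1 : ℤ) + x.2 + ((n - x.2 : ℕ) : ℤ)) ≤ y))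
  have h3 : ((Q n).filter (fun x => C.Nar (x.1 : ℤ) x.2 ∧ C.ch x ≤ y)).card
      = ((Q n).filter (fun x => C.Nar (x.1 : ℤ) x.2 ∧ C.d (x.1 : ℤ) ((x.1 : ℤ) + x.2) ≤ y)).card :=
    rfl
  have h4 : C.Opp y = ((Q n).filter (fun x => ¬ C.Nar x.1 x.2 ∧
      ¬ C.Nar ((x.1 : ℤ) + x.2) (n - x.2) ∧ C.ch x ≤ y)).card := rfl
  have h5 : C.M (Set.Icc 0 y) = ((Q n).filter (fun x => C.ch x ∈ Set.Icc 0 y)).card := by
    rw [M]; congr
  have h6 : ((Q n).filter (fun x => C.Nar ((x.1 : ℤ) + x.2) (n - x.2) ∧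
          C.d ((x.1 : ℤ) + x.2) ((x.1 : ℤ) + x.2 + ((n - x.2 : ℕ) : ℤ)) ≤ y)).card
      = ((Q n).filter (fun x => C.Nar (x.1 : ℤ) x.2 ∧ C.d (x.1 : ℤ) ((x.1 : ℤ) + x.2) ≤ y)).card := by
    convert hrev
  omega

theorem deficit_fwd (y : ℝ) :
    2 * ∑ a ∈ Finset.range n, ((C.m y : ℝ) - C.fwd (a : ℤ) y) ≤ 2 * n * C.L + C.Opp y := by
  have h1 : (C.M (Set.Icc 0 y) : ℝ) ≤ 2 * (∑ a ∈ Finset.range n, (C.fwd (a : ℤ) y : ℝ)) + C.Opp y := by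
    have := C.M_le y
    rw [← C.sum_fwd y] at this
    exact_mod_cast this
  have h2 := C.K2 (Set.Icc 0 y)
  have h3 : (C.m y : ℝ) ≤ C.R (Set.Icc 0 y) := by exact_mod_cast C.m_le_R y
  have hn : (0 : ℝ) ≤ n := Nat.cast_nonneg n
  have h4 := mul_le_mul_of_nonneg_left h3 hn
  rw [Finset.sum_sub_distrib, Finset.sum_const, Finset.card_range, nsmul_eq_mul]
  linarith

theorem deficit_bwd (y : ℝ) :
    2 * ∑ a ∈ Finset.range n, ((C.m y : ℝ) - C.bwd (a : ℤ) y) ≤ 2 * n * C.L + C.Opp y := by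
  have h1 : (C.M (Set.Icc 0 y) : ℝ) ≤ 2 * (∑ a ∈ Finset.range n, (C.bwd (a : ℤ) y : ℝ)) + C.Opp y := by
    have := C.M_le y
    rw [← C.sum_bwd y] at this
    exact_mod_cast this
  have h2 := C.K2 (Set.Icc 0 y)
  have h3 : (C.m y : ℝ) ≤ C.R (Set.Icc 0 y) := by exact_mod_cast C.m_le_R y
  have hn : (0 : ℝ) ≤ n := Nat.cast_nonneg n
  have h4 := mul_le_mul_of_nonneg_left h3 hn
  rw [Finset.sum_sub_distrib, Finset.sum_const, Finset.card_range, nsmul_eq_mul]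
  linarith

end Pool.Agent.Helper85.CVX.CP
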