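import Mathlib

/-!
# Convex polygons, indexed periodically by `ℤ`, and counting functions for their distances

`CP n` : a strictly convex polygon with `n` vertices `p i` (`i : ℤ`, period `n`), counterclockwise;
edge `i` goes from `p i` to `p (i+1)`, has length `ℓ i > 0` and direction `θ i` (a lifted angle,
strictly increasing, `θ (i+n) = θ i + 2π`).
-/

set_option autoImplicit false
open scoped Classical
open Real

noncomputable section

namespace Pool.Agent.Helper85.CVX

/-- A strictly convex polygon with `n` vertices, indexed periodically. -/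
structure CP (n : ℕ) where
  p : ℤ → ℂ
  θ : ℤ → ℝ
  ℓ : ℤ → ℝ
  n_ge : 3 ≤ n
  ℓ_pos : ∀ i, 0 < ℓ i
  step : ∀ i, p (i + 1) - p i = (ℓ i : ℂ) * Complex.exp ((θ i : ℂ) * Complex.I)
  θ_lt : ∀ i, θ i < θ (i + 1)
  θ_per : ∀ i, θ (i + n) = θ i + 2 * π
  p_per : ∀ i, p (i + n) = p i

/-- component of `z` in direction `φ` -/
def prj (φ : ℝ) (z : ℂ) : ℝ := z.re * Real.cos φ + z.im * Real.sin φ

/-- component of `z` in direction `φ + π/2` -/
def crs (φ : ℝ) (z : ℂ) : ℝ := z.im * Real.cos φ - z.re * Real.sin φ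

/-- the index set of ordered pairs of distinct vertices: `(a,k)` stands for `(p a, p (a+k))` -/
def Q (n : ℕ) : Finset (ℕ × ℕ) := Finset.range n ×ˢ Finset.Ico 1 n

namespace CP

variable {n : ℕ} (C : CP n)

/-- distance of two vertices -/
def d (i j : ℤ) : ℝ := ‖C.p j - C.p i‖

/-- length of the chord belonging to `(a,k) ∈ Q n` -/
def ch (x : ℕ × ℕ) : ℝ := C.d (x.1 : ℤ) ((x.1 : ℤ) + (x.2 : ℤ))

/-- number of ordered pairs of distinct vertices whose distance lies in `S` -/
def M (S : Set ℝ) : ℕ := ((Q n).filter (fun x => C.ch x ∈ S)).card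

/-- the set of distances -/
def D : Finset ℝ := (Q n).image C.ch

/-- number of different distances in `S` -/
def R (S : Set ℝ) : ℕ := (C.D.filter (fun t => t ∈ S)).card

/-- number of low-multiplicity distances (at most `n` unordered = `2n` ordered pairs) -/
def L : ℕ := (C.D.filter (fun t => C.M {t} ≤ 2 * n)).card

/-- length of the arc with `k` edges starting at `a` -/
def len (a : ℤ) (k : ℕ) : ℝ := ∑ u ∈ Finset.range k, C.ℓ (a + u)

/-- `(a,k)` (arc with `k` edges starting at vertex `a`) is narrow: its edges turn by less than `π/2` -/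
def Nar (a : ℤ) (k : ℕ) : Prop := C.θ (a + k - 1) - C.θ a < π / 2

/-- number of narrow arcs starting at `a` with chord at most `y` -/
def fwd (a : ℤ) (y : ℝ) : ℕ :=
  ((Finset.Ico 1 n).filter (fun k : ℕ => C.Nar a k ∧ C.d a (a + k) ≤ y)).card

/-- number of narrow arcs ending at `a` with chord at most `y` -/
def bwd (a : ℤ) (y : ℝ) : ℕ :=
  ((Finset.Ico 1 n).filter (fun k : ℕ => C.Nar (a - k) k ∧ C.d (a - k) a ≤ y)).card

/-- largest number of edges of a narrow arc with chord at most `y` -/
def m (y : ℝ) : ℕ := (Finset.range n).sup (fun a => C.fwd (a : ℤ) y)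

/-- number of opposite pairs (neither the arc nor the complementary arc is narrow) at distance
at most `y` -/
def Opp (y : ℝ) : ℕ :=
  ((Q n).filter (fun x => ¬ C.Nar x.1 x.2 ∧ ¬ C.Nar ((x.1 : ℤ) + x.2) (n - x.2) ∧
    C.ch x ≤ y)).card

/-- `(a,k)` is a tip arc: not narrow, but the total turning from the edge before `a` to the edge after
`a+k` is at most `π - ω`; and its chord is at most `y` -/
def tip (ω y : ℝ) (a : ℤ) (k : ℕ) : Prop :=
  π / 2 ≤ C.θ (a + k - 1) - C.θ a ∧ C.θ (a + k) - C.θ (a - 1) ≤ π - ω ∧ C.d a (a + k) ≤ y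

/-- number of tip arcs with chord at most `y` -/
def Tip (ω y : ℝ) : ℕ := ((Q n).filter (fun x => C.tip ω y (x.1 : ℤ) x.2)).card

/-- fatness: every opposite pair at distance at most `t` turns by at most `π - ω` on one side -/
def Fat (ω t : ℝ) : Prop :=
  ∀ (a : ℤ) (k : ℕ), 1 ≤ k → k < n → ¬ C.Nar a k → ¬ C.Nar (a + k) (n - k) → C.d a (a + k) ≤ t →
    (C.θ (a + k) - C.θ (a - 1) ≤ π - ω ∨ C.θ (a + n) - C.θ (a + k - 1) ≤ π - ω)

end CP

end Pool.Agent.Helper85.CVX
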