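import Pool.Agent.Helper85.CVX.Geo

/-! Block DICH: the dichotomy. -/

set_option autoImplicit false
open scoped Classical
open Real

noncomputable section

namespace Pool.Agent.Helper85.CVX.CP

variable {n : ℕ} (C : CP n)

lemma crs_add_pi_add (φ η : ℝ) (z : ℂ) :
    crs (φ + π + η) z = -(Real.cos η * crs φ z - Real.sin η * prj φ z) := by
  have h1 : Real.cos (φ + π + η) = -(Real.cos φ * Real.cos η - Real.sin φ * Real.sin η) := by
    rw [show φ + π + η = (φ + η) + π by ring, Real.cos_add_pi, Real.cos_add]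
  have h2 : Real.sin (φ + π + η) = -(Real.sin φ * Real.cos η + Real.cos φ * Real.sin η) := by
    rw [show φ + π + η = (φ + η) + π by ring, Real.sin_add_pi, Real.sin_add]
  rw [crs, crs, prj, h1, h2]; ring

theorem dichotomy (ω t Δ : ℝ) (hω : 0 < ω) (hω' : ω < π / 2) (ht : 0 ≤ t)
    (hΔ : ∀ i j, C.d i j ≤ Δ) :
    C.Fat ω t ∨ ∃ φ : ℝ, ∀ i j, |crs φ (C.p j - C.p i)| ≤ t + Real.tan ω * Δ := by
  by_cases hF : C.Fat ω t
  · exact Or.inl hF
  right
  unfold Fat at hF
  push Not at hF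
  obtain ⟨a, k, hk1, hkn, -, -, hd, h1, h2⟩ := hF
  rw [C.θ_per] at h2
  have hπ := Real.pi_gt_three
  have hΔ0 : 0 ≤ Δ := by have := hΔ 0 0; rwa [d_self] at this
  have ha : C.θ (a - 1) < C.θ a := C.θ_strictMono (by omega)
  have hb : C.θ (a + k - 1) < C.θ (a + k) := C.θ_strictMono (by omega)
  obtain ⟨φ, η, hφ1, hφ2, hψ1, hψ2, hη1, hη2⟩ : ∃ φ η : ℝ, C.θ (a - 1) ≤ φ ∧ φ ≤ C.θ a ∧
      C.θ (a + k - 1) ≤ φ + π + η ∧ φ + π + η ≤ C.θ (a + k) ∧ -ω ≤ η ∧ η ≤ ω := by
    by_cases c1 : π - ω ≤ C.θ (a + k - 1) - C.θ a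
    · exact ⟨C.θ a, C.θ (a + k - 1) - C.θ a - π, ha.le, le_refl _, by linarith, by linarith,
        by linarith, by linarith⟩
    · by_cases c2 : π - ω ≤ C.θ (a + k) - C.θ a
      · exact ⟨C.θ a, -ω, ha.le, le_refl _, by linarith, by linarith, le_refl _, by linarith⟩
      · exact ⟨C.θ (a + k) - (π - ω), -ω, by linarith, by linarith, by linarith, by linarith,
          le_refl _, by linarith⟩
  have hcosω : 0 < Real.cos ω := Real.cos_pos_of_mem_Ioo ⟨by linarith, hω'⟩
  have hcosη : Real.cos ω ≤ Real.cos η := by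
    rw [← Real.cos_abs η]
    apply Real.cos_le_cos_of_nonneg_of_le_pi (abs_nonneg _) (by linarith)
    exact abs_le.mpr ⟨hη1, hη2⟩
  have hsinη : |Real.sin η| ≤ Real.sin ω := by
    rw [abs_le]
    constructor
    · rw [← Real.sin_neg]
      exact Real.sin_le_sin_of_le_of_le_pi_div_two (by linarith) (by linarith) hη1
    · exact Real.sin_le_sin_of_le_of_le_pi_div_two (by linarith) (by linarith) hη2
  have hsinω : 0 < Real.sin ω := Real.sin_pos_of_pos_of_lt_pi hω (by linarith)
  have htan : 0 ≤ Real.tan ω * Δ := by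
    rw [Real.tan_eq_sin_div_cos]; positivity
  have hlow : ∀ j, 0 ≤ crs φ (C.p j - C.p a) := fun j => C.support a j φ hφ1 hφ2
  have hup : ∀ j, crs φ (C.p j - C.p (a + k)) ≤ Real.tan ω * Δ := by
    intro j
    have h3 := C.support (a + k) j (φ + π + η) hψ1 hψ2
    rw [crs_add_pi_add] at h3
    by_contra hneg
    rw [not_le] at hneg
    have hpos : 0 < crs φ (C.p j - C.p (a + k)) := lt_of_le_of_lt htan hneg
    have h4 : Real.sin η * prj φ (C.p j - C.p (a + k)) ≤ Real.sin ω * Δ := by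
      calc Real.sin η * prj φ (C.p j - C.p (a + k))
          ≤ |Real.sin η * prj φ (C.p j - C.p (a + k))| := le_abs_self _
        _ = |Real.sin η| * |prj φ (C.p j - C.p (a + k))| := abs_mul _ _
        _ ≤ Real.sin ω * Δ := mul_le_mul hsinη ((abs_prj_le _ _).trans (hΔ _ _)) (abs_nonneg _)
            hsinω.le
    have h5 : Real.cos ω * crs φ (C.p j - C.p (a + k)) ≤ Real.sin ω * Δ := by
      have := mul_le_mul_of_nonneg_right hcosη hpos.le
      linarith
    have h6 : Real.tan ω * Δ = Real.sin ω * Δ / Real.cos ω := by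
      rw [Real.tan_eq_sin_div_cos]; ring
    rw [h6, div_lt_iff₀ hcosω] at hneg
    linarith
  refine ⟨φ, fun i j => ?_⟩
  have hY : ∀ j, crs φ (C.p j - C.p a) ≤ t + Real.tan ω * Δ := by
    intro j
    have e : C.p j - C.p a = (C.p j - C.p (a + k)) + (C.p (a + k) - C.p a) := by ring
    rw [e, crs_add]
    have := hup j
    have h7 : crs φ (C.p (a + k) - C.p a) ≤ t := (crs_le _ _).trans hd
    linarith
  have e : C.p j - C.p i = (C.p j - C.p a) - (C.p i - C.p a) := by ring
  rw [e, crs_sub, abs_le]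
  constructor
  · have := hlow j; have := hY i; linarith
  · have := hlow i; have := hY j; linarith

end Pool.Agent.Helper85.CVX.CP
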