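import Pool.Agent.Helper85.CVX.FlatDefs

/-! Block ENDC (≈120 lines).
`low_step_increases`: if `c = (X,Y)` with `X ≥ t`, `|Y| ≤ ε`, `5 ε ≤ t` and an edge direction `θ ∈ [-π/2+1/4, π/2-1/4)` then
`prj θ c = X cos θ + Y sin θ ≥ t sin(1/4) - ε > 0` so `|c + ℓ e^{iθ}| > |c|`.
`end_low`: with `v ∈ [i0,i1]`, `re p_v = 0`: the distances `d v j`, `j ∈ [i1,i2]`, `re p_j ≥ t`, are strictly increasing in `j`
(the set of these `j` is an interval ending at `i2` as `re p_j` is increasing on `[i1,i2]`), lie in `[t,∞)`, and `j - v < n`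
(`v + n ≤ j` would force `v = i0`, `j = i2 = i0+n`, impossible: `re`).  So there are at most `R (Ici t)` such `j`.
`end_upp`: the same along the upper chain: `d j (v+n)`, `j ∈ [i3,i0+n]`, is decreasing in `j`.
`end_count`: every vertex has a representative in `[i0, i0+n)`; vertices in `[i0,i1]` have `re ≤ ε < t`, the vertices strictly
between `i2` and `i3` number at most `i3 - i2`. -/

set_option autoImplicit false
open scoped Classical
open Real

noncomputable section

namespace Pool.Agent.Helper85.CVX.CP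

variable {n : ℕ} (C : CP n)

private lemma sin_quarter : (1 : ℝ) / 5 < Real.sin (1 / 4) := by
  have := Real.sin_gt_sub_cube (x := 1 / 4) (by norm_num)
  norm_num at this ⊢
  linarith

/-- adding a step with positive projection increases the norm -/
private lemma norm_lt_add (φ l : ℝ) (c : ℂ) (hl : 0 < l) (h : 0 < prj φ c) :
    ‖c‖ < ‖c + (l : ℂ) * Complex.exp ((φ : ℂ) * Complex.I)‖ := by
  have e1 := norm_sq_eq φ c
  have e2 := norm_sq_eq φ (c + (l : ℂ) * Complex.exp ((φ : ℂ) * Complex.I))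
  rw [prj_add, crs_add, prj_mul_exp, crs_mul_exp, sub_self, Real.cos_zero, Real.sin_zero] at e2
  have : ‖c‖ ^ 2 < ‖c + (l : ℂ) * Complex.exp ((φ : ℂ) * Complex.I)‖ ^ 2 := by
    rw [e1, e2]; nlinarith
  exact lt_of_pow_lt_pow_left₀ 2 (norm_nonneg _) this

private lemma sin_le_cos {x : ℝ} (h1 : -(π / 2) + 1 / 4 ≤ x) (h2 : x ≤ π / 2 - 1 / 4) :
    1 / 5 < Real.cos x := by
  have hb : |x| ≤ π / 2 - 1 / 4 := abs_le.mpr ⟨by linarith, h2⟩
  have h3 : Real.cos (π / 2 - 1 / 4) ≤ Real.cos |x| :=
    Real.cos_le_cos_of_nonneg_of_le_pi (abs_nonneg x) (by have := Real.pi_pos; linarith) hb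
  rw [Real.cos_abs, Real.cos_pi_div_two_sub] at h3
  exact lt_of_lt_of_le sin_quarter h3

private lemma low_step {ε t : ℝ} (hε : 0 < ε) (ht : 5 * ε ≤ t) (φ l : ℝ) (hl : 0 < l) (c : ℂ)
    (hX : t ≤ c.re) (hY : |c.im| ≤ ε) (h1 : -(π / 2) + 1 / 4 ≤ φ) (h2 : φ ≤ π / 2 - 1 / 4) :
    ‖c‖ < ‖c + (l : ℂ) * Complex.exp ((φ : ℂ) * Complex.I)‖ := by
  apply norm_lt_add φ l c hl
  have hc := sin_le_cos h1 h2
  have hs : |Real.sin φ| ≤ 1 := Real.abs_sin_le_one φ
  have h3 : |c.im * Real.sin φ| ≤ ε := by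
    rw [abs_mul]
    calc |c.im| * |Real.sin φ| ≤ ε * 1 := mul_le_mul hY hs (abs_nonneg _) hε.le
      _ = ε := mul_one _
  have h4 := (abs_le.mp h3).1
  have h5 : t * (1 / 5) < c.re * Real.cos φ := by
    have h6 : 0 < t := by linarith
    calc t * (1 / 5) < t * Real.cos φ := mul_lt_mul_of_pos_left hc h6
      _ ≤ c.re * Real.cos φ := mul_le_mul_of_nonneg_right hX (by linarith)
  unfold prj
  linarith

private lemma low_chain {ε t : ℝ} (F : C.Flat ε) (K : C.Cuts ε) (ht : 5 * ε ≤ t) (v : ℤ)
    (hv : (C.p v).re = 0) (j : ℤ) (hj1 : K.i1 ≤ j) (hjt : t ≤ (C.p j).re) (k : ℕ)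
    (hk : j + k + 1 ≤ K.i2) :
    t ≤ (C.p (j + k + 1)).re ∧ C.d v j < C.d v (j + k + 1) := by
  have step : ∀ m : ℤ, K.i1 ≤ m → m + 1 ≤ K.i2 → t ≤ (C.p m).re →
      t ≤ (C.p (m + 1)).re ∧ C.d v m < C.d v (m + 1) := by
    intro m hm1 hm2 hmt
    have hθ := K.low m hm1 (by omega)
    constructor
    · have h1 := C.step m
      have h2 : (C.p (m + 1)).re = (C.p m).re + C.ℓ m * Real.cos (C.θ m) := by
        have := congrArg Complex.re h1
        rw [Complex.sub_re, re_mul_exp] at this
        linarith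
      have h3 := sin_le_cos hθ.1 hθ.2.le
      have h4 : 0 < C.ℓ m * Real.cos (C.θ m) := mul_pos (C.ℓ_pos m) (by linarith)
      linarith
    · have h1 : C.p (m + 1) - C.p v
          = (C.p m - C.p v) + (C.ℓ m : ℂ) * Complex.exp ((C.θ m : ℂ) * Complex.I) := by
        rw [← C.step]; ring
      rw [d, d, h1]
      apply low_step F.pos ht _ _ (C.ℓ_pos m) _ _ _ hθ.1 hθ.2.le
      · rw [Complex.sub_re, hv, sub_zero]; exact hmt
      · rw [Complex.sub_im]; exact F.im v m
  induction k with
  | zero =>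
    have h := step j hj1 (by simpa using hk) hjt
    simpa using h
  | succ k ih =>
    have hk' : j + (k : ℤ) + 1 ≤ K.i2 := by push_cast at hk; omega
    obtain ⟨h1, h2⟩ := ih hk'
    have e : j + ((k + 1 : ℕ) : ℤ) + 1 = (j + k + 1) + 1 := by push_cast; ring
    rw [e]
    have h := step (j + k + 1) (by omega) (by omega) h1
    exact ⟨h.1, h2.trans h.2⟩

private lemma upp_chain {ε t : ℝ} (F : C.Flat ε) (K : C.Cuts ε) (ht : 5 * ε ≤ t) (v : ℤ)
    (hv : (C.p v).re = 0) (j : ℤ) (k : ℕ) (hj1 : K.i3 ≤ j - k - 1) (hj2 : j < K.i0 + n)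
    (hjt : t ≤ (C.p j).re) :
    t ≤ (C.p (j - k - 1)).re ∧ C.d j v < C.d (j - k - 1) v := by
  have step : ∀ m : ℤ, K.i3 ≤ m → m + 1 ≤ j → t ≤ (C.p (m + 1)).re →
      t ≤ (C.p m).re ∧ C.d (m + 1) v < C.d m v := by
    intro m hm1 hm2 hmt
    have hθ := K.upp m hm1 (by omega)
    have hcos : Real.cos (C.θ m) < -(1 / 5) := by
      have h3 := sin_le_cos (x := C.θ m - π) (by linarith [hθ.1]) (by linarith [hθ.2])
      rw [Real.cos_sub_pi] at h3
      linarith
    constructor
    · have h1 := C.step m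
      have h2 : (C.p (m + 1)).re = (C.p m).re + C.ℓ m * Real.cos (C.θ m) := by
        have := congrArg Complex.re h1
        rw [Complex.sub_re, re_mul_exp] at this
        linarith
      have h4 : 0 < C.ℓ m * -Real.cos (C.θ m) := mul_pos (C.ℓ_pos m) (by linarith)
      linarith
    · have h1 : C.p v - C.p m
          = (C.p v - C.p (m + 1)) + (C.ℓ m : ℂ) * Complex.exp ((C.θ m : ℂ) * Complex.I) := by
        rw [← C.step]; ring
      rw [d, d, h1]
      -- reflect: multiply by -1
      apply norm_lt_add _ _ _ (C.ℓ_pos m)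
      unfold prj
      rw [Complex.sub_re, Complex.sub_im, hv]
      have hs : |Real.sin (C.θ m)| ≤ 1 := Real.abs_sin_le_one _
      have hY := F.im (m + 1) v
      have h3 : |((C.p v).im - (C.p (m + 1)).im) * Real.sin (C.θ m)| ≤ ε := by
        rw [abs_mul]
        calc _ ≤ ε * 1 := mul_le_mul hY hs (abs_nonneg _) F.pos.le
          _ = ε := mul_one _
      have h4 := (abs_le.mp h3).1
      have h6 : 0 < t := by linarith [F.pos]
      have h5 : t * (1 / 5) < (0 - (C.p (m + 1)).re) * Real.cos (C.θ m) := by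
        calc t * (1 / 5) < t * -Real.cos (C.θ m) := mul_lt_mul_of_pos_left (by linarith) h6
          _ ≤ (C.p (m + 1)).re * -Real.cos (C.θ m) :=
            mul_le_mul_of_nonneg_right hmt (by linarith)
          _ = _ := by ring
      linarith
  induction k with
  | zero =>
    have e : j - ((0 : ℕ) : ℤ) - 1 + 1 = j := by push_cast; ring
    have h := step (j - ((0 : ℕ) : ℤ) - 1) hj1 (by omega) (by rw [e]; exact hjt)
    rw [e] at h
    exact h
  | succ k ih =>
    obtain ⟨h1, h2⟩ := ih (by push_cast at hj1; omega)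
    have e : j - ((k + 1 : ℕ) : ℤ) - 1 + 1 = j - k - 1 := by push_cast; ring
    have h := step (j - ((k + 1 : ℕ) : ℤ) - 1) hj1 (by push_cast; omega) (by rw [e]; exact h1)
    rw [e] at h
    exact ⟨h.1, h2.trans h.2⟩

private lemma card_le_R {S : Set ℝ} (A : Finset ℤ) (f : ℤ → ℝ) (hf : Set.InjOn f A)
    (hD : ∀ j ∈ A, f j ∈ C.D) (hS : ∀ j ∈ A, f j ∈ S) : A.card ≤ C.R S := by
  rw [← Finset.card_image_of_injOn hf]
  apply Finset.card_le_card
  intro x hx
  obtain ⟨j, hj, rfl⟩ := Finset.mem_image.mp hx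
  rw [Finset.mem_filter]
  exact ⟨hD j hj, hS j hj⟩

theorem end_count {ε t : ℝ} (F : C.Flat ε) (K : C.Cuts ε) (ht : 5 * ε ≤ t) :
    ((Finset.range n).filter (fun i : ℕ => t ≤ (C.p i).re)).card
      ≤ 2 * C.R (Set.Ici t) + (K.i3 - K.i2).toNat := by
  obtain ⟨v, hv0, hv1, hv⟩ := K.zero
  have hε := F.pos
  have h12 := K.h12
  have h23 := K.h23
  have h34 := K.h34
  have h01 := K.h01
  -- the lower set
  let A : Finset ℤ := (Finset.Ioc K.i1 K.i2).filter (fun j => t ≤ (C.p j).re)
  let B : Finset ℤ := (Finset.Ico K.i3 (K.i0 + n)).filter (fun j => t ≤ (C.p j).re)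
  have hA : A.card ≤ C.R (Set.Ici t) := by
    apply C.card_le_R A (fun j => C.d v j)
    · have key : ∀ x ∈ A, ∀ y ∈ A, x < y → C.d v x < C.d v y := by
        intro x hx y hy hxy
        simp only [A, Finset.mem_filter, Finset.mem_Ioc] at hx hy
        have e : x + ((y - x - 1).toNat : ℤ) + 1 = y := by omega
        have h := C.low_chain F K ht v hv x (by omega) hx.2 (y - x - 1).toNat (by omega)
        rw [e] at h
        exact h.2
      intro x hx y hy hxy
      rcases lt_trichotomy x y with h | h | h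
      · exact absurd hxy (key x hx y hy h).ne
      · exact h
      · exact absurd hxy (key y hy x hx h).ne'
    · intro j hj
      simp only [A, Finset.mem_filter, Finset.mem_Ioc] at hj
      have h := C.mem_D v (k := (j - v).toNat) (by omega) (by omega)
      have e : v + ((j - v).toNat : ℤ) = j := by omega
      rwa [e] at h
    · intro j hj
      simp only [A, Finset.mem_filter, Finset.mem_Ioc] at hj
      rw [Set.mem_Ici]
      calc t ≤ (C.p j).re := hj.2
        _ = (C.p j - C.p v).re := by rw [Complex.sub_re, hv, sub_zero]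
        _ ≤ ‖C.p j - C.p v‖ := Complex.re_le_norm _
  have hB : B.card ≤ C.R (Set.Ici t) := by
    apply C.card_le_R B (fun j => C.d j v)
    · have key : ∀ x ∈ B, ∀ y ∈ B, x < y → C.d y v < C.d x v := by
        intro x hx y hy hxy
        simp only [B, Finset.mem_filter, Finset.mem_Ico] at hx hy
        have e : y - ((y - x - 1).toNat : ℤ) - 1 = x := by omega
        have h := C.upp_chain F K ht v hv y (y - x - 1).toNat (by omega) (by omega) hy.2
        rw [e] at h
        exact h.2
      intro x hx y hy hxy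
      rcases lt_trichotomy x y with h | h | h
      · exact absurd hxy (key x hx y hy h).ne'
      · exact h
      · exact absurd hxy (key y hy x hx h).ne
    · intro j hj
      simp only [B, Finset.mem_filter, Finset.mem_Ico] at hj
      have h := C.mem_D j (k := (v + n - j).toNat) (by omega) (by omega)
      have e : j + ((v + n - j).toNat : ℤ) = v + n := by omega
      rw [e, C.d_per_right] at h
      exact h
    · intro j hj
      simp only [B, Finset.mem_filter, Finset.mem_Ico] at hj
      rw [Set.mem_Ici]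
      calc t ≤ (C.p j).re := hj.2
        _ = -(C.p v - C.p j).re := by rw [Complex.sub_re, hv]; ring
        _ ≤ |(C.p v - C.p j).re| := neg_le_abs _
        _ ≤ ‖C.p v - C.p j‖ := Complex.abs_re_le_norm _
  have hshift := card_shift (n := n) (fun i => t ≤ (C.p i).re) C.n_pos (by
    intro i; rw [C.p_per]) K.i0
  rw [← hshift]
  have hU : ((Finset.range n).filter (fun u : ℕ => t ≤ (C.p (K.i0 + u)).re)).card
      ≤ (A ∪ B ∪ Finset.Ioo K.i2 K.i3).card := by
    apply Finset.card_le_card_of_injOn (fun u : ℕ => K.i0 + u)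
    · intro u hu
      simp only [Finset.coe_filter, Finset.mem_range, Set.mem_setOf_eq] at hu
      simp only [A, B, Finset.coe_union, Finset.coe_filter, Finset.mem_Ioc, Finset.mem_Ico,
        Finset.coe_Ioo, Set.mem_union, Set.mem_setOf_eq, Set.mem_Ioo]
      by_cases h1 : K.i0 + (u : ℤ) ≤ K.i1
      · exfalso
        have := K.left (K.i0 + u) (by omega) h1
        linarith [hu.2]
      · by_cases h2 : K.i0 + (u : ℤ) ≤ K.i2
        · left; left
          exact ⟨⟨by omega, h2⟩, hu.2⟩
        · by_cases h3 : K.i0 + (u : ℤ) < K.i3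
          · right; exact ⟨by omega, h3⟩
          · left; right
            exact ⟨⟨by omega, by omega⟩, hu.2⟩
    · intro x _ y _ hxy
      simp only at hxy
      omega
  have h1 : (A ∪ B ∪ Finset.Ioo K.i2 K.i3).card ≤ A.card + B.card + (K.i3 - K.i2).toNat := by
    calc _ ≤ (A ∪ B).card + (Finset.Ioo K.i2 K.i3).card := Finset.card_union_le _ _
      _ ≤ A.card + B.card + (K.i3 - K.i2).toNat := by
        have := Finset.card_union_le A B
        rw [Int.card_Ioo]
        omega
  omega

end Pool.Agent.Helper85.CVX.CP
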