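import Pool.Agent.Helper85.CVX.Basic

/-! Block F1 (≈80 lines).
Claim: for `2 ≤ k` and `γ = θ (a+k-1) - θ a < 2π/3` one of the two inward neighbours `(a+1, k-1)`, `(a, k-1)` has a strictly
shorter chord.  Write `E = e^{iθ_a}`, `F = e^{iθ_{a+k-1}}`, chord `c = x E + y F` with `x ≥ ℓ_a`, `y ≥ ℓ_{a+k-1}` (every edge
direction lies in the cone of `E, F`; e.g. `x sin γ = -crs θ_{a+k-1} c`, `y sin γ = crs θ_a c`).  `|c - ℓ_a E|² < |c|²` iff
`ℓ_a < 2 prj θ_a c = 2(x + y cos γ)`; `|c - ℓ_{a+k-1} F|² < |c|²` iff `ℓ_{a+k-1} < 2 prj θ_{a+k-1} c = 2(y + x cos γ)`.  If both fail,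
`x ≥ 2x + 2y cos γ` and `y ≥ 2y + 2x cos γ`, so `(x+y)(1 + 2 cos γ) ≤ 0`, i.e. `γ ≥ 2π/3`.
Then induction on `k`: a chain of `k` nested chords with strictly decreasing lengths (`le_R_of_strictAnti`, or directly:
`R (Icc 0 d') + 1 ≤ R (Icc 0 d)` for `d' < d`, `d ∈ D`). -/

set_option autoImplicit false
open scoped Classical
open Real

noncomputable section

namespace Pool.Agent.Helper85.CVX.CP

variable {n : ℕ} (C : CP n)

private lemma prj_rot (φ φ' : ℝ) (z : ℂ) :
    prj φ' z = prj φ z * Real.cos (φ' - φ) + crs φ z * Real.sin (φ' - φ) := by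
  rw [Real.cos_sub, Real.sin_sub, prj, prj, crs]
  have h := Real.sin_sq_add_cos_sq φ
  linear_combination -(z.re * Real.cos φ' + z.im * Real.sin φ') * h

private lemma crs_rot (φ φ' : ℝ) (z : ℂ) :
    crs φ' z = crs φ z * Real.cos (φ' - φ) - prj φ z * Real.sin (φ' - φ) := by
  rw [Real.cos_sub, Real.sin_sub, crs, prj, crs]
  have h := Real.sin_sq_add_cos_sq φ
  linear_combination -(z.im * Real.cos φ' - z.re * Real.sin φ') * h

/-- removing a step of length `l` in direction `φ` -/
private lemma norm_sub_step_lt (φ l : ℝ) (z w : ℂ) (hl : 0 < l)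
    (h1 : prj φ w = prj φ z - l) (h2 : crs φ w = crs φ z) (h : l < 2 * prj φ z) : ‖w‖ < ‖z‖ := by
  have e1 := norm_sq_eq φ z
  have e2 := norm_sq_eq φ w
  have : ‖w‖ ^ 2 < ‖z‖ ^ 2 := by
    rw [e1, e2, h1, h2]; nlinarith
  exact lt_of_pow_lt_pow_left₀ 2 (norm_nonneg z) this

private lemma inward (a : ℤ) (k : ℕ) (hk2 : 2 ≤ k) (h : C.θ (a + k - 1) - C.θ a < 2 * π / 3) :
    C.d (a + 1) (a + k) < C.d a (a + k) ∨ C.d a (a + k - 1) < C.d a (a + k) := by
  set c := C.p (a + k) - C.p a with hc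
  set b : ℤ := a + k - 1 with hb
  set γ := C.θ b - C.θ a with hγ
  have hab : a < b := by omega
  have hγ0 : 0 < γ := by have := C.θ_strictMono hab; rw [hγ]; linarith
  have hγπ : γ < π := by have := Real.pi_pos; linarith
  have hs : 0 < Real.sin γ := Real.sin_pos_of_pos_of_lt_pi hγ0 hγπ
  have hcos : -(1 / 2) < Real.cos γ := by
    have h1 : Real.cos (2 * π / 3) < Real.cos γ :=
      Real.cos_lt_cos_of_nonneg_of_le_pi hγ0.le (by have := Real.pi_pos; linarith) h
    have h2 : Real.cos (2 * π / 3) = -(1 / 2) := by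
      rw [show 2 * π / 3 = π - π / 3 by ring, Real.cos_pi_sub, Real.cos_pi_div_three]
    linarith
  -- crs bounds
  have hA : C.ℓ b * Real.sin γ ≤ crs (C.θ a) c := by
    rw [hc, C.crs_arc]
    have hmem : k - 1 ∈ Finset.range k := Finset.mem_range.mpr (by omega)
    have hle := Finset.single_le_sum (f := fun u : ℕ => C.ℓ (a + u) * Real.sin (C.θ (a + u) - C.θ a))
      (s := Finset.range k) (by
        intro u hu
        rw [Finset.mem_range] at hu
        refine mul_nonneg (C.ℓ_pos _).le (Real.sin_nonneg_of_nonneg_of_le_pi ?_ ?_)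
        · have := C.θ_le (show a ≤ a + u by omega); linarith
        · have := C.θ_le (show a + (u : ℤ) ≤ b by omega)
          have : C.θ (a + u) - C.θ a ≤ γ := by rw [hγ]; linarith
          linarith) hmem
    refine le_trans (le_of_eq ?_) hle
    have : a + ((k - 1 : ℕ) : ℤ) = b := by omega
    simp only [this, hγ]
  have hB : C.ℓ a * Real.sin γ ≤ -crs (C.θ b) c := by
    rw [hc, C.crs_arc, ← Finset.sum_neg_distrib]
    have hmem : 0 ∈ Finset.range k := Finset.mem_range.mpr (by omega)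
    have hle := Finset.single_le_sum
      (f := fun u : ℕ => -(C.ℓ (a + u) * Real.sin (C.θ (a + u) - C.θ b)))
      (s := Finset.range k) (by
        intro u hu
        rw [Finset.mem_range] at hu
        have h1 : -(C.ℓ (a + u) * Real.sin (C.θ (a + u) - C.θ b))
            = C.ℓ (a + u) * Real.sin (C.θ b - C.θ (a + u)) := by
          rw [← neg_sub (C.θ b), Real.sin_neg]; ring
        show 0 ≤ -(C.ℓ (a + u) * Real.sin (C.θ (a + u) - C.θ b))
        rw [h1]
        refine mul_nonneg (C.ℓ_pos _).le (Real.sin_nonneg_of_nonneg_of_le_pi ?_ ?_)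
        · have := C.θ_le (show a + (u : ℤ) ≤ b by omega); linarith
        · have := C.θ_le (show a ≤ a + (u : ℤ) by omega)
          have : C.θ b - C.θ (a + u) ≤ γ := by rw [hγ]; linarith
          linarith) hmem
    refine le_trans (le_of_eq ?_) hle
    simp only [Nat.cast_zero, add_zero]
    rw [← neg_sub (C.θ b), Real.sin_neg, ← hγ]; ring
  have hP := prj_rot (C.θ a) (C.θ b) c
  have hQ := crs_rot (C.θ a) (C.θ b) c
  rw [← hγ] at hP hQ
  have hsc := Real.sin_sq_add_cos_sq γ
  by_contra hcon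
  rw [not_or, not_lt, not_lt] at hcon
  obtain ⟨hc1, hc2⟩ := hcon
  have hla := C.ℓ_pos a
  have hlb := C.ℓ_pos b
  have g1 : 2 * prj (C.θ a) c ≤ C.ℓ a := by
    by_contra hcc
    rw [not_le] at hcc
    refine absurd ?_ (not_lt.mpr hc1)
    refine norm_sub_step_lt (C.θ a) (C.ℓ a) c _ hla ?_ ?_ hcc
    · have e : C.p (a + k) - C.p (a + 1) = c - (C.p (a + 1) - C.p a) := by rw [hc]; ring
      rw [e, prj_sub, C.step_prj, sub_self, Real.cos_zero, mul_one]
    · have e : C.p (a + k) - C.p (a + 1) = c - (C.p (a + 1) - C.p a) := by rw [hc]; ring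
      rw [e, crs_sub, C.step_crs, sub_self, Real.sin_zero, mul_zero, sub_zero]
  have g2 : 2 * prj (C.θ b) c ≤ C.ℓ b := by
    by_contra hcc
    rw [not_le] at hcc
    refine absurd ?_ (not_lt.mpr hc2)
    have hb1 : b + 1 = a + k := by omega
    refine norm_sub_step_lt (C.θ b) (C.ℓ b) c _ hlb ?_ ?_ hcc
    · have e : C.p b - C.p a = c - (C.p (b + 1) - C.p b) := by rw [hc, hb1]; ring
      rw [e, prj_sub, C.step_prj, sub_self, Real.cos_zero, mul_one]
    · have e : C.p b - C.p a = c - (C.p (b + 1) - C.p b) := by rw [hc, hb1]; ring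
      rw [e, crs_sub, C.step_crs, sub_self, Real.sin_zero, mul_zero, sub_zero]
  -- final algebra
  set P := prj (C.θ a) c
  set A := crs (C.θ a) c
  set s := Real.sin γ
  set g := Real.cos γ
  rw [hP] at g2
  rw [hQ] at hB
  -- hB : ℓ a * s ≤ -(A g - P s)
  have h1 : 2 * P * s ≤ C.ℓ a * s := mul_le_mul_of_nonneg_right g1 hs.le
  have h2 : 2 * (P * g + A * s) * s ≤ C.ℓ b * s := mul_le_mul_of_nonneg_right g2 hs.le
  have hAp : 0 < A := lt_of_lt_of_le (mul_pos hlb hs) hA
  have hBp : 0 < P * s - A * g := by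
    have := mul_pos hla hs; linarith
  -- P s = B + A g
  set B := P * s - A * g with hBdef
  have e1 : P * s = B + A * g := by rw [hBdef]; ring
  have e2 : (P * g + A * s) * s = A + B * g := by
    have : (P * g + A * s) * s = (P * s) * g + A * s ^ 2 := by ring
    rw [this, e1, show s ^ 2 = 1 - g ^ 2 by linarith]; ring
  have h3 : 2 * (B + A * g) ≤ B := by
    have : 2 * P * s = 2 * (B + A * g) := by rw [← e1]; ring
    linarith
  have h4 : 2 * (A + B * g) ≤ A := by
    have : 2 * (P * g + A * s) * s = 2 * (A + B * g) := by rw [← e2]; ring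
    linarith
  have h5 : (A + B) * (1 + 2 * g) ≤ 0 := by nlinarith
  have h6 : 0 < (A + B) * (1 + 2 * g) := mul_pos (by linarith) (by linarith)
  linarith

private lemma R_succ_le_gen {S T : Set ℝ} {d : ℝ} (hST : S ⊆ T) (hdS : d ∉ S) (hdT : d ∈ T)
    (hd : d ∈ C.D) : C.R S + 1 ≤ C.R T := by
  have hsub : insert d (C.D.filter (fun t => t ∈ S)) ⊆ C.D.filter (fun t => t ∈ T) := by
    intro t ht
    rw [Finset.mem_insert] at ht
    rcases ht with rfl | ht
    · rw [Finset.mem_filter]; exact ⟨hd, hdT⟩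
    · rw [Finset.mem_filter] at ht ⊢
      exact ⟨ht.1, hST ht.2⟩
  have hnot : d ∉ C.D.filter (fun t => t ∈ S) := by
    rw [Finset.mem_filter]
    rintro ⟨-, h2⟩
    exact hdS h2
  have := Finset.card_le_card hsub
  rwa [Finset.card_insert_of_notMem hnot] at this

private lemma R_succ_le {d' d : ℝ} (h : d' < d) (h0 : 0 ≤ d) (hd : d ∈ C.D) :
    C.R (Set.Icc 0 d') + 1 ≤ C.R (Set.Icc 0 d) :=
  C.R_succ_le_gen (Set.Icc_subset_Icc_right h.le) (fun hm => absurd hm.2 (not_le.mpr h))
    ⟨h0, le_rfl⟩ hd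

theorem F1 (a : ℤ) (k : ℕ) (hk : k < n) (h : C.θ (a + k - 1) - C.θ a < 2 * π / 3) :
    k ≤ C.R (Set.Icc 0 (C.d a (a + k))) := by
  induction k generalizing a with
  | zero => exact Nat.zero_le _
  | succ k ih =>
    by_cases hk0 : k = 0
    · subst hk0
      have hm := C.mem_D a (k := 1) le_rfl hk
      have h2 := C.R_succ_le_gen (S := ∅) (T := Set.Icc 0 (C.d a (a + (1 : ℕ))))
        (Set.empty_subset _) (Set.notMem_empty _) ⟨C.d_nonneg _ _, le_rfl⟩ hm
      simp only [zero_add]
      omega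
    · have hm := C.mem_D a (k := k + 1) (by omega) hk
      rcases C.inward a (k + 1) (by omega) h with h1 | h1
      · have e : a + ((k + 1 : ℕ) : ℤ) = (a + 1) + k := by push_cast; ring
        have h2 := ih (a + 1) (by omega) (by
          have h3 : a + 1 + (k : ℤ) - 1 = a + ((k + 1 : ℕ) : ℤ) - 1 := by push_cast; ring
          rw [h3]
          have := C.θ_lt a
          linarith)
        rw [← e] at h2
        have h4 := C.R_succ_le h1 (C.d_nonneg _ _) hm
        omega
      · have e : a + ((k + 1 : ℕ) : ℤ) - 1 = a + k := by push_cast; ring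
        rw [e] at h1
        have h2 := ih a (by omega) (by
          have := C.θ_lt (a + k - 1)
          have e2 : a + (k : ℤ) - 1 + 1 = a + ((k + 1 : ℕ) : ℤ) - 1 := by push_cast; ring
          rw [e2] at this
          linarith)
        have h4 := C.R_succ_le h1 (C.d_nonneg _ _) hm
        omega

end Pool.Agent.Helper85.CVX.CP
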