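import Pool.Agent.Helper85.CVX.Nar
import Pool.Agent.Helper85.CVX.Geo

/-! Block SMALL.
`smallB`: let `k₁ > k₂` be the largest and the smallest element of the set (if it has at least two), `a₁ = b - k₁ < a₂ = b - k₂`.
Edges `u ∈ [a₁,a₂)`: `θ b - θ u ≥ θ (b-1) - θ a₂ ≥ π/2` (tip `(a₂,k₂)`) and `θ b - θ u ≤ θ b - θ (a₁-1) ≤ π - ω` (tip `(a₁,k₁)`), so
`sin(θ b - θ u) ≥ sin ω`.  `crs (θ b) (p b - p a₁) = d sin(ψ - θ b) ≥ -y b₀` (`0 ≤ θ b - ψ ≤ b₀`, `d ≤ y`), and it equals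
`crs (θ b)(p a₂ - p a₁) + crs (θ b)(p b - p a₂) ≤ -sin ω · len(a₁ → a₂) + 0` (all edges `u ∈ [a₂,b)` have `0 ≤ θ b - θ u ≤ π`).
So `len ≤ b₀ y / sin ω`; the arc `a₁ → a₂` turns by at most `(π-ω) - π/2 < π/2`, so it is narrow and `k₁ - k₂ ≤ m(b₀y/sin ω)`
(`d_le_len`, `le_m_of_nar`).  `smallA` is the mirror image (`a` fixed, `b = a+k` varying, line through `p a` with direction `θ (a-1)`). -/

set_option autoImplicit false
open scoped Classical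
open Real

noncomputable section

namespace Pool.Agent.Helper85.CVX

/-- a finite set of naturals with bounded differences -/
theorem card_le_of_diff (K : Finset ℕ) (M : ℕ)
    (h : ∀ k₁ ∈ K, ∀ k₂ ∈ K, k₂ < k₁ → k₁ - k₂ ≤ M) : K.card ≤ M + 1 := by
  rcases K.eq_empty_or_nonempty with h0 | h0
  · rw [h0]; simp
  · have h1 : K ⊆ Finset.Icc (K.min' h0) (K.max' h0) := by
      intro k hk
      rw [Finset.mem_Icc]
      exact ⟨K.min'_le k hk, K.le_max' k hk⟩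
    have h2 := Finset.card_le_card h1
    rw [Nat.card_Icc] at h2
    have h3 : K.max' h0 - K.min' h0 ≤ M := by
      rcases lt_or_ge (K.min' h0) (K.max' h0) with h4 | h4
      · exact h _ (K.max'_mem h0) _ (K.min'_mem h0) h4
      · omega
    omega

theorem sin_ge_of_mem {ω x : ℝ} (hω : 0 < ω) (hω' : ω < π / 2) (h1 : π / 2 ≤ x) (h2 : x ≤ π - ω) :
    Real.sin ω ≤ Real.sin x := by
  rw [← Real.sin_pi_sub x]
  apply Real.sin_le_sin_of_le_of_le_pi_div_two <;> linarith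

namespace CP

variable {n : ℕ} (C : CP n)

theorem smallB {ω y b₀ : ℝ} (b : ℤ) (hω : 0 < ω) (hω' : ω < π / 2) (hy : 0 < y) (hb0 : 0 ≤ b₀)
    (hb1 : b₀ ≤ π / 2) :
    ((Finset.Ico 1 n).filter (fun k : ℕ => C.tip ω y (b - k) k ∧ ∃ ψ : ℝ, C.θ (b - k) ≤ ψ ∧
      ψ ≤ C.θ (b - 1) ∧ C.θ b - ψ ≤ b₀ ∧
      C.p b - C.p (b - k) = (C.d (b - k) b : ℂ) * Complex.exp ((ψ : ℂ) * Complex.I))).card
      ≤ C.m (b₀ * y / Real.sin ω) + 1 := by
  have hsin : 0 < Real.sin ω := Real.sin_pos_of_pos_of_lt_pi hω (by linarith)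
  apply card_le_of_diff
  intro k₁ hk₁ k₂ hk₂ hlt
  rw [Finset.mem_filter, Finset.mem_Ico] at hk₁ hk₂
  obtain ⟨_, ⟨t11, t12, t13⟩, ψ, hψ1, hψ2, hψ3, hψ4⟩ := hk₁
  obtain ⟨hk2, ⟨t21, t22, t23⟩, _⟩ := hk₂
  have e1 : b - (k₁ : ℤ) + k₁ = b := by ring
  have e2 : b - (k₂ : ℤ) + k₂ = b := by ring
  rw [e1] at t11 t12 t13
  rw [e2] at t21 t22 t23
  have e3 : b - (k₁ : ℤ) + ((k₁ - k₂ : ℕ) : ℤ) = b - k₂ := by
    rw [Nat.cast_sub hlt.le]; ring
  have hmono := C.θ_strictMono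
  -- the two parts of the chord
  have h1 : Real.sin ω * C.len (b - k₁) (k₁ - k₂) ≤
      - crs (C.θ b) (C.p (b - k₂) - C.p (b - k₁)) := by
    rw [← e3, C.crs_arc, len, Finset.mul_sum, ← Finset.sum_neg_distrib]
    apply Finset.sum_le_sum
    intro u hu
    rw [Finset.mem_range] at hu
    have h2 : Real.sin ω ≤ Real.sin (C.θ b - C.θ (b - k₁ + u)) := by
      apply sin_ge_of_mem hω hω'
      · have a1 : C.θ (b - k₁ + u) ≤ C.θ (b - k₂) := C.θ_le (by omega)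
        have a2 : C.θ (b - 1) ≤ C.θ b := C.θ_le (by omega)
        linarith
      · have a1 : C.θ (b - k₁ - 1) ≤ C.θ (b - k₁ + u) := C.θ_le (by omega)
        linarith
    have h3 : Real.sin (C.θ (b - k₁ + u) - C.θ b) = - Real.sin (C.θ b - C.θ (b - k₁ + u)) := by
      rw [← Real.sin_neg]; congr 1; ring
    rw [h3]
    have := mul_le_mul_of_nonneg_left h2 (C.ℓ_pos (b - k₁ + u)).le
    linarith
  have h2 : crs (C.θ b) (C.p b - C.p (b - k₂)) ≤ 0 := by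
    have h3 : crs (C.θ b) (C.p (b - k₂ + k₂) - C.p (b - k₂)) ≤ 0 := by
      rw [C.crs_arc]
      apply Finset.sum_nonpos
      intro u hu
      rw [Finset.mem_range] at hu
      apply mul_nonpos_of_nonneg_of_nonpos (C.ℓ_pos _).le
      apply Real.sin_nonpos_of_nonpos_of_neg_pi_le
      · have : C.θ (b - k₂ + u) ≤ C.θ b := C.θ_le (by omega)
        linarith
      · have : C.θ (b - k₂ - 1) ≤ C.θ (b - k₂ + u) := C.θ_le (by omega)
        linarith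
    rwa [e2] at h3
  have h3 : crs (C.θ b) (C.p b - C.p (b - k₁)) = crs (C.θ b) (C.p (b - k₂) - C.p (b - k₁)) +
      crs (C.θ b) (C.p b - C.p (b - k₂)) := by
    rw [← crs_add]; congr 1; ring
  have h4 : -(b₀ * y) ≤ crs (C.θ b) (C.p b - C.p (b - k₁)) := by
    rw [hψ4, crs_mul_exp]
    have a1 : C.θ (b - 1) ≤ C.θ b := C.θ_le (by omega)
    have a2 : Real.sin (C.θ b - ψ) ≤ b₀ := (Real.sin_le (by linarith)).trans hψ3
    have a3 : Real.sin (ψ - C.θ b) = - Real.sin (C.θ b - ψ) := by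
      rw [← Real.sin_neg]; congr 1; ring
    rw [a3]
    have a4 : 0 ≤ C.d (b - k₁) b := C.d_nonneg _ _
    nlinarith [mul_le_mul_of_nonneg_left a2 a4, mul_le_mul_of_nonneg_right t13 hb0]
  have h5 : C.len (b - k₁) (k₁ - k₂) ≤ b₀ * y / Real.sin ω := by
    rw [le_div_iff₀ hsin]
    linarith
  apply C.le_m_of_nar (a := b - k₁)
  · unfold Nar
    rw [e3]
    have a1 : C.θ (b - k₂ - 1) ≤ C.θ (b - k₂) := C.θ_le (by omega)
    have a2 : C.θ (b - k₁ - 1) ≤ C.θ (b - k₁) := C.θ_le (by omega)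
    have a3 : C.θ (b - 1) ≤ C.θ b := C.θ_le (by omega)
    linarith
  · exact (C.d_le_len _ _).trans h5

theorem smallA {ω y b₀ : ℝ} (a : ℤ) (hω : 0 < ω) (hω' : ω < π / 2) (hy : 0 < y) (hb0 : 0 ≤ b₀)
    (hb1 : b₀ ≤ π / 2) :
    ((Finset.Ico 1 n).filter (fun k : ℕ => C.tip ω y a k ∧ ∃ ψ : ℝ, C.θ a ≤ ψ ∧
      ψ ≤ C.θ (a + k - 1) ∧ ψ - C.θ (a - 1) ≤ b₀ ∧
      C.p (a + k) - C.p a = (C.d a (a + k) : ℂ) * Complex.exp ((ψ : ℂ) * Complex.I))).card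
      ≤ C.m (b₀ * y / Real.sin ω) + 1 := by
  have hsin : 0 < Real.sin ω := Real.sin_pos_of_pos_of_lt_pi hω (by linarith)
  apply card_le_of_diff
  intro k₁ hk₁ k₂ hk₂ hlt
  rw [Finset.mem_filter, Finset.mem_Ico] at hk₁ hk₂
  obtain ⟨_, ⟨t11, t12, t13⟩, ψ, hψ1, hψ2, hψ3, hψ4⟩ := hk₁
  obtain ⟨hk2, ⟨t21, t22, t23⟩, _⟩ := hk₂
  have e3 : a + (k₂ : ℤ) + ((k₁ - k₂ : ℕ) : ℤ) = a + k₁ := by
    rw [Nat.cast_sub hlt.le]; ring
  -- the two parts of the chord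
  have h1 : Real.sin ω * C.len (a + k₂) (k₁ - k₂) ≤
      crs (C.θ (a - 1)) (C.p (a + k₁) - C.p (a + k₂)) := by
    rw [← e3]
    apply C.mul_len_le_crs
    intro u hu
    apply sin_ge_of_mem hω hω'
    · have a1 : C.θ (a + k₂ - 1) ≤ C.θ (a + k₂ + u) := C.θ_le (by omega)
      have a2 : C.θ (a - 1) ≤ C.θ a := C.θ_le (by omega)
      linarith
    · have a1 : C.θ (a + k₂ + u) ≤ C.θ (a + k₁) := C.θ_le (by omega)
      linarith
  have h2 : 0 ≤ crs (C.θ (a - 1)) (C.p (a + k₂) - C.p a) := by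
    rw [C.crs_arc]
    apply Finset.sum_nonneg
    intro u hu
    rw [Finset.mem_range] at hu
    apply mul_nonneg (C.ℓ_pos _).le
    apply Real.sin_nonneg_of_nonneg_of_le_pi
    · have : C.θ (a - 1) ≤ C.θ (a + u) := C.θ_le (by omega)
      linarith
    · have : C.θ (a + u) ≤ C.θ (a + k₂) := C.θ_le (by omega)
      linarith
  have h3 : crs (C.θ (a - 1)) (C.p (a + k₁) - C.p a) =
      crs (C.θ (a - 1)) (C.p (a + k₁) - C.p (a + k₂)) +
      crs (C.θ (a - 1)) (C.p (a + k₂) - C.p a) := by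
    rw [← crs_add]; congr 1; ring
  have h4 : crs (C.θ (a - 1)) (C.p (a + k₁) - C.p a) ≤ b₀ * y := by
    rw [hψ4, crs_mul_exp]
    have a1 : C.θ (a - 1) ≤ C.θ a := C.θ_le (by omega)
    have a2 : Real.sin (ψ - C.θ (a - 1)) ≤ b₀ := (Real.sin_le (by linarith)).trans hψ3
    have a4 : 0 ≤ C.d a (a + k₁) := C.d_nonneg _ _
    nlinarith [mul_le_mul_of_nonneg_left a2 a4, mul_le_mul_of_nonneg_right t13 hb0]
  have h5 : C.len (a + k₂) (k₁ - k₂) ≤ b₀ * y / Real.sin ω := by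
    rw [le_div_iff₀ hsin]
    linarith
  apply C.le_m_of_nar (a := a + k₂)
  · unfold Nar
    rw [e3]
    have a1 : C.θ (a + k₂ - 1) ≤ C.θ (a + k₂) := C.θ_le (by omega)
    have a2 : C.θ (a + k₁ - 1) ≤ C.θ (a + k₁) := C.θ_le (by omega)
    have a3 : C.θ (a - 1) ≤ C.θ a := C.θ_le (by omega)
    linarith
  · exact (C.d_le_len _ _).trans h5

end CP

end Pool.Agent.Helper85.CVX
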