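import Pool.Agent.Helper85.CVX.Basic

/-! Block TURN.
`∑_{a<n} (θ (a+q) - θ a) = 2 π q` (induction on `q`; `∑_{a<n} (θ (a+q+1) - θ (a+q)) = θ (q+n) - θ q = 2π` by telescoping), all terms
are `≥ 0`, and Markov's inequality. -/

set_option autoImplicit false
open scoped Classical
open Real

noncomputable section

namespace Pool.Agent.Helper85.CVX.CP

variable {n : ℕ} (C : CP n)

theorem turn_sum (q : ℕ) : ∑ a ∈ Finset.range n, (C.θ ((a : ℤ) + q) - C.θ (a : ℤ)) = 2 * π * q := by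
  induction q with
  | zero => simp
  | succ q ih =>
    have h1 : ∑ a ∈ Finset.range n, (C.θ (((a + 1 : ℕ) : ℤ) + q) - C.θ ((a : ℤ) + q)) = 2 * π := by
      rw [Finset.sum_range_sub (fun a : ℕ => C.θ ((a : ℤ) + q)) n]
      have h2 : (n : ℤ) + (q : ℤ) = (q : ℤ) + n := add_comm _ _
      rw [h2, C.θ_per]
      simp
    have h3 : ∀ a ∈ Finset.range n, C.θ ((a : ℤ) + ((q + 1 : ℕ) : ℤ)) - C.θ (a : ℤ)
        = (C.θ (((a + 1 : ℕ) : ℤ) + q) - C.θ ((a : ℤ) + q)) + (C.θ ((a : ℤ) + q) - C.θ (a : ℤ)) := by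
      intro a _
      have h4 : (a : ℤ) + ((q + 1 : ℕ) : ℤ) = ((a + 1 : ℕ) : ℤ) + q := by push_cast; ring
      rw [h4]; ring
    rw [Finset.sum_congr rfl h3, Finset.sum_add_distrib, h1, ih]
    push_cast; ring

theorem turn_count (q : ℕ) (θ₀ : ℝ) :
    θ₀ * (((Finset.range n).filter (fun a : ℕ => θ₀ ≤ C.θ ((a : ℤ) + q) - C.θ (a : ℤ))).card : ℝ)
      ≤ 2 * π * q := by
  rw [← C.turn_sum q]
  calc θ₀ * (((Finset.range n).filter
        (fun a : ℕ => θ₀ ≤ C.θ ((a : ℤ) + q) - C.θ (a : ℤ))).card : ℝ)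
      = ∑ a ∈ (Finset.range n).filter
        (fun a : ℕ => θ₀ ≤ C.θ ((a : ℤ) + q) - C.θ (a : ℤ)), θ₀ := by
        rw [Finset.sum_const, nsmul_eq_mul, mul_comm]
    _ ≤ ∑ a ∈ (Finset.range n).filter
        (fun a : ℕ => θ₀ ≤ C.θ ((a : ℤ) + q) - C.θ (a : ℤ)), (C.θ ((a : ℤ) + q) - C.θ (a : ℤ)) := by
        apply Finset.sum_le_sum
        intro a ha
        exact (Finset.mem_filter.mp ha).2
    _ ≤ ∑ a ∈ Finset.range n, (C.θ ((a : ℤ) + q) - C.θ (a : ℤ)) := by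
        apply Finset.sum_le_sum_of_subset_of_nonneg (Finset.filter_subset _ _)
        intro a _ _
        have := C.θ_le (show (a : ℤ) ≤ (a : ℤ) + q by omega)
        linarith

end Pool.Agent.Helper85.CVX.CP
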