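import Pool.Agent.Helper85.CVX.M3
import Pool.Agent.Helper85.CVX.Geo
import Pool.Agent.Helper85.CVX.Turn

/-! Block TIP (≈180 lines).
`CC ω = 2 (1/sin²(ω/2) + 1)`.
`tip_k_le`: a tip arc `(a,k)` turns by at most `π - ω` (`θ (a+k-1) - θ a ≤ θ (a+k) - θ (a-1) ≤ π - ω`), so by `len_le` its length is at
most `z = y/sin(ω/2)`.  Let `r` be the number of edges `u ∈ [a,a+k)` with `θ u - θ a < π/2`; the arcs `(a,r)` and `(a+r,k-r)` are
narrow (the second: `θ (a+k-1) - θ (a+r) ≤ π - ω - π/2 < π/2`), their chords are at most the length `≤ z`; `m3` for both.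
`tip_starts`: if `(a,k)` is a tip arc then with `q = ⌊CC ω (m y + 1)⌋` we have `k ≤ q` and `θ (a+q) - θ a ≥ θ (a+k-1) - θ a ≥ π/2`;
`turn_count q (π/2)` gives at most `4q` such `a`.  `tip_ends` the same (`θ b - θ (b-q) ≥ π/2`; shift with `card_shift`).
`tip_count`: each start has at most `q` values of `k`. -/

set_option autoImplicit false
open scoped Classical
open Real

noncomputable section

namespace Pool.Agent.Helper85.CVX.CP

variable {n : ℕ} (C : CP n)

def CC (ω : ℝ) : ℝ := 2 * (1 / (Real.sin (ω / 2)) ^ 2 + 1)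

theorem tip_k_le {ω y : ℝ} (hω : 0 < ω) (hω' : ω < π / 2) (hy : 0 < y) {a : ℤ} {k : ℕ}
    (h : C.tip ω y a k) : (k : ℝ) ≤ CC ω * (C.m y + 1) := by
  obtain ⟨h1, h2, h3⟩ := h
  have hpi := Real.pi_pos
  have hk : 1 ≤ k := by
    by_contra hk
    have hk0 : k = 0 := by omega
    subst hk0
    have := C.θ_lt (a - 1)
    rw [sub_add_cancel] at this
    rw [Nat.cast_zero, add_zero] at h1
    linarith
  have hl : C.θ (a + k - 1) - C.θ a ≤ π - ω := by
    have e1 := C.θ_le (i := a + k - 1) (j := a + k) (by omega)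
    have e2 := C.θ_le (i := a - 1) (j := a) (by omega)
    linarith
  have hsin : 0 < Real.sin (ω / 2) := Real.sin_pos_of_pos_of_lt_pi (by linarith) (by linarith)
  have hlen := C.len_le a k ω hω (by linarith) hl
  set z : ℝ := y / Real.sin (ω / 2) with hz
  have hlz : C.len a k ≤ z := by
    rw [hz, le_div_iff₀ hsin, mul_comm]
    exact hlen.trans h3
  have hzy : (z / y) ^ 2 = 1 / Real.sin (ω / 2) ^ 2 := by
    rw [hz]
    field_simp
  -- the first edge turning by at least `π/2`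
  have hex : ∃ u : ℕ, π / 2 ≤ C.θ (a + u) - C.θ a := ⟨k - 1, by
    have : a + ((k - 1 : ℕ) : ℤ) = a + k - 1 := by omega
    rw [this]; exact h1⟩
  set r := Nat.find hex with hr
  have hr1 : π / 2 ≤ C.θ (a + r) - C.θ a := Nat.find_spec hex
  have hrk : r ≤ k - 1 := Nat.find_min' hex (by
    have : a + ((k - 1 : ℕ) : ℤ) = a + k - 1 := by omega
    rw [this]; exact h1)
  have hr0 : 1 ≤ r := by
    by_contra hr0
    have hr00 : r = 0 := by omega
    rw [hr00, Nat.cast_zero, add_zero, sub_self] at hr1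
    linarith
  have hn1 : C.Nar a r := by
    have := Nat.find_min hex (m := r - 1) (by omega)
    rw [not_le] at this
    unfold CP.Nar
    have e : a + (r : ℤ) - 1 = a + ((r - 1 : ℕ) : ℤ) := by omega
    rw [e]
    exact this
  have hn2 : C.Nar (a + r) (k - r) := by
    unfold CP.Nar
    have e : a + (r : ℤ) + ((k - r : ℕ) : ℤ) - 1 = a + k - 1 := by omega
    rw [e]
    linarith
  have hla := C.len_add a r (k - r)
  rw [show r + (k - r) = k by omega] at hla
  have hd1 : C.d a (a + r) ≤ z := by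
    have e1 := C.d_le_len a r
    have e2 := C.len_nonneg (a + r) (k - r)
    linarith
  have hd2 : C.d (a + r) (a + r + ((k - r : ℕ) : ℤ)) ≤ z := by
    have e1 := C.d_le_len (a + r) (k - r)
    have e2 := C.len_nonneg a r
    linarith
  have m1 := C.m3 a r y z hy hn1 hd1
  have m2 := C.m3 (a + r) (k - r) y z hy hn2 hd2
  rw [hzy] at m1 m2
  have hk2 : (k : ℝ) = (r : ℝ) + ((k - r : ℕ) : ℝ) := by
    rw [← Nat.cast_add]
    congr 1
    omega
  rw [hk2, CC]
  linarith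

theorem tip_pos {ω y : ℝ} {a : ℤ} {k : ℕ} (h : C.tip ω y a k) : 1 ≤ k := by
  obtain ⟨h1, _, _⟩ := h
  have hpi := Real.pi_pos
  by_contra hk
  have hk0 : k = 0 := by omega
  subst hk0
  have := C.θ_lt (a - 1)
  rw [sub_add_cancel] at this
  rw [Nat.cast_zero, add_zero] at h1
  linarith

theorem CC_mul_nonneg (ω y : ℝ) : 0 ≤ CC ω * (C.m y + 1) := by
  unfold CC
  positivity

theorem card_le_of_turn (q : ℕ) :
    (((Finset.range n).filter (fun a : ℕ => π / 2 ≤ C.θ ((a : ℤ) + q) - C.θ (a : ℤ))).card : ℝ)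
      ≤ 4 * q := by
  have h := C.turn_count q (π / 2)
  have hpi := Real.pi_pos
  nlinarith

theorem tip_starts {ω y : ℝ} (hω : 0 < ω) (hω' : ω < π / 2) (hy : 0 < y) :
    (((Finset.range n).filter (fun a : ℕ => ∃ k : ℕ, C.tip ω y (a : ℤ) k)).card : ℝ)
      ≤ 4 * (CC ω * (C.m y + 1)) := by
  set q := ⌊CC ω * (C.m y + 1)⌋₊ with hq
  have hsub : (Finset.range n).filter (fun a : ℕ => ∃ k : ℕ, C.tip ω y (a : ℤ) k) ⊆
      (Finset.range n).filter (fun a : ℕ => π / 2 ≤ C.θ ((a : ℤ) + q) - C.θ (a : ℤ)) := by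
    intro a ha
    rw [Finset.mem_filter] at ha ⊢
    obtain ⟨ha1, k, hk⟩ := ha
    refine ⟨ha1, ?_⟩
    have hkq : k ≤ q := Nat.le_floor (C.tip_k_le hω hω' hy hk)
    have := C.θ_le (i := (a : ℤ) + k - 1) (j := (a : ℤ) + q) (by omega)
    have h1 := hk.1
    linarith
  have h2 : (((Finset.range n).filter (fun a : ℕ => ∃ k : ℕ, C.tip ω y (a : ℤ) k)).card : ℝ) ≤
      (((Finset.range n).filter
        (fun a : ℕ => π / 2 ≤ C.θ ((a : ℤ) + q) - C.θ (a : ℤ))).card : ℝ) := by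
    exact_mod_cast Finset.card_le_card hsub
  have h3 := C.card_le_of_turn q
  have h4 : (q : ℝ) ≤ CC ω * (C.m y + 1) := Nat.floor_le (C.CC_mul_nonneg ω y)
  linarith

theorem tip_ends {ω y : ℝ} (hω : 0 < ω) (hω' : ω < π / 2) (hy : 0 < y) :
    (((Finset.range n).filter (fun b : ℕ => ∃ k : ℕ, C.tip ω y ((b : ℤ) - k) k)).card : ℝ)
      ≤ 4 * (CC ω * (C.m y + 1)) := by
  set q := ⌊CC ω * (C.m y + 1)⌋₊ with hq
  have hsub : (Finset.range n).filter (fun b : ℕ => ∃ k : ℕ, C.tip ω y ((b : ℤ) - k) k) ⊆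
      (Finset.range n).filter (fun b : ℕ => π / 2 ≤ C.θ (b : ℤ) - C.θ ((b : ℤ) - q)) := by
    intro b hb
    rw [Finset.mem_filter] at hb ⊢
    obtain ⟨hb1, k, hk⟩ := hb
    refine ⟨hb1, ?_⟩
    have hkq : k ≤ q := Nat.le_floor (C.tip_k_le hω hω' hy hk)
    have h1 := hk.1
    have e1 := C.θ_le (i := (b : ℤ) - k + k - 1) (j := (b : ℤ)) (by omega)
    have e2 := C.θ_le (i := (b : ℤ) - q) (j := (b : ℤ) - k) (by omega)
    linarith
  have h2 : (((Finset.range n).filter (fun b : ℕ => ∃ k : ℕ, C.tip ω y ((b : ℤ) - k) k)).card : ℝ) ≤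
      (((Finset.range n).filter
        (fun b : ℕ => π / 2 ≤ C.θ (b : ℤ) - C.θ ((b : ℤ) - q))).card : ℝ) := by
    exact_mod_cast Finset.card_le_card hsub
  have hshift := card_shift (n := n) (fun i : ℤ => π / 2 ≤ C.θ i - C.θ (i - q)) C.n_pos
    (fun i => by
      rw [C.θ_per, show i + (n : ℤ) - q = (i - q) + n by ring, C.θ_per]
      constructor <;> intro h <;> linarith) (q : ℤ)
  have h5 : (Finset.range n).filter
      (fun u : ℕ => π / 2 ≤ C.θ ((q : ℤ) + u) - C.θ ((q : ℤ) + u - q)) =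
      (Finset.range n).filter (fun a : ℕ => π / 2 ≤ C.θ ((a : ℤ) + q) - C.θ (a : ℤ)) := by
    apply Finset.filter_congr
    intro u _
    rw [add_comm (q : ℤ) u, add_sub_cancel_right]
  have h3 := C.card_le_of_turn q
  have h4 : (q : ℝ) ≤ CC ω * (C.m y + 1) := Nat.floor_le (C.CC_mul_nonneg ω y)
  rw [h5] at hshift
  rw [← hshift] at h2
  linarith

theorem tip_count {ω y : ℝ} (hω : 0 < ω) (hω' : ω < π / 2) (hy : 0 < y) :
    (C.Tip ω y : ℝ) ≤ 4 * (CC ω * (C.m y + 1)) ^ 2 := by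
  have h0 := C.CC_mul_nonneg ω y
  set q := ⌊CC ω * (C.m y + 1)⌋₊ with hq
  have h4 : (q : ℝ) ≤ CC ω * (C.m y + 1) := Nat.floor_le h0
  have h1 : C.Tip ω y = ∑ a ∈ Finset.range n,
      ((Finset.Ico 1 n).filter (fun k => C.tip ω y (a : ℤ) k)).card :=
    card_Q_filter (fun a k => C.tip ω y (a : ℤ) k)
  have h2 : ∀ a ∈ Finset.range n, ((Finset.Ico 1 n).filter (fun k => C.tip ω y (a : ℤ) k)).card ≤
      if (∃ k : ℕ, C.tip ω y (a : ℤ) k) then q else 0 := by
    intro a _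
    split_ifs with hk
    · have hsub : (Finset.Ico 1 n).filter (fun k => C.tip ω y (a : ℤ) k) ⊆ Finset.Icc 1 q := by
        intro k hk
        rw [Finset.mem_filter] at hk
        rw [Finset.mem_Icc]
        exact ⟨(Finset.mem_Ico.1 hk.1).1, Nat.le_floor (C.tip_k_le hω hω' hy hk.2)⟩
      have := Finset.card_le_card hsub
      rwa [Nat.card_Icc, Nat.add_sub_cancel] at this
    · rw [Nat.le_zero, Finset.card_eq_zero, Finset.filter_eq_empty_iff]
      intro k _ hk'
      exact hk ⟨k, hk'⟩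
  have h3 : C.Tip ω y ≤
      ((Finset.range n).filter (fun a : ℕ => ∃ k : ℕ, C.tip ω y (a : ℤ) k)).card * q := by
    rw [h1]
    refine (Finset.sum_le_sum h2).trans ?_
    rw [← Finset.sum_filter, Finset.sum_const, smul_eq_mul]
  have h5 := C.tip_starts hω hω' hy
  have h6 : (C.Tip ω y : ℝ) ≤
      (((Finset.range n).filter (fun a : ℕ => ∃ k : ℕ, C.tip ω y (a : ℤ) k)).card : ℝ) * q := by
    exact_mod_cast h3
  calc (C.Tip ω y : ℝ) ≤ _ := h6
    _ ≤ (4 * (CC ω * (C.m y + 1))) * (CC ω * (C.m y + 1)) :=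
        mul_le_mul h5 h4 (Nat.cast_nonneg _) (by linarith)
    _ = _ := by ring

end Pool.Agent.Helper85.CVX.CP
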