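import Pool.Agent.Helper85.CVX.View
import Pool.Agent.Helper85.CVX.Tip
import Pool.Agent.Helper85.CVX.Small

/-! Block GOOD.
`good_pair`: with `b = a+k`, `A = ψ - θ(a-1)`, `B = θ b - ψ`: `A + B = θ b - θ (a-1) ≤ π - ω` (tip), so `B ≤ (π-ω)/2` or `A ≤ (π-ω)/2`.
In the first case use `view` (`θ (b+g) - ψ = B + (θ(b+g) - θ b) ≤ π/2`; `d b (b+g) ≤ σ` by `le_fwd_iff` (`g = 0` trivial);
`b + g < a + n` since `θ (b+g) - θ (a-1) ≤ π - ω + ω/2 < 2π`), in the second `view'`.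
`0 < d a b`: `exists_chord_dir`/`len_le`.
`tip_split`: every `(a,k) ∈ Q n` with `tip ω y a k` satisfies one of: chord `≤ s₁ y`; `b ∈ X⁺`; `a ∈ X⁻`; `b ∈ Y⁺`; `a ∈ Y⁻`;
`θ b - ψ ≤ b₀`; `ψ - θ(a-1) ≤ b₀` (`ψ` from `exists_chord_dir`), otherwise `hno` is contradicted.  For fixed `b` (or fixed `a`) there are at
most `q = CC ω (m y + 1)` values of `k` (`tip_k_le`), so the sets with `b ∈ X⁺` etc. have at most `q·#X⁺` elements (count the pairs
by `b = a + k mod n`: use `card_Q_filter'` and `card_shift`, or `card_Q_rev`); pairs with `θ b - ψ ≤ b₀`: at most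
`4q` values of `b` (`tip_ends`), each with at most `m(b₀y/sin ω)+1` values of `k` (`smallB`); similarly `smallA`, `tip_starts`. -/

set_option autoImplicit false
open scoped Classical
open Real

noncomputable section

namespace Pool.Agent.Helper85.CVX.CP

variable {n : ℕ} (C : CP n)

theorem good_pair {ω y b₀ σ ψ : ℝ} {a : ℤ} {k g : ℕ} (hω : 0 < ω) (hω' : ω < π / 2)
    (hb0 : 0 < b₀) (hb1 : b₀ ≤ π / 2) (hk : 1 ≤ k) (htip : C.tip ω y a k)
    (hψ : C.p (a + k) - C.p a = (C.d a (a + k) : ℂ) * Complex.exp ((ψ : ℂ) * Complex.I))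
    (hA : b₀ ≤ ψ - C.θ (a - 1)) (hB : b₀ ≤ C.θ (a + k) - ψ)
    (hf : g ≤ C.fwd (a + k) σ) (hb : g ≤ C.bwd a σ)
    (hw1 : C.θ (a + k + g) - C.θ (a + k) ≤ ω / 2) (hw2 : C.θ (a - 1) - C.θ (a - 1 - g) ≤ ω / 2)
    (hσ0 : 0 ≤ σ) (hσd : σ ≤ (1 - Real.cos b₀) * C.d a (a + k)) :
    g + 1 ≤ C.R (Set.Icc (C.d a (a + k)) (C.d a (a + k) + (1 + Real.cos b₀) / 2 * σ)) := by
  obtain ⟨t1, t2, t3⟩ := htip
  have hpi := Real.pi_pos
  have hd : 0 < C.d a (a + k) := by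
    have h1 : C.θ (a + k - 1) - C.θ a < π := by
      have a1 : C.θ (a + k - 1) ≤ C.θ (a + k) := C.θ_le (by omega)
      have a2 : C.θ (a - 1) ≤ C.θ a := C.θ_le (by omega)
      linarith
    obtain ⟨_, _, _, h2, _⟩ := C.exists_chord_dir a k hk h1
    exact h2
  have hlt : ∀ i j : ℤ, C.θ i < C.θ j → i < j := fun i j h => C.θ_strictMono.lt_iff_lt.1 h
  rcases le_total (C.θ (a + k) - ψ) ((π - ω) / 2) with hcase | hcase
  · apply C.view (g := g) (ψ := ψ) (by omega) _ hd hψ hb0.le hb1 hB _ _ hσd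
    · have h1 : C.θ (a + k + g) < C.θ (a - 1 + n) := by
        rw [C.θ_per]
        linarith
      have := hlt _ _ h1
      omega
    · linarith
    · rcases Nat.eq_zero_or_pos g with h0 | h0
      · rw [h0]
        simpa using hσ0
      · exact ((C.le_fwd_iff h0).1 hf).2
  · apply C.view' (g := g) (ψ := ψ) (by omega) _ hd hψ hb0.le hb1 hA _ _ hσd
    · have h1 : C.θ (a + k) < C.θ (a - 1 - g + n) := by
        rw [C.θ_per]
        linarith
      have := hlt _ _ h1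
      omega
    · linarith
    · rcases Nat.eq_zero_or_pos g with h0 | h0
      · rw [h0]
        simpa using hσ0
      · exact ((C.le_bwd_iff h0).1 hb).2

theorem tip_perN (ω y : ℝ) (a : ℤ) (k : ℕ) : C.tip ω y (a + n) k ↔ C.tip ω y a k := by
  unfold tip
  have e1 : a + (n : ℤ) + k - 1 = (a + k - 1) + n := by ring
  have e2 : a + (n : ℤ) + k = (a + k) + n := by ring
  have e3 : a + (n : ℤ) - 1 = (a - 1) + n := by ring
  rw [e1, e2, e3, C.θ_per, C.θ_per, C.θ_per, C.θ_per, C.d_per_left, C.d_per_right]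
  constructor
  · rintro ⟨h1, h2, h3⟩
    exact ⟨by linarith, by linarith, h3⟩
  · rintro ⟨h1, h2, h3⟩
    exact ⟨by linarith, by linarith, h3⟩

/-- counting pairs by their end vertex -/
theorem card_Q_end (E : ℤ → ℕ → Prop) (hn : 0 < n) (hE : ∀ i k, E (i + n) k ↔ E i k) :
    ((Q n).filter (fun x => E ((x.1 : ℤ) + x.2) x.2)).card
      = ∑ b ∈ Finset.range n, ((Finset.Ico 1 n).filter (fun k => E (b : ℤ) k)).card := by
  rw [← card_Q_filter (fun a k => E (a : ℤ) k), card_Q_filter' (fun a k => E ((a : ℤ) + k) k),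
    card_Q_filter' (fun a k => E (a : ℤ) k)]
  apply Finset.sum_congr rfl
  intro k _
  rw [← card_shift (fun i => E i k) hn (fun i => hE i k) (k : ℤ)]
  congr 1
  apply Finset.filter_congr
  intro a _
  rw [add_comm]

/-- a sum over a range, of terms bounded by `B` and vanishing off `P` -/
theorem sum_card_le (f : ℕ → Finset ℕ) (P : ℕ → Prop) [DecidablePred P] (B : ℝ)
    (h1 : ∀ b, (f b).Nonempty → P b) (h2 : ∀ b, P b → ((f b).card : ℝ) ≤ B) :
    ((∑ b ∈ Finset.range n, (f b).card : ℕ) : ℝ) ≤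
      (((Finset.range n).filter P).card : ℝ) * B := by
  push_cast
  calc ∑ b ∈ Finset.range n, ((f b).card : ℝ) ≤
      ∑ b ∈ Finset.range n, (if P b then B else 0) := by
        apply Finset.sum_le_sum
        intro b _
        split_ifs with hb
        · exact h2 b hb
        · rcases (f b).eq_empty_or_nonempty with h | h
          · rw [h]; simp
          · exact absurd (h1 b h) hb
    _ = (((Finset.range n).filter P).card : ℝ) * B := by
        rw [← Finset.sum_filter, Finset.sum_const, nsmul_eq_mul]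

theorem count_end (E : ℤ → ℕ → Prop) (hn : 0 < n) (hE : ∀ i k, E (i + n) k ↔ E i k)
    (P : ℕ → Prop) [DecidablePred P] (B : ℝ) (h1 : ∀ (b k : ℕ), E b k → P b)
    (h2 : ∀ b : ℕ, P b → ∀ f : Finset ℕ, (∀ k ∈ f, (1 ≤ k ∧ k < n) ∧ E b k) → (f.card : ℝ) ≤ B)
    (F : Finset (ℕ × ℕ)) (hF : ∀ x ∈ F, x ∈ Q n ∧ E ((x.1 : ℤ) + x.2) x.2) :
    (F.card : ℝ) ≤ (((Finset.range n).filter P).card : ℝ) * B := by
  have h3 : F ⊆ (Q n).filter (fun x => E ((x.1 : ℤ) + x.2) x.2) := by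
    intro x hx
    rw [Finset.mem_filter]
    exact hF x hx
  have h4 := Finset.card_le_card h3
  rw [card_Q_end E hn hE] at h4
  have h5 : (F.card : ℝ) ≤ ((∑ b ∈ Finset.range n,
      ((Finset.Ico 1 n).filter (fun k => E (b : ℤ) k)).card : ℕ) : ℝ) := by exact_mod_cast h4
  refine h5.trans (sum_card_le _ P B ?_ ?_)
  · rintro b ⟨k, hk⟩
    rw [Finset.mem_filter] at hk
    exact h1 b k hk.2
  · intro b hb
    apply h2 b hb
    intro k hk
    rw [Finset.mem_filter, Finset.mem_Ico] at hk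
    exact hk

theorem count_start (E : ℕ → ℕ → Prop)
    (P : ℕ → Prop) [DecidablePred P] (B : ℝ) (h1 : ∀ (b k : ℕ), E b k → P b)
    (h2 : ∀ b : ℕ, P b → ∀ f : Finset ℕ, (∀ k ∈ f, (1 ≤ k ∧ k < n) ∧ E b k) → (f.card : ℝ) ≤ B)
    (F : Finset (ℕ × ℕ)) (hF : ∀ x ∈ F, x ∈ Q n ∧ E x.1 x.2) :
    (F.card : ℝ) ≤ (((Finset.range n).filter P).card : ℝ) * B := by
  have h3 : F ⊆ (Q n).filter (fun x => E x.1 x.2) := by
    intro x hx
    rw [Finset.mem_filter]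
    exact hF x hx
  have h4 := Finset.card_le_card h3
  rw [card_Q_filter E] at h4
  have h5 : (F.card : ℝ) ≤ ((∑ b ∈ Finset.range n,
      ((Finset.Ico 1 n).filter (fun k => E b k)).card : ℕ) : ℝ) := by exact_mod_cast h4
  refine h5.trans (sum_card_le _ P B ?_ ?_)
  · rintro b ⟨k, hk⟩
    rw [Finset.mem_filter] at hk
    exact h1 b k hk.2
  · intro b hb
    apply h2 b hb
    intro k hk
    rw [Finset.mem_filter, Finset.mem_Ico] at hk
    exact hk

theorem tip_card_k {ω y : ℝ} (hω : 0 < ω) (hω' : ω < π / 2) (hy : 0 < y) (f : Finset ℕ)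
    (hf : ∀ k ∈ f, 1 ≤ k ∧ ∃ a, C.tip ω y a k) : (f.card : ℝ) ≤ CC ω * (C.m y + 1) := by
  rcases f.eq_empty_or_nonempty with h0 | h0
  · rw [h0]
    have : 0 ≤ CC ω := by unfold CC; positivity
    simp only [Finset.card_empty, Nat.cast_zero]
    positivity
  · have h1 : f ⊆ Finset.Icc 1 (f.max' h0) := by
      intro k hk
      rw [Finset.mem_Icc]
      exact ⟨(hf k hk).1, f.le_max' k hk⟩
    have h2 := Finset.card_le_card h1
    rw [Nat.card_Icc] at h2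
    obtain ⟨_, a, ha⟩ := hf _ (f.max'_mem h0)
    have h3 := C.tip_k_le hω hω' hy ha
    have h4 : (f.card : ℝ) ≤ (f.max' h0 : ℕ) := by
      exact_mod_cast (by omega : f.card ≤ f.max' h0)
    linarith

/-- the condition of `smallB` -/
def condB (ω y b₀ : ℝ) (b : ℤ) (k : ℕ) : Prop :=
  C.tip ω y (b - k) k ∧ ∃ ψ : ℝ, C.θ (b - k) ≤ ψ ∧
      ψ ≤ C.θ (b - 1) ∧ C.θ b - ψ ≤ b₀ ∧
      C.p b - C.p (b - k) = (C.d (b - k) b : ℂ) * Complex.exp ((ψ : ℂ) * Complex.I)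

/-- the condition of `smallA` -/
def condA (ω y b₀ : ℝ) (a : ℤ) (k : ℕ) : Prop :=
  C.tip ω y a k ∧ ∃ ψ : ℝ, C.θ a ≤ ψ ∧
      ψ ≤ C.θ (a + k - 1) ∧ ψ - C.θ (a - 1) ≤ b₀ ∧
      C.p (a + k) - C.p a = (C.d a (a + k) : ℂ) * Complex.exp ((ψ : ℂ) * Complex.I)

theorem condB_per1 {ω y b₀ : ℝ} (i : ℤ) (k : ℕ) (m : ℤ) (hm : m = 1 ∨ m = -1)
    (hE : C.condB ω y b₀ i k) : C.condB ω y b₀ (i + m * n) k := by
  obtain ⟨h1, ψ, h2, h3, h4, h5⟩ := hE
  have e1 : i + m * n - (k : ℤ) = (i - k) + m * n := by ring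
  have e2 : i + m * n - 1 = (i - 1) + m * n := by ring
  have hexp : Complex.exp (((ψ + 2 * π * m : ℝ) : ℂ) * Complex.I) =
      Complex.exp ((ψ : ℂ) * Complex.I) := by
    push_cast
    rw [show ((ψ : ℂ) + 2 * π * m) * Complex.I = (ψ : ℂ) * Complex.I +
      (m : ℂ) * (2 * π * Complex.I) by ring, Complex.exp_add,
      Complex.exp_int_mul_two_pi_mul_I, mul_one]
  refine ⟨?_, ψ + 2 * π * m, ?_, ?_, ?_, ?_⟩
  · rw [e1]
    rcases hm with rfl | rfl
    · rw [one_mul, C.tip_perN]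
      exact h1
    · rw [← C.tip_perN, show (i - (k : ℤ)) + -1 * n + n = i - k by ring]
      exact h1
  · rw [e1, C.θ_perk]; linarith
  · rw [e2, C.θ_perk]; linarith
  · rw [C.θ_perk]; linarith
  · rw [e1, C.p_perk, C.p_perk, C.d_perk, hexp]
    exact h5

theorem condB_per {ω y b₀ : ℝ} (i : ℤ) (k : ℕ) :
    C.condB ω y b₀ (i + n) k ↔ C.condB ω y b₀ i k := by
  constructor
  · intro h
    have := C.condB_per1 _ _ (-1) (Or.inr rfl) h
    rwa [show i + (n : ℤ) + -1 * n = i by ring] at this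
  · intro h
    have := C.condB_per1 _ _ 1 (Or.inl rfl) h
    rwa [one_mul] at this

/-- every tip arc belongs to one of seven families -/
theorem tip_cases {ω y b₀ σ s₁ : ℝ} {g : ℕ} (hω : 0 < ω)
    (hno : ∀ (a : ℤ) (k : ℕ) (ψ : ℝ), 1 ≤ k → k < n → C.tip ω y a k → s₁ * y < C.d a (a + k) →
      C.p (a + k) - C.p a = (C.d a (a + k) : ℂ) * Complex.exp ((ψ : ℂ) * Complex.I) →
      b₀ ≤ ψ - C.θ (a - 1) → b₀ ≤ C.θ (a + k) - ψ → g ≤ C.fwd (a + k) σ → g ≤ C.bwd a σ →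
      C.θ (a + k + g) - C.θ (a + k) ≤ ω / 2 → C.θ (a - 1) - C.θ (a - 1 - g) ≤ ω / 2 → False)
    (a : ℤ) (k : ℕ) (hk : 1 ≤ k) (hkn : k < n) (ht : C.tip ω y a k) :
    C.tip ω (s₁ * y) a k ∨ C.fwd (a + k) σ < g ∨ C.bwd a σ < g ∨
      ω / 2 ≤ C.θ (a + k + g) - C.θ (a + k) ∨ ω / 2 ≤ C.θ (a - 1) - C.θ (a - 1 - g) ∨
      C.condB ω y b₀ (a + k) k ∨ C.condA ω y b₀ a k := by
  have ht' := ht
  obtain ⟨t1, t2, t3⟩ := ht
  have h1 : C.θ (a + k - 1) - C.θ a < π := by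
    have a1 : C.θ (a + k - 1) ≤ C.θ (a + k) := C.θ_le (by omega)
    have a2 : C.θ (a - 1) ≤ C.θ a := C.θ_le (by omega)
    linarith
  obtain ⟨ψ, hψ1, hψ2, hd, hψ⟩ := C.exists_chord_dir a k hk h1
  have ee : a + (k : ℤ) - k = a := by ring
  by_contra hcon
  push Not at hcon
  obtain ⟨n1, n2, n3, n4, n5, n6, n7⟩ := hcon
  refine hno a k ψ hk hkn ht' ?_ hψ ?_ ?_ n2 n3 n4.le n5.le
  · by_contra hc
    push Not at hc
    exact n1 ⟨t1, t2, hc⟩
  · by_contra hc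
    push Not at hc
    exact n7 ⟨ht', ψ, hψ1, hψ2, hc.le, hψ⟩
  · by_contra hc
    push Not at hc
    refine n6 ?_
    unfold condB
    rw [ee]
    exact ⟨ht', ψ, hψ1, hψ2, hc.le, hψ⟩

theorem tip_perk {ω y : ℝ} (i : ℤ) (k : ℕ) :
    C.tip ω y (i + n - k) k ↔ C.tip ω y (i - k) k := by
  rw [show i + (n : ℤ) - k = (i - k) + n by ring, C.tip_perN]

/-- tip arcs whose end vertex satisfies a periodic condition -/
theorem tip_count_end {ω y : ℝ} (hω : 0 < ω) (hω' : ω < π / 2) (hy : 0 < y)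
    (P : ℤ → Prop) [DecidablePred P] (hP : ∀ i : ℤ, P (i + n) ↔ P i) (F : Finset (ℕ × ℕ))
    (hF : ∀ x ∈ F, x ∈ Q n ∧ C.tip ω y (x.1 : ℤ) x.2 ∧ P ((x.1 : ℤ) + x.2)) :
    (F.card : ℝ) ≤
      (((Finset.range n).filter (fun b : ℕ => P (b : ℤ))).card : ℝ) * (CC ω * (C.m y + 1)) := by
  refine count_end (n := n) (fun b k => C.tip ω y (b - k) k ∧ P b) C.n_pos ?_
    (fun b : ℕ => P (b : ℤ)) (CC ω * (C.m y + 1)) ?_ ?_ F ?_
  · intro i k
    show (C.tip ω y (i + n - k) k ∧ P (i + n)) ↔ (C.tip ω y (i - k) k ∧ P i)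
    rw [C.tip_perk, hP]
  · intro b k h
    exact h.2
  · intro b _ f hf
    exact C.tip_card_k hω hω' hy f (fun k hk => ⟨(hf k hk).1.1, _, (hf k hk).2.1⟩)
  · intro x hx
    obtain ⟨h1, h2, h3⟩ := hF x hx
    refine ⟨h1, ?_, h3⟩
    show C.tip ω y ((x.1 : ℤ) + x.2 - x.2) x.2
    rw [show (x.1 : ℤ) + x.2 - x.2 = x.1 by ring]
    exact h2

/-- tip arcs whose start vertex satisfies a condition -/
theorem tip_count_start {ω y : ℝ} (hω : 0 < ω) (hω' : ω < π / 2) (hy : 0 < y)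
    (P : ℤ → Prop) [DecidablePred P] (F : Finset (ℕ × ℕ))
    (hF : ∀ x ∈ F, x ∈ Q n ∧ C.tip ω y (x.1 : ℤ) x.2 ∧ P (x.1 : ℤ)) :
    (F.card : ℝ) ≤
      (((Finset.range n).filter (fun b : ℕ => P (b : ℤ))).card : ℝ) * (CC ω * (C.m y + 1)) := by
  refine count_start (n := n) (fun a k => C.tip ω y (a : ℤ) k ∧ P (a : ℤ))
    (fun b : ℕ => P (b : ℤ)) (CC ω * (C.m y + 1)) ?_ ?_ F ?_
  · intro b k h
    exact h.2
  · intro b _ f hf
    exact C.tip_card_k hω hω' hy f (fun k hk => ⟨(hf k hk).1.1, _, (hf k hk).2.1⟩)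
  · intro x hx
    exact hF x hx

theorem tip_split {ω y b₀ σ s₁ : ℝ} {g : ℕ} (hω : 0 < ω) (hω' : ω < π / 2) (hy : 0 < y)
    (hb0 : 0 < b₀) (hb1 : b₀ ≤ π / 2)
    (hno : ∀ (a : ℤ) (k : ℕ) (ψ : ℝ), 1 ≤ k → k < n → C.tip ω y a k → s₁ * y < C.d a (a + k) →
      C.p (a + k) - C.p a = (C.d a (a + k) : ℂ) * Complex.exp ((ψ : ℂ) * Complex.I) →
      b₀ ≤ ψ - C.θ (a - 1) → b₀ ≤ C.θ (a + k) - ψ → g ≤ C.fwd (a + k) σ → g ≤ C.bwd a σ →
      C.θ (a + k + g) - C.θ (a + k) ≤ ω / 2 → C.θ (a - 1) - C.θ (a - 1 - g) ≤ ω / 2 → False) :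
    (C.Tip ω y : ℝ) ≤ C.Tip ω (s₁ * y) + CC ω * (C.m y + 1) *
      ((((Finset.range n).filter (fun b : ℕ => C.fwd (b : ℤ) σ < g)).card : ℝ)
        + (((Finset.range n).filter (fun a : ℕ => C.bwd (a : ℤ) σ < g)).card : ℝ)
        + (((Finset.range n).filter (fun b : ℕ => ω / 2 ≤ C.θ ((b : ℤ) + g) - C.θ (b : ℤ))).card : ℝ)
        + (((Finset.range n).filter
            (fun a : ℕ => ω / 2 ≤ C.θ ((a : ℤ) - 1) - C.θ ((a : ℤ) - 1 - g))).card : ℝ)
        + 8 * (C.m (b₀ * y / Real.sin ω) + 1)) := by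
  have hn : 0 < n := C.n_pos
  have hpi := Real.pi_pos
  set q : ℝ := CC ω * (C.m y + 1) with hq
  have hq0 : 0 ≤ q := by
    rw [hq]
    have : 0 ≤ CC ω := by unfold CC; positivity
    positivity
  set B : ℝ := C.m (b₀ * y / Real.sin ω) + 1 with hB
  have hB0 : 0 ≤ B := by positivity
  -- the tip arcs as a finite set
  set T := (Q n).filter (fun x => C.tip ω y (x.1 : ℤ) x.2) with hT
  have hTm : ∀ x ∈ T, x ∈ Q n ∧ C.tip ω y (x.1 : ℤ) x.2 := fun x hx => Finset.mem_filter.1 hx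
  have hcover : T ⊆ (Q n).filter (fun x => C.tip ω (s₁ * y) (x.1 : ℤ) x.2) ∪
      T.filter (fun x => C.fwd ((x.1 : ℤ) + x.2) σ < g) ∪
      T.filter (fun x => C.bwd (x.1 : ℤ) σ < g) ∪
      T.filter (fun x => ω / 2 ≤ C.θ ((x.1 : ℤ) + x.2 + g) - C.θ ((x.1 : ℤ) + x.2)) ∪
      T.filter (fun x => ω / 2 ≤ C.θ ((x.1 : ℤ) - 1) - C.θ ((x.1 : ℤ) - 1 - g)) ∪
      T.filter (fun x => C.condB ω y b₀ ((x.1 : ℤ) + x.2) x.2) ∪
      T.filter (fun x => C.condA ω y b₀ (x.1 : ℤ) x.2) := by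
    rintro ⟨a, k⟩ hx
    obtain ⟨hQ, ht⟩ := hTm _ hx
    have hk : 1 ≤ k ∧ k < n := by
      have hQ' := hQ
      unfold Q at hQ'
      rw [Finset.mem_product, Finset.mem_Ico] at hQ'
      exact hQ'.2
    have hc := C.tip_cases hω hno (a : ℤ) k hk.1 hk.2 ht
    simp only [Finset.mem_union, Finset.mem_filter]
    rcases hc with h | h | h | h | h | h | h
    · exact Or.inl (Or.inl (Or.inl (Or.inl (Or.inl (Or.inl ⟨hQ, h⟩)))))
    · exact Or.inl (Or.inl (Or.inl (Or.inl (Or.inl (Or.inr ⟨hx, h⟩)))))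
    · exact Or.inl (Or.inl (Or.inl (Or.inl (Or.inr ⟨hx, h⟩))))
    · exact Or.inl (Or.inl (Or.inl (Or.inr ⟨hx, h⟩)))
    · exact Or.inl (Or.inl (Or.inr ⟨hx, h⟩))
    · exact Or.inl (Or.inr ⟨hx, h⟩)
    · exact Or.inr ⟨hx, h⟩
  -- cardinalities
  have c2 : ((T.filter (fun x => C.fwd ((x.1 : ℤ) + x.2) σ < g)).card : ℝ) ≤
      (((Finset.range n).filter (fun b : ℕ => C.fwd (b : ℤ) σ < g)).card : ℝ) * q :=
    C.tip_count_end hω hω' hy (fun b => C.fwd b σ < g) (fun i => by rw [C.fwd_per]) _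
      (fun x hx => ⟨(hTm x (Finset.mem_filter.1 hx).1).1, (hTm x (Finset.mem_filter.1 hx).1).2,
        (Finset.mem_filter.1 hx).2⟩)
  have c3 : ((T.filter (fun x => C.bwd (x.1 : ℤ) σ < g)).card : ℝ) ≤
      (((Finset.range n).filter (fun a : ℕ => C.bwd (a : ℤ) σ < g)).card : ℝ) * q :=
    C.tip_count_start hω hω' hy (fun b => C.bwd b σ < g) _
      (fun x hx => ⟨(hTm x (Finset.mem_filter.1 hx).1).1, (hTm x (Finset.mem_filter.1 hx).1).2,
        (Finset.mem_filter.1 hx).2⟩)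
  have c4 : ((T.filter (fun x =>
      ω / 2 ≤ C.θ ((x.1 : ℤ) + x.2 + g) - C.θ ((x.1 : ℤ) + x.2))).card : ℝ) ≤
      (((Finset.range n).filter
        (fun b : ℕ => ω / 2 ≤ C.θ ((b : ℤ) + g) - C.θ (b : ℤ))).card : ℝ) * q :=
    C.tip_count_end hω hω' hy (fun b => ω / 2 ≤ C.θ (b + g) - C.θ b)
      (fun i => by rw [show i + (n : ℤ) + g = (i + g) + n by ring, C.θ_per, C.θ_per,
        show C.θ (i + g) + 2 * π - (C.θ i + 2 * π) = C.θ (i + g) - C.θ i by ring]) _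
      (fun x hx => ⟨(hTm x (Finset.mem_filter.1 hx).1).1, (hTm x (Finset.mem_filter.1 hx).1).2,
        (Finset.mem_filter.1 hx).2⟩)
  have c5 : ((T.filter (fun x =>
      ω / 2 ≤ C.θ ((x.1 : ℤ) - 1) - C.θ ((x.1 : ℤ) - 1 - g))).card : ℝ) ≤
      (((Finset.range n).filter
        (fun a : ℕ => ω / 2 ≤ C.θ ((a : ℤ) - 1) - C.θ ((a : ℤ) - 1 - g))).card : ℝ) * q :=
    C.tip_count_start hω hω' hy (fun a => ω / 2 ≤ C.θ (a - 1) - C.θ (a - 1 - g)) _
      (fun x hx => ⟨(hTm x (Finset.mem_filter.1 hx).1).1, (hTm x (Finset.mem_filter.1 hx).1).2,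
        (Finset.mem_filter.1 hx).2⟩)
  have c6 : ((T.filter (fun x => C.condB ω y b₀ ((x.1 : ℤ) + x.2) x.2)).card : ℝ) ≤
      4 * q * B := by
    have h := count_end (n := n) (C.condB ω y b₀) hn (fun i k => C.condB_per i k)
      (fun b : ℕ => ∃ k : ℕ, C.tip ω y ((b : ℤ) - k) k) B
      (fun b k h => ⟨k, h.1⟩)
      (by
        intro b _ f hf
        have h1 := C.smallB (b : ℤ) hω hω' hy hb0.le hb1
        have h2 : f.card ≤ C.m (b₀ * y / Real.sin ω) + 1 := by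
          refine le_trans (Finset.card_le_card ?_) h1
          intro k hk
          rw [Finset.mem_filter, Finset.mem_Ico]
          exact hf k hk
        rw [hB]
        exact_mod_cast h2)
      (T.filter (fun x => C.condB ω y b₀ ((x.1 : ℤ) + x.2) x.2))
      (by
        intro x hx
        rw [Finset.mem_filter] at hx
        exact ⟨(hTm x hx.1).1, hx.2⟩)
    exact h.trans (mul_le_mul_of_nonneg_right (C.tip_ends hω hω' hy) hB0)
  have c7 : ((T.filter (fun x => C.condA ω y b₀ (x.1 : ℤ) x.2)).card : ℝ) ≤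
      4 * q * B := by
    have h := count_start (n := n) (fun a k => C.condA ω y b₀ (a : ℤ) k)
      (fun a : ℕ => ∃ k : ℕ, C.tip ω y (a : ℤ) k) B
      (fun b k h => ⟨k, h.1⟩)
      (by
        intro a _ f hf
        have h1 := C.smallA (a : ℤ) hω hω' hy hb0.le hb1
        have h2 : f.card ≤ C.m (b₀ * y / Real.sin ω) + 1 := by
          refine le_trans (Finset.card_le_card ?_) h1
          intro k hk
          rw [Finset.mem_filter, Finset.mem_Ico]
          exact hf k hk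
        rw [hB]
        exact_mod_cast h2)
      (T.filter (fun x => C.condA ω y b₀ (x.1 : ℤ) x.2))
      (by
        intro x hx
        rw [Finset.mem_filter] at hx
        exact ⟨(hTm x hx.1).1, hx.2⟩)
    exact h.trans (mul_le_mul_of_nonneg_right (C.tip_starts hω hω' hy) hB0)
  have hle : (C.Tip ω y : ℝ) ≤ C.Tip ω (s₁ * y) +
      (T.filter (fun x => C.fwd ((x.1 : ℤ) + x.2) σ < g)).card +
      (T.filter (fun x => C.bwd (x.1 : ℤ) σ < g)).card +
      (T.filter (fun x => ω / 2 ≤ C.θ ((x.1 : ℤ) + x.2 + g) - C.θ ((x.1 : ℤ) + x.2))).card +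
      (T.filter (fun x => ω / 2 ≤ C.θ ((x.1 : ℤ) - 1) - C.θ ((x.1 : ℤ) - 1 - g))).card +
      (T.filter (fun x => C.condB ω y b₀ ((x.1 : ℤ) + x.2) x.2)).card +
      (T.filter (fun x => C.condA ω y b₀ (x.1 : ℤ) x.2)).card := by
    have h8 : C.Tip ω y ≤ C.Tip ω (s₁ * y) +
      (T.filter (fun x => C.fwd ((x.1 : ℤ) + x.2) σ < g)).card +
      (T.filter (fun x => C.bwd (x.1 : ℤ) σ < g)).card +
      (T.filter (fun x => ω / 2 ≤ C.θ ((x.1 : ℤ) + x.2 + g) - C.θ ((x.1 : ℤ) + x.2))).card +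
      (T.filter (fun x => ω / 2 ≤ C.θ ((x.1 : ℤ) - 1) - C.θ ((x.1 : ℤ) - 1 - g))).card +
      (T.filter (fun x => C.condB ω y b₀ ((x.1 : ℤ) + x.2) x.2)).card +
      (T.filter (fun x => C.condA ω y b₀ (x.1 : ℤ) x.2)).card := by
      refine (Finset.card_le_card hcover).trans ?_
      refine (Finset.card_union_le _ _).trans (Nat.add_le_add_right ?_ _)
      refine (Finset.card_union_le _ _).trans (Nat.add_le_add_right ?_ _)
      refine (Finset.card_union_le _ _).trans (Nat.add_le_add_right ?_ _)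
      refine (Finset.card_union_le _ _).trans (Nat.add_le_add_right ?_ _)
      refine (Finset.card_union_le _ _).trans (Nat.add_le_add_right ?_ _)
      exact Finset.card_union_le _ _
    exact_mod_cast h8
  linarith

end Pool.Agent.Helper85.CVX.CP
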