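import Pool.Agent.Helper85.CVX.M3

/-! Block M4 (≈120 lines).
`exists_m_eq`: a narrow arc with `i` edges exists: `∑_{a<n} (θ (a+i-1) - θ a) = 2π(i-1) < n·π/2` (use `sum_shift`/induction, or
`turn_count` is not needed).  Let `y` be the minimum of `d a (a+i)` over `a ∈ range n` with `Nar a i` (attained, positive by
`nar_d_pos`).  `i ≤ m y` by `le_m_of_nar`; if `i+1 ≤ m y` then `exists_nar_m` gives a narrow arc with `m y ≥ i+1` edges and chord
`≤ y`; its sub-arc with `i` edges has a strictly shorter chord `< y` (`nar_d_lt`), contradiction with the minimality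
(use `d_perk` and `nar_per` to move the start to `range n`).
`n_le_m3`: cut greedily: `a₀ = 0`, `a_{j+1} = ` the first index `i > a_j` with `θ i ≥ θ a_j + π/2`
(so `(a_j, a_{j+1}-a_j)` is narrow); `θ a₄ ≥ θ 0 + 2π = θ n`, so `a₄ ≥ n`; each piece has at most `((Δ/y)²+1)(m+1)` edges by `m3`. -/

set_option autoImplicit false
open scoped Classical
open Real

noncomputable section

namespace Pool.Agent.Helper85.CVX.CP

variable {n : ℕ} (C : CP n)

theorem exists_m_eq (i : ℕ) (h1 : 1 ≤ i) (h4 : 4 * i ≤ n) :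
    ∃ y, 0 < y ∧ C.m y = i ∧ ∃ a : ℤ, C.Nar a i ∧ C.d a (a + i) = y := by
  have hn : 0 < n := by omega
  have hnZ : (0 : ℤ) < n := by exact_mod_cast hn
  -- a narrow arc with `i` edges
  have hex : ∃ a ∈ Finset.range n, C.Nar (a : ℤ) i := by
    by_contra hcon
    push Not at hcon
    have hb : ∀ j : ℕ, j < 4 → C.θ ((j * i : ℕ) : ℤ) + π / 2 < C.θ (((j + 1) * i : ℕ) : ℤ) := by
      intro j hj
      have hlt : j * i < n := by
        have : j * i < 4 * i := Nat.mul_lt_mul_of_pos_right hj (by omega)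
        omega
      have h2 := hcon (j * i) (Finset.mem_range.2 hlt)
      unfold CP.Nar at h2
      rw [not_lt] at h2
      have h3 : C.θ (((j * i : ℕ) : ℤ) + i - 1) < C.θ (((j + 1) * i : ℕ) : ℤ) := by
        apply C.θ_strictMono
        push_cast
        linarith
      linarith
    have e0 := hb 0 (by norm_num)
    have e1 := hb 1 (by norm_num)
    have e2 := hb 2 (by norm_num)
    have e3 := hb 3 (by norm_num)
    norm_num at e0 e1 e2 e3
    have e4 : C.θ (4 * (i : ℤ)) ≤ C.θ (0 + n) := by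
      apply C.θ_le
      push_cast at h4 ⊢
      omega
    rw [C.θ_per] at e4
    linarith
  obtain ⟨a₁, ha₁, hna₁⟩ := hex
  have hne : ((Finset.range n).filter (fun a : ℕ => C.Nar (a : ℤ) i)).Nonempty :=
    ⟨a₁, Finset.mem_filter.2 ⟨ha₁, hna₁⟩⟩
  obtain ⟨a₀, ha₀, hmin⟩ := Finset.exists_min_image _ (fun a : ℕ => C.d (a : ℤ) ((a : ℤ) + i)) hne
  rw [Finset.mem_filter] at ha₀
  refine ⟨C.d (a₀ : ℤ) ((a₀ : ℤ) + i), C.nar_d_pos h1 ha₀.2, ?_, (a₀ : ℤ), ha₀.2, rfl⟩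
  refine le_antisymm ?_ (C.le_m_of_nar ha₀.2 le_rfl)
  by_contra hlt
  rw [not_le] at hlt
  obtain ⟨a, hna, hda⟩ := C.exists_nar_m (y := C.d (a₀ : ℤ) ((a₀ : ℤ) + i)) (by omega)
  have hni : C.Nar a i := C.nar_sub hna le_rfl (by omega)
  have hdi : C.d a (a + i) < C.d (a₀ : ℤ) ((a₀ : ℤ) + i) :=
    lt_of_lt_of_le (C.nar_d_lt hna le_rfl (by omega) hlt) hda
  -- move the start to `range n`
  set b : ℕ := (a % n).toNat with hb
  have hb1 : (b : ℤ) = a % n := Int.toNat_of_nonneg (Int.emod_nonneg a hnZ.ne')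
  have hb2 : b < n := by
    have := Int.emod_lt_of_pos a hnZ
    omega
  have hab : a = (b : ℤ) + (a / n) * n := by
    rw [hb1]
    have := Int.emod_add_mul_ediv a n
    rw [mul_comm] at this
    exact this.symm
  have hnb : C.Nar (b : ℤ) i := by
    unfold CP.Nar at hni ⊢
    rw [hab] at hni
    have e1 : (b : ℤ) + (a / n) * n + i - 1 = ((b : ℤ) + i - 1) + (a / n) * n := by ring
    rw [e1, C.θ_perk, C.θ_perk] at hni
    linarith
  have hdb : C.d (b : ℤ) ((b : ℤ) + i) = C.d a (a + i) := by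
    conv_rhs => rw [hab]
    rw [show (b : ℤ) + (a / n) * n + (i : ℤ) = ((b : ℤ) + i) + (a / n) * n by ring, C.d_perk]
  have := hmin b (Finset.mem_filter.2 ⟨Finset.mem_range.2 hb2, hnb⟩)
  rw [hdb] at this
  linarith

/-- greedy cut -/
theorem exists_cut (a : ℤ) : ∃ k : ℕ, C.Nar a k ∧ C.θ a + π / 2 ≤ C.θ (a + k) := by
  have hπ := Real.pi_pos
  have hex : ∃ k : ℕ, C.θ a + π / 2 ≤ C.θ (a + k) := by
    refine ⟨n, ?_⟩
    rw [C.θ_per]
    linarith
  refine ⟨Nat.find hex, ?_, Nat.find_spec hex⟩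
  have h0 : Nat.find hex ≠ 0 := by
    intro h
    have := Nat.find_spec hex
    rw [h] at this
    simp at this
    linarith
  have h1 := Nat.find_min hex (m := Nat.find hex - 1) (by omega)
  rw [not_le] at h1
  unfold CP.Nar
  have e : a + ((Nat.find hex - 1 : ℕ) : ℤ) = a + (Nat.find hex : ℕ) - 1 := by
    omega
  rw [e] at h1
  linarith

theorem n_le_m3 (y Δ : ℝ) (hy : 0 < y) (hΔ : ∀ i j, C.d i j ≤ Δ) :
    (n : ℝ) ≤ 4 * (((Δ / y) ^ 2 + 1) * (C.m y + 1)) := by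
  obtain ⟨k0, n0, t0⟩ := C.exists_cut 0
  obtain ⟨k1, n1, t1⟩ := C.exists_cut (0 + k0)
  obtain ⟨k2, n2, t2⟩ := C.exists_cut (0 + k0 + k1)
  obtain ⟨k3, n3, t3⟩ := C.exists_cut (0 + k0 + k1 + k2)
  have h0 := C.m3 _ k0 y Δ hy n0 (hΔ _ _)
  have h1 := C.m3 _ k1 y Δ hy n1 (hΔ _ _)
  have h2 := C.m3 _ k2 y Δ hy n2 (hΔ _ _)
  have h3 := C.m3 _ k3 y Δ hy n3 (hΔ _ _)
  have h4 : C.θ (0 + n) ≤ C.θ (0 + k0 + k1 + k2 + k3) := by
    rw [C.θ_per]
    linarith
  have h5 : (0 : ℤ) + n ≤ 0 + k0 + k1 + k2 + k3 := C.θ_strictMono.le_iff_le.1 h4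
  have h6 : (n : ℝ) ≤ k0 + k1 + k2 + k3 := by
    have : n ≤ k0 + k1 + k2 + k3 := by omega
    exact_mod_cast this
  linarith

end Pool.Agent.Helper85.CVX.CP
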