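import Pool.Agent.Helper85.CVX.TipLower

/-! Block P1 (≈160 lines).
`I = Icc u (u+w)`, `W = w / cos θ₀`, `z ≥ u + w`.  `M I ≤ 2 ∑_{a<n} N_a + Opp z`, where `N_a = #{k ∈ [1,n) : Nar a k, d a (a+k) ∈ I}`
(as in block DEF, with `card_Q_rev`; opposite pairs in `I` have distance `≤ z`).
`N_a ≤ fwd a z ≤ m z` always.  If `θ (a + m z) - θ a < θ₀` then `N_a ≤ m W + 1`: let `k₁ < k₂` be the least and the largest `k`; `k₂ ≤ m z`;
let `ψ ∈ [θ a, θ (a+k₁-1)]` be the direction of the chord `(a, a+k₁)` (`exists_chord_dir`); then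
`d a (a+k₂) ≥ prj ψ (p (a+k₂) - p a) = d a (a+k₁) + ∑_{u ∈ [k₁,k₂)} ℓ cos(θ - ψ) ≥ d a (a+k₁) + cos θ₀ · len`, so
`d (a+k₁) (a+k₂) ≤ len ≤ w / cos θ₀`, and `k₂ - k₁ ≤ m W` (`le_m_of_nar`).
The number of `a` with `θ (a + m z) - θ a ≥ θ₀` is at most `2π m(z)/θ₀` (`turn_count`).
`Opp z ≤ 2 Tip ≤ 8 CC² (m z + 1)² ≤ 32 CC² (m z)²` (`Opp_le`, `tip_count`).  Then `K2`. -/

set_option autoImplicit false
open scoped Classical
open Real

noncomputable section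

namespace Pool.Agent.Helper85.CVX.CP

variable {n : ℕ} (C : CP n)

/-- number of narrow arcs starting at `a` with chord in `S` -/
def NS (S : Set ℝ) (a : ℤ) : ℕ :=
  ((Finset.Ico 1 n).filter (fun k : ℕ => C.Nar a k ∧ C.d a (a + k) ∈ S)).card

lemma P1_M_le {S : Set ℝ} {z : ℝ} (hS : ∀ x ∈ S, x ≤ z) :
    C.M S ≤ 2 * ∑ a ∈ Finset.range n, C.NS S (a : ℤ) + C.Opp z := by
  have hn := C.n_pos
  let A := (Q n).filter (fun x => C.Nar (x.1 : ℤ) x.2 ∧ C.d (x.1 : ℤ) ((x.1 : ℤ) + x.2) ∈ S)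
  let B := (Q n).filter (fun x => C.Nar ((x.1 : ℤ) + x.2) (n - x.2) ∧
    C.d ((x.1 : ℤ) + x.2) (((x.1 : ℤ) + x.2) + ((n - x.2 : ℕ) : ℤ)) ∈ S)
  let O := (Q n).filter (fun x => ¬ C.Nar x.1 x.2 ∧ ¬ C.Nar ((x.1 : ℤ) + x.2) (n - x.2) ∧
    C.ch x ≤ z)
  have hA : A.card = ∑ a ∈ Finset.range n, C.NS S (a : ℤ) := by
    have := card_Q_filter (n := n) (fun a k => C.Nar (a : ℤ) k ∧ C.d (a : ℤ) ((a : ℤ) + k) ∈ S)
    simp only [A, NS]
    convert this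
  have hB : B.card = A.card := by
    have := card_Q_rev (n := n) (fun i k => C.Nar i k ∧ C.d i (i + k) ∈ S) hn (by
      intro i k
      rw [C.nar_per, C.d_per_left, show i + (n : ℤ) + k = (i + k) + n by ring, C.d_per_right])
    simp only [A, B]
    convert this
  have hsub : (Q n).filter (fun x => C.ch x ∈ S) ⊆ (A ∪ B) ∪ O := by
    intro x hx
    rw [Finset.mem_filter] at hx
    obtain ⟨hxQ, hxS⟩ := hx
    have hxQ' := hxQ
    simp only [Q, Finset.mem_product, Finset.mem_range, Finset.mem_Ico] at hxQ'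
    rw [Finset.mem_union, Finset.mem_union]
    by_cases h1 : C.Nar (x.1 : ℤ) x.2
    · left; left
      exact Finset.mem_filter.mpr ⟨hxQ, h1, hxS⟩
    · by_cases h2 : C.Nar ((x.1 : ℤ) + x.2) (n - x.2)
      · left; right
        refine Finset.mem_filter.mpr ⟨hxQ, h2, ?_⟩
        have h3 : ((x.1 : ℤ) + x.2) + ((n - x.2 : ℕ) : ℤ) = (x.1 : ℤ) + n := by
          have : ((n - x.2 : ℕ) : ℤ) = (n : ℤ) - x.2 := by
            rw [Nat.cast_sub (by omega)]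
          rw [this]; ring
        rw [h3, C.d_per_right, C.d_comm]
        exact hxS
      · right
        exact Finset.mem_filter.mpr ⟨hxQ, h1, h2, hS _ hxS⟩
  have h1 : C.M S ≤ (A ∪ B ∪ O).card := Finset.card_le_card hsub
  have h2 : (A ∪ B ∪ O).card ≤ A.card + B.card + O.card :=
    (Finset.card_union_le _ _).trans (Nat.add_le_add_right (Finset.card_union_le _ _) _)
  have h3 : O.card = C.Opp z := rfl
  rw [← hA]
  omega

lemma NS_le_m {S : Set ℝ} {z : ℝ} (hS : ∀ x ∈ S, x ≤ z) (a : ℤ) : C.NS S a ≤ C.m z := by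
  have h : ((Finset.Ico 1 n).filter (fun k : ℕ => C.Nar a k ∧ C.d a (a + k) ∈ S))
      ⊆ Finset.Icc 1 (C.m z) := by
    intro k hk
    rw [Finset.mem_filter, Finset.mem_Ico] at hk
    rw [Finset.mem_Icc]
    exact ⟨hk.1.1, C.le_m_of_nar hk.2.1 (hS _ hk.2.2)⟩
  have := Finset.card_le_card h
  rw [Nat.card_Icc] at this
  unfold NS
  omega

lemma NS_le_of_turn {θ₀ u w z : ℝ} {S : Set ℝ} (hS : ∀ x ∈ S, u ≤ x ∧ x ≤ u + w)
    (hθ : 0 < θ₀) (hθ' : θ₀ < π / 2) (hz : u + w ≤ z) (a : ℤ)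
    (h : C.θ (a + C.m z) - C.θ a < θ₀) :
    C.NS S a ≤ C.m (w / Real.cos θ₀) + 1 := by
  set T := ((Finset.Ico 1 n).filter
    (fun k : ℕ => C.Nar a k ∧ C.d a (a + k) ∈ S)) with hT
  rcases T.eq_empty_or_nonempty with h0 | hne
  · have : C.NS S a = T.card := rfl
    rw [this, h0]; simp
  · set k₁ := T.min' hne with hk₁
    set k₂ := T.max' hne with hk₂
    have hm1 : k₁ ∈ T := T.min'_mem hne
    have hm2 : k₂ ∈ T := T.max'_mem hne
    have h12 : k₁ ≤ k₂ := T.min'_le _ hm2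
    have hsub : T ⊆ Finset.Icc k₁ k₂ := by
      intro k hk
      rw [Finset.mem_Icc]
      exact ⟨T.min'_le _ hk, T.le_max' _ hk⟩
    rw [hT, Finset.mem_filter, Finset.mem_Ico] at hm1 hm2
    obtain ⟨⟨h11, _⟩, hN1, hd1'⟩ := hm1
    obtain ⟨⟨_, h2n⟩, hN2, hd2'⟩ := hm2
    have hd1 := hS _ hd1'
    have hd2 := hS _ hd2'
    have hcos : 0 < Real.cos θ₀ := Real.cos_pos_of_mem_Ioo ⟨by linarith, hθ'⟩
    have hk2m : k₂ ≤ C.m z := C.le_m_of_nar hN2 (hd2.2.trans hz)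
    have hN1' : C.θ (a + k₁ - 1) - C.θ a < π / 2 := hN1
    obtain ⟨ψ, hψ1, hψ2, _, hψ⟩ := C.exists_chord_dir a k₁ h11 (by linarith [Real.pi_pos])
    have hsum : a + (k₁ : ℤ) + ((k₂ - k₁ : ℕ) : ℤ) = a + k₂ := by
      rw [Nat.cast_sub h12]; ring
    have hlen : Real.cos θ₀ * C.len (a + k₁) (k₂ - k₁)
        ≤ prj ψ (C.p (a + k₁ + ((k₂ - k₁ : ℕ) : ℤ)) - C.p (a + k₁)) := by
      apply C.mul_len_le_prj
      intro v hv
      have hle1 : C.θ (a + k₁ - 1) ≤ C.θ (a + k₁ + v) := C.θ_le (by omega)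
      have hle2 : C.θ (a + k₁ + v) ≤ C.θ (a + C.m z) := C.θ_le (by omega)
      apply Real.cos_le_cos_of_nonneg_of_le_pi
      · linarith
      · linarith [Real.pi_pos]
      · linarith
    have hp1 : prj ψ (C.p (a + k₁) - C.p a) = C.d a (a + k₁) := by
      rw [hψ, prj_mul_exp, sub_self, Real.cos_zero, mul_one]
    have hp2 : prj ψ (C.p (a + k₂) - C.p a) ≤ C.d a (a + k₂) := prj_le _ _
    have hsplit : C.p (a + k₂) - C.p a = (C.p (a + k₁) - C.p a) + (C.p (a + k₂) - C.p (a + k₁)) := by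
      ring
    rw [hsplit, prj_add, hp1] at hp2
    rw [hsum] at hlen
    have hw : Real.cos θ₀ * C.len (a + k₁) (k₂ - k₁) ≤ w := by
      have := hd1.1
      have := hd2.2
      linarith
    have hlw : C.len (a + k₁) (k₂ - k₁) ≤ w / Real.cos θ₀ := by
      rw [le_div_iff₀ hcos]; linarith
    have hdd := C.d_le_len (a + k₁) (k₂ - k₁)
    have hNar : C.Nar (a + k₁) (k₂ - k₁) := C.nar_sub hN2 (by omega) (by omega)
    have hfin : k₂ - k₁ ≤ C.m (w / Real.cos θ₀) := C.le_m_of_nar hNar (hdd.trans hlw)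
    have hc := Finset.card_le_card hsub
    rw [Nat.card_Icc] at hc
    have : C.NS S a = T.card := rfl
    omega

theorem P1 {ω t θ₀ u w z : ℝ} (hω : 0 < ω) (hω' : ω < π / 2) (hF : C.Fat ω t) (hθ : 0 < θ₀)
    (hθ' : θ₀ < π / 2) (hu : 0 < u) (hw : 0 < w) (hz : u + w ≤ z) (hzt : z ≤ t)
    (h1 : 1 ≤ C.m z) :
    2 * (n : ℝ) * C.R (Set.Icc u (u + w)) ≤ 2 * n * C.L + 2 * n * (C.m (w / Real.cos θ₀) + 1)
      + (4 * π / θ₀ + 32 * (CC ω) ^ 2) * (C.m z : ℝ) ^ 2 := by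
  have hz0 : 0 < z := by linarith
  have hK := C.K2 (Set.Icc u (u + w))
  have hM : (C.M (Set.Icc u (u + w)) : ℝ) ≤
      2 * ∑ a ∈ Finset.range n, (C.NS (Set.Icc u (u + w)) (a : ℤ) : ℝ) + C.Opp z := by
    exact_mod_cast C.P1_M_le (S := Set.Icc u (u + w)) (z := z) (fun x hx => hx.2.trans hz)
  -- bad starts
  set Bd := (Finset.range n).filter (fun a : ℕ => θ₀ ≤ C.θ ((a : ℤ) + C.m z) - C.θ (a : ℤ)) with hBd
  have hbad : θ₀ * (Bd.card : ℝ) ≤ 2 * π * C.m z := C.turn_count (C.m z) θ₀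
  have hsum : ∑ a ∈ Finset.range n, (C.NS (Set.Icc u (u + w)) (a : ℤ) : ℝ)
      ≤ n * (C.m (w / Real.cos θ₀) + 1) + Bd.card * C.m z := by
    have hterm : ∀ a ∈ Finset.range n, (C.NS (Set.Icc u (u + w)) (a : ℤ) : ℝ)
        ≤ (C.m (w / Real.cos θ₀) + 1) + (if θ₀ ≤ C.θ ((a : ℤ) + C.m z) - C.θ (a : ℤ)
            then (C.m z : ℝ) else 0) := by
      intro a _
      split_ifs with hc
      · have := C.NS_le_m (S := Set.Icc u (u + w)) (z := z) (fun x hx => hx.2.trans hz) (a : ℤ)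
        have h' : (C.NS (Set.Icc u (u + w)) (a : ℤ) : ℝ) ≤ C.m z := by exact_mod_cast this
        have : (0 : ℝ) ≤ C.m (w / Real.cos θ₀) := Nat.cast_nonneg _
        linarith
      · rw [not_le] at hc
        have := C.NS_le_of_turn (S := Set.Icc u (u + w)) (fun x hx => hx) hθ hθ' hz (a : ℤ) hc
        have h' : (C.NS (Set.Icc u (u + w)) (a : ℤ) : ℝ) ≤ C.m (w / Real.cos θ₀) + 1 := by
          exact_mod_cast this
        linarith
    refine (Finset.sum_le_sum hterm).trans ?_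
    rw [Finset.sum_add_distrib, Finset.sum_const, Finset.card_range, nsmul_eq_mul,
      ← Finset.sum_filter, Finset.sum_const, nsmul_eq_mul]
  have hbm : (Bd.card : ℝ) * C.m z ≤ 2 * π / θ₀ * (C.m z : ℝ) ^ 2 := by
    have h2 : (Bd.card : ℝ) ≤ 2 * π * C.m z / θ₀ := by
      rw [le_div_iff₀ hθ]; linarith
    calc (Bd.card : ℝ) * C.m z ≤ (2 * π * C.m z / θ₀) * C.m z :=
          mul_le_mul_of_nonneg_right h2 (Nat.cast_nonneg _)
      _ = 2 * π / θ₀ * (C.m z : ℝ) ^ 2 := by ring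
  have hopp : (C.Opp z : ℝ) ≤ 32 * (CC ω) ^ 2 * (C.m z : ℝ) ^ 2 := by
    have ho : (C.Opp z : ℝ) ≤ 2 * C.Tip ω z := by exact_mod_cast C.Opp_le hF hzt
    have ht := C.tip_count (n := n) hω hω' hz0
    have hm1 : (1 : ℝ) ≤ C.m z := by exact_mod_cast h1
    have hCC : (0 : ℝ) ≤ (CC ω) ^ 2 := sq_nonneg _
    have : (CC ω * ((C.m z : ℝ) + 1)) ^ 2 ≤ (CC ω) ^ 2 * (4 * (C.m z : ℝ) ^ 2) := by
      rw [mul_pow]
      apply mul_le_mul_of_nonneg_left _ hCC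
      nlinarith
    linarith
  have e : 4 * π / θ₀ = 2 * (2 * π / θ₀) := by ring
  rw [e]
  nlinarith [hK, hM, hsum, hbm, hopp]

end Pool.Agent.Helper85.CVX.CP
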