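import Pool.Agent.Helper85.CVX.Nar

/-! Block SIG (≈60 lines).
Let `I` with `(1-c')^I ≤ 1/2`, `c'' = 1/(3(I+1))`, so `(1-c'')^j ≥ 1 - j c'' ≥ 2/3` for `j ≤ I+1`.
Suppose `m((1-c')σ) > (1-c'') m(σ)` for all `σ ∈ [σ₀, 2σ₀]`.  Let `σ_j = 2σ₀(1-c')^j`, `j₀` the least `j` with `σ_j ≤ σ₀`
(`1 ≤ j₀ ≤ I`); then `m(σ₀) ≥ m(σ_{j₀}) > (1-c'')^{j₀} m(2σ₀) ≥ (2/3)(3/2) m(σ₀)`, contradiction. -/

set_option autoImplicit false
open scoped Classical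
open Real

noncomputable section

namespace Pool.Agent.Helper85.CVX.CP

variable {n : ℕ} (C : CP n)

omit C in
theorem exists_sigma (c' : ℝ) (h0 : 0 < c') (h1 : c' < 1) :
    ∃ c'' : ℝ, 0 < c'' ∧ c'' < 1 ∧ ∀ (n : ℕ) (C : CP n) (σ₀ : ℝ), 0 < σ₀ → 1 ≤ C.m σ₀ →
      3 / 2 * (C.m σ₀ : ℝ) ≤ C.m (2 * σ₀) →
      ∃ σ, σ₀ ≤ σ ∧ σ ≤ 2 * σ₀ ∧ (C.m ((1 - c') * σ) : ℝ) ≤ (1 - c'') * C.m σ := by
  obtain ⟨I, hI⟩ := exists_pow_lt_of_lt_one (show (0 : ℝ) < 1 / 2 by norm_num)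
    (show 1 - c' < 1 by linarith)
  have hI0 : (0 : ℝ) ≤ I := Nat.cast_nonneg I
  have hc0 : (0 : ℝ) < 1 / (3 * (I + 1)) := by positivity
  have hc1 : (1 : ℝ) / (3 * (I + 1)) < 1 := by
    rw [div_lt_one (by positivity)]
    linarith
  refine ⟨1 / (3 * (I + 1)), hc0, hc1, ?_⟩
  intro n C σ₀ hσ hm hd
  by_contra hcon
  push Not at hcon
  set c : ℝ := 1 / (3 * (I + 1)) with hc
  set s : ℕ → ℝ := fun j => 2 * σ₀ * (1 - c') ^ j with hs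
  have hex : ∃ j, s j ≤ σ₀ := by
    refine ⟨I, ?_⟩
    simp only [hs]
    nlinarith
  set j₀ := Nat.find hex with hj₀
  have hj₀s : s j₀ ≤ σ₀ := Nat.find_spec hex
  have hjI : j₀ ≤ I := Nat.find_min' hex (by simp only [hs]; nlinarith)
  have hlt : ∀ j < j₀, σ₀ ≤ s j := fun j hj => by
    have := Nat.find_min hex hj
    push Not at this
    exact this.le
  have hle : ∀ j, s j ≤ 2 * σ₀ := by
    intro j
    simp only [hs]
    have : (1 - c') ^ j ≤ 1 := pow_le_one₀ (by linarith) (by linarith)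
    nlinarith
  have hkey : ∀ j ≤ j₀, (1 - c) ^ j * (C.m (2 * σ₀) : ℝ) ≤ C.m (s j) := by
    intro j
    induction j with
    | zero => intro _; simp [hs]
    | succ j ih =>
      intro hj
      have h2 := ih (by omega)
      have h3 := hcon (s j) (hlt j (by omega)) (hle j)
      have h4 : (1 - c') * s j = s (j + 1) := by simp only [hs]; ring
      rw [h4] at h3
      calc (1 - c) ^ (j + 1) * (C.m (2 * σ₀) : ℝ) = (1 - c) * ((1 - c) ^ j * (C.m (2 * σ₀) : ℝ)) := by ring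
        _ ≤ (1 - c) * C.m (s j) := mul_le_mul_of_nonneg_left h2 (by linarith)
        _ ≤ _ := h3.le
  have h5 := hkey j₀ le_rfl
  have h6 : (C.m (s j₀) : ℝ) ≤ C.m σ₀ := by exact_mod_cast C.m_mono hj₀s
  have h7 : 1 + (j₀ : ℝ) * (-c) ≤ (1 + (-c)) ^ j₀ := one_add_mul_le_pow (by linarith) j₀
  have h8 : (j₀ : ℝ) * c < 1 / 3 := by
    have : (j₀ : ℝ) ≤ I := by exact_mod_cast hjI
    rw [hc, mul_one_div, div_lt_iff₀ (by positivity)]
    linarith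
  have h9 : (1 : ℝ) ≤ C.m σ₀ := by exact_mod_cast hm
  have h10 : 2 / 3 < (1 - c) ^ j₀ := by
    rw [show (1 : ℝ) - c = 1 + (-c) by ring]
    linarith
  have h11 : (0 : ℝ) < C.m (2 * σ₀) := by linarith
  nlinarith

end Pool.Agent.Helper85.CVX.CP
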