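import Pool.Agent.Helper85.CVX.Atyp
import Pool.Agent.Helper85.CVX.Sigma
import Pool.Agent.Helper85.CVX.P1
import Pool.Agent.Helper85.CVX.Good
import Pool.Agent.Helper85.CVX.M4

/-! Fat case, final assembly (helper85). -/

set_option autoImplicit false
open scoped Classical
open Real

noncomputable section

namespace Pool.Agent.Helper85.CVX.CP

variable {n : ℕ} (C : CP n)

lemma CC_ge {ω : ℝ} : 2 ≤ CC ω := by
  have : 0 ≤ 1 / (Real.sin (ω / 2)) ^ 2 := by positivity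
  unfold CC; linarith

lemma C2_pos {ω δ : ℝ} (hδ : 0 < δ) : 0 < C2 ω δ := by
  unfold C2
  have := sq_nonneg (CC ω)
  apply div_pos _ hδ
  linarith

/-- iterated doubling -/
theorem iter_doubling {ω t y : ℝ} (hω : 0 < ω) (hω' : ω < π / 2) (hF : C.Fat ω t) (hy : 0 < y)
    (hyt : y ≤ t) (r : ℕ) (h8 : 8 ≤ C.m (y / 2 ^ r))
    (hL : (n : ℝ) * C.L ≤ (C.m (y / 2 ^ r) : ℝ) ^ 2)
    (hn : (2 * C2 ω (1 / 8) + 8) * C.m y < n) :
    ∀ j ≤ r, (C.m (y / 2 ^ j) : ℝ) ≤ (2 / 3) ^ j * C.m y := by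
  intro j
  induction j with
  | zero => intro _; simp
  | succ j ih =>
    intro hj
    have ih' := ih (by omega)
    have hmono : C.m (y / 2 ^ r) ≤ C.m (y / 2 ^ (j + 1)) := by
      apply C.m_mono
      apply div_le_div_of_nonneg_left hy.le (by positivity)
      exact pow_le_pow_right₀ (by norm_num) hj
    have hmono' : C.m (y / 2 ^ (j + 1)) ≤ C.m y := by
      apply C.m_mono
      exact div_le_self hy.le (one_le_pow₀ (by norm_num))
    have hσ : 0 < y / 2 ^ (j + 1) := by positivity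
    have hC2 : 0 < C2 ω (1 / 8) := C2_pos (by norm_num)
    have hR : (C.m (y / 2 ^ r) : ℝ) ≤ C.m (y / 2 ^ (j + 1)) := by exact_mod_cast hmono
    have hR' : (C.m (y / 2 ^ (j + 1)) : ℝ) ≤ C.m y := by exact_mod_cast hmono'
    have h0 : (0 : ℝ) ≤ C.m (y / 2 ^ r) := by positivity
    have key := C.doubling hω hω' hF hσ
      ((div_le_self hy.le (one_le_pow₀ (by norm_num))).trans hyt)
      (h8.trans hmono) (hL.trans (by nlinarith)) (lt_of_le_of_lt (by nlinarith) hn)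
    have e : 2 * (y / 2 ^ (j + 1)) = y / 2 ^ j := by
      rw [pow_succ]; field_simp
    rw [e] at key
    have e2 : (2 / 3 : ℝ) ^ (j + 1) = (2 / 3) ^ j * (2 / 3) := pow_succ _ _
    rw [e2]
    linarith

/-- no good pair: the contradiction between `good_pair` and `P1` -/
lemma no_good {ω t y b₀ σ c'' δ θ₀ C5 μ κ c : ℝ} {g : ℕ} (hω : 0 < ω) (hω' : ω < π / 2)
    (hF : C.Fat ω t) (hy : 0 < y) (h2y : 2 * y ≤ t)
    (hb0 : 0 < b₀) (hb1 : b₀ ≤ 1) (hσ : 0 < σ) (hσy : σ ≤ y)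
    (hc'' : 0 < c'') (hδ : δ = c'' / 2) (hμ : 0 < μ)
    (hg : (1 - δ) * C.m σ ≤ g)
    (hθ0 : 0 < θ₀) (hθ1 : θ₀ < π / 2)
    (hcos : Real.cos θ₀ = (2 + 2 * Real.cos b₀) / (3 + Real.cos b₀))
    (hC5 : C5 = 4 * π / θ₀ + 32 * (CC ω) ^ 2)
    (hms : (C.m ((1 - (1 - Real.cos b₀) / 4) * σ) : ℝ) ≤ (1 - c'') * C.m σ)
    (hmσ : μ * C.m y ≤ C.m σ) (hm1 : 1 ≤ C.m y) (hn : 0 < n)
    (hκ : (C.m y : ℝ) ≤ κ * n) (hκ' : κ * n / 2 ≤ C.m y)
    (hκC : 400 * C5 * κ ≤ c'' * μ) (hL : (C.L : ℝ) ≤ c * n) (hc : 16 * c ≤ c'' * μ * κ)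
    {a : ℤ} {k : ℕ} {ψ : ℝ} (hk : 1 ≤ k) (htip : C.tip ω y a k)
    (hψ : C.p (a + k) - C.p a = (C.d a (a + k) : ℂ) * Complex.exp ((ψ : ℂ) * Complex.I))
    (hA : b₀ ≤ ψ - C.θ (a - 1)) (hB : b₀ ≤ C.θ (a + k) - ψ)
    (hf : g ≤ C.fwd (a + k) σ) (hb : g ≤ C.bwd a σ)
    (hw1 : C.θ (a + k + g) - C.θ (a + k) ≤ ω / 2) (hw2 : C.θ (a - 1) - C.θ (a - 1 - g) ≤ ω / 2)
    (hσd : σ ≤ (1 - Real.cos b₀) * C.d a (a + k)) : False := by
  have hcosb : 0 < Real.cos b₀ := Real.cos_pos_of_le_one (by rw [abs_of_pos hb0]; exact hb1)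
  have hcosb1 : Real.cos b₀ ≤ 1 := Real.cos_le_one _
  have hπ := Real.pi_gt_three
  have h1 := C.good_pair hω hω' hb0 (by linarith) hk htip hψ hA hB hf hb hw1 hw2 hσ.le hσd
  set d := C.d a (a + k) with hd
  have hdpos : 0 < d := by
    by_contra hneg
    have : (1 - Real.cos b₀) * d ≤ 0 := by
      apply mul_nonpos_of_nonneg_of_nonpos (by linarith) (not_lt.mp hneg)
    linarith
  have hdy : d ≤ y := htip.2.2
  have hw : 0 < (1 + Real.cos b₀) / 2 * σ := by positivity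
  have hmono : (C.m y : ℝ) ≤ C.m (2 * y) := by exact_mod_cast C.m_mono (by linarith)
  have hm2 : 1 ≤ C.m (2 * y) := hm1.trans (C.m_mono (by linarith))
  have h2 := C.P1 (u := d) (w := (1 + Real.cos b₀) / 2 * σ) (z := 2 * y) hω hω' hF hθ0 hθ1 hdpos hw
    (by nlinarith) h2y hm2
  have hwcos : (1 + Real.cos b₀) / 2 * σ / Real.cos θ₀ = (1 - (1 - Real.cos b₀) / 4) * σ := by
    rw [hcos]
    have : (3 + Real.cos b₀) ≠ 0 := by positivity
    have : (2 + 2 * Real.cos b₀) ≠ 0 := by positivity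
    field_simp
    ring
  rw [hwcos, ← hC5] at h2
  have h3 := C.m_le_m3 y (2 * y) hy
  have hyy : 2 * y / y = 2 := by field_simp
  rw [hyy] at h3
  have hm1' : (1 : ℝ) ≤ C.m y := by exact_mod_cast hm1
  have h4 : (C.m (2 * y) : ℝ) ≤ 10 * C.m y := by nlinarith
  have hn' : (0 : ℝ) < n := by exact_mod_cast hn
  have h1' : (g : ℝ) + 1 ≤ C.R (Set.Icc d (d + (1 + Real.cos b₀) / 2 * σ)) := by exact_mod_cast h1
  have hC5pos : 0 < C5 := by
    rw [hC5]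
    have := sq_nonneg (CC ω)
    positivity
  have h5 : (C.m (2 * y) : ℝ) ^ 2 ≤ 100 * (C.m y : ℝ) * (κ * n) := by
    have h0 : (0 : ℝ) ≤ C.m (2 * y) := by positivity
    have : (C.m (2 * y) : ℝ) ^ 2 ≤ (10 * C.m y) ^ 2 := by
      apply pow_le_pow_left₀ h0 h4
    nlinarith
  -- divide by n
  have h6 : 2 * (n : ℝ) * ((1 - δ) * C.m σ + 1)
      ≤ 2 * n * (c * n) + 2 * n * ((1 - c'') * C.m σ + 1) + C5 * (100 * (C.m y : ℝ) * (κ * n)) := by
    calc 2 * (n : ℝ) * ((1 - δ) * C.m σ + 1)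
        ≤ 2 * n * C.R (Set.Icc d (d + (1 + Real.cos b₀) / 2 * σ)) := by
          apply mul_le_mul_of_nonneg_left _ (by positivity); linarith
      _ ≤ _ := h2
      _ ≤ _ := by
          have e1 : 2 * (n : ℝ) * C.L ≤ 2 * n * (c * n) :=
            mul_le_mul_of_nonneg_left hL (by positivity)
          have e2 : 2 * (n : ℝ) * (C.m ((1 - (1 - Real.cos b₀) / 4) * σ) + 1)
              ≤ 2 * n * ((1 - c'') * C.m σ + 1) :=
            mul_le_mul_of_nonneg_left (by linarith) (by positivity)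
          have e3 := mul_le_mul_of_nonneg_left h5 hC5pos.le
          linarith
  have h7 : (1 - δ) * C.m σ + 1
      ≤ c * n + ((1 - c'') * C.m σ + 1) + 50 * C5 * κ * C.m y := by
    have : 2 * (n : ℝ) * ((1 - δ) * C.m σ + 1)
      ≤ 2 * n * (c * n + ((1 - c'') * C.m σ + 1) + 50 * C5 * κ * C.m y) := by linarith
    exact le_of_mul_le_mul_left this (by positivity)
  rw [hδ] at h7
  have h8 : c'' / 2 * (μ * C.m y) ≤ c'' / 2 * C.m σ :=
    mul_le_mul_of_nonneg_left hmσ (by positivity)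
  have h9 : 50 * C5 * κ * C.m y ≤ c'' * μ / 8 * C.m y := by
    apply mul_le_mul_of_nonneg_right _ (by positivity); linarith
  have h10 : c * n ≤ c'' * μ / 8 * C.m y := by
    have e1 : c * n ≤ c'' * μ * κ / 16 * n := by
      apply mul_le_mul_of_nonneg_right _ hn'.le; linarith
    have e2 : c'' * μ / 8 * (κ * n / 2) ≤ c'' * μ / 8 * C.m y :=
      mul_le_mul_of_nonneg_left hκ' (by positivity)
    linarith
  have h11 : 0 < c'' * μ * C.m y := by positivity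
  linarith

/-- bound of the exceptional pairs -/
lemma exc_bound {ω t y b₀ σ δ s₁ : ℝ} {g : ℕ} (hω : 0 < ω) (hω' : ω < π / 2)
    (hF : C.Fat ω t) (hy : 0 < y) (hs₁ : 0 < s₁)
    (hσ : 0 < σ) (hσt : σ ≤ t) (hδ : 0 < δ)
    (hg : (g : ℝ) < (1 - δ) * C.m σ + 1) (hgm : g ≤ C.m σ)
    (hm1 : 1 ≤ C.m σ) (hL : (n : ℝ) * C.L ≤ (C.m σ : ℝ) ^ 2)
    (hmy : 3200 * CC ω ≤ C.m y)
    (hs : (C.m (s₁ * y) : ℝ) ≤ C.m y / (40 * CC ω))
    (hb : (C.m (b₀ * y / Real.sin ω) : ℝ) ≤ C.m y / (3200 * CC ω))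
    (hmσ : (C.m σ : ℝ) ≤ C.m y / (200 * CC ω * (2 * C2 ω δ + 8 * π / ω)))
    (hsplit : (C.Tip ω y : ℝ) ≤ C.Tip ω (s₁ * y) + CC ω * (C.m y + 1) *
      ((((Finset.range n).filter (fun b : ℕ => C.fwd (b : ℤ) σ < g)).card : ℝ)
        + (((Finset.range n).filter (fun a : ℕ => C.bwd (a : ℤ) σ < g)).card : ℝ)
        + (((Finset.range n).filter (fun b : ℕ => ω / 2 ≤ C.θ ((b : ℤ) + g) - C.θ (b : ℤ))).card : ℝ)
        + (((Finset.range n).filter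
            (fun a : ℕ => ω / 2 ≤ C.θ ((a : ℤ) - 1) - C.θ ((a : ℤ) - 1 - g))).card : ℝ)
        + 8 * (C.m (b₀ * y / Real.sin ω) + 1))) :
    (C.Tip ω y : ℝ) ≤ 3 / 100 * (C.m y : ℝ) ^ 2 := by
  have hπ := Real.pi_pos
  have hCC := CC_ge (ω := ω)
  have hC2 : 0 < C2 ω δ := C2_pos hδ
  have hmy1 : (1 : ℝ) ≤ C.m y := by linarith
  have hX1 := C.atyp_fwd hω hω' hF hσ hσt hδ hm1 hL
  have hX2 := C.atyp_bwd hω hω' hF hσ hσt hδ hm1 hL
  have hsub1 : (((Finset.range n).filter (fun b : ℕ => C.fwd (b : ℤ) σ < g)).card : ℝ)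
      ≤ C2 ω δ * C.m σ := by
    refine le_trans ?_ hX1
    have : ((Finset.range n).filter (fun b : ℕ => C.fwd (b : ℤ) σ < g)).card
      ≤ ((Finset.range n).filter (fun a : ℕ => (C.fwd (a : ℤ) σ : ℝ) < (1 - δ) * C.m σ)).card := by
      apply Finset.card_le_card
      intro a ha
      rw [Finset.mem_filter] at ha ⊢
      refine ⟨ha.1, ?_⟩
      have : (C.fwd (a : ℤ) σ : ℝ) + 1 ≤ g := by exact_mod_cast ha.2
      linarith
    exact_mod_cast this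
  have hsub2 : (((Finset.range n).filter (fun b : ℕ => C.bwd (b : ℤ) σ < g)).card : ℝ)
      ≤ C2 ω δ * C.m σ := by
    refine le_trans ?_ hX2
    have : ((Finset.range n).filter (fun b : ℕ => C.bwd (b : ℤ) σ < g)).card
      ≤ ((Finset.range n).filter (fun a : ℕ => (C.bwd (a : ℤ) σ : ℝ) < (1 - δ) * C.m σ)).card := by
      apply Finset.card_le_card
      intro a ha
      rw [Finset.mem_filter] at ha ⊢
      refine ⟨ha.1, ?_⟩
      have : (C.bwd (a : ℤ) σ : ℝ) + 1 ≤ g := by exact_mod_cast ha.2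
      linarith
    exact_mod_cast this
  have hgm' : (g : ℝ) ≤ C.m σ := by exact_mod_cast hgm
  have hturn : (((Finset.range n).filter
      (fun b : ℕ => ω / 2 ≤ C.θ ((b : ℤ) + g) - C.θ (b : ℤ))).card : ℝ) ≤ 4 * π / ω * C.m σ := by
    have h := C.turn_count g (ω / 2)
    have h2 : ω / 2 * (((Finset.range n).filter
      (fun b : ℕ => ω / 2 ≤ C.θ ((b : ℤ) + g) - C.θ (b : ℤ))).card : ℝ)
        ≤ ω / 2 * (4 * π / ω * C.m σ) := by
      refine h.trans ?_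
      have : ω / 2 * (4 * π / ω * C.m σ) = 2 * π * C.m σ := by field_simp; ring
      rw [this]
      exact mul_le_mul_of_nonneg_left hgm' (by positivity)
    exact le_of_mul_le_mul_left h2 (by positivity)
  have hturn' : (((Finset.range n).filter
      (fun a : ℕ => ω / 2 ≤ C.θ ((a : ℤ) - 1) - C.θ ((a : ℤ) - 1 - g))).card : ℝ)
        ≤ 4 * π / ω * C.m σ := by
    refine le_trans (le_of_eq ?_) hturn
    have h := card_shift (n := n) (fun i => ω / 2 ≤ C.θ (i + g) - C.θ i) C.n_pos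
      (by
        intro i
        have e1 : C.θ (i + n + g) = C.θ (i + g) + 2 * π := by
          rw [show i + (n : ℤ) + g = (i + g) + n by ring, C.θ_per]
        rw [e1, C.θ_per]
        constructor <;> intro h <;> linarith) (-1 - g)
    rw [← h]
    congr 2
    apply Finset.filter_congr
    intro a _
    rw [show (-1 - (g : ℤ)) + (a : ℤ) + g = a - 1 by ring,
      show (-1 - (g : ℤ)) + (a : ℤ) = a - 1 - g by ring]
  -- the small pairs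
  have hT1 : (C.Tip ω (s₁ * y) : ℝ) ≤ (C.m y : ℝ) ^ 2 / 100 := by
    refine (C.tip_count hω hω' (by positivity)).trans ?_
    have h1 : CC ω * (C.m (s₁ * y) + 1) ≤ C.m y / 20 := by
      have : CC ω * C.m (s₁ * y) ≤ C.m y / 40 := by
        calc CC ω * C.m (s₁ * y) ≤ CC ω * (C.m y / (40 * CC ω)) :=
              mul_le_mul_of_nonneg_left hs (by linarith)
          _ = C.m y / 40 := by field_simp
      linarith
    have h0 : 0 ≤ CC ω * (C.m (s₁ * y) + 1) := by positivity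
    have := pow_le_pow_left₀ h0 h1 2
    nlinarith
  have hT2 : CC ω * (C.m y + 1) * (8 * (C.m (b₀ * y / Real.sin ω) + 1)) ≤ (C.m y : ℝ) ^ 2 / 100 := by
    have h1 : CC ω * (C.m (b₀ * y / Real.sin ω) + 1) ≤ C.m y / 1600 := by
      have : CC ω * C.m (b₀ * y / Real.sin ω) ≤ C.m y / 3200 := by
        calc CC ω * C.m (b₀ * y / Real.sin ω) ≤ CC ω * (C.m y / (3200 * CC ω)) :=
              mul_le_mul_of_nonneg_left hb (by linarith)
          _ = C.m y / 3200 := by field_simp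
      linarith
    have h2 : (C.m y : ℝ) + 1 ≤ 2 * C.m y := by linarith
    calc CC ω * (C.m y + 1) * (8 * (C.m (b₀ * y / Real.sin ω) + 1))
        = 8 * (C.m y + 1) * (CC ω * (C.m (b₀ * y / Real.sin ω) + 1)) := by ring
      _ ≤ 8 * (2 * C.m y) * (C.m y / 1600) := by
          apply mul_le_mul _ h1 (by positivity) (by positivity)
          linarith
      _ = (C.m y : ℝ) ^ 2 / 100 := by ring
  have hT3 : CC ω * (C.m y + 1) * (2 * (C2 ω δ * C.m σ) + 2 * (4 * π / ω * C.m σ))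
      ≤ (C.m y : ℝ) ^ 2 / 100 := by
    have hK : 0 < 2 * C2 ω δ + 8 * π / ω := by positivity
    have h1 : CC ω * ((2 * C2 ω δ + 8 * π / ω) * C.m σ) ≤ C.m y / 200 := by
      calc CC ω * ((2 * C2 ω δ + 8 * π / ω) * C.m σ)
          ≤ CC ω * ((2 * C2 ω δ + 8 * π / ω) *
              (C.m y / (200 * CC ω * (2 * C2 ω δ + 8 * π / ω)))) := by
            apply mul_le_mul_of_nonneg_left _ (by linarith)
            exact mul_le_mul_of_nonneg_left hmσ hK.le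
        _ = C.m y / 200 := by field_simp
    have h2 : (C.m y : ℝ) + 1 ≤ 2 * C.m y := by linarith
    calc CC ω * (C.m y + 1) * (2 * (C2 ω δ * C.m σ) + 2 * (4 * π / ω * C.m σ))
        = (C.m y + 1) * (CC ω * ((2 * C2 ω δ + 8 * π / ω) * C.m σ)) := by ring
      _ ≤ (2 * C.m y) * (C.m y / 200) := by
          apply mul_le_mul h2 h1 (by positivity) (by positivity)
      _ = (C.m y : ℝ) ^ 2 / 100 := by ring
  have hcoef : 0 ≤ CC ω * (C.m y + 1) := by positivity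
  have hall := mul_le_mul_of_nonneg_left (add_le_add (add_le_add (add_le_add (add_le_add hsub1 hsub2)
    hturn) hturn') (le_refl (8 * ((C.m (b₀ * y / Real.sin ω) : ℝ) + 1)))) hcoef
  nlinarith

/-- the scale `y` -/
lemma exists_y {τ κ M₀ Δ : ℝ} (hκ0 : 0 < κ) (hκ1 : κ ≤ 1 / 16) (hτ : 0 < τ)
    (hκτ : κ ≤ τ ^ 2 / 64) (hM : 1 ≤ M₀) (hn : 2 * (M₀ + 1) ≤ κ * n)
    (hΔ0 : 0 < Δ) (hΔ : ∀ i j, C.d i j ≤ Δ) :
    ∃ y : ℝ, 0 < y ∧ (C.m y : ℝ) ≤ κ * n ∧ κ * n / 2 ≤ (C.m y : ℝ) ∧ M₀ ≤ C.m y ∧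
      2 * y ≤ τ * Δ := by
  have hnpos : (0 : ℝ) < n := by
    by_contra h
    have : κ * n ≤ 0 := mul_nonpos_of_nonneg_of_nonpos hκ0.le (not_lt.mp h)
    linarith
  have hfl : (⌊κ * n⌋₊ : ℝ) ≤ κ * n := Nat.floor_le (by positivity)
  have hfl' : κ * n < ⌊κ * n⌋₊ + 1 := Nat.lt_floor_add_one _
  obtain ⟨y, hy, hmy, -⟩ := C.exists_m_eq ⌊κ * n⌋₊
    (by
      apply Nat.le_floor
      push_cast
      linarith)
    (by
      have : (4 * ⌊κ * n⌋₊ : ℝ) ≤ n := by nlinarith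
      exact_mod_cast this)
  have hmκ : (C.m y : ℝ) ≤ κ * n := by rw [hmy]; exact hfl
  have hmκ' : κ * n / 2 ≤ C.m y := by rw [hmy]; linarith
  have hmM : M₀ ≤ C.m y := by linarith
  refine ⟨y, hy, hmκ, hmκ', hmM, ?_⟩
  have h := C.n_le_m3 y Δ hy hΔ
  have h1 : (C.m y : ℝ) + 1 ≤ 2 * (κ * n) := by linarith
  have h2 : (n : ℝ) ≤ 4 * (((Δ / y) ^ 2 + 1) * (2 * (κ * n))) := by
    refine h.trans ?_
    apply mul_le_mul_of_nonneg_left _ (by norm_num)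
    exact mul_le_mul_of_nonneg_left h1 (by positivity)
  have h3 : 1 ≤ 8 * κ * ((Δ / y) ^ 2 + 1) := by
    have : (n : ℝ) * 1 ≤ n * (8 * κ * ((Δ / y) ^ 2 + 1)) := by linarith
    exact le_of_mul_le_mul_left this hnpos
  have h4 : 1 ≤ 16 * κ * (Δ / y) ^ 2 := by nlinarith
  have h5 : y ^ 2 ≤ 16 * κ * Δ ^ 2 := by
    rw [div_pow, ← mul_div_assoc, le_div_iff₀ (by positivity)] at h4
    linarith
  have h6 : y ^ 2 ≤ (τ * Δ / 2) ^ 2 := by
    have : 16 * κ * Δ ^ 2 ≤ (τ * Δ / 2) ^ 2 := by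
      have : 16 * κ ≤ τ ^ 2 / 4 := by linarith
      nlinarith [sq_nonneg Δ]
    linarith
  have h7 : y ≤ τ * Δ / 2 := by
    have := abs_le_of_sq_le_sq' h6 (by positivity)
    exact this.2
  linarith

/-- lower bounds at the smallest scale -/
lemma low_scale {y μ κ c : ℝ} {r : ℕ} (hy : 0 < y) (hμ : μ = 1 / (2 * (4 ^ r + 1)))
    (hM2 : 2 * (4 ^ r + 1) ≤ (C.m y : ℝ)) (hM3 : 8 / μ ≤ (C.m y : ℝ)) (hκ0 : 0 < κ)
    (hmκ' : κ * n / 2 ≤ (C.m y : ℝ)) (hcμ : 4 * c ≤ μ ^ 2 * κ ^ 2) (hn : (0 : ℝ) < n)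
    (hL : (C.L : ℝ) < c * n) :
    μ * C.m y ≤ C.m (y / 2 ^ r) ∧ 8 ≤ C.m (y / 2 ^ r) ∧
      (n : ℝ) * C.L ≤ (C.m (y / 2 ^ r) : ℝ) ^ 2 := by
  have h4r : (0 : ℝ) < 4 ^ r := by positivity
  have hμ0 : 0 < μ := by rw [hμ]; positivity
  have hlow : μ * C.m y ≤ C.m (y / 2 ^ r) := by
    have h := C.m_le_m3 (y / 2 ^ r) y (by positivity)
    have e : (y / (y / 2 ^ r)) ^ 2 = 4 ^ r := by
      have : y / (y / 2 ^ r) = 2 ^ r := by field_simp
      rw [this, ← pow_mul, mul_comm, pow_mul]; norm_num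
    rw [e] at h
    rw [hμ, div_mul_eq_mul_div, one_mul, div_le_iff₀ (by positivity)]
    nlinarith
  have h8 : (8 : ℝ) ≤ C.m (y / 2 ^ r) := by
    rw [div_le_iff₀ hμ0] at hM3
    linarith
  refine ⟨hlow, by exact_mod_cast h8, ?_⟩
  have h1 : (n : ℝ) * C.L ≤ n * (c * n) := mul_le_mul_of_nonneg_left hL.le hn.le
  have h2 : (μ * (κ * n / 2)) ^ 2 ≤ (C.m (y / 2 ^ r) : ℝ) ^ 2 := by
    apply pow_le_pow_left₀ (by positivity)
    exact (mul_le_mul_of_nonneg_left hmκ' hμ0.le).trans hlow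
  have h3 : n * (c * n) ≤ (μ * (κ * n / 2)) ^ 2 := by
    have e : (μ * (κ * n / 2)) ^ 2 = (μ ^ 2 * κ ^ 2 / 4) * (n : ℝ) ^ 2 := by ring
    rw [e]
    have : c * (n : ℝ) ^ 2 ≤ (μ ^ 2 * κ ^ 2 / 4) * (n : ℝ) ^ 2 :=
      mul_le_mul_of_nonneg_right (by linarith) (by positivity)
    linarith
  linarith

/-- choice of `σ` -/
lemma choose_sigma {ω t y κ μ c' c'' : ℝ} {r r₃ : ℕ} (hω : 0 < ω) (hω' : ω < π / 2)
    (hF : C.Fat ω t) (hy : 0 < y) (hyt : y ≤ t) (hr : r₃ + 1 ≤ r)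
    (hsig : ∀ (n : ℕ) (C : CP n) (σ₀ : ℝ), 0 < σ₀ → 1 ≤ C.m σ₀ →
      3 / 2 * (C.m σ₀ : ℝ) ≤ C.m (2 * σ₀) →
      ∃ σ, σ₀ ≤ σ ∧ σ ≤ 2 * σ₀ ∧ (C.m ((1 - c') * σ) : ℝ) ≤ (1 - c'') * C.m σ)
    (hmκ : (C.m y : ℝ) ≤ κ * n) (hκ2 : (2 * C2 ω (1 / 8) + 8) * κ < 1) (hn : (0 : ℝ) < n)
    (hlow : μ * C.m y ≤ C.m (y / 2 ^ r)) (h8 : 8 ≤ C.m (y / 2 ^ r))
    (hnL : (n : ℝ) * C.L ≤ (C.m (y / 2 ^ r) : ℝ) ^ 2) :
    (∀ j ≤ r, (C.m (y / 2 ^ j) : ℝ) ≤ (2 / 3) ^ j * C.m y) ∧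
    ∃ σ, 0 < σ ∧ σ ≤ (1 / 2) ^ r₃ * y ∧ σ ≤ y ∧ (C.m ((1 - c') * σ) : ℝ) ≤ (1 - c'') * C.m σ ∧
      μ * C.m y ≤ C.m σ ∧ (C.m σ : ℝ) ≤ (2 / 3) ^ r₃ * C.m y ∧ 1 ≤ C.m σ ∧
      (n : ℝ) * C.L ≤ (C.m σ : ℝ) ^ 2 := by
  have hC2' : 0 < C2 ω (1 / 8) := C2_pos (by norm_num)
  have hbig : (2 * C2 ω (1 / 8) + 8) * C.m y < n := by
    have h1 : (2 * C2 ω (1 / 8) + 8) * C.m y ≤ (2 * C2 ω (1 / 8) + 8) * (κ * n) :=
      mul_le_mul_of_nonneg_left hmκ (by positivity)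
    have h2 : (2 * C2 ω (1 / 8) + 8) * (κ * n) < n := by
      have := mul_lt_mul_of_pos_right hκ2 hn
      linarith
    linarith
  have hiter := C.iter_doubling hω hω' hF hy hyt r h8 hnL hbig
  have hσ₀ : 0 < y / 2 ^ (r₃ + 1) := by positivity
  have hmono₀ : C.m (y / 2 ^ r) ≤ C.m (y / 2 ^ (r₃ + 1)) := by
    apply C.m_mono
    apply div_le_div_of_nonneg_left hy.le (by positivity)
    exact pow_le_pow_right₀ (by norm_num) hr
  have h2σ₀ : 2 * (y / 2 ^ (r₃ + 1)) = y / 2 ^ r₃ := by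
    rw [pow_succ]; field_simp
  have hmono₀' : (C.m (y / 2 ^ r) : ℝ) ≤ C.m (y / 2 ^ (r₃ + 1)) := by exact_mod_cast hmono₀
  have hle : y / 2 ^ (r₃ + 1) ≤ y := div_le_self hy.le (one_le_pow₀ (by norm_num))
  have hdb : 3 / 2 * (C.m (y / 2 ^ (r₃ + 1)) : ℝ) ≤ C.m (2 * (y / 2 ^ (r₃ + 1))) := by
    apply C.doubling hω hω' hF hσ₀ (hle.trans hyt) (h8.trans hmono₀)
    · refine hnL.trans ?_
      exact pow_le_pow_left₀ (by positivity) hmono₀' 2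
    · have h0 : (C.m (y / 2 ^ (r₃ + 1)) : ℝ) ≤ C.m y := Nat.cast_le.mpr (C.m_mono hle)
      exact lt_of_le_of_lt (mul_le_mul_of_nonneg_left h0 (by positivity)) hbig
  obtain ⟨σ, hσ1, hσ2, hms⟩ := hsig n C _ hσ₀ ((by norm_num : 1 ≤ 8).trans (h8.trans hmono₀)) hdb
  rw [h2σ₀] at hσ2
  have hσpos : 0 < σ := lt_of_lt_of_le hσ₀ hσ1
  have hσy : σ ≤ y := hσ2.trans (div_le_self hy.le (one_le_pow₀ (by norm_num)))
  have hmm : C.m (y / 2 ^ r) ≤ C.m σ := hmono₀.trans (C.m_mono hσ1)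
  have hmm' : (C.m (y / 2 ^ r) : ℝ) ≤ C.m σ := Nat.cast_le.mpr hmm
  refine ⟨hiter, σ, hσpos, ?_, hσy, hms, hlow.trans hmm', ?_, ?_, ?_⟩
  · refine hσ2.trans (le_of_eq ?_)
    rw [one_div, inv_pow]; field_simp
  · have : (C.m σ : ℝ) ≤ C.m (y / 2 ^ r₃) := Nat.cast_le.mpr (C.m_mono hσ2)
    exact this.trans (hiter r₃ (by omega))
  · exact (by norm_num : 1 ≤ 8).trans (h8.trans hmm)
  · exact hnL.trans (pow_le_pow_left₀ (by positivity) hmm' 2)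

end Pool.Agent.Helper85.CVX.CP
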