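import Pool.Agent.Helper85.CVX.FatMain

/-! Fat case, final assembly, part 2 (helper85). -/

set_option autoImplicit false
open scoped Classical
open Real

noncomputable section

namespace Pool.Agent.Helper85.CVX.CP

variable {n : ℕ} (C : CP n)

/-- all tip pairs are exceptional, hence few -/
lemma tip_upper {ω t y b₀ σ c'' δ θ₀ C5 μ κ c : ℝ} {r₁ r₂ r₃ r : ℕ}
    (hω : 0 < ω) (hω' : ω < π / 2) (hF : C.Fat ω t) (hy : 0 < y) (h2y : 2 * y ≤ t)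
    (hr₁ : (2 / 3 : ℝ) ^ r₁ ≤ 1 / (40 * CC ω)) (hr₂ : (2 / 3 : ℝ) ^ r₂ ≤ 1 / (3200 * CC ω))
    (hr1 : r₁ ≤ r) (hr2 : r₂ ≤ r)
    (hb₀ : b₀ = Real.sin ω / 2 ^ r₂) (hb0 : 0 < b₀) (hb1 : b₀ ≤ 1)
    (hc''0 : 0 < c'') (hc''1 : c'' < 1) (hδ : δ = c'' / 2)
    (hθ0 : 0 < θ₀) (hθ1 : θ₀ < π / 2)
    (hcos : Real.cos θ₀ = (2 + 2 * Real.cos b₀) / (3 + Real.cos b₀))
    (hC5 : C5 = 4 * π / θ₀ + 32 * (CC ω) ^ 2)
    (hr₃ : (2 / 3 : ℝ) ^ r₃ ≤ 1 / (200 * CC ω * (2 * C2 ω δ + 8 * π / ω)))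
    (hr₃' : (1 / 2 : ℝ) ^ r₃ ≤ (1 - Real.cos b₀) * (1 / 2) ^ r₁)
    (hμ0 : 0 < μ) (hκC : 400 * C5 * κ ≤ c'' * μ) (hcκ : 16 * c ≤ c'' * μ * κ)
    (hnpos : (0 : ℝ) < n) (hL : (C.L : ℝ) ≤ c * n)
    (hmκ : (C.m y : ℝ) ≤ κ * n) (hmκ' : κ * n / 2 ≤ (C.m y : ℝ))
    (hM1 : 3200 * CC ω ≤ (C.m y : ℝ))
    (hiter : ∀ j ≤ r, (C.m (y / 2 ^ j) : ℝ) ≤ (2 / 3) ^ j * C.m y)
    (hσpos : 0 < σ) (hσ3 : σ ≤ (1 / 2) ^ r₃ * y) (hσy : σ ≤ y)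
    (hms : (C.m ((1 - (1 - Real.cos b₀) / 4) * σ) : ℝ) ≤ (1 - c'') * C.m σ)
    (hmσlow : μ * C.m y ≤ C.m σ) (hmσup : (C.m σ : ℝ) ≤ (2 / 3) ^ r₃ * C.m y)
    (hm1σ : 1 ≤ C.m σ) (hnLσ : (n : ℝ) * C.L ≤ (C.m σ : ℝ) ^ 2) :
    (C.Tip ω y : ℝ) ≤ 3 / 100 * (C.m y : ℝ) ^ 2 := by
  have hπ := Real.pi_gt_three
  have hCC := CC_ge (ω := ω)
  have hδ0 : 0 < δ := by rw [hδ]; positivity
  have hC2 : 0 < C2 ω δ := C2_pos hδ0
  have hsω : 0 < Real.sin ω := Real.sin_pos_of_pos_of_lt_pi hω (by linarith)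
  have hyt : y ≤ t := by linarith
  have hcosb1 : Real.cos b₀ ≤ 1 := Real.cos_le_one _
  have hn' : 0 < n := by exact_mod_cast hnpos
  have hmy1 : (1 : ℝ) ≤ C.m y := by linarith
  have hmy1' : 1 ≤ C.m y := by exact_mod_cast hmy1
  have hmy0 : (0 : ℝ) ≤ C.m y := by linarith
  -- the number g
  have hδ1 : δ ≤ 1 := by rw [hδ]; linarith
  have hmσ0 : (0 : ℝ) ≤ C.m σ := Nat.cast_nonneg _
  have hg0 : 0 ≤ (1 - δ) * C.m σ := mul_nonneg (by linarith) hmσ0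
  obtain ⟨g, hg1, hg2, hg3⟩ : ∃ g : ℕ, (1 - δ) * C.m σ ≤ g ∧ (g : ℝ) < (1 - δ) * C.m σ + 1 ∧
      g ≤ C.m σ := by
    refine ⟨⌈(1 - δ) * C.m σ⌉₊, Nat.le_ceil _, Nat.ceil_lt_add_one hg0, ?_⟩
    apply Nat.ceil_le.mpr
    nlinarith
  have hs₁ : (0 : ℝ) < (1 / 2) ^ r₁ := by positivity
  have hsplit := C.tip_split (ω := ω) (y := y) (b₀ := b₀) (σ := σ) (s₁ := (1 / 2) ^ r₁) (g := g)
    hω hω' hy hb0 (by linarith)
    (by
      intro a k ψ hk hkn htip hlt hψ hA hB hf hb hw1 hw2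
      have hσd : σ ≤ (1 - Real.cos b₀) * C.d a (a + k) := by
        have h2 : (1 / 2 : ℝ) ^ r₃ * y ≤ (1 - Real.cos b₀) * (1 / 2) ^ r₁ * y :=
          mul_le_mul_of_nonneg_right hr₃' hy.le
        have h3 : (1 - Real.cos b₀) * ((1 / 2) ^ r₁ * y) ≤ (1 - Real.cos b₀) * C.d a (a + k) :=
          mul_le_mul_of_nonneg_left hlt.le (by linarith)
        linarith
      exact C.no_good (t := t) (y := y) (b₀ := b₀) (σ := σ) (c'' := c'') (δ := δ) (θ₀ := θ₀)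
        (C5 := C5) (μ := μ) (κ := κ) (c := c) (g := g) hω hω' hF hy h2y hb0 hb1 hσpos hσy hc''0 hδ
        hμ0 hg1 hθ0 hθ1 hcos hC5 hms hmσlow hmy1' hn' hmκ hmκ' hκC hL hcκ hk htip hψ hA hB hf hb
        hw1 hw2 hσd)
  refine C.exc_bound (t := t) (δ := δ) hω hω' hF hy hs₁ hσpos (hσy.trans hyt) hδ0 hg2 hg3
    hm1σ hnLσ hM1 ?_ ?_ ?_ hsplit
  · have h1 := hiter r₁ hr1
    have e : (1 / 2 : ℝ) ^ r₁ * y = y / 2 ^ r₁ := by rw [one_div, inv_pow]; field_simp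
    rw [e]
    refine h1.trans ((mul_le_mul_of_nonneg_right hr₁ hmy0).trans (le_of_eq ?_))
    rw [one_div, inv_mul_eq_div]
  · have h1 := hiter r₂ hr2
    have e : b₀ * y / Real.sin ω = y / 2 ^ r₂ := by rw [hb₀]; field_simp
    rw [e]
    refine h1.trans ((mul_le_mul_of_nonneg_right hr₂ hmy0).trans (le_of_eq ?_))
    rw [one_div, inv_mul_eq_div]
  · refine hmσup.trans ((mul_le_mul_of_nonneg_right hr₃ hmy0).trans (le_of_eq ?_))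
    rw [one_div, inv_mul_eq_div]

/-- final contradiction -/
lemma tip_contra {ω t y κ c : ℝ} (hω : 0 < ω) (hω' : ω < π / 2) (hF : C.Fat ω t)
    (hy : 0 < y) (hyt : y ≤ t) (hκ0 : 0 < κ) (hc400 : 400 * c ≤ κ ^ 2) (hcCC : 16 * CC ω * c ≤ κ)
    (hnpos : (0 : ℝ) < n) (hL : (C.L : ℝ) ≤ c * n) (hmκ' : κ * n / 2 ≤ (C.m y : ℝ))
    (hM1 : 3200 * CC ω ≤ (C.m y : ℝ)) (hexc : (C.Tip ω y : ℝ) ≤ 3 / 100 * (C.m y : ℝ) ^ 2) :
    False := by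
  have hCC := CC_ge (ω := ω)
  have hlower := C.tip_lower hω hω' hF hy hyt
    (by
      have h1 : 2 * (CC ω * (C.L + 2)) ≤ 2 * (CC ω * (c * n + 2)) := by
        apply mul_le_mul_of_nonneg_left _ (by norm_num)
        apply mul_le_mul_of_nonneg_left _ (by linarith)
        linarith
      have h2 : 2 * (CC ω * (c * n)) ≤ C.m y / 4 := by
        have := mul_le_mul_of_nonneg_right hcCC hnpos.le
        nlinarith
      nlinarith)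
  have hfin : (n : ℝ) * C.L ≤ (C.m y : ℝ) ^ 2 / 100 := by
    have h1 : (n : ℝ) * C.L ≤ n * (c * n) := mul_le_mul_of_nonneg_left hL hnpos.le
    have h2 : (κ * n / 2) ^ 2 ≤ (C.m y : ℝ) ^ 2 := pow_le_pow_left₀ (by positivity) hmκ' 2
    have h3 : n * (c * n) ≤ (κ * n / 2) ^ 2 / 100 := by
      have e : (κ * n / 2) ^ 2 / 100 = (κ ^ 2 / 400) * (n : ℝ) ^ 2 := by ring
      rw [e]
      have : c * (n : ℝ) ^ 2 ≤ (κ ^ 2 / 400) * (n : ℝ) ^ 2 :=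
        mul_le_mul_of_nonneg_right (by linarith) (by positivity)
      linarith
    linarith
  have hm : (0 : ℝ) < C.m y := by linarith
  have : (0 : ℝ) < (C.m y : ℝ) ^ 2 := by positivity
  linarith

omit C in
theorem fat_main (ω τ : ℝ) (hω : 0 < ω) (hω' : ω < π / 2) (hτ : 0 < τ) :
    ∃ c : ℝ, 0 < c ∧ ∃ N : ℕ, ∀ n : ℕ, N ≤ n → ∀ (C : CP n) (Δ : ℝ), 0 < Δ →
      (∀ i j, C.d i j ≤ Δ) → C.Fat ω (τ * Δ) → c * n ≤ C.L := by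
  have hπ := Real.pi_gt_three
  have hCC := CC_ge (ω := ω)
  have hC2' : 0 < C2 ω (1 / 8) := C2_pos (by norm_num)
  have hsω : 0 < Real.sin ω := Real.sin_pos_of_pos_of_lt_pi hω (by linarith)
  have hpow : ∀ ε : ℝ, 0 < ε → ∃ r : ℕ, (2 / 3 : ℝ) ^ r ≤ ε := by
    intro ε hε
    obtain ⟨r, hr⟩ := exists_pow_lt_of_lt_one hε (by norm_num : (2 / 3 : ℝ) < 1)
    exact ⟨r, hr.le⟩
  obtain ⟨r₁, hr₁⟩ := hpow (1 / (40 * CC ω)) (by positivity)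
  obtain ⟨r₂, hr₂⟩ := hpow (1 / (3200 * CC ω)) (by positivity)
  obtain ⟨b₀, hb₀⟩ : ∃ b₀ : ℝ, b₀ = Real.sin ω / 2 ^ r₂ := ⟨_, rfl⟩
  have hb0 : 0 < b₀ := by rw [hb₀]; positivity
  have hb1 : b₀ ≤ 1 := by
    rw [hb₀]
    have h1 : (1 : ℝ) ≤ 2 ^ r₂ := one_le_pow₀ (by norm_num)
    rw [div_le_one (by positivity)]
    exact (Real.sin_le_one ω).trans h1
  have hcosb : 0 < Real.cos b₀ := Real.cos_pos_of_le_one (by rw [abs_of_pos hb0]; exact hb1)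
  have hcosb1 : Real.cos b₀ < 1 := by
    rw [← Real.cos_zero]
    exact Real.cos_lt_cos_of_nonneg_of_le_pi (le_refl 0) (by linarith) hb0
  obtain ⟨c'', hc''0, hc''1, hsig⟩ := exists_sigma ((1 - Real.cos b₀) / 4) (by linarith)
    (by linarith)
  obtain ⟨δ, hδ⟩ : ∃ δ : ℝ, δ = c'' / 2 := ⟨_, rfl⟩
  have hδ0 : 0 < δ := by rw [hδ]; positivity
  have hC2 : 0 < C2 ω δ := C2_pos hδ0
  obtain ⟨θ₀, hθ0, hθ1, hcos⟩ : ∃ θ₀ : ℝ, 0 < θ₀ ∧ θ₀ < π / 2 ∧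
      Real.cos θ₀ = (2 + 2 * Real.cos b₀) / (3 + Real.cos b₀) := by
    refine ⟨Real.arccos ((2 + 2 * Real.cos b₀) / (3 + Real.cos b₀)), ?_, ?_, ?_⟩
    · rw [Real.arccos_pos, div_lt_one (by positivity)]; linarith
    · rw [Real.arccos_lt_pi_div_two]; positivity
    · apply Real.cos_arccos
      · have : 0 ≤ (2 + 2 * Real.cos b₀) / (3 + Real.cos b₀) := by positivity
        linarith
      · rw [div_le_one (by positivity)]; linarith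
  obtain ⟨C5, hC5⟩ : ∃ C5 : ℝ, C5 = 4 * π / θ₀ + 32 * (CC ω) ^ 2 := ⟨_, rfl⟩
  have hC5pos : 0 < C5 := by rw [hC5]; positivity
  obtain ⟨ra, hra⟩ := hpow (1 / (200 * CC ω * (2 * C2 ω δ + 8 * π / ω))) (by positivity)
  obtain ⟨rb, hrb⟩ := exists_pow_lt_of_lt_one
    (show 0 < (1 - Real.cos b₀) * (1 / 2) ^ r₁ from mul_pos (by linarith) (by positivity))
    (by norm_num : (1 / 2 : ℝ) < 1)
  obtain ⟨r₃, hr₃, hr₃'⟩ : ∃ r₃ : ℕ,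
      (2 / 3 : ℝ) ^ r₃ ≤ 1 / (200 * CC ω * (2 * C2 ω δ + 8 * π / ω)) ∧
      (1 / 2 : ℝ) ^ r₃ ≤ (1 - Real.cos b₀) * (1 / 2) ^ r₁ := by
    refine ⟨max ra rb, ?_, ?_⟩
    · exact (pow_le_pow_of_le_one (by norm_num) (by norm_num) (le_max_left _ _)).trans hra
    · exact (pow_le_pow_of_le_one (by norm_num) (by norm_num) (le_max_right _ _)).trans hrb.le
  obtain ⟨r, hr⟩ : ∃ r : ℕ, r = r₁ + r₂ + r₃ + 1 := ⟨_, rfl⟩
  obtain ⟨μ, hμ⟩ : ∃ μ : ℝ, μ = 1 / (2 * (4 ^ r + 1)) := ⟨_, rfl⟩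
  have hμ0 : 0 < μ := by rw [hμ]; positivity
  obtain ⟨κ, hκ0, hκ1, hκτ, hκ2, hκC⟩ : ∃ κ : ℝ, 0 < κ ∧ κ ≤ 1 / 16 ∧ κ ≤ τ ^ 2 / 64 ∧
      (2 * C2 ω (1 / 8) + 8) * κ < 1 ∧ 400 * C5 * κ ≤ c'' * μ := by
    refine ⟨min (min (1 / 16) (τ ^ 2 / 64)) (min (1 / (2 * (2 * C2 ω (1 / 8) + 8)))
      (c'' * μ / (400 * C5))), ?_, ?_, ?_, ?_, ?_⟩
    · refine lt_min (lt_min (by norm_num) (by positivity)) (lt_min (by positivity) (by positivity))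
    · exact (min_le_left _ _).trans (min_le_left _ _)
    · exact (min_le_left _ _).trans (min_le_right _ _)
    · have h1 : min (min (1 / 16) (τ ^ 2 / 64)) (min (1 / (2 * (2 * C2 ω (1 / 8) + 8)))
        (c'' * μ / (400 * C5))) ≤ 1 / (2 * (2 * C2 ω (1 / 8) + 8)) :=
        (min_le_right _ _).trans (min_le_left _ _)
      have h2 := mul_le_mul_of_nonneg_left h1 (show 0 ≤ 2 * C2 ω (1 / 8) + 8 by positivity)
      have h3 : (2 * C2 ω (1 / 8) + 8) * (1 / (2 * (2 * C2 ω (1 / 8) + 8))) = 1 / 2 := by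
        field_simp
      linarith
    · have h1 : min (min (1 / 16) (τ ^ 2 / 64)) (min (1 / (2 * (2 * C2 ω (1 / 8) + 8)))
        (c'' * μ / (400 * C5))) ≤ c'' * μ / (400 * C5) :=
        (min_le_right _ _).trans (min_le_right _ _)
      have h2 := mul_le_mul_of_nonneg_left h1 (show 0 ≤ 400 * C5 by positivity)
      have h3 : 400 * C5 * (c'' * μ / (400 * C5)) = c'' * μ := by field_simp
      linarith
  obtain ⟨c, hc0, hcμ, hcκ, hc400, hcCC⟩ : ∃ c : ℝ, 0 < c ∧ 4 * c ≤ μ ^ 2 * κ ^ 2 ∧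
      16 * c ≤ c'' * μ * κ ∧ 400 * c ≤ κ ^ 2 ∧ 16 * CC ω * c ≤ κ := by
    refine ⟨min (min (μ ^ 2 * κ ^ 2 / 4) (c'' * μ * κ / 16)) (min (κ ^ 2 / 400)
      (κ / (16 * CC ω))), ?_, ?_, ?_, ?_, ?_⟩
    · refine lt_min (lt_min (by positivity) (by positivity)) (lt_min (by positivity) (by positivity))
    · have := (min_le_left (min (μ ^ 2 * κ ^ 2 / 4) (c'' * μ * κ / 16)) (min (κ ^ 2 / 400)
        (κ / (16 * CC ω)))).trans (min_le_left _ _)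
      linarith
    · have := (min_le_left (min (μ ^ 2 * κ ^ 2 / 4) (c'' * μ * κ / 16)) (min (κ ^ 2 / 400)
        (κ / (16 * CC ω)))).trans (min_le_right _ _)
      linarith
    · have := (min_le_right (min (μ ^ 2 * κ ^ 2 / 4) (c'' * μ * κ / 16)) (min (κ ^ 2 / 400)
        (κ / (16 * CC ω)))).trans (min_le_left _ _)
      linarith
    · have h1 := (min_le_right (min (μ ^ 2 * κ ^ 2 / 4) (c'' * μ * κ / 16)) (min (κ ^ 2 / 400)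
        (κ / (16 * CC ω)))).trans (min_le_right _ _)
      have h2 := mul_le_mul_of_nonneg_left h1 (show 0 ≤ 16 * CC ω by positivity)
      have h3 : 16 * CC ω * (κ / (16 * CC ω)) = κ := by field_simp
      linarith
  obtain ⟨M₀, hM₀⟩ : ∃ M₀ : ℝ, M₀ = 3200 * CC ω + 2 * (4 ^ r + 1) + 8 / μ := ⟨_, rfl⟩
  have h4r : (0 : ℝ) < 4 ^ r := by positivity
  have h8μ : 0 < 8 / μ := by positivity
  refine ⟨c, hc0, ⌈2 * (M₀ + 1) / κ⌉₊ + 1, ?_⟩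
  intro n hn C Δ hΔ0 hΔ hF
  by_contra hneg
  have hL : (C.L : ℝ) < c * n := not_le.mp hneg
  have hnbig : 2 * (M₀ + 1) ≤ κ * n := by
    have h1 : 2 * (M₀ + 1) / κ ≤ n := by
      refine (Nat.le_ceil _).trans ?_
      exact_mod_cast (Nat.le_succ _).trans hn
    rw [div_le_iff₀ hκ0] at h1
    linarith
  have hnpos : (0 : ℝ) < n := by
    have : 0 < n := by omega
    exact_mod_cast this
  obtain ⟨y, hy, hmκ, hmκ', hmM, h2y⟩ := C.exists_y hκ0 hκ1 hτ hκτ (by linarith) hnbig hΔ0 hΔ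
  have hM1 : 3200 * CC ω ≤ (C.m y : ℝ) := by linarith
  have hM2 : 2 * (4 ^ r + 1) ≤ (C.m y : ℝ) := by linarith
  have hM3 : 8 / μ ≤ (C.m y : ℝ) := by linarith
  obtain ⟨hlow, h8, hnL⟩ := C.low_scale hy hμ hM2 hM3 hκ0 hmκ' hcμ hnpos hL
  obtain ⟨hiter, σ, hσpos, hσ3, hσy, hms, hmσlow, hmσup, hm1σ, hnLσ⟩ :=
    C.choose_sigma (r₃ := r₃) hω hω' hF hy (by linarith) (by omega) hsig hmκ hκ2 hnpos hlow h8 hnL
  have hexc := C.tip_upper (t := τ * Δ) (r := r) hω hω' hF hy h2y hr₁ hr₂ (by omega) (by omega)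
    hb₀ hb0 hb1 hc''0 hc''1 hδ hθ0 hθ1 hcos hC5 hr₃ hr₃' hμ0 hκC hcκ hnpos hL.le hmκ hmκ' hM1
    hiter hσpos hσ3 hσy hms hmσlow hmσup hm1σ hnLσ
  exact C.tip_contra hω hω' hF hy (by linarith) hκ0 hc400 hcCC hnpos hL.le hmκ' hM1 hexc

end Pool.Agent.Helper85.CVX.CP
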