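import Pool.Agent.Helper85.CVX.Lift2

/-! Block LIFT3 (≈140 lines): transfer to point sets in `EuclideanSpace ℝ (Fin 2)`.
`f x = x 0 + x 1 * I` (e.g. `Complex.orthonormalBasisOneI.repr.symm` or by hand) is an isometry, affine, injective, so `P.image f` is in convex
position; `lift1`, `lift2` give `C` with `f '' P = {C.p i : i < n}`, injective on `i < n` (cardinality).  The map
`(a,k) ↦ (f⁻¹ (p a), f⁻¹ (p (a+k)))` is a bijection `Q n → P.offDiag` with `C.ch (a,k) = dist`, so both images and all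
multiplicities agree (`C.D = image dist`, `C.M {t} = card`), hence `C.L = ` the count. -/

set_option autoImplicit false
open scoped Classical
open Real

noncomputable section

namespace Pool.Agent.Helper85.CVX

theorem lift3 (n : ℕ) (hn : 3 ≤ n) (P : Finset (EuclideanSpace ℝ (Fin 2))) (hP : P.card = n)
    (hc : ∀ x ∈ P, x ∉ convexHull ℝ ((P : Set (EuclideanSpace ℝ (Fin 2))) \ {x})) :
    ∃ C : CP n, C.L = ((P.offDiag.image (fun x => dist x.1 x.2)).filter
      (fun d => (P.offDiag.filter (fun x => dist x.1 x.2 = d)).card ≤ 2 * n)).card := by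
  set e := Complex.orthonormalBasisOneI.repr.symm with he
  have hinj : Function.Injective e := e.injective
  have hP' : (P.image e).card = n := by rw [Finset.card_image_of_injective _ hinj, hP]
  have hc' : ∀ x ∈ P.image e, x ∉ convexHull ℝ (((P.image e : Finset ℂ) : Set ℂ) \ {x}) := by
    intro x hx hx2
    obtain ⟨y, hy, rfl⟩ := Finset.mem_image.1 hx
    apply hc y hy
    have h1 : ((P.image e : Finset ℂ) : Set ℂ) \ {e y} =
        e '' ((P : Set (EuclideanSpace ℝ (Fin 2))) \ {y}) := by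
      rw [Finset.coe_image, Set.image_sdiff hinj, Set.image_singleton]
    rw [h1] at hx2
    have h2 : convexHull ℝ (e '' ((P : Set (EuclideanSpace ℝ (Fin 2))) \ {y})) =
        e '' convexHull ℝ ((P : Set (EuclideanSpace ℝ (Fin 2))) \ {y}) :=
      (e.toLinearEquiv.toLinearMap.image_convexHull _).symm
    rw [h2] at hx2
    obtain ⟨w, hw, hwe⟩ := hx2
    rwa [hinj hwe] at hw
  obtain ⟨q, hq, hor⟩ := lift1 n hn _ hP' hc'
  obtain ⟨C, hC⟩ := lift2 n hn q hor
  refine ⟨C, ?_⟩
  have hn0 : 0 < n := by omega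
  have himg : (Finset.range n).image q = P.image e := by
    ext x
    rw [Finset.mem_image, hq x]
    constructor
    · rintro ⟨i, hi, rfl⟩; exact ⟨i, Finset.mem_range.1 hi, rfl⟩
    · rintro ⟨i, hi, rfl⟩; exact ⟨i, Finset.mem_range.2 hi, rfl⟩
  have hqinj : Set.InjOn q (Finset.range n : Set ℕ) := by
    apply Finset.card_image_iff.1
    rw [himg, hP', Finset.card_range]
  have hqi : ∀ i < n, ∀ j < n, q i = q j → i = j := fun i hi j hj h =>
    hqinj (by simpa using hi) (by simpa using hj) h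
  -- the vertices `a + k`
  have hak : ∀ a k : ℕ, a < n → k < n → C.p ((a : ℤ) + (k : ℤ)) = q ((a + k) % n) := by
    intro a k ha hk
    by_cases h : a + k < n
    · rw [Nat.mod_eq_of_lt h, ← hC _ h]
      push_cast; rfl
    · have h1 : a + k - n < n := by omega
      have h2 : (a + k) % n = a + k - n := by
        rw [Nat.mod_eq_sub_mod (by omega), Nat.mod_eq_of_lt h1]
      rw [h2, ← hC _ h1, ← C.p_per ((a + k - n : ℕ) : ℤ)]
      congr 1
      omega
  set Φ : ℕ × ℕ → EuclideanSpace ℝ (Fin 2) × EuclideanSpace ℝ (Fin 2) :=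
    fun x => (e.symm (C.p (x.1 : ℤ)), e.symm (C.p ((x.1 : ℤ) + (x.2 : ℤ)))) with hΦ
  have hdist : ∀ x ∈ Q n, dist (Φ x).1 (Φ x).2 = C.ch x := by
    intro x _
    simp only [hΦ, CP.ch, CP.d]
    rw [e.symm.dist_map, dist_comm, dist_eq_norm]
  have hmemQ : ∀ x : ℕ × ℕ, x ∈ Q n ↔ x.1 < n ∧ 1 ≤ x.2 ∧ x.2 < n := by
    intro x
    simp only [Q, Finset.mem_product, Finset.mem_range, Finset.mem_Ico]
  have hΦinj : Set.InjOn Φ (Q n : Set (ℕ × ℕ)) := by
    rintro ⟨a, k⟩ hx ⟨b, l⟩ hy hxy
    rw [Finset.mem_coe, hmemQ] at hx hy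
    simp only [hΦ, Prod.mk.injEq, EmbeddingLike.apply_eq_iff_eq] at hxy hx hy
    obtain ⟨h1, h2⟩ := hxy
    rw [hC _ hx.1, hC _ hy.1] at h1
    have h3 := hqi _ hx.1 _ hy.1 h1
    subst h3
    rw [hak _ _ hx.1 hx.2.2, hak _ _ hy.1 hy.2.2] at h2
    have h4 := hqi _ (Nat.mod_lt _ hn0) _ (Nat.mod_lt _ hn0) h2
    have h5 : k = l := by
      have h6 : (a + k) ≡ (a + l) [MOD n] := h4
      have h7 : k ≡ l [MOD n] := Nat.ModEq.add_left_cancel' a h6
      exact Nat.ModEq.eq_of_lt_of_lt h7 hx.2.2 hy.2.2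
    rw [h5]
  have hoff : P.offDiag = (Q n).image Φ := by
    ext ⟨u, v⟩
    rw [Finset.mem_offDiag, Finset.mem_image]
    constructor
    · rintro ⟨hu, hv, huv⟩
      obtain ⟨i, hi, hiu⟩ := (hq (e u)).1 (Finset.mem_image_of_mem _ hu)
      obtain ⟨j, hj, hjv⟩ := (hq (e v)).1 (Finset.mem_image_of_mem _ hv)
      have hij : i ≠ j := by
        rintro rfl
        exact huv (hinj (hiu.symm.trans hjv))
      refine ⟨(i, (j + n - i) % n), ?_, ?_⟩
      · rw [hmemQ]
        refine ⟨hi, ?_, Nat.mod_lt _ hn0⟩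
        simp only
        by_contra hcon
        have h0 : (j + n - i) % n = 0 := by omega
        have h1 : n ∣ j + n - i := Nat.dvd_of_mod_eq_zero h0
        obtain ⟨c, hc2⟩ := h1
        have : c = 1 := by
          rcases c with _ | _ | c
          · omega
          · rfl
          · have : n * 2 ≤ n * (c + 1 + 1) := Nat.mul_le_mul_left _ (by omega)
            omega
        subst this
        omega
      · simp only [hΦ, Prod.mk.injEq]
        rw [hak _ _ hi (Nat.mod_lt _ hn0), hC _ hi, hiu]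
        have h2 : (i + (j + n - i) % n) % n = j := by
          rw [Nat.add_mod_mod]
          have : i + (j + n - i) = j + n := by omega
          rw [this, Nat.add_mod_right, Nat.mod_eq_of_lt hj]
        rw [h2, hjv]
        exact ⟨e.symm_apply_apply u, e.symm_apply_apply v⟩
    · rintro ⟨⟨a, k⟩, hx, hxy⟩
      rw [hmemQ] at hx
      simp only [hΦ, Prod.mk.injEq] at hx hxy
      obtain ⟨rfl, rfl⟩ := hxy
      have hin : ∀ i < n, e.symm (q i) ∈ P := by
        intro i hi
        have h1 : q i ∈ P.image e := (hq _).2 ⟨i, hi, rfl⟩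
        obtain ⟨y, hy, hye⟩ := Finset.mem_image.1 h1
        rw [← hye, e.symm_apply_apply]
        exact hy
      rw [hak _ _ hx.1 hx.2.2, hC _ hx.1]
      refine ⟨hin _ hx.1, hin _ (Nat.mod_lt _ hn0), ?_⟩
      intro hcon
      have h1 := hqi _ hx.1 _ (Nat.mod_lt _ hn0) (e.symm.injective hcon)
      have h6 : (a + 0) ≡ (a + k) [MOD n] := by
        rw [add_zero]
        show a % n = (a + k) % n
        rw [← h1, Nat.mod_eq_of_lt hx.1]
      have h7 : 0 ≡ k [MOD n] := Nat.ModEq.add_left_cancel' a h6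
      have h8 := Nat.ModEq.eq_of_lt_of_lt h7 hn0 hx.2.2
      omega
  have hD : C.D = P.offDiag.image (fun x => dist x.1 x.2) := by
    rw [hoff, Finset.image_image, CP.D]
    refine Finset.image_congr fun x hx => ?_
    exact (hdist x hx).symm
  have hM : ∀ t, C.M {t} = (P.offDiag.filter (fun x => dist x.1 x.2 = t)).card := by
    intro t
    rw [hoff, Finset.filter_image, Finset.card_image_of_injOn]
    · rw [CP.M]
      congr 1
      refine Finset.filter_congr fun x hx => ?_
      rw [Set.mem_singleton_iff, hdist x hx]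
    · refine hΦinj.mono ?_
      intro x hx
      exact (Finset.mem_filter.1 hx).1
  rw [CP.L, hD]
  congr 1
  refine Finset.filter_congr fun t _ => ?_
  rw [hM t]

end Pool.Agent.Helper85.CVX
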