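import Pool.Agent.Helper85.CVX.EndCount

/-! Block GRID (≈100 lines).
`X i = (p i).re`.  For `h = 1..H`, `t = h/H ≥ 5ε`:  by `end_count` and `K2`
`n · #{i : X i ≥ t} ≤ 2 n R (Ici t) + n sR ≤ 2nL + M (Ici t) + n sR`, and
`M (Ici t) ≤ #{(i,j) ∈ (range n)² : |X i - X j| ≥ t - ε}` (`d ≤ |re diff| + |im diff| ≤ |re diff| + ε`; `(a,k) ↦ (a, (a+k) mod n)`).
Sum over `h`:  `∑_h #{i : X i ≥ h/H} = ∑_i ⌊H X i⌋ ≥ ∑_i (H X i - 1)`,
`∑_h #{(i,j) : |X i - X j| ≥ h/H - ε} ≤ ∑_{i,j} H (|X i - X j| + ε)`.  Divide by `H`. -/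

set_option autoImplicit false
open scoped Classical
open Real

noncomputable section

namespace Pool.Agent.Helper85.CVX.CP

variable {n : ℕ} (C : CP n)

omit C in
lemma grid_count_le (H : ℕ) (y : ℝ) (hy : 0 ≤ y) :
    (((Finset.range H).filter (fun h : ℕ => ((h + 1 : ℕ) : ℝ) ≤ y)).card : ℝ) ≤ y := by
  have h1 : (Finset.range H).filter (fun h : ℕ => ((h + 1 : ℕ) : ℝ) ≤ y)
      ⊆ Finset.range ⌊y⌋₊ := by
    intro h hh
    rw [Finset.mem_filter] at hh
    rw [Finset.mem_range]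
    exact Nat.le_floor hh.2
  have h2 := Finset.card_le_card h1
  rw [Finset.card_range] at h2
  calc (((Finset.range H).filter (fun h : ℕ => ((h + 1 : ℕ) : ℝ) ≤ y)).card : ℝ)
      ≤ ⌊y⌋₊ := by exact_mod_cast h2
    _ ≤ y := Nat.floor_le hy

omit C in
lemma grid_le_count (H : ℕ) (y : ℝ) (hy : y ≤ H) :
    y - 1 ≤ (((Finset.range H).filter (fun h : ℕ => ((h + 1 : ℕ) : ℝ) ≤ y)).card : ℝ) := by
  have h1 : Finset.range ⌊y⌋₊
      ⊆ (Finset.range H).filter (fun h : ℕ => ((h + 1 : ℕ) : ℝ) ≤ y) := by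
    intro h hh
    rw [Finset.mem_range] at hh
    have h2 : ((h + 1 : ℕ) : ℝ) ≤ y := (Nat.le_floor_iff' (by omega)).1 hh
    rw [Finset.mem_filter, Finset.mem_range]
    refine ⟨?_, h2⟩
    have h3 : ((h + 1 : ℕ) : ℝ) ≤ (H : ℝ) := h2.trans hy
    have h4 : h + 1 ≤ H := by exact_mod_cast h3
    omega
  have h2 := Finset.card_le_card h1
  rw [Finset.card_range] at h2
  have h3 : y - 1 < ⌊y⌋₊ := Nat.sub_one_lt_floor y
  have h4 : ((⌊y⌋₊ : ℕ) : ℝ)
      ≤ (((Finset.range H).filter (fun h : ℕ => ((h + 1 : ℕ) : ℝ) ≤ y)).card : ℝ) := by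
    exact_mod_cast h2
  linarith

omit C in
lemma grid_sum_comm (H m : ℕ) (P : ℕ → ℕ → Prop) :
    ∑ h ∈ Finset.range H, ((Finset.range m).filter (fun i => P h i)).card
      = ∑ i ∈ Finset.range m, ((Finset.range H).filter (fun h => P h i)).card := by
  simp only [Finset.card_filter]
  exact Finset.sum_comm

/-- ordered pairs at distance at least `t` are horizontally at distance at least `t - ε` -/
lemma M_Ici_le {ε : ℝ} (F : C.Flat ε) (t : ℝ) :
    C.M (Set.Ici t) ≤ ∑ a ∈ Finset.range n, ((Finset.range n).filter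
      (fun j : ℕ => t ≤ |(C.p (a : ℤ)).re - (C.p (j : ℤ)).re| + ε)).card := by
  have h2 : C.M (Set.Ici t)
      = ∑ a ∈ Finset.range n, ((Finset.Ico 1 n).filter
        (fun k => C.ch (a, k) ∈ Set.Ici t)).card :=
    card_Q_filter (n := n) (fun a k => C.ch (a, k) ∈ Set.Ici t)
  rw [h2]
  refine Finset.sum_le_sum fun a _ => ?_
  obtain ⟨P, hP⟩ : ∃ P : ℤ → Prop, P = fun i => t ≤ |(C.p (a : ℤ)).re - (C.p i).re| + ε :=
    ⟨_, rfl⟩
  have h3 : ((Finset.Ico 1 n).filter (fun k => C.ch (a, k) ∈ Set.Ici t)).card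
      ≤ ((Finset.range n).filter (fun u : ℕ => P ((a : ℤ) + u))).card := by
    refine Finset.card_le_card fun k hk => ?_
    rw [Finset.mem_filter, Finset.mem_Ico] at hk
    rw [Finset.mem_filter, Finset.mem_range, hP]
    refine ⟨hk.1.2, ?_⟩
    have h4 : t ≤ C.d (a : ℤ) ((a : ℤ) + (k : ℤ)) := hk.2
    have h5 : C.d (a : ℤ) ((a : ℤ) + (k : ℤ)) ≤ |(C.p ((a : ℤ) + (k : ℤ)) - C.p (a : ℤ)).re|
        + |(C.p ((a : ℤ) + (k : ℤ)) - C.p (a : ℤ)).im| := Complex.norm_le_abs_re_add_abs_im _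
    have h6 := F.im (a : ℤ) ((a : ℤ) + (k : ℤ))
    rw [Complex.sub_re, Complex.sub_im, abs_sub_comm] at h5
    show t ≤ |(C.p (a : ℤ)).re - (C.p ((a : ℤ) + (k : ℤ))).re| + ε
    linarith
  have h4 := card_shift (n := n) P C.n_pos (fun i => by rw [hP]; simp only [C.p_per]) (a : ℤ)
  refine h3.trans (h4.le.trans ?_)
  refine Finset.card_le_card fun u hu => ?_
  rw [Finset.mem_filter, hP] at hu
  rw [Finset.mem_filter]
  exact hu

theorem grid {ε : ℝ} (F : C.Flat ε) (K : C.Cuts ε) (H : ℕ) (hH : 1 ≤ H) (hε : 5 * ε * H ≤ 1) :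
    (n : ℝ) * ∑ i ∈ Finset.range n, (C.p i).re
      ≤ ∑ i ∈ Finset.range n, ∑ j ∈ Finset.range n, |(C.p i).re - (C.p j).re|
        + 2 * n * C.L + n * ((K.i3 - K.i2).toNat : ℝ) + (ε + 1 / H) * (n : ℝ) ^ 2 := by
  have hH0 : (0 : ℝ) < H := by exact_mod_cast hH
  have hn0 : (0 : ℝ) ≤ n := Nat.cast_nonneg n
  obtain ⟨X, hX⟩ : ∃ X : ℕ → ℝ, X = fun i : ℕ => (C.p (i : ℤ)).re := ⟨_, rfl⟩
  have hXi : ∀ i : ℕ, (C.p (i : ℤ)).re = X i := fun i => by rw [hX]
  have hX1 : ∀ i, X i ≤ 1 := fun i => by rw [hX]; exact F.le_one _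
  have hX0 : ∀ i, 0 ≤ X i := fun i => by rw [hX]; exact F.nonneg _
  simp only [hXi]
  obtain ⟨Nn, hN⟩ : ∃ Nn : ℕ → ℕ, Nn = fun h =>
      ((Finset.range n).filter (fun i : ℕ => ((h + 1 : ℕ) : ℝ) ≤ H * X i)).card := ⟨_, rfl⟩
  obtain ⟨Pp, hP⟩ : ∃ Pp : ℕ → ℕ, Pp = fun h => ∑ a ∈ Finset.range n,
      ((Finset.range n).filter
        (fun j : ℕ => ((h + 1 : ℕ) : ℝ) ≤ H * (|X a - X j| + ε))).card := ⟨_, rfl⟩
  -- one scale
  have one : ∀ h ∈ Finset.range H, (n : ℝ) * Nn h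
      ≤ 2 * n * C.L + n * ((K.i3 - K.i2).toNat : ℝ) + Pp h := by
    intro h hh
    have ht : 5 * ε ≤ ((h + 1 : ℕ) : ℝ) / H := by
      rw [le_div_iff₀ hH0]
      have : (1 : ℝ) ≤ ((h + 1 : ℕ) : ℝ) := by exact_mod_cast Nat.le_add_left 1 h
      linarith
    have e1 := C.end_count F K ht
    have e2 : Nn h = ((Finset.range n).filter
        (fun i : ℕ => ((h + 1 : ℕ) : ℝ) / H ≤ (C.p (i : ℤ)).re)).card := by
      rw [hN]
      refine congrArg Finset.card (Finset.filter_congr fun i _ => ?_)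
      rw [hXi, div_le_iff₀ hH0, mul_comm]
    have e3 : C.M (Set.Ici (((h + 1 : ℕ) : ℝ) / H)) ≤ Pp h := by
      refine (C.M_Ici_le F _).trans (le_of_eq ?_)
      rw [hP]
      refine Finset.sum_congr rfl fun a _ => ?_
      refine congrArg Finset.card (Finset.filter_congr fun j _ => ?_)
      rw [hXi, hXi, div_le_iff₀ hH0, mul_comm (H : ℝ)]
    have e4 := C.K2 (Set.Ici (((h + 1 : ℕ) : ℝ) / H))
    rw [← e2] at e1
    have e5 : (Nn h : ℝ) ≤ 2 * C.R (Set.Ici (((h + 1 : ℕ) : ℝ) / H))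
        + ((K.i3 - K.i2).toNat : ℝ) := by exact_mod_cast e1
    have e6 : (C.M (Set.Ici (((h + 1 : ℕ) : ℝ) / H)) : ℝ) ≤ Pp h := by exact_mod_cast e3
    have e7 := mul_le_mul_of_nonneg_left e5 hn0
    linarith
  have hsum := Finset.sum_le_sum one
  rw [← Finset.mul_sum, Finset.sum_add_distrib, Finset.sum_const, Finset.card_range,
    nsmul_eq_mul] at hsum
  -- the sum over the scales, lower bound
  have low : H * (∑ i ∈ Finset.range n, X i) - n ≤ ∑ h ∈ Finset.range H, (Nn h : ℝ) := by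
    have e1 : ∑ h ∈ Finset.range H, Nn h = ∑ i ∈ Finset.range n,
        ((Finset.range H).filter (fun h : ℕ => ((h + 1 : ℕ) : ℝ) ≤ H * X i)).card := by
      rw [hN]
      exact grid_sum_comm H n (fun h i => ((h + 1 : ℕ) : ℝ) ≤ H * X i)
    have e2 : ∑ h ∈ Finset.range H, (Nn h : ℝ) = ∑ i ∈ Finset.range n,
        (((Finset.range H).filter
          (fun h : ℕ => ((h + 1 : ℕ) : ℝ) ≤ H * X i)).card : ℝ) := by
      exact_mod_cast e1
    rw [e2]
    calc H * (∑ i ∈ Finset.range n, X i) - n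
        = ∑ i ∈ Finset.range n, (H * X i - 1) := by
          rw [Finset.sum_sub_distrib, ← Finset.mul_sum]
          simp
      _ ≤ _ := Finset.sum_le_sum fun i _ => grid_le_count H _ (by nlinarith [hX1 i])
  -- the sum over the scales, upper bound
  have upp : ∑ h ∈ Finset.range H, (Pp h : ℝ)
      ≤ H * (∑ i ∈ Finset.range n, ∑ j ∈ Finset.range n, |X i - X j|) + H * (ε * n ^ 2) := by
    have e1 : ∑ h ∈ Finset.range H, Pp h = ∑ a ∈ Finset.range n, ∑ j ∈ Finset.range n,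
        ((Finset.range H).filter
          (fun h : ℕ => ((h + 1 : ℕ) : ℝ) ≤ H * (|X a - X j| + ε))).card := by
      rw [hP]
      simp only []
      rw [Finset.sum_comm]
      refine Finset.sum_congr rfl fun a _ => ?_
      exact grid_sum_comm H n (fun h j => ((h + 1 : ℕ) : ℝ) ≤ H * (|X a - X j| + ε))
    have e2 : ∑ h ∈ Finset.range H, (Pp h : ℝ) = ∑ a ∈ Finset.range n, ∑ j ∈ Finset.range n,
        (((Finset.range H).filter
          (fun h : ℕ => ((h + 1 : ℕ) : ℝ) ≤ H * (|X a - X j| + ε))).card : ℝ) := by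
      exact_mod_cast e1
    rw [e2]
    calc _ ≤ ∑ a ∈ Finset.range n, ∑ j ∈ Finset.range n, (H * (|X a - X j| + ε)) :=
          Finset.sum_le_sum fun a _ => Finset.sum_le_sum fun j _ =>
            grid_count_le H _ (mul_nonneg hH0.le (add_nonneg (abs_nonneg _) F.pos.le))
      _ = _ := by
          simp only [mul_add, Finset.sum_add_distrib, ← Finset.mul_sum, Finset.sum_const,
            Finset.card_range, nsmul_eq_mul]
          ring
  have h1 := mul_le_mul_of_nonneg_left low hn0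
  have h2 : (n : ℝ) * (H * (∑ i ∈ Finset.range n, X i) - n)
      ≤ H * (2 * n * C.L + n * ((K.i3 - K.i2).toNat : ℝ))
        + (H * (∑ i ∈ Finset.range n, ∑ j ∈ Finset.range n, |X i - X j|)
          + H * (ε * n ^ 2)) := by linarith
  have h3 : (1 / (H : ℝ)) * H = 1 := by field_simp
  have h4 : H * ((n : ℝ) * ∑ i ∈ Finset.range n, X i)
      ≤ H * (∑ i ∈ Finset.range n, ∑ j ∈ Finset.range n, |X i - X j|
        + 2 * n * C.L + n * ((K.i3 - K.i2).toNat : ℝ) + (ε + 1 / H) * (n : ℝ) ^ 2) := by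
    have h5 : H * (∑ i ∈ Finset.range n, ∑ j ∈ Finset.range n, |X i - X j|
        + 2 * n * C.L + n * ((K.i3 - K.i2).toNat : ℝ) + (ε + 1 / H) * (n : ℝ) ^ 2)
        = H * (2 * n * C.L + n * ((K.i3 - K.i2).toNat : ℝ))
        + (H * (∑ i ∈ Finset.range n, ∑ j ∈ Finset.range n, |X i - X j|)
          + H * (ε * n ^ 2)) + ((1 / (H : ℝ)) * H) * n ^ 2 := by ring
    rw [h5, h3]
    linarith
  exact le_of_mul_le_mul_left h4 hH0

end Pool.Agent.Helper85.CVX.CP
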