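import Pool.Agent.Helper85.CVX.FlatDefs

/-! Block NORM.
Let `X i = prj φ (p i)`; for the pair `i,j` with `Δ ≤ d i j`:  `(X j - X i)² = d² - crs² ≥ Δ²(1 - ε²) ≥ Δ²/4`, so the extent
`w = max X - min X` (over one period) is `≥ Δ/2`.  Put `C'.p i = (p i - p i₀) * e^{-iφ} / w` (`i₀`
with `X i₀ = min`), `C'.θ i = θ i - φ`, `C'.ℓ i = ℓ i / w`.  Then `(C'.p i).re = (X i - X i₀)/w ∈ [0,1]`, attained, and
`|im difference| = |crs φ (p j - p i)|/w ≤ ε Δ / w ≤ 2ε`.  `C'.L = C.L`: `C'.ch x = C.ch x / w`, so `C'.D = image (·/w) C.D`,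
`C'.M {t/w} = C.M {t}`. -/

set_option autoImplicit false
open scoped Classical
open Real

noncomputable section

namespace Pool.Agent.Helper85.CVX.CP

variable {n : ℕ} (C : CP n)

/-- the polygon shifted, rotated by `-φ` and divided by `w` -/
def sim (φ w : ℝ) (hw : 0 < w) (z : ℂ) : CP n where
  p i := (C.p i - z) * Complex.exp (((-φ : ℝ) : ℂ) * Complex.I) / (w : ℂ)
  θ i := C.θ i - φ
  ℓ i := C.ℓ i / w
  n_ge := C.n_ge
  ℓ_pos i := div_pos (C.ℓ_pos i) hw
  step i := by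
    have h : (C.p (i + 1) - z) * Complex.exp (((-φ : ℝ) : ℂ) * Complex.I) / (w : ℂ) -
        (C.p i - z) * Complex.exp (((-φ : ℝ) : ℂ) * Complex.I) / (w : ℂ) =
        (C.p (i + 1) - C.p i) * Complex.exp (((-φ : ℝ) : ℂ) * Complex.I) / (w : ℂ) := by ring
    rw [h, C.step]
    have e : Complex.exp (((C.θ i - φ : ℝ) : ℂ) * Complex.I) =
        Complex.exp ((C.θ i : ℂ) * Complex.I) * Complex.exp (((-φ : ℝ) : ℂ) * Complex.I) := by
      rw [← Complex.exp_add]
      congr 1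
      push_cast
      ring
    rw [e]
    push_cast
    ring
  θ_lt i := by
    have := C.θ_lt i
    linarith
  θ_per i := by
    rw [C.θ_per]
    ring
  p_per i := by
    rw [C.p_per]

theorem sim_sub (φ w : ℝ) (hw : 0 < w) (z : ℂ) (i j : ℤ) :
    (C.sim φ w hw z).p j - (C.sim φ w hw z).p i =
      (C.p j - C.p i) * Complex.exp (((-φ : ℝ) : ℂ) * Complex.I) / (w : ℂ) := by
  show (C.p j - z) * Complex.exp (((-φ : ℝ) : ℂ) * Complex.I) / (w : ℂ) -
        (C.p i - z) * Complex.exp (((-φ : ℝ) : ℂ) * Complex.I) / (w : ℂ) = _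
  ring

theorem re_rot (φ w : ℝ) (z : ℂ) :
    (z * Complex.exp (((-φ : ℝ) : ℂ) * Complex.I) / (w : ℂ)).re = prj φ z / w := by
  rw [Complex.div_ofReal_re, Complex.mul_re, Complex.exp_ofReal_mul_I_re,
    Complex.exp_ofReal_mul_I_im, Real.cos_neg, Real.sin_neg, prj]
  ring

theorem im_rot (φ w : ℝ) (z : ℂ) :
    (z * Complex.exp (((-φ : ℝ) : ℂ) * Complex.I) / (w : ℂ)).im = crs φ z / w := by
  rw [Complex.div_ofReal_im, Complex.mul_im, Complex.exp_ofReal_mul_I_re,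
    Complex.exp_ofReal_mul_I_im, Real.cos_neg, Real.sin_neg, crs]
  ring

theorem sim_d (φ w : ℝ) (hw : 0 < w) (z : ℂ) (i j : ℤ) :
    (C.sim φ w hw z).d i j = C.d i j / w := by
  rw [d, sim_sub, norm_div, norm_mul, Complex.norm_exp_ofReal_mul_I, mul_one,
    Complex.norm_of_nonneg hw.le, d]

theorem sim_ch (φ w : ℝ) (hw : 0 < w) (z : ℂ) (x : ℕ × ℕ) :
    (C.sim φ w hw z).ch x = C.ch x / w := by
  rw [ch, sim_d, ch]

theorem sim_M (φ w : ℝ) (hw : 0 < w) (z : ℂ) (t : ℝ) :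
    (C.sim φ w hw z).M {t / w} = C.M {t} := by
  unfold M
  congr 1
  refine Finset.filter_congr fun x _ => ?_
  rw [sim_ch, Set.mem_singleton_iff, Set.mem_singleton_iff, div_left_inj' hw.ne']

theorem sim_L (φ w : ℝ) (hw : 0 < w) (z : ℂ) : (C.sim φ w hw z).L = C.L := by
  have hinj : Function.Injective (fun t : ℝ => t / w) := fun a b h => by
    have h' : a / w = b / w := h
    rwa [div_left_inj' hw.ne'] at h'
  have hD : (C.sim φ w hw z).D = C.D.image (fun t => t / w) := by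
    unfold D
    rw [Finset.image_image]
    refine Finset.image_congr fun x _ => ?_
    exact C.sim_ch φ w hw z x
  unfold L
  rw [hD, Finset.filter_image, Finset.card_image_of_injective _ hinj]
  congr 1
  refine Finset.filter_congr fun t _ => ?_
  rw [sim_M]

theorem exists_min_prj (φ : ℝ) : ∃ i0 : ℤ, ∀ i, prj φ (C.p i0) ≤ prj φ (C.p i) := by
  have hn := C.n_pos
  obtain ⟨u, _, hu⟩ := Finset.exists_min_image (Finset.range n)
    (fun u : ℕ => prj φ (C.p (u : ℤ))) ⟨0, Finset.mem_range.2 hn⟩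
  refine ⟨u, fun i => ?_⟩
  have hn' : (0 : ℤ) < n := by exact_mod_cast hn
  have h1 := Int.emod_nonneg i hn'.ne'
  have h2 := Int.emod_lt_of_pos i hn'
  have h3 := hu (i % n).toNat (Finset.mem_range.2 (by omega))
  have e : (((i % n).toNat : ℕ) : ℤ) = i % n := Int.toNat_of_nonneg h1
  have e2 : C.p i = C.p (i % n) := by
    conv_lhs => rw [← Int.emod_add_mul_ediv i n, mul_comm]
    exact C.p_perk _ _
  rw [e2]
  simpa only [e] using h3

theorem exists_max_prj (φ : ℝ) : ∃ i0 : ℤ, ∀ i, prj φ (C.p i) ≤ prj φ (C.p i0) := by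
  have hn := C.n_pos
  obtain ⟨u, _, hu⟩ := Finset.exists_max_image (Finset.range n)
    (fun u : ℕ => prj φ (C.p (u : ℤ))) ⟨0, Finset.mem_range.2 hn⟩
  refine ⟨u, fun i => ?_⟩
  have hn' : (0 : ℤ) < n := by exact_mod_cast hn
  have h1 := Int.emod_nonneg i hn'.ne'
  have h2 := Int.emod_lt_of_pos i hn'
  have h3 := hu (i % n).toNat (Finset.mem_range.2 (by omega))
  have e : (((i % n).toNat : ℕ) : ℤ) = i % n := Int.toNat_of_nonneg h1
  have e2 : C.p i = C.p (i % n) := by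
    conv_lhs => rw [← Int.emod_add_mul_ediv i n, mul_comm]
    exact C.p_perk _ _
  rw [e2]
  simpa only [e] using h3

theorem normalize (φ ε Δ : ℝ) (hε : 0 < ε) (hε' : ε ≤ 1 / 2) (hΔ : 0 < Δ)
    (hex : ∃ i j, Δ ≤ C.d i j) (h : ∀ i j, |crs φ (C.p j - C.p i)| ≤ ε * Δ) :
    ∃ C' : CP n, C'.L = C.L ∧ C'.Flat (2 * ε) := by
  obtain ⟨i0, hi0⟩ := C.exists_min_prj φ
  obtain ⟨i1, hi1⟩ := C.exists_max_prj φ
  obtain ⟨i, j, hij⟩ := hex
  set w := prj φ (C.p i1) - prj φ (C.p i0) with hwdef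
  have hw2 : Δ / 2 ≤ w := by
    have h1 : C.d i j ^ 2 = prj φ (C.p j - C.p i) ^ 2 + crs φ (C.p j - C.p i) ^ 2 := by
      rw [d]
      exact norm_sq_eq φ _
    have h2 : crs φ (C.p j - C.p i) ^ 2 ≤ (ε * Δ) ^ 2 := by
      rw [← sq_abs]
      exact pow_le_pow_left₀ (abs_nonneg _) (h i j) 2
    have h3 : Δ ^ 2 ≤ C.d i j ^ 2 := pow_le_pow_left₀ hΔ.le hij 2
    have h4 : (ε * Δ) ^ 2 ≤ (1 / 2 * Δ) ^ 2 :=
      pow_le_pow_left₀ (by positivity) (mul_le_mul_of_nonneg_right hε' hΔ.le) 2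
    have h5 : (Δ / 2) ^ 2 ≤ prj φ (C.p j - C.p i) ^ 2 := by nlinarith
    have h6 : Δ / 2 ≤ |prj φ (C.p j - C.p i)| := by
      rw [← sq_abs (prj φ (C.p j - C.p i))] at h5
      exact (sq_le_sq₀ (by positivity) (abs_nonneg _)).1 h5
    refine h6.trans ?_
    rw [prj_sub, abs_le]
    constructor
    · have := hi0 j
      have := hi1 i
      linarith
    · have := hi0 i
      have := hi1 j
      linarith
  have hw : 0 < w := lt_of_lt_of_le (by positivity) hw2
  refine ⟨C.sim φ w hw (C.p i0), C.sim_L φ w hw _, ?_⟩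
  have hre : ∀ i, ((C.sim φ w hw (C.p i0)).p i).re = (prj φ (C.p i) - prj φ (C.p i0)) / w := by
    intro i
    show ((C.p i - C.p i0) * Complex.exp (((-φ : ℝ) : ℂ) * Complex.I) / (w : ℂ)).re = _
    rw [re_rot, prj_sub]
  refine ⟨by positivity, ?_, ?_, ?_, ?_, ?_⟩
  · intro i
    rw [hre]
    exact div_nonneg (by linarith [hi0 i]) hw.le
  · intro i
    rw [hre, div_le_one hw]
    linarith [hi1 i]
  · refine ⟨i0, ?_⟩
    rw [hre]
    simp
  · refine ⟨i1, ?_⟩
    rw [hre]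
    exact div_self hw.ne'
  · intro i j
    have e : ((C.sim φ w hw (C.p i0)).p j).im - ((C.sim φ w hw (C.p i0)).p i).im =
        crs φ (C.p j - C.p i) / w := by
      rw [← Complex.sub_im, sim_sub, im_rot]
    rw [e, abs_div, abs_of_pos hw, div_le_iff₀ hw]
    refine (h i j).trans ?_
    nlinarith

end Pool.Agent.Helper85.CVX.CP
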