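import Pool.Agent.Helper85.CVX.FlatDefs
import Pool.Agent.Helper85.CVX.Cuts

/-! Block OUT (≈150 lines).
Lower chain: `A = {j ∈ [i1,i2] : re p_j ≤ 1/5} = [i1, jA]` and `B = {j ∈ [i1,i2] : re p_j ≥ 4/5} = [jB, i2]` (both nonempty; `re p_j` is
increasing on `[i1,i2]`).  Start with the chord `(jA,jB)`, move the left end one by one to `i1`, then the right end one by one to
`i2`: `|A| + |B| - 1` chords, all with horizontal extent `≥ 3/5`, strictly increasing lengths (as in block ENDC: `c = (X,Y)`,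
`X ≥ 3/5`, `|Y| ≤ ε`, edge direction in `[-π/2+1/4, π/2-1/4)`, `prj θ c > 0`).  So `|A| + |B| ≤ R (Ici (3/5)) + 1`.
Upper chain: the same with `[i3, i0+n]`.  The remaining vertices lie strictly between `i0` and `i1` or between `i2` and `i3`. -/

set_option autoImplicit false
open scoped Classical
open Real

noncomputable section

namespace Pool.Agent.Helper85.CVX.CP

variable {n : ℕ} (C : CP n)

/-- moving the right end of a chord `c` along an edge with nonnegative component along `c` -/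
lemma outw_out_right {i j : ℤ} (h : 0 ≤ prj (C.θ j) (C.p j - C.p i)) : C.d i j < C.d i (j + 1) := by
  have h1 : C.p (j + 1) - C.p i = (C.p j - C.p i) + (C.p (j + 1) - C.p j) := by ring
  have h2 := norm_sq_eq (C.θ j) (C.p (j + 1) - C.p i)
  have h3 := norm_sq_eq (C.θ j) (C.p j - C.p i)
  have h4 := C.step_prj (C.θ j) j
  have h5 := C.step_crs (C.θ j) j
  rw [sub_self, Real.cos_zero, mul_one] at h4
  rw [sub_self, Real.sin_zero, mul_zero] at h5
  rw [h1, prj_add, crs_add, h4, h5, add_zero, ← h1] at h2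
  have h6 := C.ℓ_pos j
  apply lt_of_pow_lt_pow_left₀ 2 (C.d_nonneg _ _)
  rw [d, d, h2, h3]
  nlinarith

/-- moving the left end of a chord `c` backwards along an edge with nonnegative component along `c` -/
lemma outw_out_left {i j : ℤ} (h : 0 ≤ prj (C.θ (i - 1)) (C.p j - C.p i)) : C.d i j < C.d (i - 1) j := by
  have h1 : C.p j - C.p (i - 1) = (C.p j - C.p i) + (C.p (i - 1 + 1) - C.p (i - 1)) := by
    rw [sub_add_cancel]; ring
  have h2 := norm_sq_eq (C.θ (i - 1)) (C.p j - C.p (i - 1))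
  have h3 := norm_sq_eq (C.θ (i - 1)) (C.p j - C.p i)
  have h4 := C.step_prj (C.θ (i - 1)) (i - 1)
  have h5 := C.step_crs (C.θ (i - 1)) (i - 1)
  rw [sub_self, Real.cos_zero, mul_one] at h4
  rw [sub_self, Real.sin_zero, mul_zero] at h5
  rw [h1, prj_add, crs_add, h4, h5, add_zero, ← h1] at h2
  have h6 := C.ℓ_pos (i - 1)
  apply lt_of_pow_lt_pow_left₀ 2 (C.d_nonneg _ _)
  rw [d, d, h2, h3]
  nlinarith

/-- the outward chain of chords -/
lemma outw_chain_out {s a b t : ℤ} (h1 : s ≤ a) (h2 : a < b) (h3 : b ≤ t) (ht : t - s < n) (S : Set ℝ)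
    (hS : ∀ x y, s ≤ x → x ≤ a → b ≤ y → y ≤ t → C.d x y ∈ S)
    (hp : ∀ x y u, s ≤ x → x ≤ a → b ≤ y → y ≤ t → s ≤ u → u < t →
      0 ≤ prj (C.θ u) (C.p y - C.p x)) :
    (a - s).toNat + (t - b).toNat + 1 ≤ C.R S := by
  obtain ⟨A, hA⟩ : ∃ A : ℕ, (A : ℤ) = a - s := ⟨(a - s).toNat, Int.toNat_of_nonneg (by omega)⟩
  obtain ⟨B, hB⟩ : ∃ B : ℕ, (B : ℤ) = t - b := ⟨(t - b).toNat, Int.toNat_of_nonneg (by omega)⟩
  rw [← hA, ← hB, Int.toNat_natCast, Int.toNat_natCast]
  have hD : ∀ x y, s ≤ x → x ≤ a → b ≤ y → y ≤ t → C.d x y ∈ C.D := by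
    intro x y h4 h5 h6 h7
    have := C.mem_D x (k := (y - x).toNat) (by omega) (by omega)
    rwa [Int.toNat_of_nonneg (by omega), add_sub_cancel] at this
  apply C.le_R_of_strictMono
    (fun u : ℕ => if u ≤ A then C.d (a - u) b else C.d s (b + ((u : ℤ) - A)))
  · intro u hu
    rcases lt_trichotomy u A with h | h | h
    · rw [if_pos h.le, if_pos (by omega : u + 1 ≤ A)]
      have : a - ((u + 1 : ℕ) : ℤ) = a - u - 1 := by push_cast; ring
      rw [this]
      exact C.outw_out_left (hp _ _ _ (by omega) (by omega) le_rfl h3 (by omega) (by omega))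
    · rw [if_pos h.le, if_neg (by omega)]
      have e1 : a - (u : ℤ) = s := by omega
      have e2 : b + (((u + 1 : ℕ) : ℤ) - A) = b + 1 := by push_cast; omega
      rw [e1, e2]
      exact C.outw_out_right (hp _ _ _ le_rfl h1 le_rfl h3 (by omega) (by omega))
    · rw [if_neg (by omega), if_neg (by omega)]
      have e2 : b + (((u + 1 : ℕ) : ℤ) - A) = b + ((u : ℤ) - A) + 1 := by push_cast; ring
      rw [e2]
      exact C.outw_out_right (hp _ _ _ le_rfl h1 (by omega) (by omega) (by omega) (by omega))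
  · intro u hu
    split_ifs with h
    · exact hD _ _ (by omega) (by omega) le_rfl h3
    · exact hD _ _ le_rfl h1 (by omega) (by omega)
  · intro u hu
    split_ifs with h
    · exact hS _ _ (by omega) (by omega) le_rfl h3
    · exact hS _ _ le_rfl h1 (by omega) (by omega)

lemma outw_sin_quarter : 1 / 5 ≤ Real.sin (1 / 4) := by
  have := Real.sin_gt_sub_cube (x := 1 / 4) (by norm_num)
  linarith

/-- greatest element of an integer interval with a property -/
lemma outw_exists_max_int (P : ℤ → Prop) {s t : ℤ} (hst : s ≤ t) (hs : P s) :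
    ∃ a, s ≤ a ∧ a ≤ t ∧ P a ∧ ∀ j, s ≤ j → j ≤ t → P j → j ≤ a := by
  have hne : ((Finset.Icc s t).filter P).Nonempty :=
    ⟨s, by simp only [Finset.mem_filter, Finset.mem_Icc]; exact ⟨⟨le_rfl, hst⟩, hs⟩⟩
  have h1 := Finset.max'_mem _ hne
  simp only [Finset.mem_filter, Finset.mem_Icc] at h1
  refine ⟨_, h1.1.1, h1.1.2, h1.2, ?_⟩
  intro j hj1 hj2 hj3
  apply Finset.le_max'
  simp only [Finset.mem_filter, Finset.mem_Icc]
  exact ⟨⟨hj1, hj2⟩, hj3⟩

/-- least element of an integer interval with a property -/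
lemma outw_exists_min_int (P : ℤ → Prop) {s t : ℤ} (hst : s ≤ t) (ht : P t) :
    ∃ a, s ≤ a ∧ a ≤ t ∧ P a ∧ ∀ j, s ≤ j → j ≤ t → P j → a ≤ j := by
  have hne : ((Finset.Icc s t).filter P).Nonempty :=
    ⟨t, by simp only [Finset.mem_filter, Finset.mem_Icc]; exact ⟨⟨hst, le_rfl⟩, ht⟩⟩
  have h1 := Finset.min'_mem _ hne
  simp only [Finset.mem_filter, Finset.mem_Icc] at h1
  refine ⟨_, h1.1.1, h1.1.2, h1.2, ?_⟩
  intro j hj1 hj2 hj3
  apply Finset.min'_le
  simp only [Finset.mem_filter, Finset.mem_Icc]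
  exact ⟨⟨hj1, hj2⟩, hj3⟩

/-- lower edges have direction with cosine at least `1/5` -/
lemma outw_low_cos {ε : ℝ} (K : C.Cuts ε) {u : ℤ} (h1 : K.i1 ≤ u) (h2 : u < K.i2) :
    1 / 5 ≤ Real.cos (C.θ u) := by
  obtain ⟨h3, h4⟩ := K.low u h1 h2
  have h5 : Real.cos (π / 2 - 1 / 4) ≤ Real.cos |C.θ u| := by
    apply Real.cos_le_cos_of_nonneg_of_le_pi (abs_nonneg _)
    · have := Real.pi_pos; linarith
    · rw [abs_le]; constructor <;> linarith
  rw [Real.cos_abs, Real.cos_pi_div_two_sub] at h5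
  exact outw_sin_quarter.trans h5

/-- upper edges have direction with cosine at most `-1/5` -/
lemma outw_upp_cos {ε : ℝ} (K : C.Cuts ε) {u : ℤ} (h1 : K.i3 ≤ u) (h2 : u < K.i0 + n) :
    Real.cos (C.θ u) ≤ -(1 / 5) := by
  obtain ⟨h3, h4⟩ := K.upp u h1 h2
  have h5 : Real.cos (π / 2 - 1 / 4) ≤ Real.cos |C.θ u - π| := by
    apply Real.cos_le_cos_of_nonneg_of_le_pi (abs_nonneg _)
    · have := Real.pi_pos; linarith
    · rw [abs_le]; constructor <;> linarith
  rw [Real.cos_abs, Real.cos_pi_div_two_sub, Real.cos_sub_pi] at h5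
  have := outw_sin_quarter
  linarith

lemma outw_re_sub_le_d (i j : ℤ) : (C.p j).re - (C.p i).re ≤ C.d i j := by
  rw [d]
  have := Complex.re_le_norm (C.p j - C.p i)
  rwa [Complex.sub_re] at this

theorem outward {ε : ℝ} (hε : ε ≤ 1 / 100) (F : C.Flat ε) (K : C.Cuts ε) :
    ((Finset.range n).filter (fun i : ℕ => (C.p i).re ≤ 1 / 5 ∨ 4 / 5 ≤ (C.p i).re)).card
      ≤ 2 * C.R (Set.Ici (3 / 5)) + 2 + (K.i1 - K.i0).toNat + (K.i3 - K.i2).toNat := by
  have hn := C.n_pos
  have k01 := K.h01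
  have k12 := K.h12
  have k23 := K.h23
  have k34 := K.h34
  -- the lower chain
  have e1 : (C.p K.i1).re ≤ ε := K.left _ k01 le_rfl
  have e2 : 1 - ε ≤ (C.p K.i2).re := K.right _ le_rfl k23
  have e3 : 1 - ε ≤ (C.p K.i3).re := K.right _ k23 le_rfl
  have e0 : (C.p (K.i0 + n)).re ≤ ε := by rw [C.p_per]; exact K.left _ le_rfl k01
  obtain ⟨jA, a1, a2, a3, a4⟩ := outw_exists_max_int (fun j => (C.p j).re ≤ 1 / 5) k12.le
    (by linarith : (C.p K.i1).re ≤ 1 / 5)
  obtain ⟨jB, b1, b2, b3, b4⟩ := outw_exists_min_int (fun j => 4 / 5 ≤ (C.p j).re) k12.le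
    (by linarith : 4 / 5 ≤ (C.p K.i2).re)
  obtain ⟨jC, c1, c2, c3, c4⟩ := outw_exists_max_int (fun j => 4 / 5 ≤ (C.p j).re) k34.le
    (by linarith : 4 / 5 ≤ (C.p K.i3).re)
  obtain ⟨jD, d1, d2, d3, d4⟩ := outw_exists_min_int (fun j => (C.p j).re ≤ 1 / 5) k34.le
    (by linarith : (C.p (K.i0 + n)).re ≤ 1 / 5)
  have hmonoL : ∀ x y, K.i1 ≤ x → x ≤ y → y ≤ K.i2 → (C.p x).re ≤ (C.p y).re := by
    intro x y h1 h2 h3
    rcases h2.lt_or_eq with h | h
    · exact (C.low_lt K h1 h h3).le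
    · rw [h]
  have hmonoU : ∀ x y, K.i3 ≤ x → x ≤ y → y ≤ K.i0 + n → (C.p y).re ≤ (C.p x).re := by
    intro x y h1 h2 h3
    rcases h2.lt_or_eq with h | h
    · exact (C.upp_lt K h1 h h3).le
    · rw [h]
  have hAB : jA < jB := by
    by_contra h
    have := hmonoL jB jA b1 (by omega) a2
    linarith
  have hCD : jC < jD := by
    by_contra h
    have := hmonoU jD jC d1 (by omega) c2
    linarith
  have hL : (jA - K.i1).toNat + (K.i2 - jB).toNat + 1 ≤ C.R (Set.Ici (3 / 5)) := by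
    apply C.outw_chain_out a1 hAB b2 (by omega)
    · intro x y h1 h2 h3 h4
      have h5 := hmonoL x jA h1 h2 a2
      have h6 := hmonoL jB y b1 h3 h4
      have h7 := C.outw_re_sub_le_d x y
      rw [Set.mem_Ici]
      linarith
    · intro x y u h1 h2 h3 h4 h5 h6
      have h7 := hmonoL x jA h1 h2 a2
      have h8 := hmonoL jB y b1 h3 h4
      have h9 := C.outw_low_cos K h5 h6
      have h10 := F.im x y
      rw [abs_le] at h10
      have h11 := Real.neg_one_le_sin (C.θ u)
      have h12 := Real.sin_le_one (C.θ u)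
      rw [prj, Complex.sub_re, Complex.sub_im]
      have h13 : 3 / 5 * (1 / 5) ≤ ((C.p y).re - (C.p x).re) * Real.cos (C.θ u) :=
        mul_le_mul (by linarith) h9 (by norm_num) (by linarith)
      have h14 : -ε ≤ ((C.p y).im - (C.p x).im) * Real.sin (C.θ u) := by
        have h15 : |((C.p y).im - (C.p x).im) * Real.sin (C.θ u)| ≤ ε * 1 := by
          rw [abs_mul]
          exact mul_le_mul (F.im x y) (Real.abs_sin_le_one _) (abs_nonneg _) F.pos.le
        rw [mul_one] at h15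
        exact (abs_le.mp h15).1
      linarith
  have hU : (jC - K.i3).toNat + (K.i0 + n - jD).toNat + 1 ≤ C.R (Set.Ici (3 / 5)) := by
    apply C.outw_chain_out c1 hCD d2 (by omega)
    · intro x y h1 h2 h3 h4
      have h5 := hmonoU x jC h1 h2 c2
      have h6 := hmonoU jD y d1 h3 h4
      have h7 := C.outw_re_sub_le_d y x
      rw [Set.mem_Ici, C.d_comm]
      linarith
    · intro x y u h1 h2 h3 h4 h5 h6
      have h7 := hmonoU x jC h1 h2 c2
      have h8 := hmonoU jD y d1 h3 h4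
      have h9 := C.outw_upp_cos K h5 h6
      rw [prj, Complex.sub_re, Complex.sub_im]
      have h13 : 3 / 5 * (1 / 5) ≤ ((C.p x).re - (C.p y).re) * (-Real.cos (C.θ u)) :=
        mul_le_mul (by linarith) (by linarith) (by norm_num) (by linarith)
      have h14 : -ε ≤ ((C.p y).im - (C.p x).im) * Real.sin (C.θ u) := by
        have h15 : |((C.p y).im - (C.p x).im) * Real.sin (C.θ u)| ≤ ε * 1 := by
          rw [abs_mul]
          exact mul_le_mul (F.im x y) (Real.abs_sin_le_one _) (abs_nonneg _) F.pos.le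
        rw [mul_one] at h15
        exact (abs_le.mp h15).1
      linarith
  -- counting
  have hcount : ((Finset.range n).filter (fun i : ℕ => (C.p i).re ≤ 1 / 5 ∨
      4 / 5 ≤ (C.p i).re)).card = ((Finset.range n).filter (fun u : ℕ =>
      (C.p (K.i0 + u)).re ≤ 1 / 5 ∨ 4 / 5 ≤ (C.p (K.i0 + u)).re)).card := by
    have := card_shift (fun j : ℤ => (C.p j).re ≤ 1 / 5 ∨ 4 / 5 ≤ (C.p j).re) hn
      (fun i => by rw [C.p_per]) K.i0
    convert this.symm
  rw [hcount]
  have hsub : ((Finset.range n).filter (fun u : ℕ => (C.p (K.i0 + u)).re ≤ 1 / 5 ∨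
      4 / 5 ≤ (C.p (K.i0 + u)).re)).card ≤
      (Finset.Ico K.i0 K.i1 ∪ Finset.Icc K.i1 jA ∪ Finset.Icc jB K.i2 ∪ Finset.Ioo K.i2 K.i3 ∪
        Finset.Icc K.i3 jC ∪ Finset.Icc jD (K.i0 + n)).card := by
    apply Finset.card_le_card_of_injOn (fun u : ℕ => K.i0 + (u : ℤ))
    · intro u hu
      simp only [Finset.coe_filter, Finset.mem_range, Set.mem_ofPred_eq] at hu
      obtain ⟨hu1, hu2⟩ := hu
      simp only [Finset.coe_union, Set.mem_union, Finset.mem_coe, Finset.mem_Ico,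
        Finset.mem_Icc, Finset.mem_Ioo]
      by_cases g1 : K.i0 + (u : ℤ) < K.i1
      · left; left; left; left; left; exact ⟨by omega, g1⟩
      by_cases g2 : K.i0 + (u : ℤ) ≤ K.i2
      · rcases hu2 with hu2 | hu2
        · have := a4 _ (by omega) g2 hu2
          left; left; left; left; right; exact ⟨by omega, this⟩
        · have := b4 _ (by omega) g2 hu2
          left; left; left; right; exact ⟨this, g2⟩
      by_cases g3 : K.i0 + (u : ℤ) < K.i3
      · left; left; right; exact ⟨by omega, g3⟩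
      · rcases hu2 with hu2 | hu2
        · have := d4 _ (by omega) (by omega) hu2
          right; exact ⟨this, by omega⟩
        · have := c4 _ (by omega) (by omega) hu2
          left; right; exact ⟨by omega, this⟩
    · intro u _ v _ huv
      have : K.i0 + (u : ℤ) = K.i0 + (v : ℤ) := huv
      omega
  refine hsub.trans ?_
  refine (Finset.card_union_le _ _).trans ?_
  have s1 := Finset.card_union_le (Finset.Ico K.i0 K.i1 ∪ Finset.Icc K.i1 jA ∪
    Finset.Icc jB K.i2 ∪ Finset.Ioo K.i2 K.i3) (Finset.Icc K.i3 jC)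
  have s2 := Finset.card_union_le (Finset.Ico K.i0 K.i1 ∪ Finset.Icc K.i1 jA ∪
    Finset.Icc jB K.i2) (Finset.Ioo K.i2 K.i3)
  have s3 := Finset.card_union_le (Finset.Ico K.i0 K.i1 ∪ Finset.Icc K.i1 jA)
    (Finset.Icc jB K.i2)
  have s4 := Finset.card_union_le (Finset.Ico K.i0 K.i1) (Finset.Icc K.i1 jA)
  simp only [Int.card_Ico, Int.card_Icc, Int.card_Ioo] at s1 s2 s3 s4 ⊢
  omega

end Pool.Agent.Helper85.CVX.CP
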