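import Pool.Agent.Helper85.CVX.FlatDefs

/-! Block PURE (≈100 lines).
`pure_sum`: for `x,y ∈ [0,1]`: `|x - y| + 2 min(x,y)(1 - max(x,y)) = x + y - 2xy`; for `x,y ∈ (1/5,4/5)` the middle term is
`≥ 2/25`.  `∑_{i,j} (X i + X j - 2 X i X j) = 2 n s - 2 s² ≤ n²/2`, `s = ∑ X i`.
`far_pairs`: `d ≥ 3/5` implies `|re diff| ≥ 3/5 - ε > 1/2`, so one of the two vertices has `re < 1/2`, the other `re ≥ 1/2`: at most
`2 |A| |B|` ordered pairs, `|A| + |B| = n`. -/

set_option autoImplicit false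
open scoped Classical
open Real

noncomputable section

namespace Pool.Agent.Helper85.CVX.CP

variable {n : ℕ} (C : CP n)

omit C in
theorem pure_sum (X : ℕ → ℝ) (h : ∀ i < n, 0 ≤ X i ∧ X i ≤ 1) :
    ∑ i ∈ Finset.range n, ∑ j ∈ Finset.range n, |X i - X j|
      + 2 / 25 * (((Finset.range n).filter (fun i => 1 / 5 < X i ∧ X i < 4 / 5)).card : ℝ) ^ 2
      ≤ (n : ℝ) ^ 2 / 2 := by
  obtain ⟨f, hf⟩ : ∃ f : ℕ → ℝ, f = fun i => if (1 / 5 < X i ∧ X i < 4 / 5) then 1 else 0 :=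
    ⟨_, rfl⟩
  have hc : (((Finset.range n).filter (fun i => 1 / 5 < X i ∧ X i < 4 / 5)).card : ℝ)
      = ∑ i ∈ Finset.range n, f i := by
    rw [Finset.card_filter, hf]
    push_cast
    rfl
  rw [hc]
  obtain ⟨s, hs⟩ : ∃ s, s = ∑ i ∈ Finset.range n, X i := ⟨_, rfl⟩
  have key : ∀ i ∈ Finset.range n, ∀ j ∈ Finset.range n,
      |X i - X j| + 2 / 25 * (f i * f j) ≤ X i + X j - 2 * (X i * X j) := by
    intro i hi j hj
    obtain ⟨hi0, hi1⟩ := h i (Finset.mem_range.mp hi)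
    obtain ⟨hj0, hj1⟩ := h j (Finset.mem_range.mp hj)
    have aux : ∀ x y : ℝ, 0 ≤ x → x ≤ y → y ≤ 1 → ∀ a b : ℝ,
        (a = 0 ∨ (a = 1 ∧ 1 / 5 < x ∧ x < 4 / 5)) → (b = 0 ∨ (b = 1 ∧ 1 / 5 < y ∧ y < 4 / 5)) →
        (y - x) + 2 / 25 * (a * b) ≤ x + y - 2 * (x * y) := by
      intro x y hx hxy hy a b ha hb
      rcases ha with rfl | ⟨rfl, h1, h2⟩
      · nlinarith [mul_nonneg hx (sub_nonneg.2 hy)]
      · rcases hb with rfl | ⟨rfl, h3, h4⟩
        · nlinarith [mul_nonneg hx (sub_nonneg.2 hy)]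
        · nlinarith [mul_nonneg (sub_nonneg.2 h1.le) (sub_nonneg.2 h4.le)]
    have hfi : f i = 0 ∨ (f i = 1 ∧ 1 / 5 < X i ∧ X i < 4 / 5) := by
      by_cases hh : 1 / 5 < X i ∧ X i < 4 / 5
      · right; exact ⟨by rw [hf]; simp only [if_pos hh], hh⟩
      · left; rw [hf]; simp only [if_neg hh]
    have hfj : f j = 0 ∨ (f j = 1 ∧ 1 / 5 < X j ∧ X j < 4 / 5) := by
      by_cases hh : 1 / 5 < X j ∧ X j < 4 / 5
      · right; exact ⟨by rw [hf]; simp only [if_pos hh], hh⟩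
      · left; rw [hf]; simp only [if_neg hh]
    rcases le_total (X i) (X j) with hle | hle
    · rw [abs_sub_comm, abs_of_nonneg (sub_nonneg.2 hle)]
      exact aux _ _ hi0 hle hj1 _ _ hfi hfj
    · rw [abs_of_nonneg (sub_nonneg.2 hle)]
      have := aux _ _ hj0 hle hi1 _ _ hfj hfi
      linarith [mul_comm (f i) (f j), mul_comm (X i) (X j)]
  have h1 : ∑ i ∈ Finset.range n, ∑ j ∈ Finset.range n, (|X i - X j| + 2 / 25 * (f i * f j))
      ≤ ∑ i ∈ Finset.range n, ∑ j ∈ Finset.range n, (X i + X j - 2 * (X i * X j)) :=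
    Finset.sum_le_sum fun i hi => Finset.sum_le_sum fun j hj => key i hi j hj
  have h2 : ∑ i ∈ Finset.range n, ∑ j ∈ Finset.range n, (|X i - X j| + 2 / 25 * (f i * f j))
      = ∑ i ∈ Finset.range n, ∑ j ∈ Finset.range n, |X i - X j|
        + 2 / 25 * (∑ i ∈ Finset.range n, f i) ^ 2 := by
    simp only [Finset.sum_add_distrib]
    congr 1
    rw [sq, Finset.sum_mul_sum, Finset.mul_sum]
    refine Finset.sum_congr rfl fun i _ => ?_
    rw [Finset.mul_sum]
  have h3 : ∑ i ∈ Finset.range n, ∑ j ∈ Finset.range n, (X i + X j - 2 * (X i * X j))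
      = 2 * n * s - 2 * s ^ 2 := by
    simp only [Finset.sum_sub_distrib, Finset.sum_add_distrib, Finset.sum_const,
      Finset.card_range, nsmul_eq_mul]
    have h4 : ∑ i ∈ Finset.range n, ∑ j ∈ Finset.range n, 2 * (X i * X j) = 2 * s ^ 2 := by
      rw [hs, sq, Finset.sum_mul_sum, Finset.mul_sum]
      refine Finset.sum_congr rfl fun i _ => ?_
      rw [Finset.mul_sum]
    rw [h4, ← Finset.mul_sum, ← hs]
    ring
  rw [h2, h3] at h1
  nlinarith [sq_nonneg (s - n / 2)]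

theorem far_pairs {ε : ℝ} (hε : ε ≤ 1 / 100) (F : C.Flat ε) :
    2 * C.M (Set.Ici (3 / 5)) ≤ n ^ 2 := by
  have hn := C.n_pos
  -- far pairs have their endpoints on different sides of the line `re = 1/2`
  have key : ∀ a b : ℤ, 3 / 5 ≤ C.d a b →
      ¬ ((C.p b).re < 1 / 2 ↔ (C.p a).re < 1 / 2) := by
    intro a b hd hiff
    have h1 : C.d a b ≤ |(C.p b - C.p a).re| + |(C.p b - C.p a).im| :=
      Complex.norm_le_abs_re_add_abs_im _
    have h2 := F.im a b
    rw [Complex.sub_re, Complex.sub_im] at h1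
    have h3 : |(C.p b).re - (C.p a).re| ≤ 1 / 2 := by
      rw [abs_le]
      have := F.nonneg a
      have := F.nonneg b
      have := F.le_one a
      have := F.le_one b
      by_cases hb : (C.p b).re < 1 / 2
      · have ha := hiff.1 hb
        constructor <;> linarith
      · have ha : ¬ (C.p a).re < 1 / 2 := fun h => hb (hiff.2 h)
        rw [not_lt] at ha hb
        constructor <;> linarith
    linarith
  obtain ⟨A, hA⟩ : ∃ A, A = ((Finset.range n).filter (fun u : ℕ => (C.p (u : ℤ)).re < 1 / 2)).card :=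
    ⟨_, rfl⟩
  obtain ⟨B, hB⟩ : ∃ B,
      B = ((Finset.range n).filter (fun u : ℕ => ¬ (C.p (u : ℤ)).re < 1 / 2)).card := ⟨_, rfl⟩
  have hAB : A + B = n := by
    rw [hA, hB, Finset.card_filter_add_card_filter_not, Finset.card_range]
  have h1 : C.M (Set.Ici (3 / 5)) ≤ ∑ a ∈ Finset.range n,
      (if (C.p (a : ℤ)).re < 1 / 2 then B else A) := by
    have h2 : C.M (Set.Ici (3 / 5))
        = ∑ a ∈ Finset.range n, ((Finset.Ico 1 n).filter
          (fun k => C.ch (a, k) ∈ Set.Ici (3 / 5 : ℝ))).card :=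
      card_Q_filter (n := n) (fun a k => C.ch (a, k) ∈ Set.Ici (3 / 5 : ℝ))
    rw [h2]
    refine Finset.sum_le_sum fun a _ => ?_
    obtain ⟨P, hP⟩ : ∃ P : ℤ → Prop, P = fun i => ¬ ((C.p i).re < 1 / 2 ↔
        (C.p (a : ℤ)).re < 1 / 2) := ⟨_, rfl⟩
    have h3 : ((Finset.Ico 1 n).filter (fun k => C.ch (a, k) ∈ Set.Ici (3 / 5 : ℝ))).card
        ≤ ((Finset.range n).filter (fun u : ℕ => P ((a : ℤ) + u))).card := by
      refine Finset.card_le_card fun k hk => ?_
      rw [Finset.mem_filter, Finset.mem_Ico] at hk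
      rw [Finset.mem_filter, Finset.mem_range, hP]
      exact ⟨hk.1.2, key _ _ hk.2⟩
    have h4 := card_shift (n := n) P hn (fun i => by rw [hP]; simp only [C.p_per]) (a : ℤ)
    refine h3.trans (h4.le.trans ?_)
    split_ifs with ha
    · rw [hB]
      refine Finset.card_le_card fun u hu => ?_
      rw [Finset.mem_filter, hP] at hu
      rw [Finset.mem_filter]
      exact ⟨hu.1, fun hh => hu.2 ⟨fun _ => ha, fun _ => hh⟩⟩
    · rw [hA]
      refine Finset.card_le_card fun u hu => ?_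
      rw [Finset.mem_filter, hP] at hu
      rw [Finset.mem_filter]
      refine ⟨hu.1, ?_⟩
      by_contra hh
      exact hu.2 ⟨fun h => absurd h hh, fun h => absurd h ha⟩
  have h5 : ∑ a ∈ Finset.range n, (if (C.p (a : ℤ)).re < 1 / 2 then B else A)
      = A * B + B * A := by
    rw [Finset.sum_ite, Finset.sum_const, Finset.sum_const, smul_eq_mul, smul_eq_mul, ← hA, ← hB]
  rw [h5] at h1
  have h6 : 4 * (A * B) ≤ n ^ 2 := by
    rw [← hAB]
    rcases Nat.le_total A B with h | h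
    · obtain ⟨c, rfl⟩ := Nat.exists_eq_add_of_le h
      nlinarith [Nat.zero_le (c ^ 2)]
    · obtain ⟨c, rfl⟩ := Nat.exists_eq_add_of_le h
      nlinarith [Nat.zero_le (c ^ 2)]
  nlinarith [mul_comm A B]

end Pool.Agent.Helper85.CVX.CP
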