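import Pool.Agent.Helper85.CVX.Steep
import Pool.Agent.Helper85.CVX.Grid
import Pool.Agent.Helper85.CVX.Pure
import Pool.Agent.Helper85.CVX.Norm
import Pool.Agent.Helper85.CVX.Outward

/-! Block THIN (≈120 lines): the final inequality of the flat case.
With `s = sL + sR`, `sL = i1-i0`, `sR = i3-i2`, `SX = ∑∑|X i - X j|`, `Nm` = number of vertices with `1/5 < re < 4/5`:
`grid` for `C` and for the rotated polygon (`exists_rot`; its `re` is `1 - re`, `SX` is the same, `i3'-i2' = i1-i0`) add up to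
`n² ≤ 2 SX + 4nL + n s + 2(ε+1/H) n²`; with `pure_sum`:  `(4/25) Nm² ≤ 4nL + n s + 2(ε + 1/H) n²`.
`outward`, `K2` for `Ici (3/5)`, `far_pairs`:  `n (n - Nm) ≤ 2nL + n²/2 + n(2 + s)`.
`steep_bound`: `(r+1) s² ≤ 2(r+1)(sL²+sR²) ≤ 2((r+1)(2nL + n) + n²)`.
If `L ≤ c n`, `r`, `H`, `n` large and `c`, `ε` small: `s ≤ n/2000`, `Nm ≤ n/8`, and `n/2 ≤ n/8 + 2cn + 2 + n/2000` is false.
(e.g. `H = 4000`, `c = 10^{-9}`, `r ≥ 10^8`, `N = 10^9`, `ε = 1/(800·3^r·...)`, `ε ≤ 10^{-5}`; obtain `r` abstractly, never evaluate `3^r`.) -/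

set_option autoImplicit false
open scoped Classical
open Real

noncomputable section

namespace Pool.Agent.Helper85.CVX.CP

variable {n : ℕ} (C : CP n)

/-- the inequality for the vertices in the middle -/
theorem thin_mid {ε : ℝ} (F : C.Flat ε) (K : C.Cuts ε) (hε : 20000 * ε ≤ 1) :
    4 / 25 * (((Finset.range n).filter
      (fun i : ℕ => 1 / 5 < (C.p i).re ∧ (C.p i).re < 4 / 5)).card : ℝ) ^ 2
      ≤ 4 * n * C.L + n * (((K.i1 - K.i0).toNat : ℝ) + (K.i3 - K.i2).toNat)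
        + 2 * (ε + 1 / 4000) * (n : ℝ) ^ 2 := by
  obtain ⟨C', K', F', _, _, hL', _, hre, h0, h1, h2, h3⟩ := C.exists_rot F K
  have g1 := C.grid F K 4000 (by norm_num) (by push_cast; linarith)
  have g2 := C'.grid F' K' 4000 (by norm_num) (by push_cast; linarith)
  have e1 : (K'.i3 - K'.i2).toNat = (K.i1 - K.i0).toNat := by
    rw [h2, h3]; congr 1; ring
  have e2 : ∑ i ∈ Finset.range n, ∑ j ∈ Finset.range n, |(C'.p i).re - (C'.p j).re| =
      ∑ i ∈ Finset.range n, ∑ j ∈ Finset.range n, |(C.p i).re - (C.p j).re| := by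
    refine Finset.sum_congr rfl (fun i _ => Finset.sum_congr rfl (fun j _ => ?_))
    rw [hre, hre, show 1 - (C.p (i : ℤ)).re - (1 - (C.p (j : ℤ)).re) =
      -((C.p (i : ℤ)).re - (C.p (j : ℤ)).re) by ring, abs_neg]
  have e3 : ∑ i ∈ Finset.range n, (C'.p i).re = n - ∑ i ∈ Finset.range n, (C.p i).re := by
    refine (Finset.sum_congr rfl (fun (i : ℕ) _ => hre (i : ℤ))).trans ?_
    rw [Finset.sum_sub_distrib, Finset.sum_const, Finset.card_range, nsmul_eq_mul, mul_one]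
  rw [e1, e2, e3, hL'] at g2
  have g3 := pure_sum (n := n) (fun i => (C.p (i : ℤ)).re)
    (fun i _ => ⟨F.nonneg i, F.le_one i⟩)
  push_cast at g1 g2
  set SX := ∑ i ∈ Finset.range n, ∑ j ∈ Finset.range n, |(C.p i).re - (C.p j).re| with hSX
  set S1 := ∑ i ∈ Finset.range n, (C.p i).re with hS1
  set Nm := (((Finset.range n).filter
      (fun i : ℕ => 1 / 5 < (C.p i).re ∧ (C.p i).re < 4 / 5)).card : ℝ) with hNm
  have e4 : (n : ℝ) * (n - S1) + n * S1 = (n : ℝ) ^ 2 := by ring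
  linarith

/-- the inequality from the outward moves -/
theorem thin_out {ε : ℝ} (hε : ε ≤ 1 / 100) (F : C.Flat ε) (K : C.Cuts ε) :
    (n : ℝ) / 2 ≤ ((Finset.range n).filter
      (fun i : ℕ => 1 / 5 < (C.p i).re ∧ (C.p i).re < 4 / 5)).card + 2 * C.L + 2
        + (((K.i1 - K.i0).toNat : ℝ) + (K.i3 - K.i2).toNat) := by
  have hn : (0 : ℝ) < n := by exact_mod_cast C.n_pos
  have h1 := C.outward hε F K
  have h2 := C.K2 (Set.Ici (3 / 5))
  have h3 := C.far_pairs hε F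
  have h4 : ((Finset.range n).filter (fun i : ℕ => (C.p i).re ≤ 1 / 5 ∨ 4 / 5 ≤ (C.p i).re)).card +
      ((Finset.range n).filter (fun i : ℕ => 1 / 5 < (C.p i).re ∧ (C.p i).re < 4 / 5)).card = n := by
    have h5 := Finset.card_filter_add_card_filter_not (s := Finset.range n)
      (fun i : ℕ => (C.p i).re ≤ 1 / 5 ∨ 4 / 5 ≤ (C.p i).re)
    rw [Finset.card_range] at h5
    refine Eq.trans ?_ h5
    congr 2
    refine Finset.filter_congr (fun i _ => ?_)
    rw [not_or, not_le, not_le]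
  set Nm := ((Finset.range n).filter
      (fun i : ℕ => 1 / 5 < (C.p i).re ∧ (C.p i).re < 4 / 5)).card with hNm
  have h6 : (n : ℝ) ≤ Nm + (2 * C.R (Set.Ici (3 / 5)) + 2 + (K.i1 - K.i0).toNat +
      (K.i3 - K.i2).toNat) := by
    have : n ≤ Nm + (2 * C.R (Set.Ici (3 / 5)) + 2 + (K.i1 - K.i0).toNat +
      (K.i3 - K.i2).toNat) := by omega
    exact_mod_cast this
  have h7 : 2 * (C.M (Set.Ici (3 / 5)) : ℝ) ≤ (n : ℝ) ^ 2 := by exact_mod_cast h3
  have h8 : 2 * (n : ℝ) * C.R (Set.Ici (3 / 5)) ≤ n * (2 * C.L + n / 2) := by nlinarith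
  have h9 : 2 * (C.R (Set.Ici (3 / 5)) : ℝ) ≤ 2 * C.L + n / 2 := by
    have : (n : ℝ) * (2 * C.R (Set.Ici (3 / 5))) ≤ n * (2 * C.L + n / 2) := by linarith
    exact le_of_mul_le_mul_left this hn
  linarith

omit C in
theorem thin_flat : ∃ ε c : ℝ, 0 < ε ∧ 0 < c ∧ ∃ N : ℕ, ∀ n : ℕ, N ≤ n → ∀ C : CP n, C.Flat ε →
    c * n ≤ C.L := by
  obtain ⟨r, hr⟩ := exists_nat_ge (100000000 : ℝ)
  have h3r : (0 : ℝ) < 3 ^ r := by positivity
  refine ⟨min (1 / 100000) (1 / (800 * 3 ^ r)), 1 / 1000000000, ?_, by norm_num, 1000000000, ?_⟩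
  · exact lt_min (by norm_num) (by positivity)
  intro n hn C F
  set ε := min (1 / 100000 : ℝ) (1 / (800 * 3 ^ r)) with hεd
  have hε0 := F.pos
  have hε1 : ε ≤ 1 / 100000 := min_le_left _ _
  have hε2 : 800 * 3 ^ r * ε ≤ 1 := by
    have : ε ≤ 1 / (800 * 3 ^ r) := min_le_right _ _
    rw [le_div_iff₀ (by positivity)] at this
    linarith
  obtain ⟨K⟩ := C.exists_cuts ε (by linarith) F
  by_contra hL
  rw [not_le] at hL
  have hnr : (1000000000 : ℝ) ≤ n := by exact_mod_cast hn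
  have a1 := C.thin_mid F K (by linarith)
  have a2 := C.thin_out (by linarith) F K
  have a3 := C.steep_bound F K r hε2
  set x : ℝ := (n : ℝ) with hx
  set Nm : ℝ := (((Finset.range n).filter
      (fun i : ℕ => 1 / 5 < (C.p i).re ∧ (C.p i).re < 4 / 5)).card : ℝ) with hNm
  set sL : ℝ := ((K.i1 - K.i0).toNat : ℝ) with hsL
  set sR : ℝ := ((K.i3 - K.i2).toNat : ℝ) with hsR
  set l : ℝ := (C.L : ℝ) with hl
  have hsL0 : 0 ≤ sL := Nat.cast_nonneg _
  have hsR0 : 0 ≤ sR := Nat.cast_nonneg _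
  have hNm0 : 0 ≤ Nm := Nat.cast_nonneg _
  have hl0 : 0 ≤ l := Nat.cast_nonneg _
  have hx0 : 0 < x := by linarith
  have hr0 : (0 : ℝ) < (r : ℝ) + 1 := by linarith
  -- s is small
  have b1 : sL ^ 2 + sR ^ 2 ≤ 2 * x * l + x + x ^ 2 / 100000000 := by
    have h1 : x ^ 2 ≤ ((r : ℝ) + 1) * (x ^ 2 / 100000000) := by
      have h2 : (100000000 : ℝ) * (x ^ 2 / 100000000) ≤ ((r : ℝ) + 1) * (x ^ 2 / 100000000) :=
        mul_le_mul_of_nonneg_right (by linarith) (by positivity)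
      linarith
    have h3 : ((r : ℝ) + 1) * (sL ^ 2 + sR ^ 2) ≤
        ((r : ℝ) + 1) * (2 * x * l + x + x ^ 2 / 100000000) := by linarith
    exact le_of_mul_le_mul_left h3 hr0
  have b2 : x * l ≤ x ^ 2 / 1000000000 := by
    have := mul_le_mul_of_nonneg_left hL.le hx0.le
    linarith
  have b3 : x ≤ x ^ 2 / 1000000000 := by
    have := mul_le_mul_of_nonneg_left hnr hx0.le
    linarith
  have b4 : (sL + sR) ^ 2 ≤ (x / 2000) ^ 2 := by
    have : (sL + sR) ^ 2 ≤ 2 * (sL ^ 2 + sR ^ 2) := by nlinarith [sq_nonneg (sL - sR)]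
    have : 0 ≤ x ^ 2 := sq_nonneg x
    linarith
  have b5 : sL + sR ≤ x / 2000 := by
    exact le_of_abs_le (abs_le_of_sq_le_sq b4 (by positivity))
  have b6 : x * (sL + sR) ≤ x ^ 2 / 2000 := by
    have := mul_le_mul_of_nonneg_left b5 hx0.le
    linarith
  have b7 : (ε + 1 / 4000) * x ^ 2 ≤ (1 / 100000 + 1 / 4000) * x ^ 2 :=
    mul_le_mul_of_nonneg_right (by linarith) (sq_nonneg x)
  have b8 : Nm ^ 2 ≤ (x / 8) ^ 2 := by
    have : 0 ≤ x ^ 2 := sq_nonneg x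
    linarith
  have b9 : Nm ≤ x / 8 := le_of_abs_le (abs_le_of_sq_le_sq b8 (by positivity))
  linarith

end Pool.Agent.Helper85.CVX.CP
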