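import Pool.Agent.Helper85.CVX.FatMain2
import Pool.Agent.Helper85.CVX.ThinFlat
import Pool.Agent.Helper85.CVX.Dich
import Pool.Agent.Helper85.CVX.Lift3

/-! Final assembly (helper85). -/

set_option autoImplicit false
open scoped Classical
open Real

noncomputable section

namespace Pool.Agent.Helper85.CVX

theorem main : ∃ c : ℝ, 0 < c ∧ ∃ N : ℕ, ∀ n : ℕ, N ≤ n →
    ∀ P : Finset (EuclideanSpace ℝ (Fin 2)), P.card = n →
      (∀ x ∈ P, x ∉ convexHull ℝ ((P : Set (EuclideanSpace ℝ (Fin 2))) \ {x})) →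
      c * n ≤ (((P.offDiag.image (fun x => dist x.1 x.2)).filter
        (fun d => (P.offDiag.filter (fun x => dist x.1 x.2 = d)).card ≤ 2 * n)).card : ℝ) := by
  obtain ⟨ε, c₁, hε, hc₁, N₁, h₁⟩ := CP.thin_flat
  -- thinness parameters
  let ε' : ℝ := min (ε / 2) (1 / 2)
  have hε' : 0 < ε' := by positivity
  -- choose ω with tan ω ≤ ε'/2 and τ = ε'/2
  obtain ⟨ω, hω, hω', htan⟩ : ∃ ω : ℝ, 0 < ω ∧ ω < π / 2 ∧ Real.tan ω ≤ ε' / 2 := by
    refine ⟨Real.arctan (ε' / 2), ?_, Real.arctan_lt_pi_div_two _, ?_⟩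
    · exact Real.arctan_pos.mpr (by positivity)
    · rw [Real.tan_arctan]
  obtain ⟨c₂, hc₂, N₂, h₂⟩ := CP.fat_main ω (ε' / 2) hω hω' (by positivity)
  refine ⟨min c₁ c₂, lt_min hc₁ hc₂, max 3 (max N₁ N₂), ?_⟩
  intro n hn P hP hc
  have hn3 : 3 ≤ n := (le_max_left _ _).trans hn
  obtain ⟨C, hC⟩ := lift3 n hn3 P hP hc
  rw [← hC]
  have hn1 : N₁ ≤ n := ((le_max_left _ _).trans (le_max_right _ _)).trans hn
  have hn2 : N₂ ≤ n := ((le_max_right _ _).trans (le_max_right _ _)).trans hn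
  -- the diameter
  obtain ⟨x, hx, hmax⟩ := Finset.exists_max_image (Q n) C.ch ⟨(0, 1), by
    simp only [Q, Finset.mem_product, Finset.mem_range, Finset.mem_Ico]; omega⟩
  let Δ : ℝ := C.ch x
  have hD : ∀ t ∈ C.D, t ≤ Δ := by
    intro t ht
    obtain ⟨z, hz, rfl⟩ := Finset.mem_image.mp ht
    exact hmax z hz
  have hΔ0 : 0 < Δ := by
    have h1 := hD _ (C.mem_D 0 (le_refl 1) (by omega))
    have h2 : C.d 0 (0 + ((1 : ℕ) : ℤ)) = C.ℓ 0 := by
      have h3 := C.step 0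
      rw [CP.d, Nat.cast_one, h3, norm_mul, Complex.norm_exp_ofReal_mul_I, mul_one,
        Complex.norm_real, Real.norm_of_nonneg (C.ℓ_pos _).le]
    rw [h2] at h1
    exact lt_of_lt_of_le (C.ℓ_pos 0) h1
  have hΔ : ∀ i j, C.d i j ≤ Δ := by
    intro i j
    have hn' : (0 : ℤ) < n := by omega
    have h0 := Int.emod_nonneg (j - i) hn'.ne'
    have h1 := Int.emod_lt_of_pos (j - i) hn'
    obtain ⟨k, hk⟩ : ∃ k : ℕ, (k : ℤ) = (j - i) % n := ⟨((j - i) % n).toNat, Int.toNat_of_nonneg h0⟩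
    have h2 : j = i + k + ((j - i) / n) * n := by
      have := Int.emod_add_mul_ediv (j - i) n
      rw [hk]; linarith
    have h3 : C.d i j = C.d i (i + k) := by
      rw [CP.d, CP.d]
      conv_lhs => rw [h2, C.p_perk]
    rw [h3]
    rcases Nat.eq_zero_or_pos k with h | h
    · subst h; simp only [Nat.cast_zero, add_zero, CP.d_self]; exact hΔ0.le
    · exact hD _ (C.mem_D i h (by omega))
  rcases C.dichotomy ω (ε' / 2 * Δ) Δ hω hω' (by positivity) hΔ with hF | ⟨φ, hφ⟩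
  · refine (mul_le_mul_of_nonneg_right (min_le_right _ _) (by positivity)).trans ?_
    exact h₂ n hn2 C Δ hΔ0 hΔ hF
  · refine (mul_le_mul_of_nonneg_right (min_le_left _ _) (by positivity)).trans ?_
    have hthin : ∀ i j, |crs φ (C.p j - C.p i)| ≤ ε' * Δ := by
      intro i j
      refine (hφ i j).trans ?_
      nlinarith
    obtain ⟨C', hL, hflat⟩ := C.normalize φ ε' Δ hε' (min_le_right _ _) hΔ0 ⟨_, _, le_refl Δ⟩ hthin
    rw [← hL]
    apply h₁ n hn1 C'
    have h2 : 2 * ε' ≤ ε := by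
      have := min_le_left (ε / 2) (1 / 2); simp only [ε'] at *; linarith
    exact ⟨hε, hflat.nonneg, hflat.le_one, hflat.zero, hflat.one, fun i j => (hflat.im i j).trans h2⟩

end Pool.Agent.Helper85.CVX
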