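import Pool.Agent.Helper85.CVX.Basic

/-! Definitions for the thin case. -/

set_option autoImplicit false
open scoped Classical
open Real

noncomputable section

namespace Pool.Agent.Helper85.CVX.CP

variable {n : ℕ} (C : CP n)

/-- normalized flat polygon: horizontal extent exactly `[0,1]`, vertical extent at most `ε` -/
structure Flat (ε : ℝ) : Prop where
  pos : 0 < ε
  nonneg : ∀ i, 0 ≤ (C.p i).re
  le_one : ∀ i, (C.p i).re ≤ 1
  zero : ∃ i, (C.p i).re = 0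
  one : ∃ i, (C.p i).re = 1
  im : ∀ i j, |(C.p j).im - (C.p i).im| ≤ ε

/-- the four groups of edges of a flat polygon: steep edges near the left end `[i0,i1)`, lower edges `[i1,i2)`,
steep edges near the right end `[i2,i3)`, upper edges `[i3,i0+n)` -/
structure Cuts (ε : ℝ) where
  i0 : ℤ
  i1 : ℤ
  i2 : ℤ
  i3 : ℤ
  h01 : i0 ≤ i1
  h12 : i1 < i2
  h23 : i2 ≤ i3
  h34 : i3 < i0 + n
  steepL : ∀ i, i0 ≤ i → i < i1 → -(π / 2) - 1 / 4 ≤ C.θ i ∧ C.θ i < -(π / 2) + 1 / 4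
  low : ∀ i, i1 ≤ i → i < i2 → -(π / 2) + 1 / 4 ≤ C.θ i ∧ C.θ i < π / 2 - 1 / 4
  steepR : ∀ i, i2 ≤ i → i < i3 → π / 2 - 1 / 4 ≤ C.θ i ∧ C.θ i < π / 2 + 1 / 4
  upp : ∀ i, i3 ≤ i → i < i0 + n → π / 2 + 1 / 4 ≤ C.θ i ∧ C.θ i < 3 * π / 2 - 1 / 4
  left : ∀ i, i0 ≤ i → i ≤ i1 → (C.p i).re ≤ ε
  right : ∀ i, i2 ≤ i → i ≤ i3 → 1 - ε ≤ (C.p i).re
  zero : ∃ i, i0 ≤ i ∧ i ≤ i1 ∧ (C.p i).re = 0
  one : ∃ i, i2 ≤ i ∧ i ≤ i3 ∧ (C.p i).re = 1

/-- number of vertices other than `i` whose horizontal distance from `i` is at most `y` -/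
def W (i : ℤ) (y : ℝ) : ℕ :=
  ((Finset.Ico 1 n).filter (fun k : ℕ => |(C.p (i + k)).re - (C.p i).re| ≤ y)).card

/-- number of ordered pairs of distinct vertices with horizontal distance at most `y` -/
def Mx (y : ℝ) : ℕ :=
  ((Q n).filter (fun x => |(C.p ((x.1 : ℤ) + x.2)).re - (C.p (x.1 : ℤ)).re| ≤ y)).card

end Pool.Agent.Helper85.CVX.CP
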