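import Pool.Agent.Helper85.CVX.Defs

/-! Block LIFT1: ordering points in convex position.
Base point `q 0`: the vertex with the smallest `re` (then smallest `im`).  The other points are
sorted by the angle seen from `q 0` (`x ↦ arg (x - q 0)`, values in `(-π/2, π/2]`). -/

set_option autoImplicit false
open scoped Classical
open Real

noncomputable section

namespace Pool.Agent.Helper85.CVX

/-- orientation of a triple (twice the signed area) -/
def ori (a b c : ℂ) : ℝ := (b - a).re * (c - a).im - (b - a).im * (c - a).re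

/-- If `P` is in convex position, no point of `P` is a convex combination of three other ones. -/
theorem lift1_bary {P : Finset ℂ}
    (hc : ∀ x ∈ P, x ∉ convexHull ℝ ((P : Set ℂ) \ {x})) {x a b c : ℂ} (hx : x ∈ P)
    (ha : a ∈ P) (hb : b ∈ P) (hcP : c ∈ P) (hax : a ≠ x) (hbx : b ≠ x) (hcx : c ≠ x)
    {l₁ l₂ l₃ : ℝ} (h1 : 0 ≤ l₁) (h2 : 0 ≤ l₂) (h3 : 0 ≤ l₃) (hs : l₁ + l₂ + l₃ = 1)
    (he : x = l₁ • a + l₂ • b + l₃ • c) : False := by
  refine hc x hx ?_
  have hA : a ∈ convexHull ℝ ((P : Set ℂ) \ {x}) :=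
    subset_convexHull ℝ _ ⟨ha, hax⟩
  have hB : b ∈ convexHull ℝ ((P : Set ℂ) \ {x}) :=
    subset_convexHull ℝ _ ⟨hb, hbx⟩
  have hC : c ∈ convexHull ℝ ((P : Set ℂ) \ {x}) :=
    subset_convexHull ℝ _ ⟨hcP, hcx⟩
  have hconv := convex_convexHull ℝ ((P : Set ℂ) \ {x})
  have key := hconv.sum_mem (t := (Finset.univ : Finset (Fin 3))) (w := ![l₁, l₂, l₃])
    (z := ![a, b, c]) (by
      intro i _
      fin_cases i
      · exact h1
      · exact h2
      · exact h3) (by
      rw [Fin.sum_univ_three]; exact hs) (by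
      intro i _
      fin_cases i
      · exact hA
      · exact hB
      · exact hC)
  rw [Fin.sum_univ_three] at key
  have e : x = ![l₁, l₂, l₃] 0 • ![a, b, c] 0 + ![l₁, l₂, l₃] 1 • ![a, b, c] 1 +
      ![l₁, l₂, l₃] 2 • ![a, b, c] 2 := he
  rwa [← e] at key

/-- The sign of the cross product through the arguments. -/
theorem lift1_cross {z w : ℂ} (hz : z ≠ 0) (hw : w ≠ 0) (h1 : z.arg < w.arg)
    (h2 : w.arg - z.arg < π) : 0 < z.re * w.im - z.im * w.re := by
  have hs : 0 < Real.sin (w.arg - z.arg) := Real.sin_pos_of_pos_of_lt_pi (by linarith) h2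
  have hz' : 0 < ‖z‖ := norm_pos_iff.2 hz
  have hw' : 0 < ‖w‖ := norm_pos_iff.2 hw
  rw [Real.sin_sub, Complex.sin_arg, Complex.sin_arg, Complex.cos_arg hz, Complex.cos_arg hw] at hs
  have e : w.im / ‖w‖ * (z.re / ‖z‖) - w.re / ‖w‖ * (z.im / ‖z‖) =
      (z.re * w.im - z.im * w.re) / (‖z‖ * ‖w‖) := by
    field_simp
  rw [e] at hs
  exact (div_pos_iff_of_pos_right (mul_pos hz' hw')).1 hs

theorem lift1 (n : ℕ) (hn : 3 ≤ n) (P : Finset ℂ) (hP : P.card = n)
    (hc : ∀ x ∈ P, x ∉ convexHull ℝ ((P : Set ℂ) \ {x})) :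
    ∃ q : ℕ → ℂ, (∀ x, x ∈ P ↔ ∃ i < n, q i = x) ∧
      (∀ i j k, i < j → j < k → k < n → 0 < ori (q i) (q j) (q k)) := by
  have hne : P.Nonempty := by
    rw [← Finset.card_pos]; omega
  obtain ⟨o, ho, hmin⟩ := P.exists_min_image (fun x : ℂ => toLex (x.re, x.im)) hne
  -- the points are on the right of `o`
  have hright : ∀ x ∈ P, x ≠ o → o.re < x.re ∨ (x.re = o.re ∧ o.im < x.im) := by
    intro x hx hxo
    have h := hmin x hx
    rw [Prod.Lex.toLex_le_toLex] at h
    rcases h with h | ⟨h1, h2⟩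
    · exact Or.inl h
    · refine Or.inr ⟨h1.symm, lt_of_le_of_ne h2 fun h3 => hxo ?_⟩
      exact Complex.ext h1.symm h3.symm
  have harg : ∀ x ∈ P, x ≠ o → -(π / 2) < (x - o).arg ∧ (x - o).arg ≤ π / 2 := by
    intro x hx hxo
    have hre : 0 ≤ (x - o).re := by
      rw [Complex.sub_re]
      rcases hright x hx hxo with h | ⟨h, -⟩ <;> linarith
    have h1 := Complex.abs_arg_le_pi_div_two_iff.2 hre
    rw [abs_le] at h1
    refine ⟨lt_of_le_of_ne h1.1 fun h2 => ?_, h1.2⟩
    have h3 := (Complex.arg_eq_neg_pi_div_two_iff (z := x - o)).1 h2.symm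
    rw [Complex.sub_re, Complex.sub_im] at h3
    rcases hright x hx hxo with h | ⟨-, h⟩
    · linarith [h3.1]
    · linarith [h3.2]
  have hinj : Set.InjOn (fun x : ℂ => (x - o).arg) (P.erase o : Set ℂ) := by
    have aux : ∀ x ∈ P, ∀ y ∈ P, x ≠ o → y ≠ o → (x - o).arg = (y - o).arg →
        ‖x - o‖ < ‖y - o‖ → False := by
      intro x hx y hy hxo hyo hxy hlt
      have hx0 : x - o ≠ 0 := sub_ne_zero.2 hxo
      have hy0 : y - o ≠ 0 := sub_ne_zero.2 hyo
      have h1 := (Complex.arg_eq_arg_iff hy0 hx0).1 hxy.symm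
      have hyn : 0 < ‖y - o‖ := norm_pos_iff.2 hy0
      have ht0 : 0 ≤ ‖x - o‖ / ‖y - o‖ := by positivity
      have ht1 : ‖x - o‖ / ‖y - o‖ ≤ 1 := (div_le_one hyn).2 hlt.le
      have hyx : y ≠ x := by
        rintro rfl
        exact lt_irrefl _ hlt
      refine lift1_bary hc hx ho hy hy hxo.symm hyx hyx
        (l₁ := 1 - ‖x - o‖ / ‖y - o‖) (l₂ := ‖x - o‖ / ‖y - o‖) (l₃ := 0)
        (by linarith) ht0 le_rfl (by ring) ?_
      have h2 : ((‖x - o‖ / ‖y - o‖ : ℝ) : ℂ) * (y - o) = x - o := by
        rw [Complex.ofReal_div]; exact h1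
      rw [zero_smul, add_zero, Complex.real_smul, Complex.real_smul, Complex.ofReal_sub,
        Complex.ofReal_one]
      linear_combination -h2
    intro x hx y hy hxy
    rw [Finset.mem_coe, Finset.mem_erase] at hx hy
    by_contra hne'
    have hxy' : (x - o).arg = (y - o).arg := hxy
    rcases lt_trichotomy ‖x - o‖ ‖y - o‖ with h | h | h
    · exact aux x hx.2 y hy.2 hx.1 hy.1 hxy' h
    · have h4 : x - o = y - o := Complex.ext_norm_arg h hxy'
      exact hne' (sub_left_injective h4)
    · exact aux y hy.2 x hx.2 hy.1 hx.1 hxy'.symm h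
  set A : Finset ℝ := (P.erase o).image (fun x : ℂ => (x - o).arg) with hA
  have hAcard : A.card = n - 1 := by
    rw [hA, Finset.card_image_of_injOn hinj, Finset.card_erase_of_mem ho, hP]
  set e := A.orderEmbOfFin hAcard with he
  have hg : ∀ i : Fin (n - 1), ∃ x ∈ P.erase o, (x - o).arg = e i := by
    intro i
    have : e i ∈ A := Finset.orderEmbOfFin_mem A hAcard i
    rw [hA, Finset.mem_image] at this
    exact this
  choose g hgP hge using hg
  have hgP1 : ∀ i, g i ∈ P := fun i => (Finset.mem_erase.1 (hgP i)).2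
  have hgo : ∀ i, g i ≠ o := fun i => (Finset.mem_erase.1 (hgP i)).1
  have hgi : ∀ i j, i < j → g i ≠ g j := by
    intro i j hij h
    have h1 : e i < e j := e.strictMono hij
    rw [← hge, ← hge, h] at h1
    exact lt_irrefl _ h1
  -- orientation with the base point
  have hori0 : ∀ i j, i < j → 0 < ori o (g i) (g j) := by
    intro i j hij
    unfold ori
    refine lift1_cross (sub_ne_zero.2 (hgo i)) (sub_ne_zero.2 (hgo j)) ?_ ?_
    · rw [hge, hge]; exact e.strictMono hij
    · have h1 := harg _ (hgP1 i) (hgo i)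
      have h2 := harg _ (hgP1 j) (hgo j)
      linarith [h1.1, h2.2]
  -- orientation of three other points
  have hori1 : ∀ i j k, i < j → j < k → 0 < ori (g i) (g j) (g k) := by
    intro i j k hij hjk
    by_contra hle
    push Not at hle
    have a1 := hori0 i j hij
    have a2 := hori0 j k hjk
    have a3 := hori0 i k (hij.trans hjk)
    have hid : ori (g i) (g j) (g k) = ori o (g i) (g j) + ori o (g j) (g k) -
        ori o (g i) (g k) := by
      unfold ori
      simp only [Complex.sub_re, Complex.sub_im]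
      ring
    refine lift1_bary hc (hgP1 j) ho (hgP1 i) (hgP1 k) (hgo j).symm (hgi i j hij)
      (hgi j k hjk).symm (l₁ := -ori (g i) (g j) (g k) / ori o (g i) (g k))
      (l₂ := ori o (g j) (g k) / ori o (g i) (g k))
      (l₃ := ori o (g i) (g j) / ori o (g i) (g k))
      (div_nonneg (by linarith) a3.le) (div_nonneg a2.le a3.le) (div_nonneg a1.le a3.le) ?_ ?_
    · rw [← add_div, ← add_div, div_eq_one_iff_eq a3.ne', hid]
      ring
    · have h0 : ori o (g i) (g k) ≠ 0 := a3.ne'
      have expand : ori o (g i) (g k) = (g i - o).re * (g k - o).im -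
          (g i - o).im * (g k - o).re := rfl
      apply Complex.ext
      · simp only [Complex.add_re, Complex.smul_re, smul_eq_mul]
        field_simp
        unfold ori
        simp only [Complex.sub_re, Complex.sub_im]
        ring
      · simp only [Complex.add_im, Complex.smul_im, smul_eq_mul]
        field_simp
        unfold ori
        simp only [Complex.sub_re, Complex.sub_im]
        ring
  refine ⟨fun i => if h : 0 < i ∧ i < n then g ⟨i - 1, by omega⟩ else o, ?_, ?_⟩
  · intro x
    constructor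
    · intro hx
      by_cases hxo : x = o
      · refine ⟨0, by omega, ?_⟩
        simp only
        rw [dif_neg (by omega)]
        exact hxo.symm
      · have hmem : (x - o).arg ∈ A := by
          rw [hA, Finset.mem_image]
          exact ⟨x, Finset.mem_erase.2 ⟨hxo, hx⟩, rfl⟩
        have hr : (x - o).arg ∈ Set.range e := by
          rw [he, Finset.range_orderEmbOfFin]; exact hmem
        obtain ⟨k, hk⟩ := hr
        have hk1 : g k = x := by
          refine hinj (Finset.mem_coe.2 (hgP k)) (Finset.mem_coe.2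
            (Finset.mem_erase.2 ⟨hxo, hx⟩)) ?_
          show (g k - o).arg = (x - o).arg
          rw [hge, hk]
        refine ⟨k + 1, by have := k.2; omega, ?_⟩
        have hk2 : 0 < (k : ℕ) + 1 ∧ (k : ℕ) + 1 < n := ⟨by omega, by have := k.2; omega⟩
        simp only
        rw [dif_pos hk2, ← hk1]
        congr 1
    · rintro ⟨i, hi, rfl⟩
      simp only
      split_ifs with h
      · exact hgP1 _
      · exact ho
  · intro i j k hij hjk hk
    simp only
    rw [dif_pos (show 0 < j ∧ j < n by omega), dif_pos (show 0 < k ∧ k < n by omega)]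
    by_cases hi : 0 < i
    · rw [dif_pos (show 0 < i ∧ i < n by omega)]
      refine hori1 _ _ _ ?_ ?_
      · rw [Fin.mk_lt_mk]; omega
      · rw [Fin.mk_lt_mk]; omega
    · rw [dif_neg (by omega)]
      refine hori0 _ _ ?_
      rw [Fin.mk_lt_mk]; omega

end Pool.Agent.Helper85.CVX
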