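import Pool.Agent.Helper85.CVX.Basic
import Pool.Agent.Helper85.CVX.Lift1

/-! Block LIFT2: from the orientations to the lifted edge directions.
Extend `q` periodically: `p i = q (i % n).toNat`.  From `h` and the cyclic symmetry of `ori`: for every `i : ℤ` and `k ≢ i, i+1 (mod n)`:
`0 < ori (p i) (p (i+1)) (p k)` (supporting edges), in particular consecutive edges `e_i = p (i+1) - p i` turn left.
Let `β i ∈ [arg e_0, arg e_0 + 2π)` be the angle of `e_i`, `0 ≤ i < n`.  Claim: `β` is strictly increasing on `0 ≤ i < n`.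
As `sin (β (i+1) - β i) > 0`, the only other possibility is `β i - β (i+1) > π`; then `e_i` points strictly
downwards and `e_(i+1)` does not point strictly downwards with respect to `e_0`.  All vertices lie in the cone at `p (i+1)` spanned by `e_(i+1)` and `-e_i`, so
the height of `p 0` is at least that of `p (i+1)`, but the latter is positive.
Finally `θ i = β (i mod n) + 2π (i div n)`, `ℓ i = |e_i|`. -/

set_option autoImplicit false
open scoped Classical
open Real

noncomputable section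

namespace Pool.Agent.Helper85.CVX

namespace Lift2

/-- cross product -/
def cr (a b : ℂ) : ℝ := a.re * b.im - a.im * b.re

lemma ori_eq (a b c : ℂ) : ori a b c = cr (b - a) (c - a) := rfl

lemma ori_cyc (a b c : ℂ) : ori a b c = ori b c a := by
  simp only [ori, Complex.sub_re, Complex.sub_im]; ring

lemma plucker (a b c w : ℂ) : cr a b * cr c w = cr a w * cr c b - cr b w * cr c a := by
  simp only [cr]; ring

lemma cr_exp (r s α β : ℝ) :
    cr ((r : ℂ) * Complex.exp ((α : ℂ) * Complex.I)) ((s : ℂ) * Complex.exp ((β : ℂ) * Complex.I))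
      = r * s * Real.sin (β - α) := by
  simp only [cr, re_mul_exp, im_mul_exp, Real.sin_sub]; ring

/-- periodic extension -/
def pp (n : ℕ) (q : ℕ → ℂ) (i : ℤ) : ℂ := q (i % n).toNat

/-- edges -/
def ee (n : ℕ) (q : ℕ → ℂ) (i : ℤ) : ℂ := pp n q (i + 1) - pp n q i

variable {n : ℕ} {q : ℕ → ℂ}

lemma pp_congr {i j : ℤ} (h : i % n = j % n) : pp n q i = pp n q j := by
  rw [pp, pp, h]

lemma ee_congr {i j : ℤ} (h : i % n = j % n) : ee n q i = ee n q j := by
  rw [ee, ee, pp_congr h, pp_congr (i := i + 1) (j := j + 1)]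
  rw [Int.add_emod, h, ← Int.add_emod]

lemma emod_succ (hn : 3 ≤ n) (i : ℤ) :
    (i % n + 1 < n ∧ (i + 1) % n = i % n + 1 ∧ (i + 1) / n = i / n) ∨
    (i % n + 1 = n ∧ (i + 1) % n = 0 ∧ (i + 1) / n = i / n + 1) := by
  have hn0 : (0 : ℤ) < n := by omega
  have h0 := Int.emod_nonneg i hn0.ne'
  have h1 := Int.emod_lt_of_pos i hn0
  have h2 := Int.emod_add_mul_ediv i n
  rcases lt_or_eq_of_le (show i % n + 1 ≤ n by omega) with h | h
  · left
    refine ⟨h, ?_⟩
    have := (Int.ediv_emod_unique (a := i + 1) (b := n) (r := i % n + 1) (q := i / n) hn0).mpr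
      ⟨by linarith, by omega, h⟩
    exact ⟨this.2, this.1⟩
  · right
    refine ⟨h, ?_⟩
    have := (Int.ediv_emod_unique (a := i + 1) (b := n) (r := 0) (q := i / n + 1) hn0).mpr
      ⟨by rw [mul_add, mul_one]; linarith, le_rfl, hn0⟩
    exact ⟨this.2, this.1⟩

/-- supporting edges -/
lemma supp (hn : 3 ≤ n) (h : ∀ i j k, i < j → j < k → k < n → 0 < ori (q i) (q j) (q k))
    (i k : ℤ) (h1 : k % n ≠ i % n) (h2 : k % n ≠ (i + 1) % n) :
    0 < ori (pp n q i) (pp n q (i + 1)) (pp n q k) := by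
  have hn0 : (0 : ℤ) < n := by omega
  have i0 := Int.emod_nonneg i hn0.ne'
  have i1 := Int.emod_lt_of_pos i hn0
  have k0 := Int.emod_nonneg k hn0.ne'
  have k1 := Int.emod_lt_of_pos k hn0
  rcases emod_succ hn i with ⟨a1, a2, _⟩ | ⟨a1, a2, _⟩
  · rw [pp, pp, pp, a2]
    rcases lt_or_ge (k % n) (i % n) with h3 | h3
    · rw [ori_cyc, ori_cyc]
      exact h _ _ _ (by omega) (by omega) (by omega)
    · exact h _ _ _ (by omega) (by omega) (by omega)
  · rw [pp, pp, pp, a2, ori_cyc]
    rw [a2] at h2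
    exact h _ _ _ (by omega) (by omega) (by omega)

lemma supp_weak (hn : 3 ≤ n) (h : ∀ i j k, i < j → j < k → k < n → 0 < ori (q i) (q j) (q k))
    (i k : ℤ) : 0 ≤ ori (pp n q i) (pp n q (i + 1)) (pp n q k) := by
  by_cases h1 : k % n = i % n
  · rw [pp_congr h1]; simp [ori]
  by_cases h2 : k % n = (i + 1) % n
  · rw [pp_congr h2]; simp only [ori]; ring_nf; exact le_rfl
  exact (supp hn h i k h1 h2).le

lemma emod_add_two_ne (hn : 3 ≤ n) (i : ℤ) : (i + 2) % n ≠ i % n ∧ (i + 2) % n ≠ (i + 1) % n := by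
  constructor
  · intro h
    have := Int.emod_emod_of_dvd (i + 2) (dvd_refl (n : ℤ))
    have h2 : ((i + 2) - i) % n = 0 := Int.emod_eq_emod_iff_emod_sub_eq_zero.mp h
    rw [show (i + 2) - i = 2 by ring, Int.emod_eq_of_lt (by norm_num) (by omega)] at h2
    omega
  · intro h
    have h2 : ((i + 2) - (i + 1)) % n = 0 := Int.emod_eq_emod_iff_emod_sub_eq_zero.mp h
    rw [show (i + 2) - (i + 1) = 1 by ring, Int.emod_eq_of_lt (by norm_num) (by omega)] at h2
    omega

/-- consecutive edges turn left -/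
lemma turn (hn : 3 ≤ n) (h : ∀ i j k, i < j → j < k → k < n → 0 < ori (q i) (q j) (q k))
    (i : ℤ) : 0 < cr (ee n q i) (ee n q (i + 1)) := by
  have h1 := supp hn h i (i + 2) (emod_add_two_ne hn i).1 (emod_add_two_ne hn i).2
  have h2 : cr (ee n q i) (ee n q (i + 1)) = ori (pp n q i) (pp n q (i + 1)) (pp n q (i + 2)) := by
    rw [ee, ee, show i + 1 + 1 = i + 2 by ring]
    simp only [cr, ori, Complex.sub_re, Complex.sub_im]; ring
  rwa [h2]

lemma ee_ne (hn : 3 ≤ n) (h : ∀ i j k, i < j → j < k → k < n → 0 < ori (q i) (q j) (q k))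
    (i : ℤ) : ee n q i ≠ 0 := by
  intro h0
  have := turn hn h i
  rw [h0] at this
  simp [cr] at this

/-- the angle of edge `i` in `[arg e_0, arg e_0 + 2π)` -/
def β (n : ℕ) (q : ℕ → ℂ) (i : ℤ) : ℝ :=
  toIcoMod Real.two_pi_pos (Complex.arg (ee n q 0)) (Complex.arg (ee n q i))

lemma β_zero : β n q 0 = Complex.arg (ee n q 0) := by
  rw [β, toIcoMod_apply_left]

lemma β_ge (i : ℤ) : β n q 0 ≤ β n q i := by
  rw [β_zero]; exact left_le_toIcoMod _ _ _

lemma β_lt (i : ℤ) : β n q i < β n q 0 + 2 * π := by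
  rw [β_zero]; exact toIcoMod_lt_right _ _ _

lemma ee_eq (i : ℤ) : ee n q i = (‖ee n q i‖ : ℂ) * Complex.exp ((β n q i : ℂ) * Complex.I) := by
  conv_lhs => rw [exists_dir (ee n q i)]
  congr 1
  rw [β, Complex.exp_eq_exp_iff_exists_int]
  refine ⟨toIcoDiv Real.two_pi_pos (Complex.arg (ee n q 0)) (Complex.arg (ee n q i)), ?_⟩
  have := toIcoMod_add_toIcoDiv_zsmul Real.two_pi_pos (Complex.arg (ee n q 0))
    (Complex.arg (ee n q i))
  conv_lhs => rw [← this]
  push_cast
  simp only [zsmul_eq_mul]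
  ring

lemma β_mono (hn : 3 ≤ n) (h : ∀ i j k, i < j → j < k → k < n → 0 < ori (q i) (q j) (q k))
    (i : ℤ) (hi0 : 0 ≤ i) (hi : i + 1 < n) : β n q i < β n q (i + 1) := by
  by_contra hcon
  push Not at hcon
  have ht := turn hn h i
  have g0 := β_ge (n := n) (q := q) i
  have g1 := β_lt (n := n) (q := q) i
  have g2 := β_ge (n := n) (q := q) (i + 1)
  have g3 := β_lt (n := n) (q := q) (i + 1)
  have e0 := ee_eq (n := n) (q := q) 0
  have ei := ee_eq (n := n) (q := q) i
  have ei1 := ee_eq (n := n) (q := q) (i + 1)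
  have n0 : 0 < ‖ee n q 0‖ := norm_pos_iff.mpr (ee_ne hn h 0)
  have ni : 0 < ‖ee n q i‖ := norm_pos_iff.mpr (ee_ne hn h i)
  have ni1 : 0 < ‖ee n q (i + 1)‖ := norm_pos_iff.mpr (ee_ne hn h (i + 1))
  have hs : 0 < Real.sin (β n q (i + 1) - β n q i) := by
    rw [ei, ei1, cr_exp] at ht
    exact (mul_pos_iff_of_pos_left (by positivity)).mp ht
  -- difference in (-2π, 0], sin > 0, so < -π
  have hd : β n q (i + 1) - β n q i < -π := by
    by_contra hc
    push Not at hc
    have : Real.sin (β n q (i + 1) - β n q i) ≤ 0 :=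
      Real.sin_nonpos_of_nonpos_of_neg_pi_le (by linarith) hc
    linarith
  have c1 : cr (ee n q 0) (ee n q i) < 0 := by
    rw [e0, ei, cr_exp]
    have : Real.sin (β n q i - β n q 0) < 0 := by
      have h1 : Real.sin (β n q i - β n q 0) = - Real.sin (β n q i - β n q 0 - π) := by
        rw [Real.sin_sub_pi]; ring
      rw [h1]
      have : 0 < Real.sin (β n q i - β n q 0 - π) :=
        Real.sin_pos_of_pos_of_lt_pi (by linarith) (by linarith)
      linarith
    exact mul_neg_of_pos_of_neg (by positivity) this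
  have c2 : 0 ≤ cr (ee n q 0) (ee n q (i + 1)) := by
    rw [e0, ei1, cr_exp]
    have : 0 ≤ Real.sin (β n q (i + 1) - β n q 0) :=
      Real.sin_nonneg_of_nonneg_of_le_pi (by linarith) (by linarith)
    positivity
  -- i ≠ 0
  have hi1 : i ≠ 0 := by
    rintro rfl
    have : cr (ee n q 0) (ee n q 0) = 0 := by simp only [cr]; ring
    linarith
  set w := pp n q 0 - pp n q (i + 1) with hw
  have w1 : 0 ≤ cr (ee n q i) w := by
    have := supp_weak hn h i 0
    have e : cr (ee n q i) w = ori (pp n q i) (pp n q (i + 1)) (pp n q 0) := by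
      rw [hw, ee]
      simp only [cr, ori, Complex.sub_re, Complex.sub_im]; ring
    rwa [e]
  have w2 : 0 ≤ cr (ee n q (i + 1)) w := by
    have := supp_weak hn h (i + 1) 0
    have e : cr (ee n q (i + 1)) w = ori (pp n q (i + 1)) (pp n q (i + 1 + 1)) (pp n q 0) := by
      rw [hw, ee]; rfl
    rwa [e]
  have w3 : cr (ee n q 0) w < 0 := by
    have h1 : (i + 1) % (n : ℤ) = i + 1 := Int.emod_eq_of_lt (by omega) hi
    have h2 : (0 + 1) % (n : ℤ) = 1 := Int.emod_eq_of_lt (by omega) (by omega)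
    have := supp hn h 0 (i + 1) (by rw [h1]; simp; omega) (by rw [h1, h2]; omega)
    have e : cr (ee n q 0) w = - ori (pp n q 0) (pp n q (0 + 1)) (pp n q (i + 1)) := by
      rw [hw, ee]
      simp only [cr, ori, Complex.sub_re, Complex.sub_im]; ring
    linarith
  have key := plucker (ee n q i) (ee n q (i + 1)) (ee n q 0) w
  have k1 : cr (ee n q i) (ee n q (i + 1)) * cr (ee n q 0) w < 0 := mul_neg_of_pos_of_neg ht w3
  have k2 : 0 ≤ cr (ee n q i) w * cr (ee n q 0) (ee n q (i + 1)) := mul_nonneg w1 c2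
  have k3 : cr (ee n q (i + 1)) w * cr (ee n q 0) (ee n q i) ≤ 0 :=
    mul_nonpos_of_nonneg_of_nonpos w2 c1.le
  linarith

end Lift2

open Lift2

theorem lift2 (n : ℕ) (hn : 3 ≤ n) (q : ℕ → ℂ)
    (h : ∀ i j k, i < j → j < k → k < n → 0 < ori (q i) (q j) (q k)) :
    ∃ C : CP n, ∀ i : ℕ, i < n → C.p (i : ℤ) = q i := by
  have hn0 : (0 : ℤ) < n := by omega
  refine ⟨{ p := pp n q, θ := fun i => β n q (i % n) + 2 * π * ((i / n : ℤ) : ℝ),
            ℓ := fun i => ‖ee n q i‖, n_ge := hn, ℓ_pos := ?_, step := ?_, θ_lt := ?_,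
            θ_per := ?_, p_per := ?_ }, ?_⟩
  · intro i
    exact norm_pos_iff.mpr (ee_ne hn h i)
  · intro i
    have h1 : ee n q i = ee n q (i % n) := ee_congr (Int.emod_emod_of_dvd i dvd_rfl).symm
    change ee n q i = _
    rw [h1, ee_eq (i % n), norm_mul, Complex.norm_exp_ofReal_mul_I, mul_one, Complex.norm_real,
      norm_norm]
    congr 1
    rw [Complex.exp_eq_exp_iff_exists_int]
    refine ⟨-(i / n), ?_⟩
    push_cast
    ring
  · intro i
    rcases emod_succ hn i with ⟨a1, a2, a3⟩ | ⟨a1, a2, a3⟩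
    · rw [a2, a3]
      have := β_mono hn h (i % n) (Int.emod_nonneg i hn0.ne') a1
      linarith
    · rw [a2, a3]
      have := β_lt (n := n) (q := q) (i % n)
      push_cast
      linarith
  · intro i
    rw [Int.add_emod_right, Int.add_ediv_of_dvd_right (dvd_refl _), Int.ediv_self hn0.ne']
    push_cast
    ring
  · intro i
    exact pp_congr (Int.add_emod_right i n)
  · intro i hi
    change q ((i : ℤ) % n).toNat = q i
    rw [Int.emod_eq_of_lt (by omega) (by omega)]
    simp

end Pool.Agent.Helper85.CVX
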