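import Pool.Agent.Helper85.CVX.Nar

/-! Block M3 (≈60 lines).
Proof: strong induction on `k`.  If `d a (a+k) ≤ y` then `k ≤ m y` (`le_m_of_nar`).  Otherwise let `k₁` be the least
`k₁` with `y < d a (a+k₁)` (so `1 ≤ k₁ ≤ k`, and `k₁ - 1 ≤ m y` by `le_m_of_nar`); the rest `(a+k₁, k-k₁)` is narrow and by
`nar_sq_add_le`  `D² ≥ d₁² + D'² ≥ y² + D'²`, so `k - k₁ ≤ ((D'/y)²+1)(m+1)` and `k ≤ ((D'/y)²+2)(m+1) ≤ ((D/y)²+1)(m+1)`. -/

set_option autoImplicit false
open scoped Classical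
open Real

noncomputable section

namespace Pool.Agent.Helper85.CVX.CP

variable {n : ℕ} (C : CP n)

theorem m3 (a : ℤ) (k : ℕ) (y z : ℝ) (hy : 0 < y) (h : C.Nar a k) (hz : C.d a (a + k) ≤ z) :
    (k : ℝ) ≤ ((z / y) ^ 2 + 1) * (C.m y + 1) := by
  induction k using Nat.strong_induction_on generalizing a z with
  | _ k ih =>
    have hm : (0 : ℝ) ≤ C.m y := Nat.cast_nonneg _
    by_cases hd : C.d a (a + k) ≤ y
    · have h1 : (k : ℝ) ≤ C.m y := by exact_mod_cast C.le_m_of_nar h hd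
      have h2 : 0 ≤ (z / y) ^ 2 := sq_nonneg _
      nlinarith
    · rw [not_le] at hd
      have hex : ∃ j : ℕ, y < C.d a (a + j) := ⟨k, hd⟩
      let k₁ := Nat.find hex
      have hk₁ : y < C.d a (a + k₁) := Nat.find_spec hex
      have hle : k₁ ≤ k := Nat.find_min' hex hd
      have hpos : 1 ≤ k₁ := by
        rcases Nat.eq_zero_or_pos k₁ with h0 | h0
        · rw [h0] at hk₁
          simp only [Nat.cast_zero, add_zero, d_self] at hk₁
          linarith
        · exact h0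
      have hprev : C.d a (a + ((k₁ - 1 : ℕ) : ℤ)) ≤ y := by
        have := Nat.find_min hex (m := k₁ - 1) (by change k₁ - 1 < k₁; omega)
        exact not_lt.mp this
      have hn1 : C.Nar a (k₁ - 1) := C.nar_sub h le_rfl (by omega)
      have h1 : k₁ - 1 ≤ C.m y := C.le_m_of_nar hn1 hprev
      have h1' : (k₁ : ℝ) ≤ C.m y + 1 := by
        have : k₁ ≤ C.m y + 1 := by omega
        exact_mod_cast this
      have hn2 : C.Nar (a + k₁) (k - k₁) := C.nar_sub h (by omega) (by omega)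
      have hcast : (a : ℤ) + k₁ + ((k - k₁ : ℕ) : ℤ) = a + k := by
        push_cast [Nat.cast_sub hle]; ring
      have hh : C.Nar a (k₁ + (k - k₁)) := by rwa [Nat.add_sub_cancel' hle]
      have hsq := C.nar_sq_add_le hh
      rw [hcast] at hsq
      have hih := ih (k - k₁) (by omega) (a + k₁) (C.d (a + k₁) (a + k)) hn2 (by rw [hcast])
      have hD : (C.d (a + k₁) (a + k)) ^ 2 + y ^ 2 ≤ z ^ 2 := by
        have e1 : y ^ 2 ≤ C.d a (a + k₁) ^ 2 := by
          have := hk₁.le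
          gcongr
        have e2 : C.d a (a + k) ^ 2 ≤ z ^ 2 := by
          have := C.d_nonneg a (a + k)
          gcongr
        linarith
      have hD' : (C.d (a + k₁) (a + k) / y) ^ 2 + 1 ≤ (z / y) ^ 2 := by
        rw [div_pow, div_pow, div_add_one (by positivity)]
        gcongr
      have hkk : (k : ℝ) = k₁ + ((k - k₁ : ℕ) : ℝ) := by
        rw [Nat.cast_sub hle]; ring
      rw [hkk]
      nlinarith

theorem m_le_m3 (y z : ℝ) (hy : 0 < y) :
    (C.m z : ℝ) ≤ ((z / y) ^ 2 + 1) * (C.m y + 1) := by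
  rcases Nat.eq_zero_or_pos (C.m z) with h0 | h0
  · rw [h0, Nat.cast_zero]
    positivity
  · obtain ⟨a, h1, h2⟩ := C.exists_nar_m h0
    exact C.m3 a (C.m z) y z hy h1 h2

end Pool.Agent.Helper85.CVX.CP
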