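import Pool.Agent.Helper85.CVX.Basic

/-! Block NAR: narrow arcs, `fwd`, `bwd`, `m`. -/

set_option autoImplicit false
open scoped Classical
open Real

noncomputable section

namespace Pool.Agent.Helper85.CVX.CP

variable {n : ℕ} (C : CP n)

/-- sub-arcs of narrow arcs are narrow -/
lemma nar_sub {a a' : ℤ} {k k' : ℕ} (h : C.Nar a k) (h1 : a ≤ a') (h2 : a' + k' ≤ a + k) :
    C.Nar a' k' := by
  have h3 := C.θ_le h1
  have h4 : C.θ (a' + k' - 1) ≤ C.θ (a + k - 1) := C.θ_le (by omega)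
  unfold Nar at h ⊢
  linarith

/-- inner product of an arc's chord with a vector -/
lemma ip_arc (w : ℂ) (a : ℤ) (k : ℕ) :
    (C.p (a + k) - C.p a).re * w.re + (C.p (a + k) - C.p a).im * w.im
      = ∑ u ∈ Finset.range k, C.ℓ (a + u) * prj (C.θ (a + u)) w := by
  induction k with
  | zero => simp
  | succ k ih =>
    rw [Finset.sum_range_succ, ← ih]
    have h1 : C.p (a + ((k + 1 : ℕ) : ℤ)) - C.p a
        = (C.p (a + k) - C.p a) + (C.p (a + k + 1) - C.p (a + k)) := by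
      push_cast; rw [← add_assoc]; ring
    rw [h1, C.step, Complex.add_re, Complex.add_im, re_mul_exp, im_mul_exp, prj]
    ring

/-- splitting a narrow arc: the chords satisfy `|c|² ≥ |c₁|² + |c₂|²` -/
lemma nar_sq_add_le {a : ℤ} {k l : ℕ} (h : C.Nar a (k + l)) :
    C.d a (a + k) ^ 2 + C.d (a + k) (a + k + l) ^ 2 ≤ C.d a (a + k + l) ^ 2 := by
  have hip : 0 ≤ (C.p (a + k) - C.p a).re * (C.p (a + k + l) - C.p (a + k)).re
      + (C.p (a + k) - C.p a).im * (C.p (a + k + l) - C.p (a + k)).im := by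
    rw [C.ip_arc]
    apply Finset.sum_nonneg
    intro u hu
    rw [Finset.mem_range] at hu
    apply mul_nonneg (C.ℓ_pos _).le
    rw [C.prj_arc]
    apply Finset.sum_nonneg
    intro v hv
    rw [Finset.mem_range] at hv
    apply mul_nonneg (C.ℓ_pos _).le
    apply Real.cos_nonneg_of_mem_Icc
    have h1 : C.θ (a + u) ≤ C.θ (a + k + v) := C.θ_le (by omega)
    have h2 : C.θ (a + k + v) ≤ C.θ (a + ((k + l : ℕ) : ℤ) - 1) := C.θ_le (by push_cast; omega)
    have h3 : C.θ a ≤ C.θ (a + u) := C.θ_le (by omega)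
    unfold Nar at h
    constructor
    · have := Real.pi_pos
      linarith
    · linarith
  have h1 : C.p (a + k + l) - C.p a
      = (C.p (a + k) - C.p a) + (C.p (a + k + l) - C.p (a + k)) := by ring
  unfold d
  rw [h1]
  generalize C.p (a + k) - C.p a = z at *
  generalize C.p (a + k + l) - C.p (a + k) = w at *
  rw [norm_sq_eq 0 z, norm_sq_eq 0 w, norm_sq_eq 0 (z + w)]
  simp only [prj, crs, Real.cos_zero, Real.sin_zero, Complex.add_re, Complex.add_im]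
  nlinarith

lemma nar_prj_pos {a : ℤ} {k j : ℕ} (hj : 1 ≤ j) (hjk : j ≤ k) (h : C.Nar a k) :
    0 < prj (C.θ a) (C.p (a + j) - C.p a) := by
  rw [C.prj_arc]
  apply Finset.sum_pos
  · intro u hu
    rw [Finset.mem_range] at hu
    apply mul_pos (C.ℓ_pos _)
    apply Real.cos_pos_of_mem_Ioo
    have h1 : C.θ (a + u) ≤ C.θ (a + k - 1) := C.θ_le (by omega)
    have h3 : C.θ a ≤ C.θ (a + u) := C.θ_le (by omega)
    have := Real.pi_pos
    unfold Nar at h
    constructor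
    · linarith
    · linarith
  · simpa using by omega

lemma nar_lt_n {a : ℤ} {k : ℕ} (h : C.Nar a k) : k < n := by
  by_contra hk
  have h1 := C.nar_prj_pos (a := a) (j := n) (k := k) C.n_pos (by omega) h
  rw [C.p_per, sub_self, prj_zero] at h1
  exact lt_irrefl _ h1

lemma nar_d_pos {a : ℤ} {k : ℕ} (hk : 1 ≤ k) (h : C.Nar a k) : 0 < C.d a (a + k) :=
  lt_of_lt_of_le (C.nar_prj_pos hk le_rfl h) (prj_le _ _)

lemma nar_d_sq_lt {a a' : ℤ} {k k' : ℕ} (h : C.Nar a k) (h1 : a ≤ a') (h2 : a' + k' ≤ a + k)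
    (h3 : k' < k) : C.d a' (a' + k') ^ 2 < C.d a (a + k) ^ 2 := by
  obtain ⟨k1, hk1⟩ := Int.eq_ofNat_of_zero_le (sub_nonneg.mpr h1)
  obtain ⟨k2, hk2⟩ := Int.eq_ofNat_of_zero_le (sub_nonneg.mpr h2)
  have ha' : a' = a + k1 := by omega
  subst ha'
  have hk : k = k1 + (k' + k2) := by omega
  subst hk
  have e1 := C.nar_sq_add_le h
  have hn2 : C.Nar (a + k1) (k' + k2) := C.nar_sub h (by omega) (by push_cast; omega)
  have e2 := C.nar_sq_add_le hn2
  have c1 : a + (k1 : ℤ) + ((k' + k2 : ℕ) : ℤ) = a + ((k1 + (k' + k2) : ℕ) : ℤ) := by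
    push_cast; ring
  have c2 : a + (k1 : ℤ) + (k' : ℤ) + (k2 : ℤ) = a + ((k1 + (k' + k2) : ℕ) : ℤ) := by
    push_cast; ring
  rw [c1] at e1
  rw [c2] at e2
  have hn3 : C.Nar a k1 := C.nar_sub h le_rfl (by push_cast; omega)
  have hn4 : C.Nar (a + k1 + k') k2 := C.nar_sub h (by omega) (by push_cast; omega)
  rcases Nat.eq_zero_or_pos k1 with h0 | h0
  · have hk2' : 1 ≤ k2 := by omega
    have := C.nar_d_pos hk2' hn4
    rw [c2] at this
    nlinarith [sq_nonneg (C.d a (a + k1))]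
  · have := C.nar_d_pos h0 hn3
    nlinarith [sq_nonneg (C.d (a + k1 + k') (a + ((k1 + (k' + k2) : ℕ) : ℤ)))]

/-- in a narrow arc, a proper sub-arc has a strictly shorter chord -/
lemma nar_d_lt {a a' : ℤ} {k k' : ℕ} (h : C.Nar a k) (h1 : a ≤ a') (h2 : a' + k' ≤ a + k)
    (h3 : k' < k) : C.d a' (a' + k') < C.d a (a + k) :=
  lt_of_pow_lt_pow_left₀ 2 (C.d_nonneg _ _) (C.nar_d_sq_lt h h1 h2 h3)

lemma nar_d_le {a a' : ℤ} {k k' : ℕ} (h : C.Nar a k) (h1 : a ≤ a') (h2 : a' + k' ≤ a + k) :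
    C.d a' (a' + k') ≤ C.d a (a + k) := by
  rcases lt_or_ge k' k with h3 | h3
  · exact (C.nar_d_lt h h1 h2 h3).le
  · have h4 : k' = k := by omega
    have h5 : a' = a := by omega
    rw [h4, h5]

lemma nar_perk (a j : ℤ) (k : ℕ) : C.Nar (a + j * n) k ↔ C.Nar a k := by
  unfold Nar
  rw [show a + j * (n : ℤ) + k - 1 = (a + k - 1) + j * n by ring, C.θ_perk, C.θ_perk]
  constructor <;> intro h <;> linarith

lemma nar_per (a : ℤ) (k : ℕ) : C.Nar (a + n) k ↔ C.Nar a k := by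
  have := C.nar_perk a 1 k
  rwa [one_mul] at this

/-- a downward closed finite set of positive integers is an initial segment -/
lemma le_card_iff_mem (F : Finset ℕ) (hF1 : ∀ j ∈ F, 1 ≤ j)
    (hF : ∀ j ∈ F, ∀ i, 1 ≤ i → i ≤ j → i ∈ F) {k : ℕ} (hk : 1 ≤ k) : k ≤ F.card ↔ k ∈ F := by
  constructor
  · intro h
    by_contra hkF
    have hsub : F ⊆ Finset.Ico 1 k := by
      intro j hj
      rw [Finset.mem_Ico]
      refine ⟨hF1 j hj, ?_⟩
      by_contra hjk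
      exact hkF (hF j hj k hk (by omega))
    have := Finset.card_le_card hsub
    rw [Nat.card_Ico] at this
    omega
  · intro h
    have hsub : Finset.Ico 1 (k + 1) ⊆ F := by
      intro j hj
      rw [Finset.mem_Ico] at hj
      exact hF k h j hj.1 (by omega)
    have := Finset.card_le_card hsub
    rw [Nat.card_Ico] at this
    omega

lemma le_fwd_iff {a : ℤ} {y : ℝ} {k : ℕ} (hk : 1 ≤ k) :
    k ≤ C.fwd a y ↔ C.Nar a k ∧ C.d a (a + k) ≤ y := by
  rw [fwd, le_card_iff_mem _ _ _ hk]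
  · rw [Finset.mem_filter, Finset.mem_Ico]
    constructor
    · intro h; exact h.2
    · intro h; exact ⟨⟨hk, C.nar_lt_n h.1⟩, h⟩
  · intro j hj
    rw [Finset.mem_filter, Finset.mem_Ico] at hj
    exact hj.1.1
  · intro j hj i hi hij
    rw [Finset.mem_filter, Finset.mem_Ico] at hj ⊢
    refine ⟨⟨hi, by omega⟩, C.nar_sub hj.2.1 le_rfl (by omega), ?_⟩
    exact (C.nar_d_le hj.2.1 le_rfl (by omega)).trans hj.2.2

lemma le_bwd_iff {a : ℤ} {y : ℝ} {k : ℕ} (hk : 1 ≤ k) :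
    k ≤ C.bwd a y ↔ C.Nar (a - k) k ∧ C.d (a - k) a ≤ y := by
  rw [bwd, le_card_iff_mem _ _ _ hk]
  · rw [Finset.mem_filter, Finset.mem_Ico]
    constructor
    · intro h; exact h.2
    · intro h; exact ⟨⟨hk, C.nar_lt_n h.1⟩, h⟩
  · intro j hj
    rw [Finset.mem_filter, Finset.mem_Ico] at hj
    exact hj.1.1
  · intro j hj i hi hij
    rw [Finset.mem_filter, Finset.mem_Ico] at hj ⊢
    refine ⟨⟨hi, by omega⟩, C.nar_sub hj.2.1 (by omega) (by omega), ?_⟩
    have h1 := C.nar_d_le (a' := a - i) (k' := i) hj.2.1 (by omega) (by omega)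
    rw [sub_add_cancel, sub_add_cancel] at h1
    exact h1.trans hj.2.2

lemma fwd_perk (a j : ℤ) (y : ℝ) : C.fwd (a + j * n) y = C.fwd a y := by
  unfold fwd
  congr 1
  apply Finset.filter_congr
  intro k _
  rw [C.nar_perk, show a + j * (n : ℤ) + k = (a + k) + j * n by ring, C.d_perk]

lemma fwd_per (a : ℤ) (y : ℝ) : C.fwd (a + n) y = C.fwd a y := by
  have := C.fwd_perk a 1 y
  rwa [one_mul] at this

lemma bwd_per (a : ℤ) (y : ℝ) : C.bwd (a + n) y = C.bwd a y := by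
  unfold bwd
  congr 1
  apply Finset.filter_congr
  intro k _
  rw [show a + (n : ℤ) - k = (a - k) + n by ring, C.nar_per, C.d_per_left, C.d_per_right]

lemma fwd_le_m (a : ℤ) (y : ℝ) : C.fwd a y ≤ C.m y := by
  have hn : (0 : ℤ) < n := by exact_mod_cast C.n_pos
  have h3 : (((a % n).toNat : ℕ) : ℤ) = a % n := Int.toNat_of_nonneg (Int.emod_nonneg a hn.ne')
  have h4 : a = (((a % n).toNat : ℕ) : ℤ) + (a / n) * n := by
    rw [h3]
    have := Int.emod_add_mul_ediv a n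
    rw [mul_comm] at this
    exact this.symm
  rw [h4, C.fwd_perk]
  apply Finset.le_sup (f := fun b : ℕ => C.fwd (b : ℤ) y)
  rw [Finset.mem_range]
  have := Int.emod_nonneg a hn.ne'
  have := Int.emod_lt_of_pos a hn
  omega

lemma le_m_of_nar {a : ℤ} {y : ℝ} {k : ℕ} (h : C.Nar a k) (hd : C.d a (a + k) ≤ y) :
    k ≤ C.m y := by
  rcases Nat.eq_zero_or_pos k with h0 | h0
  · omega
  · exact ((C.le_fwd_iff h0).mpr ⟨h, hd⟩).trans (C.fwd_le_m a y)

lemma bwd_le_m (a : ℤ) (y : ℝ) : C.bwd a y ≤ C.m y := by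
  rcases Nat.eq_zero_or_pos (C.bwd a y) with h0 | h0
  · omega
  · have h1 := (C.le_bwd_iff (a := a) (y := y) h0).mp le_rfl
    apply C.le_m_of_nar h1.1
    rw [sub_add_cancel]
    exact h1.2

lemma exists_nar_m {y : ℝ} (h : 1 ≤ C.m y) : ∃ a : ℤ, C.Nar a (C.m y) ∧ C.d a (a + C.m y) ≤ y := by
  obtain ⟨a, _, ha⟩ := Finset.exists_mem_eq_sup (Finset.range n)
    ⟨0, Finset.mem_range.mpr C.n_pos⟩ (fun a : ℕ => C.fwd (a : ℤ) y)
  have ha' : C.m y = C.fwd (a : ℤ) y := ha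
  refine ⟨a, (C.le_fwd_iff h).mp ?_⟩
  rw [← ha']

lemma m_mono {y z : ℝ} (h : y ≤ z) : C.m y ≤ C.m z := by
  apply Finset.sup_mono_fun
  intro a _
  apply Finset.card_le_card
  intro k hk
  rw [Finset.mem_filter] at hk ⊢
  exact ⟨hk.1, hk.2.1, hk.2.2.trans h⟩

/-- nested chain of a narrow arc with `m y` edges -/
lemma m_le_R (y : ℝ) : C.m y ≤ C.R (Set.Icc 0 y) := by
  rcases Nat.eq_zero_or_pos (C.m y) with h0 | h0
  · omega
  · obtain ⟨a, ha, hd⟩ := C.exists_nar_m h0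
    have hlt := C.nar_lt_n ha
    apply C.le_R_of_strictMono (fun u => C.d a (a + ((u + 1 : ℕ) : ℤ)))
    · intro u hu
      have h1 : C.Nar a (u + 1 + 1) := C.nar_sub ha le_rfl (by push_cast; omega)
      exact C.nar_d_lt h1 le_rfl (by push_cast; omega) (by omega)
    · intro u hu
      exact C.mem_D a (by omega) (by omega)
    · intro u hu
      refine ⟨C.d_nonneg _ _, ?_⟩
      exact (C.nar_d_le ha le_rfl (by push_cast; omega)).trans hd

lemma sum_fwd (y : ℝ) : ∑ a ∈ Finset.range n, C.fwd (a : ℤ) y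
    = ((Q n).filter (fun x => C.Nar (x.1 : ℤ) x.2 ∧ C.ch x ≤ y)).card := by
  have := card_Q_filter (n := n) (fun a k => C.Nar (a : ℤ) k ∧ C.d (a : ℤ) ((a : ℤ) + k) ≤ y)
  unfold fwd ch
  convert this.symm

lemma sum_bwd (y : ℝ) : ∑ a ∈ Finset.range n, C.bwd (a : ℤ) y
    = ((Q n).filter (fun x => C.Nar (x.1 : ℤ) x.2 ∧ C.ch x ≤ y)).card := by
  have h1 := card_Q_filter (n := n)
    (fun a k => C.Nar ((a : ℤ) - k) k ∧ C.d ((a : ℤ) - k) (a : ℤ) ≤ y)
  have h2 := card_Q_filter' (n := n)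
    (fun a k => C.Nar ((a : ℤ) - k) k ∧ C.d ((a : ℤ) - k) (a : ℤ) ≤ y)
  have h3 := card_Q_filter' (n := n) (fun a k => C.Nar (a : ℤ) k ∧ C.d (a : ℤ) ((a : ℤ) + k) ≤ y)
  have h4 : ∑ a ∈ Finset.range n, C.bwd (a : ℤ) y =
      ((Q n).filter (fun x : ℕ × ℕ => C.Nar ((x.1 : ℤ) - x.2) x.2 ∧
        C.d ((x.1 : ℤ) - x.2) (x.1 : ℤ) ≤ y)).card := by
    unfold bwd
    convert h1.symm
  have h6 : ((Q n).filter (fun x : ℕ × ℕ => C.Nar (x.1 : ℤ) x.2 ∧ C.ch x ≤ y)).card =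
      ((Q n).filter (fun x : ℕ × ℕ => C.Nar (x.1 : ℤ) x.2 ∧
        C.d (x.1 : ℤ) ((x.1 : ℤ) + x.2) ≤ y)).card := by
    congr
  refine Eq.trans h4 (Eq.trans ?_ h6.symm)
  refine Eq.trans (Eq.trans ?_ h2) (Eq.trans ?_ (Eq.trans h3.symm ?_))
  · congr
  swap
  · congr
  apply Finset.sum_congr rfl
  intro k _
  have h5 := card_shift (n := n) (fun i => C.Nar i k ∧ C.d i (i + k) ≤ y) C.n_pos
    (fun i => by
      rw [C.nar_per, show i + (n : ℤ) + k = (i + k) + n by ring, C.d_per_left, C.d_per_right])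
    (-(k : ℤ))
  rw [← h5]
  congr 1
  ext a
  simp only [Finset.mem_filter, show -(k : ℤ) + a = a - k by ring, sub_add_cancel]

end Pool.Agent.Helper85.CVX.CP
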