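import Pool.Agent.Helper85.CVX.FlatDefs

/-! Block ROT (≈80 lines).
`C'.p i = 1 - C.p i`, `C'.θ i = C.θ i - π`, `C'.ℓ = C.ℓ`, and the cuts are shifted cyclically (in the groups `i2' = i0 + n` etc. use
`θ_per`).  -/

set_option autoImplicit false
open scoped Classical
open Real

noncomputable section

namespace Pool.Agent.Helper85.CVX.CP

variable {n : ℕ} (C : CP n)

/-- the polygon rotated by `π` about the point `1/2` -/
def rot : CP n where
  p := fun i => 1 - C.p i
  θ := fun i => C.θ i - π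
  ℓ := C.ℓ
  n_ge := C.n_ge
  ℓ_pos := C.ℓ_pos
  step := by
    intro i
    have h := C.step i
    have e : Complex.exp (((C.θ i - π : ℝ) : ℂ) * Complex.I)
        = -Complex.exp ((C.θ i : ℂ) * Complex.I) := by
      push_cast
      rw [sub_mul, Complex.exp_sub, Complex.exp_pi_mul_I]
      ring
    rw [e]
    linear_combination (-1 : ℂ) * h
  θ_lt := fun i => by have := C.θ_lt i; linarith
  θ_per := fun i => by rw [C.θ_per]; ring
  p_per := fun i => by rw [C.p_per]

lemma rot_p (i : ℤ) : C.rot.p i = 1 - C.p i := rfl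
lemma rot_θ (i : ℤ) : C.rot.θ i = C.θ i - π := rfl

lemma rot_d (i j : ℤ) : C.rot.d i j = C.d i j := by
  rw [d, d, rot_p, rot_p, show (1 - C.p j) - (1 - C.p i) = -(C.p j - C.p i) by ring, norm_neg]

lemma rot_ch : C.rot.ch = C.ch := by
  funext x
  exact C.rot_d _ _

lemma rot_D : C.rot.D = C.D := by rw [D, D, rot_ch]

lemma rot_M (S : Set ℝ) : C.rot.M S = C.M S := by rw [M, M, rot_ch]

lemma rot_R (S : Set ℝ) : C.rot.R S = C.R S := by rw [R, R, rot_D]

lemma rot_L : C.rot.L = C.L := by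
  rw [L, L, rot_D]
  simp only [rot_M]

lemma rot_re (i : ℤ) : (C.rot.p i).re = 1 - (C.p i).re := by
  rw [rot_p, Complex.sub_re, Complex.one_re]

lemma rot_im (i : ℤ) : (C.rot.p i).im = - (C.p i).im := by
  rw [rot_p, Complex.sub_im, Complex.one_im]; ring

/-- the cuts of the rotated polygon -/
def Cuts.rot {ε : ℝ} {C : CP n} (K : C.Cuts ε) : C.rot.Cuts ε where
  i0 := K.i2
  i1 := K.i3
  i2 := K.i0 + n
  i3 := K.i1 + n
  h01 := K.h23
  h12 := K.h34
  h23 := by have := K.h01; omega
  h34 := by have := K.h12; omega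
  steepL := by
    intro i h1 h2
    have := K.steepR i h1 h2
    rw [rot_θ]
    constructor <;> linarith
  low := by
    intro i h1 h2
    have := K.upp i h1 h2
    rw [rot_θ]
    constructor <;> linarith
  steepR := by
    intro i h1 h2
    have := K.steepL (i - n) (by omega) (by omega)
    have h3 := C.θ_per (i - n)
    rw [sub_add_cancel] at h3
    rw [rot_θ, h3]
    constructor <;> linarith
  upp := by
    intro i h1 h2
    have := K.low (i - n) (by omega) (by omega)
    have h3 := C.θ_per (i - n)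
    rw [sub_add_cancel] at h3
    rw [rot_θ, h3]
    constructor <;> linarith
  left := by
    intro i h1 h2
    have := K.right i h1 h2
    rw [rot_re]
    linarith
  right := by
    intro i h1 h2
    have := K.left (i - n) (by omega) (by omega)
    have h3 := C.p_per (i - n)
    rw [sub_add_cancel] at h3
    rw [rot_re, h3]
    linarith
  zero := by
    obtain ⟨i, h1, h2, h3⟩ := K.one
    exact ⟨i, h1, h2, by rw [rot_re, h3]; ring⟩
  one := by
    obtain ⟨i, h1, h2, h3⟩ := K.zero
    exact ⟨i + n, by omega, by omega, by rw [rot_re, C.p_per, h3]; ring⟩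

theorem exists_rot {ε : ℝ} (F : C.Flat ε) (K : C.Cuts ε) :
    ∃ (C' : CP n) (K' : C'.Cuts ε), C'.Flat ε ∧ (∀ S, C'.R S = C.R S) ∧ (∀ S, C'.M S = C.M S) ∧ C'.L = C.L ∧
      (∀ i j, C'.d i j = C.d i j) ∧ (∀ i, (C'.p i).re = 1 - (C.p i).re) ∧
      K'.i0 = K.i2 ∧ K'.i1 = K.i3 ∧ K'.i2 = K.i0 + n ∧ K'.i3 = K.i1 + n := by
  refine ⟨C.rot, K.rot, ?_, C.rot_R, C.rot_M, C.rot_L, C.rot_d, C.rot_re, rfl, rfl, rfl, rfl⟩
  refine ⟨F.pos, ?_, ?_, ?_, ?_, ?_⟩
  · intro i
    have := F.le_one i
    rw [rot_re]; linarith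
  · intro i
    have := F.nonneg i
    rw [rot_re]; linarith
  · obtain ⟨i, hi⟩ := F.one
    exact ⟨i, by rw [rot_re, hi]; ring⟩
  · obtain ⟨i, hi⟩ := F.zero
    exact ⟨i, by rw [rot_re, hi]; ring⟩
  · intro i j
    have := F.im i j
    rw [rot_im, rot_im, show -(C.p j).im - -(C.p i).im = -((C.p j).im - (C.p i).im) by ring, abs_neg]
    exact this

end Pool.Agent.Helper85.CVX.CP
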