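import Pool.Agent.Helper85.CVX.F1
import Pool.Agent.Helper85.CVX.Cuts
import Pool.Agent.Helper85.CVX.Outward

/-! Block WINM (≈140 lines).
`X j = (p j).re`, `g = R (Icc 0 (3y))`.  The vertices with `|X j - X i| ≤ y` have `y/4 ≤ X j ≤ 1 - y/4`, so (as `ε < y/4`) they
are not in `[i0,i1] ∪ [i2,i3]`; those in `[i1,i2]` form an interval `[j1,j2]`, and if it is nonempty all edges `u ∈ [j1,j2)` have
`|θ u| ≤ ε/(y/4) ≤ 1/25` (`slope_low_hi`, `slope_low_lo`), so F1 gives `j2 - j1 ≤ g` (chord `≤ 2y + ε ≤ 3y`), i.e. at most `g+1` vertices.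
The same for the upper chain.  So at most `2g+2` vertices including `i` itself. -/

set_option autoImplicit false
open scoped Classical
open Real

noncomputable section

namespace Pool.Agent.Helper85.CVX.CP

variable {n : ℕ} (C : CP n)

/-- the window count, including `i` itself, read off on any period -/
lemma win_W_succ (i s : ℤ) {y : ℝ} (hy : 0 < y) :
    C.W i y + 1 = ((Finset.range n).filter
      (fun u : ℕ => |(C.p (s + u)).re - (C.p i).re| ≤ y)).card := by
  have hn := C.n_pos
  have h1 := card_shift (fun j : ℤ => |(C.p j).re - (C.p i).re| ≤ y) hn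
    (fun j => by rw [C.p_per]) i
  have h2 := card_shift (fun j : ℤ => |(C.p j).re - (C.p i).re| ≤ y) hn
    (fun j => by rw [C.p_per]) s
  have h3 : ((Finset.range n).filter
      (fun u : ℕ => |(C.p (s + u)).re - (C.p i).re| ≤ y)).card = ((Finset.range n).filter
      (fun u : ℕ => |(C.p (i + u)).re - (C.p i).re| ≤ y)).card := by
    convert h2.trans h1.symm
  rw [h3, W]
  have h4 : Finset.range n = insert 0 (Finset.Ico 1 n) := by
    ext u; simp only [Finset.mem_range, Finset.mem_insert, Finset.mem_Ico]; omega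
  rw [h4, Finset.filter_insert, if_pos, Finset.card_insert_of_notMem]
  · simp
  · simp [hy.le]

/-- chord length bound -/
lemma win_d_le {ε x : ℝ} (F : C.Flat ε) {i j : ℤ} (h : |(C.p j).re - (C.p i).re| ≤ x) :
    C.d i j ≤ x + ε := by
  rw [d]
  have h1 := Complex.norm_le_abs_re_add_abs_im (C.p j - C.p i)
  rw [Complex.sub_re, Complex.sub_im] at h1
  have := F.im i j
  linarith

/-- F1 in the form used for windows: an arc from `a` to `b` -/
lemma win_F1 {a b : ℤ} {x : ℝ} (h1 : a ≤ b) (h2 : b - a < n)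
    (h : a < b → C.θ (b - 1) - C.θ a < 2 * π / 3) (hd : C.d a b ≤ x) :
    (b - a).toNat ≤ C.R (Set.Icc 0 x) := by
  obtain ⟨k, hk⟩ : ∃ k : ℕ, (k : ℤ) = b - a := ⟨(b - a).toNat, Int.toNat_of_nonneg (by omega)⟩
  rw [← hk, Int.toNat_natCast]
  rcases Nat.eq_zero_or_pos k with h0 | h0
  · rw [h0]; exact Nat.zero_le _
  · have hb : b = a + k := by omega
    have h3 := C.F1 a k (by omega) (by rw [← hb]; exact h (by omega))
    rw [← hb] at h3
    exact h3.trans (C.R_mono (Set.Icc_subset_Icc_right hd))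

theorem window_mid {ε y : ℝ} (F : C.Flat ε) (K : C.Cuts ε) (hy : 0 < y) (hy' : y ≤ 1 / 8)
    (hε : 100 * ε ≤ y) (i : ℤ) (h1 : 5 * y / 4 ≤ (C.p i).re) (h2 : (C.p i).re ≤ 1 - 5 * y / 4) :
    C.W i y ≤ 2 * C.R (Set.Icc 0 (3 * y)) + 1 := by
  have hε0 := F.pos
  have hn := C.n_pos
  have k01 := K.h01
  have k12 := K.h12
  have k23 := K.h23
  have k34 := K.h34
  have hπ := Real.pi_gt_three
  have hslope : ε / (y / 4) ≤ 1 / 25 := by
    rw [div_le_iff₀ (by linarith)]
    linarith
  have hP : ∀ j : ℤ, |(C.p j).re - (C.p i).re| ≤ y → y / 4 ≤ (C.p j).re ∧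
      (C.p j).re ≤ 1 - y / 4 := by
    intro j hj
    rw [abs_le] at hj
    constructor <;> linarith
  -- the part in the lower chain
  have key : ∀ s t : ℤ, t - s < n + 1 →
      (∀ a b : ℤ, s < a → a < b → b < t → y / 4 ≤ (C.p a).re → (C.p a).re ≤ 1 - y / 4 →
        y / 4 ≤ (C.p b).re → (C.p b).re ≤ 1 - y / 4 → C.θ (b - 1) - C.θ a < 2 * π / 3) →
      ((Finset.Ioo s t).filter (fun j : ℤ => |(C.p j).re - (C.p i).re| ≤ y)).card
        ≤ C.R (Set.Icc 0 (3 * y)) + 1 := by
    intro s t hst hθ
    by_cases hne : ((Finset.Ioo s t).filter (fun j : ℤ => |(C.p j).re - (C.p i).re| ≤ y)).Nonempty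
    · have m1 := Finset.min'_mem _ hne
      have m2 := Finset.max'_mem _ hne
      set a := ((Finset.Ioo s t).filter (fun j : ℤ => |(C.p j).re - (C.p i).re| ≤ y)).min' hne
        with ha
      set b := ((Finset.Ioo s t).filter (fun j : ℤ => |(C.p j).re - (C.p i).re| ≤ y)).max' hne
        with hb
      have hab : a ≤ b := Finset.min'_le _ _ m2
      rw [Finset.mem_filter, Finset.mem_Ioo] at m1 m2
      have hsub : (Finset.Ioo s t).filter (fun j : ℤ => |(C.p j).re - (C.p i).re| ≤ y)
          ⊆ Finset.Icc a b := by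
        intro j hj
        rw [Finset.mem_Icc]
        exact ⟨Finset.min'_le _ _ hj, Finset.le_max' _ _ hj⟩
      have h3 := Finset.card_le_card hsub
      rw [Int.card_Icc] at h3
      have h4 : (b - a).toNat ≤ C.R (Set.Icc 0 (3 * y)) := by
        apply C.win_F1 hab (by omega)
        · intro hlt
          obtain ⟨p1, p2⟩ := hP a m1.2
          obtain ⟨p3, p4⟩ := hP b m2.2
          exact hθ a b m1.1.1 hlt m2.1.2 p1 p2 p3 p4
        · have h5 : |(C.p b).re - (C.p a).re| ≤ 2 * y := by
            have q1 := abs_le.mp m1.2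
            have q2 := abs_le.mp m2.2
            rw [abs_le]
            constructor <;> linarith [q1.1, q1.2, q2.1, q2.2]
          have h6 := C.win_d_le F h5
          linarith
      omega
    · rw [Finset.not_nonempty_iff_eq_empty] at hne
      rw [hne, Finset.card_empty]
      exact Nat.zero_le _
  have hL := key K.i1 K.i2 (by omega) (by
    intro a b q1 q2 q3 q4 q5 q6 q7
    have r1 := C.slope_low_hi F K (i := b - 1) (x := y / 4) (by omega) (by omega) (by linarith) (by
      have := C.low_lt K (i := b - 1) (j := b) (by omega) (by omega) (by omega)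
      linarith)
    have r2 := C.slope_low_lo F K (i := a) (x := y / 4) (by omega) (by omega) (by linarith) (by
      have := C.low_lt K (i := a) (j := a + 1) (by omega) (by omega) (by omega)
      linarith)
    linarith)
  have hU := key K.i3 (K.i0 + n) (by omega) (by
    intro a b q1 q2 q3 q4 q5 q6 q7
    have r1 := C.slope_upp_lo F K (i := a) (x := y / 4) (by omega) (by omega) (by linarith) q5
    have r2 := C.slope_upp_hi F K (i := b - 1) (x := y / 4) (by omega) (by omega) (by linarith) (by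
      rw [sub_add_cancel]; exact q6)
    linarith)
  have hW := C.win_W_succ i K.i0 hy
  have hsub : ((Finset.range n).filter
      (fun u : ℕ => |(C.p (K.i0 + u)).re - (C.p i).re| ≤ y)).card ≤
      ((Finset.Ioo K.i1 K.i2).filter (fun j : ℤ => |(C.p j).re - (C.p i).re| ≤ y) ∪
      (Finset.Ioo K.i3 (K.i0 + n)).filter (fun j : ℤ => |(C.p j).re - (C.p i).re| ≤ y)).card := by
    apply Finset.card_le_card_of_injOn (fun u : ℕ => K.i0 + (u : ℤ))
    · intro u hu
      simp only [Finset.coe_filter, Finset.mem_range, Set.mem_ofPred_eq] at hu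
      obtain ⟨hu1, hu2⟩ := hu
      obtain ⟨p1, p2⟩ := hP _ hu2
      simp only [Finset.coe_union, Set.mem_union, Finset.mem_coe, Finset.mem_filter,
        Finset.mem_Ioo]
      have n1 : ¬ K.i0 + (u : ℤ) ≤ K.i1 := by
        intro h
        have := K.left _ (by omega : K.i0 ≤ K.i0 + (u : ℤ)) h
        linarith
      have n2 : ¬ (K.i2 ≤ K.i0 + (u : ℤ) ∧ K.i0 + (u : ℤ) ≤ K.i3) := by
        intro h
        have := K.right _ h.1 h.2
        linarith
      by_cases g : K.i0 + (u : ℤ) < K.i2
      · left; exact ⟨⟨by omega, g⟩, hu2⟩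
      · right; exact ⟨⟨by omega, by omega⟩, hu2⟩
    · intro u _ v _ huv
      have : K.i0 + (u : ℤ) = K.i0 + (v : ℤ) := huv
      omega
  have hcu := Finset.card_union_le
    ((Finset.Ioo K.i1 K.i2).filter (fun j : ℤ => |(C.p j).re - (C.p i).re| ≤ y))
    ((Finset.Ioo K.i3 (K.i0 + n)).filter (fun j : ℤ => |(C.p j).re - (C.p i).re| ≤ y))
  omega

end Pool.Agent.Helper85.CVX.CP
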