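import Pool.Agent.Helper85.CVX.WinL
import Pool.Agent.Helper85.CVX.WinM
import Pool.Agent.Helper85.CVX.Rot

/-! Block STEEP (≈120 lines).
`window_right` from `window_left` and `exists_rot`.  `window_sum`: `Mx y = ∑_{i<n} W i y` (`card_Q_filter`), each vertex by
`window_left`/`window_right`/`window_mid`; at least `i1 - i0` vertices have `re ≤ 5y/4` (the vertices `i0, …, i1-1`, different mod `n`;
use `card_shift` or `sum_window_le`), at least `i3 - i2` have `re ≥ 1 - 5y/4`.
`steep_bound`: for `y_s = 3^{-s}/8`, `s = 0..r`:  `Mx y_s + sL² + sR² ≤ n(2R+1) ≤ 2nL + M (Icc 0 (3 y_s)) + n ≤ 2nL + Mx (3 y_s) + n`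
(`K2`; `|re difference| ≤ d`).  Sum over `s`, telescoping (`3 y_s = y_{s-1}`), `Mx (3 y_0) ≤ n²`. -/

set_option autoImplicit false
open scoped Classical
open Real

noncomputable section

namespace Pool.Agent.Helper85.CVX.CP

variable {n : ℕ} (C : CP n)

theorem window_right {ε y : ℝ} (F : C.Flat ε) (K : C.Cuts ε) (hy : 0 < y) (hy' : y ≤ 1 / 8)
    (hε : 100 * ε ≤ y) (i : ℤ) (h : 1 - 5 * y / 4 ≤ (C.p i).re) :
    C.W i y + (K.i3 - K.i2).toNat ≤ 2 * C.R (Set.Icc 0 (3 * y)) := by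
  obtain ⟨C', K', F', hR, _, _, _, hre, h0, h1, _, _⟩ := C.exists_rot F K
  have h2 := C'.window_left F' K' hy hy' hε i (by rw [hre]; linarith)
  rw [hR, h0, h1] at h2
  have h3 : C'.W i y = C.W i y := by
    unfold W
    congr 1
    apply Finset.filter_congr
    intro k _
    rw [hre, hre, show (1 - (C.p (i + k)).re - (1 - (C.p i).re)) = -((C.p (i + k)).re - (C.p i).re) by
      ring, abs_neg]
  rwa [h3] at h2

theorem st_Mx_eq_sum (y : ℝ) : C.Mx y = ∑ a ∈ Finset.range n, C.W (a : ℤ) y := by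
  unfold Mx W
  exact card_Q_filter (fun a k => |(C.p ((a : ℤ) + k)).re - (C.p (a : ℤ)).re| ≤ y)

/-- at least `r` vertices have a periodic property that holds on a window of length `r` -/
theorem st_card_ge_of_window (P : ℤ → Prop) (hn : 0 < n) (hP : ∀ i, P (i + n) ↔ P i) (s : ℤ) (r : ℕ)
    (hr : r ≤ n) (h : ∀ u : ℕ, u < r → P (s + u)) :
    r ≤ ((Finset.range n).filter (fun u : ℕ => P (u : ℤ))).card := by
  rw [← card_shift P hn hP s]
  calc r = (Finset.range r).card := (Finset.card_range r).symm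
    _ ≤ _ := by
      apply Finset.card_le_card
      intro u hu
      rw [Finset.mem_range] at hu
      rw [Finset.mem_filter, Finset.mem_range]
      exact ⟨by omega, h u hu⟩

theorem window_sum {ε y : ℝ} (F : C.Flat ε) (K : C.Cuts ε) (hy : 0 < y) (hy' : y ≤ 1 / 8)
    (hε : 100 * ε ≤ y) :
    C.Mx y + (K.i1 - K.i0).toNat ^ 2 + (K.i3 - K.i2).toNat ^ 2
      ≤ n * (2 * C.R (Set.Icc 0 (3 * y)) + 1) := by
  have hn : 0 < n := C.n_pos
  have hε0 := F.pos
  have h01 := K.h01
  have h12 := K.h12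
  have h23 := K.h23
  have h34 := K.h34
  set sL := (K.i1 - K.i0).toNat with hsL
  set sR := (K.i3 - K.i2).toNat with hsR
  set g := C.R (Set.Icc 0 (3 * y)) with hg
  have hper : ∀ i, C.p (i + n) = C.p i := C.p_per
  -- the two sets of vertices near the ends
  have hA : sL ≤ ((Finset.range n).filter (fun u : ℕ => (C.p (u : ℤ)).re ≤ 5 * y / 4)).card := by
    apply st_card_ge_of_window (fun i => (C.p i).re ≤ 5 * y / 4) hn (fun i => by rw [hper]) K.i0
    · omega
    · intro u hu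
      have := K.left (K.i0 + u) (by omega) (by omega)
      linarith
  have hB : sR ≤ ((Finset.range n).filter (fun u : ℕ => 1 - 5 * y / 4 ≤ (C.p (u : ℤ)).re)).card := by
    apply st_card_ge_of_window (fun i => 1 - 5 * y / 4 ≤ (C.p i).re) hn (fun i => by rw [hper]) K.i2
    · omega
    · intro u hu
      have := K.right (K.i2 + u) (by omega) (by omega)
      linarith
  have hv : ∀ a ∈ Finset.range n, C.W (a : ℤ) y + sL * (if (C.p (a : ℤ)).re ≤ 5 * y / 4 then 1 else 0) +
      sR * (if 1 - 5 * y / 4 ≤ (C.p (a : ℤ)).re then 1 else 0) ≤ 2 * g + 1 := by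
    intro a _
    by_cases h1 : (C.p (a : ℤ)).re ≤ 5 * y / 4
    · have h2 : ¬ 1 - 5 * y / 4 ≤ (C.p (a : ℤ)).re := by
        intro h; linarith
      rw [if_pos h1, if_neg h2]
      have := C.window_left F K hy hy' hε (a : ℤ) h1
      omega
    · rw [if_neg h1]
      by_cases h2 : 1 - 5 * y / 4 ≤ (C.p (a : ℤ)).re
      · rw [if_pos h2]
        have := C.window_right F K hy hy' hε (a : ℤ) h2
        omega
      · rw [if_neg h2]
        have := C.window_mid F K hy hy' hε (a : ℤ) (not_le.1 h1).le (not_le.1 h2).le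
        omega
  have hs := Finset.sum_le_sum hv
  rw [Finset.sum_add_distrib, Finset.sum_add_distrib, ← Finset.mul_sum, ← Finset.mul_sum,
    ← Finset.card_filter, ← Finset.card_filter, ← st_Mx_eq_sum, Finset.sum_const, Finset.card_range,
    smul_eq_mul] at hs
  have h1 := Nat.mul_le_mul_left sL hA
  have h2 := Nat.mul_le_mul_left sR hB
  rw [sq, sq]
  omega

theorem st_M_le_Mx (y : ℝ) : C.M (Set.Icc 0 y) ≤ C.Mx y := by
  unfold M Mx
  apply Finset.card_le_card
  intro x hx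
  simp only [Finset.mem_filter] at hx ⊢
  refine ⟨hx.1, ?_⟩
  have h1 : C.ch x ≤ y := hx.2.2
  refine le_trans ?_ h1
  unfold ch d
  rw [← Complex.sub_re]
  exact Complex.abs_re_le_norm _

theorem st_Mx_le (y : ℝ) : C.Mx y ≤ n ^ 2 := by
  unfold Mx
  refine (Finset.card_filter_le _ _).trans ?_
  unfold Q
  rw [Finset.card_product, Finset.card_range, Nat.card_Ico, sq]
  exact Nat.mul_le_mul_left n (Nat.sub_le n 1)

theorem steep_step {ε y : ℝ} (F : C.Flat ε) (K : C.Cuts ε) (hy : 0 < y) (hy' : y ≤ 1 / 8)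
    (hε : 100 * ε ≤ y) :
    C.Mx y + ((K.i1 - K.i0).toNat ^ 2 + (K.i3 - K.i2).toNat ^ 2)
      ≤ 2 * n * C.L + n + C.Mx (3 * y) := by
  have h1 := C.window_sum F K hy hy' hε
  have h2 := C.two_mul_n_R_le (Set.Icc 0 (3 * y))
  have h3 := C.st_M_le_Mx (3 * y)
  have h4 : n * (2 * C.R (Set.Icc 0 (3 * y)) + 1) = 2 * n * C.R (Set.Icc 0 (3 * y)) + n := by ring
  omega

theorem steep_bound {ε : ℝ} (F : C.Flat ε) (K : C.Cuts ε) (r : ℕ) (hε : 800 * 3 ^ r * ε ≤ 1) :
    ((r : ℝ) + 1) * (((K.i1 - K.i0).toNat : ℝ) ^ 2 + ((K.i3 - K.i2).toNat : ℝ) ^ 2)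
      ≤ ((r : ℝ) + 1) * (2 * n * C.L + n) + (n : ℝ) ^ 2 := by
  have hε0 := F.pos
  set S := (K.i1 - K.i0).toNat ^ 2 + (K.i3 - K.i2).toNat ^ 2 with hS
  have key : ∀ s : ℕ, s ≤ r → (s + 1) * S + C.Mx (1 / (8 * 3 ^ s)) ≤
      (s + 1) * (2 * n * C.L + n) + n ^ 2 := by
    intro s
    induction s with
    | zero =>
      intro _
      have h1 := C.steep_step F K (y := 1 / (8 * 3 ^ 0)) (by norm_num) (by norm_num) (by
        have h2 : (1 : ℝ) ≤ 3 ^ r := one_le_pow₀ (by norm_num)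
        have h3 : 800 * ε ≤ 800 * 3 ^ r * ε := by nlinarith
        norm_num
        linarith)
      have h2 := C.st_Mx_le (3 * (1 / (8 * 3 ^ 0)))
      rw [zero_add, one_mul, one_mul]
      omega
    | succ s ih =>
      intro hs
      have h1 := ih (by omega)
      have h3s : (0 : ℝ) < 3 ^ (s + 1) := by positivity
      have h2 := C.steep_step F K (y := 1 / (8 * 3 ^ (s + 1))) (by positivity) (by
        rw [div_le_div_iff₀ (by positivity) (by norm_num)]
        have : (1 : ℝ) ≤ 3 ^ (s + 1) := one_le_pow₀ (by norm_num)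
        linarith) (by
        rw [le_div_iff₀ (by positivity)]
        have h4 : (3 : ℝ) ^ (s + 1) ≤ 3 ^ r := pow_le_pow_right₀ (by norm_num) hs
        have h5 : 3 ^ (s + 1) * ε ≤ 3 ^ r * ε := mul_le_mul_of_nonneg_right h4 hε0.le
        nlinarith)
      have h3 : (3 : ℝ) * (1 / (8 * 3 ^ (s + 1))) = 1 / (8 * 3 ^ s) := by
        rw [pow_succ]; field_simp
      rw [h3] at h2
      have e1 : (s + 1 + 1) * S = (s + 1) * S + S := by ring
      have e2 : (s + 1 + 1) * (2 * n * C.L + n) = (s + 1) * (2 * n * C.L + n) + (2 * n * C.L + n) := by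
        ring
      rw [e1, e2]
      omega
  have h1 := key r le_rfl
  have h2 : (r + 1) * S ≤ (r + 1) * (2 * n * C.L + n) + n ^ 2 := by omega
  have h3 : (((r + 1) * S : ℕ) : ℝ) ≤ (((r + 1) * (2 * n * C.L + n) + n ^ 2 : ℕ) : ℝ) := by
    exact_mod_cast h2
  rw [hS] at h3
  push_cast at h3
  exact h3

end Pool.Agent.Helper85.CVX.CP
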