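import Pool.Agent.Helper85.CVX.Tip
import Pool.Agent.Helper85.CVX.Deficit
import Pool.Agent.Helper85.CVX.Case0

/-! Block TLOW (≈180 lines).
`Opp_le`: by `Fat` every opposite pair `(a,k)` with chord `≤ y ≤ t` has `tip ω y a k` or `tip ω y (a+k) (n-k)`; `card_Q_rev`.
`exists_tip`: if `L < m y` (`0 < y ≤ t`) there is a tip arc `(a,k)` with `tip ω y a k`, `1 ≤ k`, and `k ≤ CC ω (L+2)`:  by `case0` (contrapositive)
there is an opposite pair with chord `≤ y`; take one with the smallest chord `y*`.  `m y* ≤ L + 1`: if `m y* ≥ 1`, `exists_nar_m`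
gives a narrow arc with `m y*` edges and chord `≤ y*`; dropping an edge gives a chord `y' < y*` (`nar_d_lt`) and
`m y' ≥ m y* - 1` (`le_m_of_nar`); all pairs at distance `≤ y'` are narrow or reverse narrow, so `m y' ≤ L` by `case0`.
By `Fat`, `(a,k)` or its reverse satisfies `tip ω y*`; `y* > 0` (`len_le`, `len_pos`); `tip_k_le` at `y*`.
`tip_lower`: if moreover `2·CC ω·(L+2) ≤ m y`: let `b = a+k` (tip arc), `2k ≤ m := m y`.  For `k ≤ u ≤ m` the arcs starting at `b - u` with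
`≥ u` edges contain the tip arc, so they are not narrow: `fwd (b-u) y ≤ u - 1` (`le_fwd_iff`).  Hence
`∑_{a<n} (m - fwd a y) ≥ ∑_{u=k}^{m} (m - u + 1) ≥ m²/8` (`sum_neg_window_le` or `sum_neg_shift`), and by `deficit_fwd`, `Opp_le`
`2·m²/8 ≤ 2nL + 2 Tip`. -/

set_option autoImplicit false
open scoped Classical
open Real

noncomputable section

namespace Pool.Agent.Helper85.CVX.CP

variable {n : ℕ} (C : CP n)

lemma tl_tip_per (ω y : ℝ) (a : ℤ) (k : ℕ) : C.tip ω y (a + n) k ↔ C.tip ω y a k := by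
  unfold tip
  have e1 : C.θ (a + n + k - 1) = C.θ (a + k - 1) + 2 * π := by
    rw [show a + (n : ℤ) + k - 1 = a + k - 1 + n by ring, C.θ_per]
  have e2 : C.θ (a + n + k) = C.θ (a + k) + 2 * π := by
    rw [show a + (n : ℤ) + k = a + k + n by ring, C.θ_per]
  have e3 : C.θ (a + n - 1) = C.θ (a - 1) + 2 * π := by
    rw [show a + (n : ℤ) - 1 = a - 1 + n by ring, C.θ_per]
  have e4 : C.d (a + n) (a + n + k) = C.d a (a + k) := by
    rw [show a + (n : ℤ) + k = a + k + n by ring, C.d_per_left, C.d_per_right]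
  rw [e1, e2, e3, e4, C.θ_per]
  constructor
  · rintro ⟨h1, h2, h3⟩; exact ⟨by linarith, by linarith, h3⟩
  · rintro ⟨h1, h2, h3⟩; exact ⟨by linarith, by linarith, h3⟩

/-- an opposite pair gives a tip arc on one side -/
lemma tl_tip_of_opp {ω t y : ℝ} (hF : C.Fat ω t) (hy : y ≤ t) {a : ℤ} {k : ℕ} (h1 : 1 ≤ k)
    (h2 : k < n) (h3 : ¬ C.Nar a k) (h4 : ¬ C.Nar (a + k) (n - k)) (h5 : C.d a (a + k) ≤ y) :
    C.tip ω y a k ∨ C.tip ω y (a + k) (n - k) := by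
  have e : a + (k : ℤ) + ((n - k : ℕ) : ℤ) = a + n := by
    rw [Nat.cast_sub h2.le]; ring
  rcases hF a k h1 h2 h3 h4 (h5.trans hy) with h | h
  · left
    unfold Nar at h3
    exact ⟨not_lt.1 h3, h, h5⟩
  · right
    unfold Nar at h4
    refine ⟨not_lt.1 h4, ?_, ?_⟩
    · rw [e]; exact h
    · rw [e, C.d_per_right, C.d_comm]; exact h5

theorem Opp_le {ω t y : ℝ} (hF : C.Fat ω t) (hy : y ≤ t) : C.Opp y ≤ 2 * C.Tip ω y := by
  have h1 := card_Q_rev (n := n) (fun i k => C.tip ω y i k) C.n_pos (fun i k => C.tl_tip_per ω y i k)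
  have h2 : C.Opp y ≤ ((Q n).filter (fun x => C.tip ω y (x.1 : ℤ) x.2)).card +
      ((Q n).filter (fun x => C.tip ω y ((x.1 : ℤ) + x.2) (n - x.2))).card := by
    refine le_trans ?_ (Finset.card_union_le _ _)
    apply Finset.card_le_card
    intro x hx
    simp only [Finset.mem_filter, Q, Finset.mem_product, Finset.mem_range, Finset.mem_Ico,
      Finset.mem_union] at hx ⊢
    obtain ⟨⟨hx1, hx2, hx3⟩, h3, h4, h5⟩ := hx
    rcases C.tl_tip_of_opp hF hy hx2 hx3 h3 h4 h5 with h | h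
    · exact Or.inl ⟨⟨hx1, hx2, hx3⟩, h⟩
    · exact Or.inr ⟨⟨hx1, hx2, hx3⟩, h⟩
  rw [h1] at h2
  unfold Tip
  omega

lemma tl_CC_ge {ω : ℝ} (hω : 0 < ω) (hω' : ω < π / 2) : 2 ≤ CC ω := by
  unfold CC
  have : 0 ≤ 1 / (Real.sin (ω / 2)) ^ 2 := by positivity
  linarith

/-- opposite pairs, starts reduced modulo `n` -/
lemma tl_opp_reduce {y : ℝ} {a : ℤ} {k : ℕ} (h1 : 1 ≤ k) (h2 : k < n) (h3 : ¬ C.Nar a k)
    (h4 : ¬ C.Nar (a + k) (n - k)) (h5 : C.d a (a + k) ≤ y) :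
    ∃ x ∈ (Q n).filter (fun x => ¬ C.Nar x.1 x.2 ∧ ¬ C.Nar ((x.1 : ℤ) + x.2) (n - x.2) ∧
      C.ch x ≤ y), C.ch x = C.d a (a + k) := by
  have hn : (0 : ℤ) < n := by exact_mod_cast C.n_pos
  have e1 : (((a % n).toNat : ℕ) : ℤ) = a % n := Int.toNat_of_nonneg (Int.emod_nonneg a hn.ne')
  have e2 : (((a % n).toNat : ℕ) : ℤ) = a + (-(a / n)) * n := by
    rw [e1, Int.emod_def]; ring
  have e3 : (((a % n).toNat : ℕ) : ℤ) + (k : ℤ) = (a + k) + (-(a / n)) * n := by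
    rw [e2]; ring
  have e4 : C.ch ((a % n).toNat, k) = C.d a (a + k) := by
    unfold ch
    simp only
    rw [e3, e2, C.d_perk]
  refine ⟨((a % n).toNat, k), ?_, e4⟩
  simp only [Finset.mem_filter, Q, Finset.mem_product, Finset.mem_range, Finset.mem_Ico]
  refine ⟨⟨?_, h1, h2⟩, ?_, ?_, ?_⟩
  · have := Int.emod_lt_of_pos a hn
    omega
  · rw [e2, C.nar_perk]; exact h3
  · rw [e3, C.nar_perk]; exact h4
  · rw [e4]; exact h5

theorem exists_tip {ω t y : ℝ} (hω : 0 < ω) (hω' : ω < π / 2) (hF : C.Fat ω t) (hy : 0 < y)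
    (hyt : y ≤ t) (hL : C.L < C.m y) :
    ∃ (a : ℤ) (k : ℕ), 1 ≤ k ∧ k < n ∧ C.tip ω y a k ∧ (k : ℝ) ≤ CC ω * (C.L + 2) := by
  set O := (Q n).filter (fun x => ¬ C.Nar x.1 x.2 ∧ ¬ C.Nar ((x.1 : ℤ) + x.2) (n - x.2) ∧
      C.ch x ≤ y) with hO
  have hne : O.Nonempty := by
    by_contra hcon
    rw [Finset.not_nonempty_iff_eq_empty] at hcon
    have := C.case0 y (fun a k h1 h2 h5 => by
      by_contra h6
      rw [not_or] at h6
      obtain ⟨x, hx, _⟩ := C.tl_opp_reduce h1 h2 h6.1 h6.2 h5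
      rw [← hO, hcon] at hx
      exact absurd hx (Finset.notMem_empty x))
    omega
  obtain ⟨x, hxO, hmin⟩ := Finset.exists_min_image O C.ch hne
  set ys := C.ch x with hys
  have hx := hxO
  simp only [hO, Finset.mem_filter, Q, Finset.mem_product, Finset.mem_range,
    Finset.mem_Ico] at hx
  obtain ⟨⟨hx1, hx2, hx3⟩, h3, h4, h5⟩ := hx
  have hysy : ys ≤ y := h5
  -- `m` at the smallest opposite distance
  have hm : C.m ys ≤ C.L + 1 := by
    by_contra hcon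
    rw [not_le] at hcon
    obtain ⟨b, hb1, hb2⟩ := C.exists_nar_m (y := ys) (by omega)
    set mm := C.m ys with hmm
    have hn1 : C.Nar b (mm - 1) := C.nar_sub hb1 le_rfl (by omega)
    have hlt : C.d b (b + ((mm - 1 : ℕ) : ℤ)) < ys :=
      lt_of_lt_of_le (C.nar_d_lt hb1 le_rfl (by omega) (by omega)) hb2
    have h6 : mm - 1 ≤ C.m (C.d b (b + ((mm - 1 : ℕ) : ℤ))) := C.le_m_of_nar hn1 le_rfl
    have h7 := C.case0 (C.d b (b + ((mm - 1 : ℕ) : ℤ))) (fun a k g1 g2 g5 => by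
      by_contra h6
      rw [not_or] at h6
      obtain ⟨z, hz, hz'⟩ := C.tl_opp_reduce (y := y) g1 g2 h6.1 h6.2 (by linarith)
      have := hmin z hz
      rw [hz'] at this
      linarith)
    omega
  -- a tip arc at distance `ys`
  obtain ⟨a, k, hk1, hk2, htip⟩ : ∃ (a : ℤ) (k : ℕ), 1 ≤ k ∧ k < n ∧ C.tip ω ys a k := by
    rcases C.tl_tip_of_opp hF (hysy.trans hyt) hx2 hx3 h3 h4 le_rfl with h | h
    · exact ⟨_, _, hx2, hx3, h⟩
    · exact ⟨_, _, by omega, by omega, h⟩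
  have hpi := Real.pi_pos
  have hdpos : 0 < C.d a (a + k) := by
    have h8 := C.len_le a k ω hω (by linarith) (by
      have h9 := htip.2.1
      have h10 : C.θ (a + k - 1) ≤ C.θ (a + k) := C.θ_le (by omega)
      have h11 : C.θ (a - 1) ≤ C.θ a := C.θ_le (by omega)
      linarith)
    have h9 := C.len_pos a hk1
    have h10 : 0 < Real.sin (ω / 2) := Real.sin_pos_of_pos_of_lt_pi (by linarith) (by linarith)
    have := mul_pos h10 h9
    linarith
  have hys0 : 0 < ys := lt_of_lt_of_le hdpos htip.2.2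
  have hk := C.tip_k_le hω hω' hys0 htip
  refine ⟨a, k, hk1, hk2, ⟨htip.1, htip.2.1, htip.2.2.trans hysy⟩, hk.trans ?_⟩
  have hCC := tl_CC_ge hω hω'
  refine mul_le_mul_of_nonneg_left ?_ (by linarith)
  have : (C.m ys : ℝ) ≤ C.L + 1 := by exact_mod_cast hm
  linarith

omit C in
lemma tl_gauss_rev (q : ℕ) : ∑ i ∈ Finset.range q, ((q : ℝ) - i) = q * (q + 1) / 2 := by
  induction q with
  | zero => simp
  | succ q ih =>
    rw [Finset.sum_range_succ]
    have h1 : ∑ i ∈ Finset.range q, (((q + 1 : ℕ) : ℝ) - i) =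
        ∑ i ∈ Finset.range q, (((q : ℝ) - i) + 1) :=
      Finset.sum_congr rfl (fun i _ => by push_cast; ring)
    rw [h1, Finset.sum_add_distrib, ih, Finset.sum_const, Finset.card_range, nsmul_eq_mul]
    push_cast
    ring

omit C in
lemma tl_gauss_Ico {k m : ℕ} (h : 2 * k ≤ m) :
    (m : ℝ) ^ 2 / 8 ≤ ∑ u ∈ Finset.Ico k (m + 1), ((m : ℝ) - u + 1) := by
  rw [Finset.sum_Ico_eq_sum_range]
  have h1 : ∑ i ∈ Finset.range (m + 1 - k), ((m : ℝ) - ((k + i : ℕ) : ℝ) + 1) =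
      ∑ i ∈ Finset.range (m + 1 - k), (((m + 1 - k : ℕ) : ℝ) - i) := by
    refine Finset.sum_congr rfl (fun i _ => ?_)
    rw [Nat.cast_sub (by omega : k ≤ m + 1)]
    push_cast
    ring
  rw [h1, tl_gauss_rev, Nat.cast_sub (by omega : k ≤ m + 1)]
  push_cast
  have h2 : 2 * (k : ℝ) ≤ m := by exact_mod_cast h
  have hk0 : (0 : ℝ) ≤ k := Nat.cast_nonneg _
  have h3 : (m : ℝ) / 2 ≤ m + 1 - k := by linarith
  have h4 : (m : ℝ) / 2 * (m / 2) ≤ (m + 1 - k) * (m + 1 - k + 1) :=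
    mul_le_mul h3 (by linarith) (by linarith) (by linarith)
  linarith

theorem tip_lower {ω t y : ℝ} (hω : 0 < ω) (hω' : ω < π / 2) (hF : C.Fat ω t) (hy : 0 < y)
    (hyt : y ≤ t) (hL : 2 * (CC ω * (C.L + 2)) ≤ C.m y) :
    (C.m y : ℝ) ^ 2 / 8 ≤ n * C.L + C.Tip ω y := by
  have hCC := tl_CC_ge hω hω'
  have hL0 : (0 : ℝ) ≤ C.L := Nat.cast_nonneg _
  have hLm : C.L < C.m y := by
    have h1 : (2 : ℝ) * (C.L + 2) ≤ CC ω * (C.L + 2) :=
      mul_le_mul_of_nonneg_right hCC (by linarith)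
    have h2 : (C.L : ℝ) < C.m y := by linarith
    exact_mod_cast h2
  obtain ⟨a, k, hk1, hk2, htip, hk⟩ := C.exists_tip hω hω' hF hy hyt hLm
  set m := C.m y with hm
  have h2k : 2 * k ≤ m := by
    have : 2 * (k : ℝ) ≤ m := by linarith
    exact_mod_cast this
  have hmn : m < n := by
    obtain ⟨b, hb, _⟩ := C.exists_nar_m (y := y) (by omega)
    exact C.nar_lt_n hb
  have hfwd : ∀ u : ℕ, k ≤ u → C.fwd (a + k - u) y + 1 ≤ u := by
    intro u hu
    by_contra hcon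
    have h1 : u ≤ C.fwd (a + k - u) y := by omega
    have h2 := ((C.le_fwd_iff (by omega)).1 h1).1
    have h3 : C.Nar a k := C.nar_sub h2 (by omega) (by omega)
    have h4 := htip.1
    unfold Nar at h3
    linarith
  have hw := sum_neg_window_le (fun i => m - C.fwd i y) C.n_pos
    (fun i => by simp only [C.fwd_per]) (a + k) (r := m + 1) hmn
  have h1 : ∑ u ∈ Finset.Ico k (m + 1), (m - C.fwd (a + k - u) y) ≤
      ∑ u ∈ Finset.range (m + 1), (m - C.fwd (a + k - u) y) := by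
    apply Finset.sum_le_sum_of_subset
    intro u hu
    rw [Finset.mem_Ico] at hu
    exact Finset.mem_range.2 hu.2
  have h2 : ((∑ u ∈ Finset.Ico k (m + 1), (m - C.fwd (a + k - u) y) : ℕ) : ℝ) ≤
      ((∑ u ∈ Finset.range n, (m - C.fwd (u : ℤ) y) : ℕ) : ℝ) := by
    exact_mod_cast h1.trans hw
  have h3 : ((∑ u ∈ Finset.range n, (m - C.fwd (u : ℤ) y) : ℕ) : ℝ) =
      ∑ u ∈ Finset.range n, ((m : ℝ) - C.fwd (u : ℤ) y) := by
    rw [Nat.cast_sum]
    refine Finset.sum_congr rfl (fun u _ => ?_)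
    rw [Nat.cast_sub (C.fwd_le_m _ _)]
  have h4 : ∑ u ∈ Finset.Ico k (m + 1), ((m : ℝ) - u + 1) ≤
      ((∑ u ∈ Finset.Ico k (m + 1), (m - C.fwd (a + k - u) y) : ℕ) : ℝ) := by
    rw [Nat.cast_sum]
    refine Finset.sum_le_sum (fun u hu => ?_)
    rw [Finset.mem_Ico] at hu
    rw [Nat.cast_sub (C.fwd_le_m _ _)]
    have h5 : ((C.fwd (a + k - u) y : ℕ) : ℝ) + 1 ≤ u := by exact_mod_cast hfwd u hu.1
    linarith
  have h5 := tl_gauss_Ico h2k
  have h6 := C.deficit_fwd y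
  have h7 : (C.Opp y : ℝ) ≤ 2 * C.Tip ω y := by exact_mod_cast C.Opp_le hF hyt
  linarith

end Pool.Agent.Helper85.CVX.CP
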