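import Pool.Agent.Helper85.CVX.Nar
import Pool.Agent.Helper85.CVX.Geo

/-! Block VIEW (≈160 lines).
`view`: let `c = p b - p a = d e^{iψ}`, `v_j = p j - p b`, `j ∈ [b, b+g]`.  All edges `j ∈ [b,b+g)` have `θ_j - ψ ∈ [b₀, π/2)`.
Strictly increasing: `(p_j - p_a)·e^{iθ_j} = prj θ_j c + prj θ_j v_j`, `prj θ_j c = d cos(θ_j - ψ) > 0`,
`prj θ_j v_j = ∑ ℓ cos(θ_u - θ_j) ≥ 0`; so `|p_{j+1} - p_a|² = |p_j - p_a|² + 2ℓ prj + ℓ² > |p_j - p_a|²`.
Last distance: `|c + v|² = d² + 2 d prj ψ v + |v|²` with `v = v_{b+g}`, `|v| ≤ σ`, and `prj ψ v ≤ |v| cos b₀`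
(each edge has `cos x sin b₀ ≤ sin x cos b₀` for `x = θ_u - ψ ∈ [b₀, π/2]`, so `prj v sin b₀ ≤ crs v cos b₀` and
`prj² ≤ cos² b₀ (prj² + crs²)`).  With `λ = (1+cos b₀)/2`: `(d + λσ)² - (d² + 2dσ cos b₀ + σ²) ≥ σ(d(1-cos b₀) - σ) ≥ 0`.
Then `le_R_of_strictMono` with `f u = d a (b+u)`, `u ≤ g`; `mem_D` needs `b + g < a + n`.
`view'` is the mirror image (view the arc `[a-g, a]` from `b`). -/

set_option autoImplicit false
open scoped Classical
open Real

noncomputable section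

namespace Pool.Agent.Helper85.CVX.CP

variable {n : ℕ} (C : CP n)

/-- the bound for the last distance -/
lemma view_end (ψ σ b₀ d s : ℝ) (v : ℂ) (hd : 0 < d) (h0 : 0 ≤ b₀) (h1 : b₀ ≤ π / 2)
    (hv : ‖v‖ ≤ σ) (hs : s ^ 2 = crs ψ v ^ 2)
    (hp : prj ψ v * Real.sin b₀ ≤ s * Real.cos b₀) (hp0 : 0 ≤ prj ψ v)
    (hσd : σ ≤ (1 - Real.cos b₀) * d) :
    ‖(d : ℂ) * Complex.exp ((ψ : ℂ) * Complex.I) + v‖ ≤ d + (1 + Real.cos b₀) / 2 * σ := by
  have hσ0 : 0 ≤ σ := (norm_nonneg v).trans hv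
  have hc0 : 0 ≤ Real.cos b₀ := Real.cos_nonneg_of_mem_Icc ⟨by linarith [Real.pi_pos], h1⟩
  have hs0 : 0 ≤ Real.sin b₀ := Real.sin_nonneg_of_nonneg_of_le_pi h0 (by linarith [Real.pi_pos])
  have hc1 : Real.cos b₀ ≤ 1 := Real.cos_le_one _
  have hsc := Real.sin_sq_add_cos_sq b₀
  -- prj² ≤ cos² ‖v‖²
  have h2 : (prj ψ v * Real.sin b₀) ^ 2 ≤ (s * Real.cos b₀) ^ 2 :=
    pow_le_pow_left₀ (mul_nonneg hp0 hs0) hp 2
  have h3 : prj ψ v ^ 2 ≤ (Real.cos b₀ * ‖v‖) ^ 2 := by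
    have e1 : (Real.cos b₀ * ‖v‖) ^ 2 = Real.cos b₀ ^ 2 * (prj ψ v ^ 2 + crs ψ v ^ 2) := by
      rw [mul_pow, norm_sq_eq ψ v]
    rw [e1, ← hs]
    have e2 : prj ψ v ^ 2 = prj ψ v ^ 2 * (Real.sin b₀ ^ 2 + Real.cos b₀ ^ 2) := by
      rw [hsc, mul_one]
    nlinarith [h2, e2]
  have h4 : prj ψ v ≤ Real.cos b₀ * ‖v‖ :=
    le_of_sq_le_sq h3 (mul_nonneg hc0 (norm_nonneg v))
  have h5 : prj ψ v ≤ Real.cos b₀ * σ := h4.trans (mul_le_mul_of_nonneg_left hv hc0)
  have hR : 0 ≤ d + (1 + Real.cos b₀) / 2 * σ := by positivity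
  apply le_of_sq_le_sq _ hR
  rw [norm_sq_eq ψ, prj_add, crs_add, prj_mul_exp, crs_mul_exp]
  simp only [sub_self, Real.cos_zero, Real.sin_zero, mul_one, mul_zero, zero_add]
  have h6 : prj ψ v ^ 2 + crs ψ v ^ 2 ≤ σ ^ 2 := by
    rw [← norm_sq_eq]
    exact pow_le_pow_left₀ (norm_nonneg v) hv 2
  have h7 : d * prj ψ v ≤ d * (Real.cos b₀ * σ) := mul_le_mul_of_nonneg_left h5 hd.le
  have h8 : σ * σ ≤ σ * ((1 - Real.cos b₀) * d) := mul_le_mul_of_nonneg_left hσd hσ0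
  have h9 : 0 ≤ ((1 + Real.cos b₀) / 2 * σ) ^ 2 := sq_nonneg _
  nlinarith [h6, h7, h8, h9]

theorem view {a b : ℤ} {g : ℕ} {ψ σ b₀ : ℝ} (hab : a < b) (hbn : b + g < a + n)
    (hd : 0 < C.d a b)
    (hψ : C.p b - C.p a = (C.d a b : ℂ) * Complex.exp ((ψ : ℂ) * Complex.I))
    (hb0 : 0 ≤ b₀) (hb1 : b₀ ≤ π / 2) (hB0 : b₀ ≤ C.θ b - ψ) (hB1 : C.θ (b + g) - ψ ≤ π / 2)
    (hσ : C.d b (b + g) ≤ σ) (hσd : σ ≤ (1 - Real.cos b₀) * C.d a b) :
    g + 1 ≤ C.R (Set.Icc (C.d a b) (C.d a b + (1 + Real.cos b₀) / 2 * σ)) := by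
  have hinc : ∀ u : ℕ, u < g → C.d a (b + u) < C.d a (b + (u + 1 : ℕ)) := by
    intro u hu
    have hθ1 : C.θ (b + u) < C.θ (b + g) := C.θ_strictMono (by omega)
    have hθ0 : C.θ b ≤ C.θ (b + u) := C.θ_le (by omega)
    set φ := C.θ (b + u) with hφ
    have h1 : 0 < prj φ (C.p (b + u) - C.p a) := by
      have e : C.p (b + u) - C.p a = (C.p b - C.p a) + (C.p (b + u) - C.p b) := by ring
      rw [e, prj_add, hψ, prj_mul_exp, C.prj_arc]
      have t1 : 0 < C.d a b * Real.cos (ψ - φ) := by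
        apply mul_pos hd
        apply Real.cos_pos_of_mem_Ioo
        constructor <;> linarith
      have t2 : 0 ≤ ∑ w ∈ Finset.range u, C.ℓ (b + w) * Real.cos (C.θ (b + w) - φ) := by
        apply Finset.sum_nonneg
        intro w hw
        rw [Finset.mem_range] at hw
        have hw1 : C.θ b ≤ C.θ (b + w) := C.θ_le (by omega)
        have hw2 : C.θ (b + w) ≤ φ := C.θ_le (by omega)
        apply mul_nonneg (C.ℓ_pos _).le
        apply Real.cos_nonneg_of_mem_Icc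
        constructor <;> linarith
      linarith
    have e2 : C.p (b + (u + 1 : ℕ)) - C.p a
        = (C.p (b + u) - C.p a) + (C.p (b + u + 1) - C.p (b + u)) := by
      push_cast; rw [← add_assoc]; ring
    have h2 : C.d a (b + u) ^ 2 < C.d a (b + (u + 1 : ℕ)) ^ 2 := by
      rw [d, d, norm_sq_eq φ, norm_sq_eq φ (C.p (b + (u + 1 : ℕ)) - C.p a), e2, prj_add, crs_add,
        C.step_prj, C.step_crs, ← hφ, sub_self, Real.cos_zero, Real.sin_zero]
      have := C.ℓ_pos (b + u)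
      nlinarith [mul_pos this h1]
    exact lt_of_pow_lt_pow_left₀ 2 (C.d_nonneg _ _) h2
  have hmono : ∀ v : ℕ, v ≤ g → ∀ u : ℕ, u ≤ v → C.d a (b + u) ≤ C.d a (b + v) := by
    intro v
    induction v with
    | zero =>
      intro _ u hu
      obtain rfl : u = 0 := by omega
      exact le_rfl
    | succ v ih =>
      intro hv u hu
      rcases Nat.le_succ_iff.mp hu with h | h
      · exact (ih (by omega) u h).trans (hinc v (by omega)).le
      · rw [h]
  have hlast : C.d a (b + g) ≤ C.d a b + (1 + Real.cos b₀) / 2 * σ := by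
    have e : C.p (b + g) - C.p a = (C.p b - C.p a) + (C.p (b + g) - C.p b) := by ring
    rw [d, e, hψ]
    have hbd : ∀ w : ℕ, w < g → b₀ ≤ C.θ (b + w) - ψ ∧ C.θ (b + w) - ψ ≤ π / 2 := by
      intro w hw
      have hw1 : C.θ b ≤ C.θ (b + w) := C.θ_le (by omega)
      have hw2 : C.θ (b + w) ≤ C.θ (b + g) := C.θ_le (by omega)
      constructor <;> linarith
    refine view_end ψ σ b₀ (C.d a b) (crs ψ (C.p (b + g) - C.p b)) _ hd hb0 hb1 hσ rfl ?_ ?_ hσd
    · rw [C.prj_arc, C.crs_arc, Finset.sum_mul, Finset.sum_mul]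
      apply Finset.sum_le_sum
      intro w hw
      rw [Finset.mem_range] at hw
      obtain ⟨x0, x1⟩ := hbd w hw
      have hs : 0 ≤ Real.sin (C.θ (b + w) - ψ - b₀) :=
        Real.sin_nonneg_of_nonneg_of_le_pi (by linarith) (by linarith [Real.pi_pos])
      rw [Real.sin_sub] at hs
      rw [mul_assoc, mul_assoc]
      apply mul_le_mul_of_nonneg_left _ (C.ℓ_pos _).le
      linarith
    · rw [C.prj_arc]
      apply Finset.sum_nonneg
      intro w hw
      rw [Finset.mem_range] at hw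
      obtain ⟨x0, x1⟩ := hbd w hw
      apply mul_nonneg (C.ℓ_pos _).le
      apply Real.cos_nonneg_of_mem_Icc
      constructor <;> linarith [Real.pi_pos]
  apply C.le_R_of_strictMono (fun u => C.d a (b + u))
  · intro u hu
    exact hinc u (by omega)
  · intro u hu
    have h := C.mem_D a (k := (b - a).toNat + u) (by omega) (by omega)
    have e : a + (((b - a).toNat + u : ℕ) : ℤ) = b + u := by
      push_cast
      rw [Int.toNat_of_nonneg (by omega)]
      ring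
    rwa [e] at h
  · intro u hu
    refine ⟨?_, (hmono g le_rfl u (by omega)).trans hlast⟩
    have := hmono u (by omega) 0 (by omega)
    simpa using this

theorem view' {a b : ℤ} {g : ℕ} {ψ σ b₀ : ℝ} (hab : a < b) (hbn : b < a - g + n)
    (hd : 0 < C.d a b)
    (hψ : C.p b - C.p a = (C.d a b : ℂ) * Complex.exp ((ψ : ℂ) * Complex.I))
    (hb0 : 0 ≤ b₀) (hb1 : b₀ ≤ π / 2) (hB0 : b₀ ≤ ψ - C.θ (a - 1))
    (hB1 : ψ - C.θ (a - 1 - g) ≤ π / 2)
    (hσ : C.d (a - g) a ≤ σ) (hσd : σ ≤ (1 - Real.cos b₀) * C.d a b) :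
    g + 1 ≤ C.R (Set.Icc (C.d a b) (C.d a b + (1 + Real.cos b₀) / 2 * σ)) := by
  have hinc : ∀ u : ℕ, u < g → C.d (a - u) b < C.d (a - (u + 1 : ℕ)) b := by
    intro u hu
    have hθ1 : C.θ (a - 1 - g) < C.θ (a - 1 - u) := C.θ_strictMono (by omega)
    have hθ0 : C.θ (a - 1 - u) ≤ C.θ (a - 1) := C.θ_le (by omega)
    set φ := C.θ (a - 1 - u) with hφ
    have h1 : 0 < prj φ (C.p b - C.p (a - u)) := by
      have e : C.p b - C.p (a - u) = (C.p b - C.p a) + (C.p (a - u + u) - C.p (a - u)) := by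
        rw [sub_add_cancel]; ring
      rw [e, prj_add, hψ, prj_mul_exp, C.prj_arc]
      have t1 : 0 < C.d a b * Real.cos (ψ - φ) := by
        apply mul_pos hd
        apply Real.cos_pos_of_mem_Ioo
        constructor <;> linarith
      have t2 : 0 ≤ ∑ w ∈ Finset.range u, C.ℓ (a - u + w) * Real.cos (C.θ (a - u + w) - φ) := by
        apply Finset.sum_nonneg
        intro w hw
        rw [Finset.mem_range] at hw
        have hw1 : C.θ (a - u + w) ≤ C.θ (a - 1) := C.θ_le (by omega)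
        have hw2 : φ ≤ C.θ (a - u + w) := C.θ_le (by omega)
        apply mul_nonneg (C.ℓ_pos _).le
        apply Real.cos_nonneg_of_mem_Icc
        constructor <;> linarith
      linarith
    have e2 : C.p b - C.p (a - (u + 1 : ℕ))
        = (C.p b - C.p (a - u)) + (C.p (a - 1 - u + 1) - C.p (a - 1 - u)) := by
      have e3 : a - 1 - (u : ℤ) + 1 = a - u := by ring
      have e4 : a - ((u + 1 : ℕ) : ℤ) = a - 1 - u := by push_cast; ring
      rw [e3, e4]; ring
    have h2 : C.d (a - u) b ^ 2 < C.d (a - (u + 1 : ℕ)) b ^ 2 := by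
      rw [d, d, norm_sq_eq φ, norm_sq_eq φ (C.p b - C.p (a - (u + 1 : ℕ))), e2, prj_add, crs_add,
        C.step_prj, C.step_crs, ← hφ, sub_self, Real.cos_zero, Real.sin_zero]
      have := C.ℓ_pos (a - 1 - u)
      nlinarith [mul_pos this h1]
    exact lt_of_pow_lt_pow_left₀ 2 (C.d_nonneg _ _) h2
  have hmono : ∀ v : ℕ, v ≤ g → ∀ u : ℕ, u ≤ v → C.d (a - u) b ≤ C.d (a - v) b := by
    intro v
    induction v with
    | zero =>
      intro _ u hu
      obtain rfl : u = 0 := by omega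
      exact le_rfl
    | succ v ih =>
      intro hv u hu
      rcases Nat.le_succ_iff.mp hu with h | h
      · exact (ih (by omega) u h).trans (hinc v (by omega)).le
      · rw [h]
  have hlast : C.d (a - g) b ≤ C.d a b + (1 + Real.cos b₀) / 2 * σ := by
    have e : C.p b - C.p (a - g) = (C.p b - C.p a) + (C.p (a - g + g) - C.p (a - g)) := by
      rw [sub_add_cancel]; ring
    have hσ' : ‖C.p (a - g + g) - C.p (a - g)‖ ≤ σ := by rw [sub_add_cancel]; exact hσ
    rw [d, e, hψ]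
    have hbd : ∀ w : ℕ, w < g → b₀ ≤ ψ - C.θ (a - g + w) ∧ ψ - C.θ (a - g + w) ≤ π / 2 := by
      intro w hw
      have hw1 : C.θ (a - g + w) ≤ C.θ (a - 1) := C.θ_le (by omega)
      have hw2 : C.θ (a - 1 - g) ≤ C.θ (a - g + w) := C.θ_le (by omega)
      constructor <;> linarith
    refine view_end ψ σ b₀ (C.d a b) (-crs ψ (C.p (a - g + g) - C.p (a - g))) _ hd hb0 hb1 hσ'
      (neg_sq _) ?_ ?_ hσd
    · rw [C.prj_arc, C.crs_arc, Finset.sum_mul, ← Finset.sum_neg_distrib, Finset.sum_mul]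
      apply Finset.sum_le_sum
      intro w hw
      rw [Finset.mem_range] at hw
      obtain ⟨x0, x1⟩ := hbd w hw
      have hs : 0 ≤ Real.sin (ψ - C.θ (a - g + w) - b₀) :=
        Real.sin_nonneg_of_nonneg_of_le_pi (by linarith) (by linarith [Real.pi_pos])
      have e1 : C.θ (a - g + w) - ψ = -(ψ - C.θ (a - g + w)) := by ring
      rw [e1, Real.cos_neg, Real.sin_neg]
      rw [Real.sin_sub] at hs
      rw [mul_neg, neg_neg, mul_assoc, mul_assoc]
      apply mul_le_mul_of_nonneg_left _ (C.ℓ_pos _).le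
      linarith
    · rw [C.prj_arc]
      apply Finset.sum_nonneg
      intro w hw
      rw [Finset.mem_range] at hw
      obtain ⟨x0, x1⟩ := hbd w hw
      apply mul_nonneg (C.ℓ_pos _).le
      apply Real.cos_nonneg_of_mem_Icc
      constructor <;> linarith [Real.pi_pos]
  apply C.le_R_of_strictMono (fun u => C.d (a - u) b)
  · intro u hu
    exact hinc u (by omega)
  · intro u hu
    have h := C.mem_D (a - u) (k := (b - a).toNat + u) (by omega) (by omega)
    have e : a - (u : ℤ) + (((b - a).toNat + u : ℕ) : ℤ) = b := by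
      push_cast
      rw [Int.toNat_of_nonneg (by omega)]
      ring
    rwa [e] at h
  · intro u hu
    refine ⟨?_, (hmono g le_rfl u (by omega)).trans hlast⟩
    have := hmono u (by omega) 0 (by omega)
    simpa using this

end Pool.Agent.Helper85.CVX.CP
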