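import Pool.Agent.Helper85.CVX.F1
import Pool.Agent.Helper85.CVX.Cuts
import Pool.Agent.Helper85.CVX.WinM

/-! Block WINL (≈140 lines).
`X i = (p i).re`, `g = R (Icc 0 (3y))`, `u = 9y/4 ≤ 9/32`.  All vertices `j` with `|X j - X i| ≤ y` have `X j ≤ u`.
`{j ∈ [i1,i2] : X j ≤ u} = [i1, j2]` (increasing, contains `i1`), `{j ∈ [i3, i0+n] : X j ≤ u} = [j3, i0+n]` (`j3 > i3` since
`X i3 ≥ 1-ε > u`).  So these vertices have representatives in `[j3, j2+n]`, at most `j2 + n - j3 + 1` many, hence `W i y ≤ j2+n-j3`.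
F1 for the arc from `i0` to `j2` (if `j2 > i0`): `θ (j2-1) ≤ 2ε` (`slope_low_hi`, `x = 1/2`, or `j2 = i1` and `steepL`),
`θ i0 ≥ -π/2-1/4`, turning `< π/2 + 1/4 + 2ε < 2π/3`; chord `≤ u + ε ≤ 3y`, `j2 - i0 < n`: so `j2 - i0 ≤ g`.
F1 for the arc from `j3` to `i1+n`: `θ j3 ≥ θ (j3-1) ≥ π - ε/u` (`slope_upp_lo` at `j3-1`, `X (j3-1) > u`), `θ (i1+n-1) < 3π/2+1/4`,
so `i1 + n - j3 ≤ g`.  Sum. -/

set_option autoImplicit false
open scoped Classical
open Real

noncomputable section

namespace Pool.Agent.Helper85.CVX.CP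

variable {n : ℕ} (C : CP n)

theorem window_left {ε y : ℝ} (F : C.Flat ε) (K : C.Cuts ε) (hy : 0 < y) (hy' : y ≤ 1 / 8)
    (hε : 100 * ε ≤ y) (i : ℤ) (h : (C.p i).re ≤ 5 * y / 4) :
    C.W i y + (K.i1 - K.i0).toNat ≤ 2 * C.R (Set.Icc 0 (3 * y)) := by
  have hε0 := F.pos
  have hn := C.n_pos
  have k01 := K.h01
  have k12 := K.h12
  have k23 := K.h23
  have k34 := K.h34
  have hπ := Real.pi_gt_three
  have e0 : (C.p K.i0).re ≤ ε := K.left _ le_rfl k01
  have e1 : (C.p K.i1).re ≤ ε := K.left _ k01 le_rfl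
  have e2 : 1 - ε ≤ (C.p K.i2).re := K.right _ le_rfl k23
  have e3 : 1 - ε ≤ (C.p K.i3).re := K.right _ k23 le_rfl
  have e0' : (C.p (K.i0 + n)).re ≤ ε := by rw [C.p_per]; exact e0
  obtain ⟨j2, a1, a2, a3, a4⟩ := outw_exists_max_int (fun j => (C.p j).re ≤ 9 * y / 4) k12.le
    (by linarith : (C.p K.i1).re ≤ 9 * y / 4)
  obtain ⟨j3, d1, d2, d3, d4⟩ := outw_exists_min_int (fun j => (C.p j).re ≤ 9 * y / 4) k34.le
    (by linarith : (C.p (K.i0 + n)).re ≤ 9 * y / 4)
  have hj3 : K.i3 < j3 := by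
    rcases d1.lt_or_eq with h1 | h1
    · exact h1
    · exfalso
      rw [← h1] at d3
      linarith
  -- directions
  have θ0 : -(π / 2) - 1 / 4 ≤ C.θ K.i0 := by
    rcases k01.lt_or_eq with h1 | h1
    · exact (K.steepL _ le_rfl h1).1
    · have := (K.low K.i0 h1.symm.le (by omega)).1
      linarith
  have θ2 : K.i0 < j2 → C.θ (j2 - 1) ≤ 2 * ε := by
    intro hlt
    rcases a1.lt_or_eq with h1 | h1
    · have r1 := C.slope_low_hi F K (i := j2 - 1) (x := 1 / 2) (by omega) (by omega)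
        (by norm_num) (by
          have := C.low_lt K (i := j2 - 1) (j := j2) (by omega) (by omega) a2
          linarith)
      linarith
    · have := (K.steepL (j2 - 1) (by omega) (by omega)).2
      linarith
  have θ3 : π - 2 * ε ≤ C.θ j3 := by
    rcases d2.lt_or_eq with h1 | h1
    · have r1 := C.slope_upp_lo F K (i := j3) (x := 1 / 2) (by omega) h1 (by norm_num)
        (by linarith)
      linarith
    · rw [h1, C.θ_per]
      linarith
  have θ1 : C.θ (K.i1 + n - 1) < 3 * π / 2 + 1 / 4 := by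
    rcases k01.lt_or_eq with h1 | h1
    · have := (K.steepL (K.i1 - 1) (by omega) (by omega)).2
      rw [show K.i1 + (n : ℤ) - 1 = (K.i1 - 1) + n by ring, C.θ_per]
      linarith
    · have := (K.upp (K.i1 + n - 1) (by omega) (by omega)).2
      linarith
  -- the two arcs
  have hF1 : (j2 - K.i0).toNat ≤ C.R (Set.Icc 0 (3 * y)) := by
    apply C.win_F1 (by omega) (by omega)
    · intro hlt
      have := θ2 hlt
      linarith
    · have h5 : |(C.p j2).re - (C.p K.i0).re| ≤ 9 * y / 4 := by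
        have q1 := F.nonneg j2
        have q2 := F.nonneg K.i0
        rw [abs_le]
        constructor <;> linarith
      have h6 := C.win_d_le F h5
      linarith
  have hF2 : (K.i1 + n - j3).toNat ≤ C.R (Set.Icc 0 (3 * y)) := by
    apply C.win_F1 (by omega) (by omega)
    · intro hlt
      linarith
    · have h5 : |(C.p (K.i1 + n)).re - (C.p j3).re| ≤ 9 * y / 4 := by
        have q1 := F.nonneg j3
        have q2 := F.nonneg K.i1
        rw [C.p_per, abs_le]
        constructor <;> linarith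
      have h6 := C.win_d_le F h5
      linarith
  -- counting
  have hW := C.win_W_succ i K.i0 hy
  have hsub : ((Finset.range n).filter
      (fun u : ℕ => |(C.p (K.i0 + u)).re - (C.p i).re| ≤ y)).card ≤
      (Finset.Icc K.i0 j2 ∪ Finset.Ico j3 (K.i0 + n)).card := by
    apply Finset.card_le_card_of_injOn (fun u : ℕ => K.i0 + (u : ℤ))
    · intro u hu
      simp only [Finset.coe_filter, Finset.mem_range, Set.mem_ofPred_eq] at hu
      obtain ⟨hu1, hu2⟩ := hu
      have p2 : (C.p (K.i0 + u)).re ≤ 9 * y / 4 := by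
        have := (abs_le.mp hu2).2
        linarith
      simp only [Finset.coe_union, Set.mem_union, Finset.mem_coe, Finset.mem_Icc,
        Finset.mem_Ico]
      by_cases g1 : K.i0 + (u : ℤ) < K.i1
      · left; exact ⟨by omega, by omega⟩
      have n2 : ¬ (K.i2 ≤ K.i0 + (u : ℤ) ∧ K.i0 + (u : ℤ) ≤ K.i3) := by
        intro h
        have := K.right _ h.1 h.2
        linarith
      by_cases g : K.i0 + (u : ℤ) < K.i2
      · left; exact ⟨by omega, a4 _ (by omega) g.le p2⟩
      · right; exact ⟨d4 _ (by omega) (by omega) p2, by omega⟩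
    · intro u _ v _ huv
      have : K.i0 + (u : ℤ) = K.i0 + (v : ℤ) := huv
      omega
  have hcu := Finset.card_union_le (Finset.Icc K.i0 j2) (Finset.Ico j3 (K.i0 + n))
  rw [Int.card_Icc, Int.card_Ico] at hcu
  omega

end Pool.Agent.Helper85.CVX.CP
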